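import Pool.Agent.Lib.Pe70ed2.SieveFL

set_option autoImplicit false

namespace Pool.Agent.Lib.Pe70ed2

open Finset

lemma ap_count (y H r v : ℕ) (hr : 0 < r) :
    |(((Finset.Ioc y (y + H)).filter (fun x => x ≡ v [MOD r])).card : ℝ) - (H : ℝ) / r| ≤ 1 := by
  have h1 := Nat.Ioc_filter_modEq_card y (y + H) hr v
  have hr0 : (0 : ℝ) < r := by exact_mod_cast hr
  have hr0q : (0 : ℚ) < r := by exact_mod_cast hr
  set c := ((Finset.Ioc y (y + H)).filter (fun x => x ≡ v [MOD r])).card with hc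
  set A : ℚ := ((y : ℕ) - v : ℚ) / r with hA
  set B : ℚ := (((y + H : ℕ) : ℚ) - v) / r with hB
  have hBA : B = A + (H : ℚ) / r := by
    rw [hA, hB]; push_cast; field_simp; ring
  have hH0 : (0 : ℚ) ≤ (H : ℚ) / r := by positivity
  have f1 := Int.floor_le A
  have f2 := Int.lt_floor_add_one A
  have f3 := Int.floor_le B
  have f4 := Int.lt_floor_add_one B
  have h2 : |((c : ℤ) : ℚ) - (H : ℚ) / r| ≤ 1 := by
    rw [h1, Int.cast_max]
    rw [abs_le]
    push_cast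
    rcases le_total 0 ((⌊B⌋ : ℚ) - ⌊A⌋) with h | h
    · rw [max_eq_left h]
      constructor <;> linarith
    · rw [max_eq_right h]
      constructor <;> linarith
  have h3 : (|((c : ℤ) : ℚ) - (H : ℚ) / r| : ℚ) ≤ 1 := h2
  have h4 : ((|((c : ℤ) : ℚ) - (H : ℚ) / r| : ℚ) : ℝ) ≤ ((1 : ℚ) : ℝ) := by exact_mod_cast h3
  push_cast at h4
  exact h4

lemma ap_count_dvd (y H r v d : ℕ) (hr : 0 < r) (hd : 0 < d) (hcop : d.Coprime r) :
    |(((Finset.Ioc y (y + H)).filter (fun x => x ≡ v [MOD r] ∧ d ∣ x)).card : ℝ) - (H : ℝ) / (r * d)| ≤ 1 := by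
  obtain ⟨w, hw1, hw2⟩ := Nat.chineseRemainder hcop.symm v 0
  have h1 := ap_count y H (r * d) w (Nat.mul_pos hr hd)
  have h2 : (Finset.Ioc y (y + H)).filter (fun x => x ≡ v [MOD r] ∧ d ∣ x) =
      (Finset.Ioc y (y + H)).filter (fun x => x ≡ w [MOD (r * d)]) := by
    apply Finset.filter_congr
    intro x _
    rw [← Nat.modEq_and_modEq_iff_modEq_mul hcop.symm]
    constructor
    · rintro ⟨a, b⟩
      exact ⟨a.trans hw1.symm, ((Nat.modEq_zero_iff_dvd).2 b).trans hw2.symm⟩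
    · rintro ⟨a, b⟩
      exact ⟨a.trans hw1, (Nat.modEq_zero_iff_dvd).1 (b.trans hw2)⟩
  rw [h2]
  push_cast at h1
  exact h1

/-- Sum of sieve weights over a progression. -/
lemma sum_weights (y H q v D : ℕ) (hq : 0 < q) (lam : ℕ → ℝ) (B : ℝ) (hB : ∀ d, |lam d| ≤ B)
    (hlam : ∀ d, lam d ≠ 0 → 1 ≤ d ∧ d ≤ D ∧ d.Coprime q) :
    |∑ x ∈ (Finset.Ioc y (y + H)).filter (fun x => x ≡ v [MOD q]),
        ∑ d ∈ Finset.Icc 1 D, lam d * (if d ∣ x then 1 else 0) -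
      (H : ℝ) / q * ∑ d ∈ Finset.Icc 1 D, lam d / (d : ℝ)| ≤ D * B := by
  rw [Finset.sum_comm, Finset.mul_sum, ← Finset.sum_sub_distrib]
  refine (Finset.abs_sum_le_sum_abs _ _).trans ?_
  have hq0 : (0 : ℝ) < q := by exact_mod_cast hq
  have h1 : ∀ d ∈ Finset.Icc 1 D, |∑ x ∈ (Finset.Ioc y (y + H)).filter (fun x => x ≡ v [MOD q]),
      lam d * (if d ∣ x then 1 else 0) - (H : ℝ) / q * (lam d / (d : ℝ))| ≤ B := by
    intro d hd
    rw [Finset.mem_Icc] at hd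
    have hd0 : (0 : ℝ) < d := by exact_mod_cast hd.1
    by_cases h0 : lam d = 0
    · have hB0 : 0 ≤ B := (abs_nonneg _).trans (hB d)
      simp [h0, hB0]
    · have h2 := ap_count_dvd y H q v d hq hd.1 (hlam d h0).2.2
      have h3 : ∑ x ∈ (Finset.Ioc y (y + H)).filter (fun x => x ≡ v [MOD q]),
          lam d * (if d ∣ x then (1 : ℝ) else 0) =
          lam d * (((Finset.Ioc y (y + H)).filter (fun x => x ≡ v [MOD q] ∧ d ∣ x)).card : ℝ) := by
        rw [← Finset.mul_sum, ← Finset.sum_filter, Finset.filter_filter, Finset.sum_const, nsmul_eq_mul,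
          mul_one]
      rw [h3]
      have h4 : (H : ℝ) / q * (lam d / (d : ℝ)) = lam d * ((H : ℝ) / (q * d)) := by
        field_simp
      rw [h4, ← mul_sub, abs_mul]
      calc |lam d| * _ ≤ B * 1 := mul_le_mul (hB d) h2 (abs_nonneg _) ((abs_nonneg _).trans (hB d))
        _ = B := mul_one B
  refine (Finset.sum_le_card_nsmul _ _ _ h1).trans ?_
  rw [Nat.card_Icc, nsmul_eq_mul]
  simp

/-- Sieve in arithmetic progressions. -/
theorem sieve_ap : ∃ C0 : ℝ, 0 < C0 ∧ ∀ z : ℝ, 2 ≤ z → ∀ q : ℕ, 0 < q → ∀ β D : ℕ,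
    z ^ (4 * β + 6) ≤ D → ∃ (lam : ℕ → ℝ) (Lam Xi : ℝ),
      (∀ d, lam d ≠ 0 → 1 ≤ d ∧ d ≤ D ∧ d.Coprime q) ∧ (∀ d, |lam d| ≤ 1) ∧
      0 ≤ Lam ∧ Lam ≤ C0 * ((q : ℝ) / (q.totient : ℝ) / Real.log z) ∧
      Xi ≤ C0 / 4 ^ β * ((q : ℝ) / (q.totient : ℝ) / Real.log z) ∧
      ∀ y H v : ℕ, ∀ S : Finset ℕ, S = (Finset.Ioc y (y + H)).filter (fun x => x ≡ v [MOD q]) →
      ∀ R : Finset ℕ, (∀ x, x ∈ R ↔ x ∈ S ∧ rough z q x) →
      |(R.card : ℝ) - (H : ℝ) / q * Lam| ≤ (H : ℝ) / q * Xi + D * (Real.log z + 3) ∧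
      ∀ F : ℕ → ℂ, (∀ n, ‖F n‖ ≤ 1) → ‖∑ x ∈ R, F x‖ ≤
        ‖∑ d ∈ Finset.Icc 1 D, (lam d : ℂ) * ∑ x ∈ S.filter (fun x => d ∣ x), F x‖ +
          ((H : ℝ) / q * Xi + D * (Real.log z + 2)) := by
  classical
  obtain ⟨C0, hC0, hfl⟩ := fund_lemma
  refine ⟨C0, hC0, ?_⟩
  intro z hz q hq β D hD
  obtain ⟨lam, xi, l1, l2, x1, x2, hr, hnr, p0, p1, p2⟩ := hfl z hz q hq β D hD
  have hlogz : 0 ≤ Real.log z := Real.log_nonneg (by linarith)
  refine ⟨lam, ∑ d ∈ Finset.Icc 1 D, lam d / (d : ℝ), ∑ d ∈ Finset.Icc 1 D, xi d / (d : ℝ), l1, l2, p0, p1,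
    p2, ?_⟩
  intro y H v S hS R hR
  set L : ℕ → ℝ := fun x => ∑ d ∈ Finset.Icc 1 D, lam d * (if d ∣ x then 1 else 0) with hL
  set X : ℕ → ℝ := fun x => ∑ d ∈ Finset.Icc 1 D, xi d * (if d ∣ x then 1 else 0) with hX
  set ind : ℕ → ℝ := fun x => if rough z q x then 1 else 0 with hind
  have hkey : ∀ x, |ind x - L x| ≤ X x := by
    intro x
    by_cases h : rough z q x
    · obtain ⟨a, b⟩ := hr x h
      simp only [hind, if_pos h]
      rw [abs_le]
      constructor <;> linarith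
    · obtain ⟨a, b⟩ := hnr x h
      simp only [hind, if_neg h]
      rw [abs_le]
      constructor <;> linarith
  have hRS : R = S.filter (fun x => rough z q x) := by
    ext x; rw [hR, Finset.mem_filter]
  have hcard : (R.card : ℝ) = ∑ x ∈ S, ind x := by
    rw [hRS]
    simp only [hind]
    rw [← Finset.sum_filter, Finset.sum_const, nsmul_eq_mul, mul_one]
  have hXsum : ∑ x ∈ S, X x ≤ (H : ℝ) / q * ∑ d ∈ Finset.Icc 1 D, xi d / (d : ℝ) + D * (Real.log z + 2) := by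
    have := (abs_le.1 (sum_weights y H q v D hq xi (Real.log z + 2) x2 x1)).2
    rw [← hS] at this
    linarith
  have hLsum := sum_weights y H q v D hq lam 1 l2 l1
  rw [← hS] at hLsum
  refine ⟨?_, ?_⟩
  · have h1 : |∑ x ∈ S, ind x - ∑ x ∈ S, L x| ≤ ∑ x ∈ S, X x := by
      rw [← Finset.sum_sub_distrib]
      exact (Finset.abs_sum_le_sum_abs _ _).trans (Finset.sum_le_sum fun x _ => hkey x)
    have h2 : (R.card : ℝ) - (H : ℝ) / q * ∑ d ∈ Finset.Icc 1 D, lam d / (d : ℝ) =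
        (∑ x ∈ S, ind x - ∑ x ∈ S, L x) +
        (∑ x ∈ S, L x - (H : ℝ) / q * ∑ d ∈ Finset.Icc 1 D, lam d / (d : ℝ)) := by
      rw [hcard]; ring
    rw [h2]
    refine (abs_add_le _ _).trans ?_
    calc _ ≤ ((H : ℝ) / q * ∑ d ∈ Finset.Icc 1 D, xi d / (d : ℝ) + D * (Real.log z + 2)) + D * 1 :=
          add_le_add (h1.trans hXsum) hLsum
      _ = _ := by ring
  · intro F hF
    have h1 : ∑ x ∈ R, F x = ∑ x ∈ S, (ind x : ℂ) * F x := by
      rw [hRS, Finset.sum_filter]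
      apply Finset.sum_congr rfl
      intro x _
      simp only [hind]
      split_ifs <;> simp
    have h2 : ∑ d ∈ Finset.Icc 1 D, (lam d : ℂ) * ∑ x ∈ S.filter (fun x => d ∣ x), F x =
        ∑ x ∈ S, (L x : ℂ) * F x := by
      simp only [hL]
      push_cast
      simp_rw [Finset.sum_mul, Finset.mul_sum]
      rw [Finset.sum_comm]
      rw [Finset.sum_comm]
      rw [Finset.sum_comm]
      apply Finset.sum_congr rfl
      intro d _
      rw [Finset.sum_filter]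
      apply Finset.sum_congr rfl
      intro x _
      split_ifs <;> simp
    have h3 : ∑ x ∈ R, F x = ∑ x ∈ S, (L x : ℂ) * F x + ∑ x ∈ S, ((ind x - L x : ℝ) : ℂ) * F x := by
      rw [h1, ← Finset.sum_add_distrib]
      apply Finset.sum_congr rfl
      intro x _
      push_cast; ring
    rw [h3, h2]
    refine (norm_add_le _ _).trans ?_
    apply add_le_add_right
    refine (norm_sum_le _ _).trans (le_trans (Finset.sum_le_sum fun x _ => ?_) hXsum)
    rw [norm_mul, Complex.norm_real, Real.norm_eq_abs]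
    calc |ind x - L x| * ‖F x‖ ≤ |ind x - L x| * 1 := mul_le_mul_of_nonneg_left (hF x) (abs_nonneg _)
      _ ≤ X x := by rw [mul_one]; exact hkey x

end Pool.Agent.Lib.Pe70ed2
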