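import Pool.Agent.Lib.Pe70ed2.Winv

set_option autoImplicit false

namespace Pool.Agent.Lib.Pe70ed2

open Finset ComplexConjugate

lemma exists_big_fiber {α : Type*} [DecidableEq α] (G : Finset (α × α)) (I : Finset α)
    (hG : ∀ x ∈ G, x.2 ∈ I) (hI : I.Nonempty) :
    ∃ b ∈ I, (G.card : ℝ) / I.card ≤ ((G.filter (fun x => x.2 = b)).card : ℝ) := by
  by_contra hcon
  push Not at hcon
  have h1 := Finset.card_eq_sum_card_fiberwise (f := fun x : α × α => x.2) (s := G) (t := I) hG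
  have h2 : (G.card : ℝ) = ∑ b ∈ I, ((G.filter (fun x => x.2 = b)).card : ℝ) := by
    exact_mod_cast h1
  have h3 : ∑ b ∈ I, ((G.filter (fun x => x.2 = b)).card : ℝ) < ∑ b ∈ I, (G.card : ℝ) / I.card :=
    Finset.sum_lt_sum_of_nonempty hI hcon
  rw [← h2, Finset.sum_const, nsmul_eq_mul] at h3
  have h4 : (0 : ℝ) < I.card := by exact_mod_cast hI.card_pos
  have h5 : (I.card : ℝ) * ((G.card : ℝ) / I.card) = G.card := by field_simp
  linarith

lemma bilin_cs (I J : Finset ℤ) (a b : ℤ → ℂ) (ha : ∀ n, ‖a n‖ ≤ 1) (hb : ∀ n, ‖b n‖ ≤ 1)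
    (f : ℤ → ℝ) :
    ‖∑ p ∈ I, ∑ m ∈ J, a p * b m * e (f (p * m))‖ ^ 2 ≤
      J.card * ∑ x ∈ I ×ˢ I, ‖∑ m ∈ J, e (f (x.1 * m) - f (x.2 * m))‖ := by
  set x : ℤ → ℂ := fun m => ∑ p ∈ I, a p * e (f (p * m)) with hx
  have h1 : ‖∑ p ∈ I, ∑ m ∈ J, a p * b m * e (f (p * m))‖ ≤ ∑ m ∈ J, ‖x m‖ := by
    rw [Finset.sum_comm]
    refine (norm_sum_le _ _).trans (Finset.sum_le_sum fun m _ => ?_)
    have h2 : ∑ p ∈ I, a p * b m * e (f (p * m)) = b m * x m := by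
      rw [hx, Finset.mul_sum]
      apply Finset.sum_congr rfl
      intro p _; ring
    rw [h2, norm_mul]
    exact mul_le_of_le_one_left (norm_nonneg _) (hb m)
  have h2 : (∑ m ∈ J, ‖x m‖) ^ 2 ≤ J.card * ∑ m ∈ J, ‖x m‖ ^ 2 := sq_sum_le_card_mul_sum_sq
  have h3 : ((∑ m ∈ J, ‖x m‖ ^ 2 : ℝ) : ℂ) =
      ∑ y ∈ I ×ˢ I, a y.1 * conj (a y.2) * ∑ m ∈ J, e (f (y.1 * m) - f (y.2 * m)) := by
    push_cast
    simp_rw [Finset.mul_sum]
    rw [Finset.sum_comm]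
    apply Finset.sum_congr rfl
    intro m _
    have : ((‖x m‖ : ℝ) : ℂ) ^ 2 = x m * conj (x m) := by
      rw [Complex.mul_conj, Complex.normSq_eq_norm_sq]; push_cast; ring
    rw [this, hx]
    simp only [map_sum]
    rw [Finset.sum_mul_sum, Finset.sum_product]
    apply Finset.sum_congr rfl
    intro p _
    apply Finset.sum_congr rfl
    intro p' _
    rw [map_mul, e_sub]
    ring
  have h4 : ∑ m ∈ J, ‖x m‖ ^ 2 ≤ ∑ y ∈ I ×ˢ I, ‖∑ m ∈ J, e (f (y.1 * m) - f (y.2 * m))‖ := by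
    have h5 : ∑ m ∈ J, ‖x m‖ ^ 2 = ‖((∑ m ∈ J, ‖x m‖ ^ 2 : ℝ) : ℂ)‖ := by
      rw [Complex.norm_real, Real.norm_of_nonneg (Finset.sum_nonneg fun _ _ => by positivity)]
    rw [h5, h3]
    refine (norm_sum_le _ _).trans (Finset.sum_le_sum fun y _ => ?_)
    rw [norm_mul, norm_mul, RCLike.norm_conj]
    apply mul_le_of_le_one_left (norm_nonneg _)
    exact mul_le_one₀ (ha _) (norm_nonneg _) (ha _)
  calc _ ≤ (∑ m ∈ J, ‖x m‖) ^ 2 := pow_le_pow_left₀ (norm_nonneg _) h1 2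
    _ ≤ J.card * ∑ m ∈ J, ‖x m‖ ^ 2 := h2
    _ ≤ _ := mul_le_mul_of_nonneg_left h4 (Nat.cast_nonneg _)

/-- **Bilinear inverse theorem.** -/
theorem bilin_inv (k : ℕ) : ∃ C : ℕ, ∀ K : ℝ, 2 ≤ K → ∀ (P M : ℕ) (A B : ℤ) (φ : Polynomial ℝ)
    (a b : ℤ → ℂ), φ.natDegree ≤ k + 1 → K ^ C ≤ P → K ^ C ≤ M → (∀ n, ‖a n‖ ≤ 1) →
    (∀ n, ‖b n‖ ≤ 1) →
    (P : ℝ) * M / K ≤ ‖∑ p ∈ Finset.Ico A (A + P), ∑ m ∈ Finset.Ico B (B + M),
      a p * b m * e (φ.eval ((p * m : ℤ) : ℝ))‖ →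
    ∃ r : ℕ, 1 ≤ r ∧ (r : ℝ) ≤ K ^ C ∧
      Near (r * φ.coeff (k + 1)) (K ^ C / ((P : ℝ) * M) ^ (k + 1)) := by
  obtain ⟨C1, hW⟩ := weyl_inv k
  obtain ⟨C2, hR⟩ := poly_rec (k + 1)
  refine ⟨3 * ((C1 + 1) * C2 + C1 + 1), ?_⟩
  intro K hK P M A B φ a b hφ hP hM ha hb h
  set α := φ.coeff (k + 1) with hα
  have hK0 : 0 < K := by linarith
  set K1 : ℝ := 2 * K ^ 2 with hK1def
  have hK1ge : 2 ≤ K1 := by rw [hK1def]; nlinarith
  have hK1one : 1 ≤ K1 := by linarith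
  have hK1K : K1 ≤ K ^ 3 := by
    rw [hK1def]
    calc 2 * K ^ 2 ≤ K * K ^ 2 := mul_le_mul_of_nonneg_right hK (by positivity)
      _ = K ^ 3 := by ring
  have hbig : ∀ j, j ≤ (C1 + 1) * C2 + C1 + 1 → K1 ^ j ≤ K ^ (3 * ((C1 + 1) * C2 + C1 + 1)) := by
    intro j hj
    calc K1 ^ j ≤ K1 ^ ((C1 + 1) * C2 + C1 + 1) := pow_le_pow_right₀ hK1one hj
      _ ≤ (K ^ 3) ^ ((C1 + 1) * C2 + C1 + 1) := pow_le_pow_left₀ (by linarith) hK1K _
      _ = _ := by rw [← pow_mul]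
  set I := Finset.Ico A (A + P) with hI
  set J := Finset.Ico B (B + M) with hJ
  have hIc : (I.card : ℝ) = P := by rw [hI, Int.card_Ico]; simp
  have hJc : (J.card : ℝ) = M := by rw [hJ, Int.card_Ico]; simp
  have hP1 : (1 : ℝ) ≤ P := by
    have := hbig 0 (by omega)
    rw [pow_zero] at this
    linarith
  have hM1 : (1 : ℝ) ≤ M := by
    have := hbig 0 (by omega)
    rw [pow_zero] at this
    linarith
  have hP0 : (0 : ℝ) < P := by linarith
  have hM0 : (0 : ℝ) < M := by linarith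
  have hcs := bilin_cs I J a b ha hb (fun n : ℤ => φ.eval (n : ℝ))
  set g : ℤ × ℤ → ℝ := fun x => ‖∑ m ∈ J, e (φ.eval ((x.1 * m : ℤ) : ℝ) - φ.eval ((x.2 * m : ℤ) : ℝ))‖ with hg
  have hcs2 : ((P : ℝ) * M / K) ^ 2 ≤ M * ∑ x ∈ I ×ˢ I, g x := by
    rw [hJc] at hcs
    exact (pow_le_pow_left₀ (by positivity) h 2).trans hcs
  have hgM : ∀ x, g x ≤ M := by
    intro x
    refine (norm_sum_le _ _).trans ?_
    simp only [norm_e, Finset.sum_const, nsmul_eq_mul, mul_one]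
    rw [hJc]
  set G := (I ×ˢ I).filter (fun x => (M : ℝ) / K1 ≤ g x) with hG
  have hpop := sum_le_popular (I ×ˢ I) g M (M / K1) (by positivity) (fun x _ => hgM x)
  rw [← hG, Finset.card_product] at hpop
  have hGcard : (P : ℝ) ^ 2 / K1 ≤ G.card := by
    have h1 : ((I.card * I.card : ℕ) : ℝ) = P ^ 2 := by push_cast; rw [hIc]; ring
    rw [h1] at hpop
    have h2 : ((P : ℝ) * M / K) ^ 2 ≤ M * (M / K1 * P ^ 2 + M * G.card) :=
      hcs2.trans (mul_le_mul_of_nonneg_left hpop hM0.le)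
    have h3 : ((P : ℝ) * M / K) ^ 2 - M * (M / K1 * P ^ 2) = M ^ 2 * (P ^ 2 / K1) := by
      rw [hK1def]; field_simp; ring
    have h4 : (M : ℝ) ^ 2 * (P ^ 2 / K1) ≤ M ^ 2 * G.card := by nlinarith
    exact le_of_mul_le_mul_left h4 (by positivity)
  -- Weyl for each popular pair
  have hstep : ∀ x ∈ G, ∃ r : ℕ, 1 ≤ r ∧ (r : ℝ) ≤ K1 ^ C1 ∧
      Near (r * (α * ((x.1 : ℝ) ^ (k + 1) - (x.2 : ℝ) ^ (k + 1)))) (K1 ^ C1 / M ^ (k + 1)) := by
    intro x hx
    set ψ : Polynomial ℝ := φ.comp (Polynomial.C (x.1 : ℝ) * Polynomial.X) -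
      φ.comp (Polynomial.C (x.2 : ℝ) * Polynomial.X) with hψ
    have hdeg : ∀ c : ℝ, (φ.comp (Polynomial.C c * Polynomial.X)).natDegree ≤ k + 1 := by
      intro c
      refine (Polynomial.natDegree_comp_le).trans ?_
      calc φ.natDegree * (Polynomial.C c * Polynomial.X).natDegree ≤ (k + 1) * 1 :=
            Nat.mul_le_mul hφ ((Polynomial.natDegree_C_mul_le c _).trans Polynomial.natDegree_X_le)
        _ = k + 1 := by ring
    have hcoeff : ψ.coeff (k + 1) = α * ((x.1 : ℝ) ^ (k + 1) - (x.2 : ℝ) ^ (k + 1)) := by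
      rw [hψ, Polynomial.coeff_sub, Polynomial.comp_C_mul_X_coeff, Polynomial.comp_C_mul_X_coeff]
      ring
    have h1 := hW K1 hK1ge M B ψ (by
      refine (Polynomial.natDegree_sub_le _ _).trans ?_
      exact max_le (hdeg _) (hdeg _)) ((hbig C1 (by omega)).trans hM) (by
      refine (Finset.mem_filter.1 hx).2.trans_eq ?_
      rw [hg]
      simp only
      congr 1
      apply Finset.sum_congr rfl
      intro m _
      rw [hψ]
      simp)
    rw [hcoeff] at h1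
    exact h1
  choose! r hr1 hr2 hr3 using hstep
  have hC11 : (1 : ℝ) ≤ K1 ^ C1 := one_le_pow₀ hK1one
  obtain ⟨r0, hr01, hr02, hr0card⟩ := pigeon G r (K1 ^ C1) hC11 (fun x hx => ⟨hr1 x hx, hr2 x hx⟩)
  set G1 := G.filter (fun x => r x = r0) with hG1
  have hIne : I.Nonempty := by
    rw [← Finset.card_pos]
    have : (0 : ℝ) < I.card := by rw [hIc]; exact hP0
    exact_mod_cast this
  obtain ⟨p', hp', hp'card⟩ := exists_big_fiber G1 I (by
    intro x hx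
    have h1 := (Finset.mem_filter.1 hx).1
    have h2 := (Finset.mem_filter.1 h1).1
    exact (Finset.mem_product.1 h2).2) hIne
  set S : Finset ℤ := (G1.filter (fun x => x.2 = p')).image (fun x => x.1) with hS
  have hScard : S.card = (G1.filter (fun x => x.2 = p')).card := by
    apply Finset.card_image_of_injOn
    intro x hx y hy hxy
    simp only [Finset.coe_filter, Set.mem_ofPred_eq] at hx hy
    simp only at hxy
    ext
    · exact hxy
    · rw [hx.2, hy.2]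
  set K2 : ℝ := K1 ^ (C1 + 1) with hK2
  have hK2ge : 2 ≤ K2 := by
    rw [hK2, pow_succ]
    nlinarith
  have hK2one : 1 ≤ K2 := by linarith
  set ε : ℝ := K1 ^ C1 / M ^ (k + 1) with hε
  set ψ : Polynomial ℝ := Polynomial.C (r0 * α) * Polynomial.X ^ (k + 1) -
    Polynomial.C (r0 * α * (p' : ℝ) ^ (k + 1)) with hψ
  have hψdeg : ψ.natDegree ≤ k + 1 := by
    rw [hψ]
    refine (Polynomial.natDegree_sub_le _ _).trans ?_
    apply max_le
    · exact Polynomial.natDegree_C_mul_X_pow_le _ _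
    · rw [Polynomial.natDegree_C]; omega
  have hψcoeff : ψ.coeff (k + 1) = r0 * α := by
    rw [hψ, Polynomial.coeff_sub, Polynomial.coeff_C_mul_X_pow, Polynomial.coeff_C]
    simp
  have hK2pow : K2 ^ C2 * K1 ^ C1 ≤ K ^ (3 * ((C1 + 1) * C2 + C1 + 1)) := by
    rw [hK2, ← pow_mul, ← pow_add]
    exact hbig _ (by omega)
  have hMpow : (M : ℝ) ≤ M ^ (k + 1) := by
    calc (M : ℝ) = M ^ 1 := (pow_one _).symm
      _ ≤ M ^ (k + 1) := pow_le_pow_right₀ hM1 (by omega)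
  obtain ⟨r', hr'1, hr'2, hr'3⟩ := hR K2 hK2ge ε P A ψ hψdeg S (by
    intro p hp
    rw [hS, Finset.mem_image] at hp
    obtain ⟨x, hx, rfl⟩ := hp
    have h1 := (Finset.mem_filter.1 (Finset.mem_filter.1 hx).1).1
    have h2 := (Finset.mem_filter.1 h1).1
    exact (Finset.mem_product.1 h2).1) (by
    rw [hScard]
    refine le_trans ?_ hp'card
    rw [hIc, le_div_iff₀ hP0]
    refine le_trans ?_ hr0card
    rw [le_div_iff₀ (by positivity)]
    refine le_trans (le_of_eq ?_) hGcard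
    rw [hK2, pow_succ]
    field_simp) (by
    intro p hp
    rw [hS, Finset.mem_image] at hp
    obtain ⟨x, hx, rfl⟩ := hp
    rw [Finset.mem_filter, hG1, Finset.mem_filter] at hx
    have h1 := hr3 x hx.1.1
    rw [hx.1.2, hx.2] at h1
    rw [hψ]
    simp only [Polynomial.eval_sub, Polynomial.eval_mul, Polynomial.eval_C, Polynomial.eval_pow,
      Polynomial.eval_X]
    have h2 : (r0 : ℝ) * α * (x.1 : ℝ) ^ (k + 1) - r0 * α * (p' : ℝ) ^ (k + 1) =
      r0 * (α * ((x.1 : ℝ) ^ (k + 1) - (p' : ℝ) ^ (k + 1))) := by ring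
    rw [h2]; exact h1) (by
    refine le_trans ?_ hP
    refine le_trans ?_ hK2pow
    exact le_mul_of_one_le_right (by positivity) hC11) (by
    rw [hε, div_le_div_iff₀ (by positivity) (by positivity), one_mul, mul_comm]
    exact hK2pow.trans (hM.trans hMpow))
  refine ⟨r' * r0, ?_, ?_, ?_⟩
  · have : 0 < r' * r0 := by positivity
    omega
  · push_cast
    refine le_trans ?_ hK2pow
    exact mul_le_mul hr'2 hr02 (by positivity) (by positivity)
  · rw [hψcoeff] at hr'3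
    have h1 : ((r' * r0 : ℕ) : ℝ) * α = r' * (r0 * α) := by push_cast; ring
    rw [h1]
    refine hr'3.mono ?_
    have h2 : K2 ^ C2 * ε / (P : ℝ) ^ (k + 1) = (K2 ^ C2 * K1 ^ C1) / ((P : ℝ) * M) ^ (k + 1) := by
      rw [hε, mul_pow]; field_simp; rw [mul_comm, ← mul_pow]
    rw [h2]
    exact div_le_div_of_nonneg_right hK2pow (by positivity)

end Pool.Agent.Lib.Pe70ed2
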