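import Mathlib

set_option autoImplicit false

namespace Pool.Agent.Lib.Pe70ed2

open Finset

lemma sum_cells {M : Type*} [AddCommMonoid M] (f : ℕ → M) (Δ a b : ℕ) (hab : a ≤ b) :
    ∑ c ∈ Finset.Ico a b, ∑ d ∈ Finset.Ico (c * Δ) ((c + 1) * Δ), f d =
      ∑ d ∈ Finset.Ico (a * Δ) (b * Δ), f d := by
  induction b, hab using Nat.le_induction with
  | base => simp
  | succ b hab ih =>
    rw [Finset.sum_Ico_succ_top hab, ih]
    exact Finset.sum_Ico_consecutive f (Nat.mul_le_mul_right _ hab)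
      (Nat.mul_le_mul_right _ (Nat.le_succ b))

lemma sum_dyadic {M : Type*} [AddCommMonoid M] (f : ℕ → M) (a b : ℕ) (hab : a ≤ b) :
    ∑ j ∈ Finset.Ico a b, ∑ d ∈ Finset.Ico (2 ^ j : ℕ) (2 ^ (j + 1)), f d =
      ∑ d ∈ Finset.Ico (2 ^ a) (2 ^ b), f d := by
  induction b, hab using Nat.le_induction with
  | base => simp
  | succ b hab ih =>
    rw [Finset.sum_Ico_succ_top hab, ih]
    exact Finset.sum_Ico_consecutive f (Nat.pow_le_pow_right (by norm_num) hab)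
      (Nat.pow_le_pow_right (by norm_num) (Nat.le_succ b))

lemma sum_fine {M : Type*} [AddCommMonoid M] (f : ℕ → M) (l j0 j1 : ℕ) (hl : l ≤ j0) (hj : j0 ≤ j1) :
    ∑ d ∈ Finset.Ico (2 ^ j0 : ℕ) (2 ^ j1), f d = ∑ j ∈ Finset.Ico j0 j1, ∑ c ∈ Finset.Ico (2 ^ l : ℕ) (2 ^ (l + 1)),
      ∑ d ∈ Finset.Ico (c * 2 ^ (j - l) : ℕ) ((c + 1) * 2 ^ (j - l)), f d := by
  rw [← sum_dyadic f j0 j1 hj]
  apply Finset.sum_congr rfl
  intro j hjm
  rw [Finset.mem_Ico] at hjm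
  rw [sum_cells f (2 ^ (j - l)) (2 ^ l) (2 ^ (l + 1)) (Nat.pow_le_pow_right (by norm_num) (Nat.le_succ l))]
  rw [← pow_add, ← pow_add]
  congr 2
  · congr 1; omega
  · congr 1; omega

lemma sum_inv_dyadic (j0 j1 : ℕ) (hj : j0 ≤ j1) :
    ∑ d ∈ Finset.Ico (2 ^ j0 : ℕ) (2 ^ j1), (1 : ℝ) / d ≤ j1 := by
  rw [← sum_dyadic (fun d => (1 : ℝ) / d) j0 j1 hj]
  have h1 : ∀ j ∈ Finset.Ico j0 j1, ∑ d ∈ Finset.Ico (2 ^ j : ℕ) (2 ^ (j + 1)), (1 : ℝ) / d ≤ 1 := by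
    intro j _
    have h2 : ∀ d ∈ Finset.Ico (2 ^ j : ℕ) (2 ^ (j + 1)), (1 : ℝ) / d ≤ 1 / 2 ^ j := by
      intro d hd
      rw [Finset.mem_Ico] at hd
      apply one_div_le_one_div_of_le (by positivity)
      exact_mod_cast hd.1
    refine (Finset.sum_le_card_nsmul _ _ _ h2).trans (le_of_eq ?_)
    rw [Nat.card_Ico, nsmul_eq_mul]
    have : 2 ^ (j + 1) - 2 ^ j = 2 ^ j := by rw [pow_succ]; omega
    rw [this]
    push_cast
    field_simp
  refine (Finset.sum_le_card_nsmul _ _ _ h1).trans ?_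
  rw [Nat.card_Ico, nsmul_eq_mul, mul_one]
  exact_mod_cast Nat.sub_le _ _

lemma nat_div_real (a b : ℕ) (hb : 0 < b) :
    ((a / b : ℕ) : ℝ) ≤ (a : ℝ) / b ∧ (a : ℝ) / b < ((a / b : ℕ) : ℝ) + 1 := by
  have hb0 : (0 : ℝ) < b := by exact_mod_cast hb
  constructor
  · exact Nat.cast_div_le
  · rw [div_lt_iff₀ hb0]
    have := Nat.lt_div_mul_add hb (a := a)
    have h2 : a < (a / b + 1) * b := by linarith
    exact_mod_cast h2

lemma diff_inner (X y H P Q d l : ℕ) (hX : y + H ≤ X) (hP : 0 < P) (hPd : P ≤ d) (hdQ : d < Q)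
    (hQ : (Q - P) * 2 ^ l ≤ P) (G : ℕ → ℂ) (hG : ∀ m, ‖G m‖ ≤ 1) :
    ‖∑ m ∈ Finset.Ioc (y / d) ((y + H) / d), G m - ∑ m ∈ Finset.Ioc (y / P) ((y + H) / Q), G m‖ ≤
      2 * X / (d * 2 ^ l) + 2 := by
  classical
  have hd : 0 < d := by omega
  have hQ0 : 0 < Q := by omega
  have hP0 : (0 : ℝ) < P := by exact_mod_cast hP
  have hd0 : (0 : ℝ) < d := by exact_mod_cast hd
  have hQ0' : (0 : ℝ) < Q := by exact_mod_cast hQ0
  set I := Finset.Ioc (y / d) ((y + H) / d)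
  set J := Finset.Ioc (y / P) ((y + H) / Q)
  have hJI : J ⊆ I := by
    apply Finset.Ioc_subset_Ioc
    · exact Nat.div_le_div_left hPd hP
    · exact Nat.div_le_div_left hdQ.le hd
  have h1 : ∑ m ∈ I, G m - ∑ m ∈ J, G m = ∑ m ∈ I \ J, G m := by
    rw [← Finset.sum_sdiff hJI]; ring
  rw [h1]
  have hcard : ((I \ J).card : ℝ) ≤ 2 * X / (d * 2 ^ l) + 2 := by
    have hsub : I \ J ⊆ Finset.Ioc (y / d) (y / P) ∪ Finset.Ioc ((y + H) / Q) ((y + H) / d) := by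
      intro m hm
      simp only [I, J, Finset.mem_sdiff, Finset.mem_Ioc, Finset.mem_union] at hm ⊢
      omega
    have h2 := (Finset.card_le_card hsub).trans (Finset.card_union_le _ _)
    rw [Nat.card_Ioc, Nat.card_Ioc] at h2
    have hle1 : y / d ≤ y / P := Nat.div_le_div_left hPd hP
    have hle2 : (y + H) / Q ≤ (y + H) / d := Nat.div_le_div_left hdQ.le hd
    have h3 : ((I \ J).card : ℝ) ≤ (((y / P : ℕ) : ℝ) - ((y / d : ℕ) : ℝ)) +
        ((((y + H) / d : ℕ) : ℝ) - (((y + H) / Q : ℕ) : ℝ)) := by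
      rw [← Nat.cast_sub hle1, ← Nat.cast_sub hle2]
      exact_mod_cast h2
    have a1 := (nat_div_real y P hP).1
    have a2 := (nat_div_real y d hd).2
    have a3 := (nat_div_real (y + H) d hd).1
    have a4 := (nat_div_real (y + H) Q hQ0).2
    have hQP : ((Q : ℝ) - P) * 2 ^ l ≤ P := by
      have : ((Q - P : ℕ) : ℝ) * 2 ^ l ≤ P := by exact_mod_cast hQ
      rwa [Nat.cast_sub (by omega)] at this
    have hdP : (P : ℝ) ≤ d := by exact_mod_cast hPd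
    have hdQ' : (d : ℝ) ≤ Q := by exact_mod_cast hdQ.le
    have hy0 : (0 : ℝ) ≤ y := Nat.cast_nonneg y
    have hyH0 : (0 : ℝ) ≤ ((y + H : ℕ) : ℝ) := Nat.cast_nonneg _
    have hyX : (y : ℝ) ≤ X := by
      have : y ≤ X := by omega
      exact_mod_cast this
    have hyHX : ((y + H : ℕ) : ℝ) ≤ X := by exact_mod_cast hX
    have h2l : (0 : ℝ) < 2 ^ l := by positivity
    have b1 : (y : ℝ) / P - y / d ≤ X / (d * 2 ^ l) := by
      rw [div_sub_div _ _ hP0.ne' hd0.ne', div_le_div_iff₀ (by positivity) (by positivity)]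
      have e1 : (y : ℝ) * (d - P) * 2 ^ l ≤ y * P := by
        have : ((d : ℝ) - P) * 2 ^ l ≤ P := by nlinarith
        nlinarith
      have e2 : (y : ℝ) * P * d ≤ X * (P * d) := by
        have : (0 : ℝ) ≤ P * d := by positivity
        nlinarith
      have e3 : ((y : ℝ) * d - P * y) * (d * 2 ^ l) = (y * (d - P) * 2 ^ l) * d := by ring
      rw [e3]
      nlinarith
    have b2 : ((y + H : ℕ) : ℝ) / d - ((y + H : ℕ) : ℝ) / Q ≤ X / (d * 2 ^ l) := by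
      set w : ℝ := ((y + H : ℕ) : ℝ) with hw
      rw [div_sub_div _ _ hd0.ne' hQ0'.ne', div_le_div_iff₀ (by positivity) (by positivity)]
      have e1 : w * (Q - d) * 2 ^ l ≤ w * Q := by
        have : ((Q : ℝ) - d) * 2 ^ l ≤ Q := by nlinarith
        nlinarith
      have e2 : w * Q * d ≤ X * (Q * d) := by
        have : (0 : ℝ) ≤ Q * d := by positivity
        nlinarith
      have e3 : (w * Q - d * w) * (d * 2 ^ l) = (w * (Q - d) * 2 ^ l) * d := by ring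
      rw [e3]
      nlinarith
    have e4 : 2 * (X : ℝ) / (d * 2 ^ l) = X / (d * 2 ^ l) + X / (d * 2 ^ l) := by ring
    rw [e4]
    linarith
  calc ‖∑ m ∈ I \ J, G m‖ ≤ ∑ m ∈ I \ J, ‖G m‖ := norm_sum_le _ _
    _ ≤ ∑ m ∈ I \ J, (1 : ℝ) := Finset.sum_le_sum fun m _ => hG m
    _ = ((I \ J).card : ℝ) := by simp
    _ ≤ _ := hcard

/-- Decoupling of the variables. -/
theorem cells_bound (X y H l j0 j1 : ℕ) (hX : y + H ≤ X) (hl : l ≤ j0) (hj : j0 ≤ j1)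
    (a b F : ℕ → ℂ) (ha : ∀ n, ‖a n‖ ≤ 1) (hb : ∀ n, ‖b n‖ ≤ 1) (hF : ∀ n, ‖F n‖ ≤ 1)
    (ρ : ℝ) (hρ : 0 ≤ ρ)
    (hcell : ∀ j ∈ Finset.Ico j0 j1, ∀ c ∈ Finset.Ico (2 ^ l : ℕ) (2 ^ (l + 1)),
      ‖∑ d ∈ Finset.Ico (c * 2 ^ (j - l) : ℕ) ((c + 1) * 2 ^ (j - l)),
        ∑ m ∈ Finset.Ioc (y / (c * 2 ^ (j - l))) ((y + H) / ((c + 1) * 2 ^ (j - l))),
          a d * b m * F (d * m)‖ ≤
        ρ * (2 ^ (j - l) * (((y + H) / ((c + 1) * 2 ^ (j - l)) - y / (c * 2 ^ (j - l)) : ℕ) : ℝ))) :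
    ‖∑ d ∈ Finset.Ico (2 ^ j0 : ℕ) (2 ^ j1), ∑ m ∈ Finset.Ioc (y / d) ((y + H) / d), a d * b m * F (d * m)‖ ≤
      ρ * (H * j1 + 2 ^ j1) + (2 * X * j1 / 2 ^ l + 2 * 2 ^ j1) := by
  set f : ℕ → ℂ := fun d => ∑ m ∈ Finset.Ioc (y / d) ((y + H) / d), a d * b m * F (d * m) with hf
  have h1 : ∀ j ∈ Finset.Ico j0 j1, ∀ c ∈ Finset.Ico (2 ^ l : ℕ) (2 ^ (l + 1)),
      ‖∑ d ∈ Finset.Ico (c * 2 ^ (j - l) : ℕ) ((c + 1) * 2 ^ (j - l)), f d‖ ≤
      ∑ d ∈ Finset.Ico (c * 2 ^ (j - l) : ℕ) ((c + 1) * 2 ^ (j - l)),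
        (ρ * ((H : ℝ) / d + 1) + (2 * X / (d * 2 ^ l) + 2)) := by
    intro j hjm c hc
    rw [Finset.mem_Ico] at hjm hc
    set Δ := 2 ^ (j - l) with hΔ
    have hΔ0 : 0 < Δ := by positivity
    have hc0 : 0 < c := lt_of_lt_of_le (by positivity) hc.1
    have hP : 0 < c * Δ := Nat.mul_pos hc0 hΔ0
    set J := Finset.Ioc (y / (c * Δ)) ((y + H) / ((c + 1) * Δ)) with hJ
    have e1 : ∑ d ∈ Finset.Ico (c * Δ) ((c + 1) * Δ), f d =
        ∑ d ∈ Finset.Ico (c * Δ) ((c + 1) * Δ), ∑ m ∈ J, a d * b m * F (d * m) +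
        ∑ d ∈ Finset.Ico (c * Δ) ((c + 1) * Δ), (f d - ∑ m ∈ J, a d * b m * F (d * m)) := by
      rw [← Finset.sum_add_distrib]
      apply Finset.sum_congr rfl
      intro d _; ring
    rw [e1, Finset.sum_add_distrib]
    refine (norm_add_le _ _).trans (add_le_add ?_ ?_)
    · refine (hcell j (Finset.mem_Ico.2 hjm) c (Finset.mem_Ico.2 hc)).trans ?_
      rw [← Finset.mul_sum]
      apply mul_le_mul_of_nonneg_left _ hρ
      have h2 : ∀ d ∈ Finset.Ico (c * Δ) ((c + 1) * Δ),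
          (((y + H) / ((c + 1) * Δ) - y / (c * Δ) : ℕ) : ℝ) ≤ (H : ℝ) / d + 1 := by
        intro d hd
        rw [Finset.mem_Ico] at hd
        have hd0 : 0 < d := by omega
        have hd0' : (0 : ℝ) < d := by exact_mod_cast hd0
        have a1 : ((y + H) / ((c + 1) * Δ) - y / (c * Δ) : ℕ) ≤ (y + H) / d - y / d := by
          have := Nat.div_le_div_left hd.2.le hd0 (a := y + H)
          have := Nat.div_le_div_left hd.1 hP (a := y)
          omega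
        have a2 : (((y + H) / d - y / d : ℕ) : ℝ) ≤ (H : ℝ) / d + 1 := by
          rw [Nat.cast_sub (Nat.div_le_div_right (by omega))]
          have b1 := (nat_div_real (y + H) d hd0).1
          have b2 := (nat_div_real y d hd0).2
          push_cast at b1
          rw [add_div] at b1
          linarith
        exact (by exact_mod_cast a1 : (((y + H) / ((c + 1) * Δ) - y / (c * Δ) : ℕ) : ℝ) ≤
          (((y + H) / d - y / d : ℕ) : ℝ)).trans a2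
      have h3 := Finset.card_nsmul_le_sum _ _ _ h2
      rw [Nat.card_Ico, nsmul_eq_mul] at h3
      have h4 : (c + 1) * Δ - c * Δ = Δ := by
        rw [Nat.add_mul, one_mul]; omega
      rw [h4] at h3
      have h5 : (Δ : ℝ) = 2 ^ (j - l) := by rw [hΔ]; push_cast; rfl
      rw [h5] at h3
      exact h3
    · refine (norm_sum_le _ _).trans (Finset.sum_le_sum fun d hd => ?_)
      rw [Finset.mem_Ico] at hd
      have hQP : ((c + 1) * Δ - c * Δ) * 2 ^ l ≤ c * Δ := by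
        have h4 : (c + 1) * Δ - c * Δ = Δ := by
          rw [Nat.add_mul, one_mul]; omega
        rw [h4, mul_comm]
        exact Nat.mul_le_mul_right _ hc.1
      exact diff_inner X y H (c * Δ) ((c + 1) * Δ) d l hX hP hd.1 hd.2 hQP
        (fun m => a d * b m * F (d * m)) (fun m => by
          rw [norm_mul, norm_mul]
          exact mul_le_one₀ (mul_le_one₀ (ha _) (norm_nonneg _) (hb _)) (norm_nonneg _) (hF _))
  rw [sum_fine f l j0 j1 hl hj]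
  have h2 : ‖∑ j ∈ Finset.Ico j0 j1, ∑ c ∈ Finset.Ico (2 ^ l : ℕ) (2 ^ (l + 1)),
      ∑ d ∈ Finset.Ico (c * 2 ^ (j - l) : ℕ) ((c + 1) * 2 ^ (j - l)), f d‖ ≤
      ∑ j ∈ Finset.Ico j0 j1, ∑ c ∈ Finset.Ico (2 ^ l : ℕ) (2 ^ (l + 1)),
        ∑ d ∈ Finset.Ico (c * 2 ^ (j - l) : ℕ) ((c + 1) * 2 ^ (j - l)),
          (ρ * ((H : ℝ) / d + 1) + (2 * X / (d * 2 ^ l) + 2)) := by
    refine (norm_sum_le _ _).trans (Finset.sum_le_sum fun j hj => ?_)
    refine (norm_sum_le _ _).trans (Finset.sum_le_sum fun c hc => ?_)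
    exact h1 j hj c hc
  refine h2.trans ?_
  rw [← sum_fine (fun d : ℕ => (ρ * ((H : ℝ) / d + 1) + (2 * X / (d * 2 ^ l) + 2))) l j0 j1 hl hj]
  have h3 := sum_inv_dyadic j0 j1 hj
  have h4 : ∑ d ∈ Finset.Ico (2 ^ j0 : ℕ) (2 ^ j1), (1 : ℝ) ≤ 2 ^ j1 := by
    rw [Finset.sum_const, Nat.card_Ico, nsmul_eq_mul, mul_one]
    exact_mod_cast Nat.sub_le _ _
  have h5 : ∑ d ∈ Finset.Ico (2 ^ j0 : ℕ) (2 ^ j1), (ρ * ((H : ℝ) / d + 1) + (2 * X / (d * 2 ^ l) + 2)) =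
      (ρ * H + 2 * X / 2 ^ l) * ∑ d ∈ Finset.Ico (2 ^ j0 : ℕ) (2 ^ j1), (1 : ℝ) / d +
      (ρ + 2) * ∑ d ∈ Finset.Ico (2 ^ j0 : ℕ) (2 ^ j1), (1 : ℝ) := by
    rw [Finset.mul_sum, Finset.mul_sum, ← Finset.sum_add_distrib]
    apply Finset.sum_congr rfl
    intro d hd
    rw [Finset.mem_Ico] at hd
    have hd0 : (0 : ℝ) < d := by
      have : 0 < d := lt_of_lt_of_le (by positivity) hd.1
      exact_mod_cast this
    field_simp
    ring
  rw [h5]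
  have h6 : (ρ * H + 2 * X / 2 ^ l) * ∑ d ∈ Finset.Ico (2 ^ j0 : ℕ) (2 ^ j1), (1 : ℝ) / d ≤
      (ρ * H + 2 * X / 2 ^ l) * j1 := mul_le_mul_of_nonneg_left h3 (by positivity)
  have h7 : (ρ + 2) * ∑ d ∈ Finset.Ico (2 ^ j0 : ℕ) (2 ^ j1), (1 : ℝ) ≤ (ρ + 2) * 2 ^ j1 :=
    mul_le_mul_of_nonneg_left h4 (by positivity)
  have h8 : (ρ * H + 2 * X / 2 ^ l) * (j1 : ℝ) + (ρ + 2) * 2 ^ j1 =
      ρ * (H * j1 + 2 ^ j1) + (2 * X * j1 / 2 ^ l + 2 * 2 ^ j1) := by ring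
  linarith

end Pool.Agent.Lib.Pe70ed2
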