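import Pool.Agent.Lib.Pe70ed2.Bilin
import Pool.Agent.Lib.Pe70ed2.Cells

set_option autoImplicit false

namespace Pool.Agent.Lib.Pe70ed2

open Finset

lemma sum_Ico_cast (A B : ℕ) (f : ℤ → ℂ) :
    ∑ n ∈ Finset.Ico (A : ℤ) B, f n = ∑ n ∈ Finset.Ico A B, f (n : ℤ) := by
  symm
  refine Finset.sum_nbij' (fun n => (n : ℤ)) (fun n => n.toNat) ?_ ?_ ?_ ?_ ?_
  · intro n hn
    rw [Finset.mem_Ico] at hn ⊢
    omega
  · intro n hn
    rw [Finset.mem_Ico] at hn ⊢
    omega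
  · intro n _; simp
  · intro n hn
    rw [Finset.mem_Ico] at hn
    exact Int.toNat_of_nonneg (by omega)
  · intro n _; rfl

/-- Natural number version of the bilinear inverse theorem. -/
theorem bilin_nat (k : ℕ) : ∃ C : ℕ, ∀ K : ℝ, 2 ≤ K → ∀ (P M A B : ℕ) (φ : Polynomial ℝ)
    (a b : ℕ → ℂ), φ.natDegree ≤ k + 1 → K ^ C ≤ P → K ^ C ≤ M → (∀ n, ‖a n‖ ≤ 1) →
    (∀ n, ‖b n‖ ≤ 1) →
    (P : ℝ) * M / K ≤ ‖∑ p ∈ Finset.Ico A (A + P), ∑ m ∈ Finset.Ico B (B + M),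
      a p * b m * e (φ.eval ((p * m : ℕ) : ℝ))‖ →
    ∃ r : ℕ, 1 ≤ r ∧ (r : ℝ) ≤ K ^ C ∧
      Near (r * φ.coeff (k + 1)) (K ^ C / ((P : ℝ) * M) ^ (k + 1)) := by
  obtain ⟨C, hC⟩ := bilin_inv k
  refine ⟨C, ?_⟩
  intro K hK P M A B φ a b hφ hP hM ha hb h
  apply hC K hK P M A B φ (fun n => a n.toNat) (fun n => b n.toNat) hφ hP hM (fun n => ha _)
    (fun n => hb _)
  refine h.trans (le_of_eq ?_)
  congr 1
  have e1 : ((A : ℤ) + (P : ℤ)) = ((A + P : ℕ) : ℤ) := by push_cast; rfl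
  have e2 : ((B : ℤ) + (M : ℤ)) = ((B + M : ℕ) : ℤ) := by push_cast; rfl
  rw [e1, e2, sum_Ico_cast]
  apply Finset.sum_congr rfl
  intro p _
  rw [sum_Ico_cast]
  apply Finset.sum_congr rfl
  intro m _
  simp

lemma taylor_top (k : ℕ) (φ : Polynomial ℝ) (hφ : φ.natDegree ≤ k) (b : ℝ) :
    (φ.taylor b).coeff k = φ.coeff k := by
  rw [Polynomial.taylor_coeff]
  have hdeg : (Polynomial.hasseDeriv k φ).natDegree ≤ 0 := by
    refine (Polynomial.natDegree_hasseDeriv_le φ k).trans ?_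
    omega
  rw [Polynomial.eq_C_of_natDegree_le_zero hdeg]
  simp [Polynomial.hasseDeriv_coeff]

lemma linear_comp (k : ℕ) (φ : Polynomial ℝ) (hφ : φ.natDegree ≤ k) (a b : ℝ) :
    ∃ ψ : Polynomial ℝ, ψ.natDegree ≤ k ∧ ψ.coeff k = φ.coeff k * a ^ k ∧
      ∀ x, ψ.eval x = φ.eval (a * x + b) := by
  refine ⟨(φ.taylor b).comp (Polynomial.C a * Polynomial.X), ?_, ?_, ?_⟩
  · refine (Polynomial.natDegree_comp_le).trans ?_
    calc (φ.taylor b).natDegree * (Polynomial.C a * Polynomial.X).natDegree ≤ k * 1 := by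
          apply Nat.mul_le_mul
          · rw [Polynomial.natDegree_taylor]; exact hφ
          · exact (Polynomial.natDegree_C_mul_le a _).trans Polynomial.natDegree_X_le
      _ = k := by ring
  · rw [Polynomial.comp_C_mul_X_coeff, taylor_top k φ hφ]
  · intro x
    simp [Polynomial.taylor_eval]

/-- Weyl's inequality in an arithmetic progression. -/
theorem weyl_ap (k : ℕ) : ∃ C : ℕ, ∀ K : ℝ, 2 ≤ K → ∀ (y H Q v : ℕ) (φ : Polynomial ℝ),
    φ.natDegree ≤ k + 1 → 0 < Q → 2 * K ^ C * Q ≤ H →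
    2 * (H : ℝ) / (Q * K) ≤ ‖∑ x ∈ (Finset.Ioc y (y + H)).filter (fun x => x ≡ v [MOD Q]),
      e (φ.eval (x : ℝ))‖ →
    ∃ r : ℕ, 1 ≤ r ∧ (r : ℝ) ≤ K ^ C ∧
      Near (r * (φ.coeff (k + 1) * (Q : ℝ) ^ (k + 1))) (K ^ C / ((H : ℝ) / (2 * Q)) ^ (k + 1)) := by
  obtain ⟨C, hC⟩ := weyl_inv k
  refine ⟨C, ?_⟩
  intro K hK y H Q v φ hφ hQ hH h
  have hK1 : (1 : ℝ) ≤ K ^ C := one_le_pow₀ (by linarith)
  have hQ0 : (0 : ℝ) < Q := by exact_mod_cast hQ
  have hQz : (0 : ℤ) < Q := by exact_mod_cast hQ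
  set v0 : ℤ := ((v % Q : ℕ) : ℤ) with hv0
  set A : ℤ := ((y : ℤ) - v0) / Q with hA
  set B : ℤ := ((y : ℤ) + H - v0) / Q with hB
  have hA1 : A * Q ≤ (y : ℤ) - v0 := Int.ediv_mul_le _ hQz.ne'
  have hA2 : (y : ℤ) - v0 < (A + 1) * Q := Int.lt_ediv_add_one_mul_self _ hQz
  have hB1 : B * Q ≤ (y : ℤ) + H - v0 := Int.ediv_mul_le _ hQz.ne'
  have hB2 : (y : ℤ) + H - v0 < (B + 1) * Q := Int.lt_ediv_add_one_mul_self _ hQz
  have hAB : A ≤ B := Int.ediv_le_ediv hQz (by omega)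
  have hsum : ∑ x ∈ (Finset.Ioc y (y + H)).filter (fun x => x ≡ v [MOD Q]), e (φ.eval (x : ℝ)) =
      ∑ l ∈ Finset.Ico (A + 1) (A + 1 + ((B - A).toNat : ℤ)), e (φ.eval ((Q : ℝ) * (l : ℝ) + (v0 : ℝ))) := by
    have hT : ((B - A).toNat : ℤ) = B - A := Int.toNat_of_nonneg (by omega)
    refine Finset.sum_nbij' (fun x => ((x : ℤ) - v0) / Q) (fun l => (Q * l + v0).toNat) ?_ ?_ ?_ ?_ ?_
    · intro x hx
      rw [Finset.mem_filter, Finset.mem_Ioc] at hx
      rw [Finset.mem_Ico, hT]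
      obtain ⟨j, hj⟩ : (Q : ℤ) ∣ (x : ℤ) - v0 := by
        have h1 : x % Q = v % Q := hx.2
        have h2 := Int.emod_add_mul_ediv (x : ℤ) Q
        refine ⟨(x : ℤ) / Q, ?_⟩
        rw [hv0, ← h1]
        push_cast
        linarith
      have hj2 : ((x : ℤ) - v0) / Q = j := by
        rw [hj]; exact Int.mul_ediv_cancel_left j hQz.ne'
      rw [hj2]
      constructor
      · -- A < j
        by_contra hcon
        have : j ≤ A := by omega
        have h3 : (Q : ℤ) * j ≤ Q * A := mul_le_mul_of_nonneg_left this hQz.le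
        have h4 : (y : ℤ) < x := by exact_mod_cast hx.1.1
        nlinarith
      · by_contra hcon
        have : B + 1 ≤ j := by omega
        have h3 : (Q : ℤ) * (B + 1) ≤ Q * j := mul_le_mul_of_nonneg_left this hQz.le
        have h4 : (x : ℤ) ≤ y + H := by exact_mod_cast hx.1.2
        nlinarith
    · intro l hl
      rw [Finset.mem_Ico, hT] at hl
      have h1 : A + 1 ≤ l := hl.1
      have h2 : l ≤ B := by omega
      have h3 : (Q : ℤ) * (A + 1) ≤ Q * l := mul_le_mul_of_nonneg_left h1 hQz.le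
      have h4 : (Q : ℤ) * l ≤ Q * B := mul_le_mul_of_nonneg_left h2 hQz.le
      have h5 : (y : ℤ) < Q * l + v0 := by nlinarith
      have h6 : (Q : ℤ) * l + v0 ≤ y + H := by nlinarith
      have h7 : (((Q : ℤ) * l + v0).toNat : ℤ) = Q * l + v0 := Int.toNat_of_nonneg (by omega)
      rw [Finset.mem_filter, Finset.mem_Ioc]
      refine ⟨⟨by omega, by omega⟩, ?_⟩
      rw [← Int.natCast_modEq_iff, h7, hv0]
      rw [Int.modEq_iff_dvd]
      have h8 := Int.emod_add_mul_ediv (v : ℤ) Q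
      refine ⟨(v : ℤ) / Q - l, ?_⟩
      push_cast
      linarith
    · intro x hx
      rw [Finset.mem_filter, Finset.mem_Ioc] at hx
      obtain ⟨j, hj⟩ : (Q : ℤ) ∣ (x : ℤ) - v0 := by
        have h1 : x % Q = v % Q := hx.2
        have h2 := Int.emod_add_mul_ediv (x : ℤ) Q
        refine ⟨(x : ℤ) / Q, ?_⟩
        rw [hv0, ← h1]
        push_cast
        linarith
      have hj2 : ((x : ℤ) - v0) / Q = j := by
        rw [hj]; exact Int.mul_ediv_cancel_left j hQz.ne'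
      simp only [hj2]
      rw [← hj]
      simp
    · intro l hl
      rw [Finset.mem_Ico, hT] at hl
      have h1 : A + 1 ≤ l := hl.1
      have h3 : (Q : ℤ) * (A + 1) ≤ Q * l := mul_le_mul_of_nonneg_left h1 hQz.le
      have h5 : (y : ℤ) < Q * l + v0 := by nlinarith
      have h7 : (((Q : ℤ) * l + v0).toNat : ℤ) = Q * l + v0 := Int.toNat_of_nonneg (by omega)
      simp only [h7]
      rw [add_sub_cancel_right]
      exact Int.mul_ediv_cancel_left l hQz.ne'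
    · intro x hx
      rw [Finset.mem_filter, Finset.mem_Ioc] at hx
      obtain ⟨j, hj⟩ : (Q : ℤ) ∣ (x : ℤ) - v0 := by
        have h1 : x % Q = v % Q := hx.2
        have h2 := Int.emod_add_mul_ediv (x : ℤ) Q
        refine ⟨(x : ℤ) / Q, ?_⟩
        rw [hv0, ← h1]
        push_cast
        linarith
      have hj2 : ((x : ℤ) - v0) / Q = j := by
        rw [hj]; exact Int.mul_ediv_cancel_left j hQz.ne'
      simp only [hj2]
      have h9 : (x : ℝ) = Q * j + v0 := by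
        have : (x : ℤ) = Q * j + v0 := by linarith
        exact_mod_cast this
      rw [← h9]
  set L : ℕ := (B - A).toNat with hL
  have hLz : (L : ℤ) = B - A := Int.toNat_of_nonneg (by omega)
  have hL1 : (H : ℝ) / (2 * Q) ≤ L := by
    have h1 : (H : ℤ) ≤ (L + 1) * Q := by
      rw [hLz]; nlinarith
    have h2 : (H : ℝ) ≤ (L + 1) * Q := by exact_mod_cast h1
    rw [div_le_iff₀ (by positivity)]
    have h3 : (2 : ℝ) * Q ≤ H := by nlinarith
    have h4 : (1 : ℝ) ≤ L := by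
      have : (2 : ℝ) * Q ≤ (L + 1) * Q := h3.trans h2
      have := le_of_mul_le_mul_right this hQ0
      linarith
    nlinarith
  have hL2 : (L : ℝ) ≤ 2 * H / Q := by
    have h1 : (L : ℤ) * Q ≤ H + Q := by
      rw [hLz]; nlinarith
    have h2 : (L : ℝ) * Q ≤ H + Q := by exact_mod_cast h1
    rw [le_div_iff₀ hQ0]
    nlinarith
  obtain ⟨ψ, hψ1, hψ2, hψ3⟩ := linear_comp (k + 1) φ hφ (Q : ℝ) (v0 : ℝ)
  have hHQ : K ^ C ≤ (H : ℝ) / (2 * Q) := by
    rw [le_div_iff₀ (by positivity)]; linarith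
  obtain ⟨r, hr1, hr2, hr3⟩ := hC K hK L (A + 1) ψ hψ1 (hHQ.trans hL1) (by
    refine le_trans ?_ (h.trans (le_of_eq ?_))
    · rw [← div_div]
      exact div_le_div_of_nonneg_right hL2 (by linarith)
    · rw [hsum]
      congr 1
      apply Finset.sum_congr rfl
      intro l _
      rw [hψ3])
  refine ⟨r, hr1, hr2, ?_⟩
  rw [hψ2] at hr3
  refine hr3.mono ?_
  have h0 : 0 < (H : ℝ) / (2 * Q) := by linarith
  apply div_le_div_of_nonneg_left (by positivity) (by positivity)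
  exact pow_le_pow_left₀ h0.le hL1 _

end Pool.Agent.Lib.Pe70ed2
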