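import Pool.Agent.Lib.Pe70ed2.Koop

set_option autoImplicit false

namespace Pool.Agent.Lib.Pe70ed2

open MeasureTheory Filter Topology

section core

variable {μ : Measure (ℤ → Bool)}
variable (hT : ∀ n : ℤ, MeasurePreserving (shift n) μ μ)

include hT in
lemma int_shift (φ : (ℤ → Bool) → ℝ) (n : ℤ) : ∫ ω, φ (shift n ω) ∂μ = ∫ ω, φ ω ∂μ := by
  have e : MeasurableEquiv (ℤ → Bool) (ℤ → Bool) :=
    { toFun := shift n
      invFun := shift (-n)
      left_inv := fun ω => by rw [shift_shift]; simp [shift_zero]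
      right_inv := fun ω => by rw [shift_shift]; simp [shift_zero]
      measurable_toFun := measurable_shift n
      measurable_invFun := measurable_shift (-n) }
  have hme : MeasurableEmbedding (shift n) :=
    (MeasurableEquiv.measurableEmbedding (
    { toFun := shift n
      invFun := shift (-n)
      left_inv := fun ω => by rw [shift_shift]; simp [shift_zero]
      right_inv := fun ω => by rw [shift_shift]; simp [shift_zero]
      measurable_toFun := measurable_shift n
      measurable_invFun := measurable_shift (-n) } : MeasurableEquiv (ℤ → Bool) (ℤ → Bool)))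
  exact (hT n).integral_comp hme φ

/-- Number of good sub-positions. -/
noncomputable def Nr (m : ℤ) (k : ℕ) (τ : ℝ) (r : ℤ) (ω : ℤ → Bool) : ℕ :=
  haveI := Classical.decPred fun j : ℕ => τ < fm hT (k * m) (shift (r + j * m) ω)
  ((Finset.range k).filter fun j : ℕ => τ < fm hT (k * m) (shift (r + j * m) ω)).card

/-- The exact invariance property. -/
def Ex (m : ℤ) (k : ℕ) (X : Set ℤ) (ω : ℤ → Bool) : Prop :=
  (∀ n : ℤ, fm hT (k * m) (shift (n + k * m) ω) = fm hT (k * m) (shift n ω)) ∧
  (∀ n : ℤ, fm hT m (shift (n + m) ω) = fm hT m (shift n ω)) ∧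
  (∀ n n' : ℤ, ω n = true → ω n' = true → n' - n ∈ X → n' - n = 0)

lemma Ex_ae (m : ℤ) (k : ℕ) (X : Set ℤ)
    (hX : ∀ x ∈ X, x ≠ 0 → μ (cyl ∩ shift x ⁻¹' cyl) = 0) : ∀ᵐ ω ∂μ, Ex hT m k X ω := by
  have h1 : ∀ n : ℤ, ∀ᵐ ω ∂μ, fm hT (k * m) (shift (n + k * m) ω) = fm hT (k * m) (shift n ω) := by
    intro n
    filter_upwards [ae_shift hT (fm_inv hT (k * m)) n] with ω hω
    rw [shift_shift, add_comm] at hω
    exact hω
  have h2 : ∀ n : ℤ, ∀ᵐ ω ∂μ, fm hT m (shift (n + m) ω) = fm hT m (shift n ω) := by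
    intro n
    filter_upwards [ae_shift hT (fm_inv hT m) n] with ω hω
    rw [shift_shift, add_comm] at hω
    exact hω
  have h3 : ∀ n n' : ℤ, ∀ᵐ ω ∂μ, ω n = true → ω n' = true → n' - n ∈ X → n' - n = 0 := by
    intro n n'
    by_cases hx : n' - n ∈ X ∧ n' - n ≠ 0
    · have h4 : ∀ᵐ ω ∂μ, ω ∉ cyl ∩ shift (n' - n) ⁻¹' cyl := by
        rw [ae_iff]
        simp only [not_not]
        exact hX _ hx.1 hx.2
      filter_upwards [ae_shift hT h4 n] with ω hω a b
      exfalso
      apply hω
      refine ⟨(mem_cyl_shift n ω).2 a, ?_⟩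
      show shift (n' - n) (shift n ω) ∈ cyl
      rw [shift_shift, mem_cyl_shift]
      simpa using b
    · refine Eventually.of_forall fun ω _ _ h => ?_
      by_contra hne
      exact hx ⟨h, hne⟩
  have h1' := ae_all_iff.2 h1
  have h2' := ae_all_iff.2 h2
  have h3' := ae_all_iff.2 fun n => ae_all_iff.2 (h3 n)
  filter_upwards [h1', h2', h3'] with ω a b c
  exact ⟨a, b, c⟩

variable {hT}

lemma Nr_add {m : ℤ} {k : ℕ} {X : Set ℤ} {τ : ℝ} {ω : ℤ → Bool} (hE : Ex hT m k X ω) (r : ℤ) :
    Nr hT m k τ (r + m) ω = Nr hT m k τ r ω := by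
  classical
  set p : ℕ → Prop := fun j => τ < fm hT (k * m) (shift (r + j * m) ω) with hp
  have hpk : p k ↔ p 0 := by
    show τ < fm hT (k * m) (shift (r + k * m) ω) ↔ τ < fm hT (k * m) (shift (r + (0 : ℕ) * m) ω)
    rw [hE.1 r]; simp
  have e1 : Nr hT m k τ (r + m) ω = ((Finset.range k).filter fun j : ℕ => p (j + 1)).card := by
    unfold Nr
    congr 1
    ext j
    simp only [Finset.mem_filter, hp]
    have : r + m + (j : ℤ) * m = r + ((j + 1 : ℕ) : ℤ) * m := by push_cast; ring
    rw [this]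
  have e2 : Nr hT m k τ r ω = ((Finset.range k).filter fun j : ℕ => p j).card := by
    unfold Nr
    congr 1
  rw [e1, e2]
  simp only [Finset.card_filter]
  have h1 := Finset.sum_range_succ (fun j => if p j then 1 else 0) k
  have h2 := Finset.sum_range_succ' (fun j => if p j then 1 else 0) k
  rw [h1] at h2
  simp only [hpk] at h2
  omega

lemma Nr_add_mul {m : ℤ} {k : ℕ} {X : Set ℤ} {τ : ℝ} {ω : ℤ → Bool} (hE : Ex hT m k X ω) (r l : ℤ) :
    Nr hT m k τ (r + l * m) ω = Nr hT m k τ r ω := by
  induction l using Int.induction_on with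
  | zero => simp
  | succ i ih =>
    rw [← ih, ← Nr_add hE (r + i * m)]
    congr 1; ring
  | pred i ih =>
    rw [← ih, ← Nr_add hE (r + (-(i : ℤ) - 1) * m)]
    congr 1; ring

lemma Nr_shift {m : ℤ} {k : ℕ} {τ : ℝ} (r n : ℤ) (ω : ℤ → Bool) :
    Nr hT m k τ r (shift n ω) = Nr hT m k τ (r + n) ω := by
  classical
  unfold Nr
  congr 1
  ext j
  simp only [Finset.mem_filter, shift_shift]
  have : r + (j : ℤ) * m + n = r + n + j * m := by ring
  rw [this]

lemma Nr_congr {m : ℤ} {k : ℕ} {X : Set ℤ} {τ : ℝ} {ω : ℤ → Bool} (hE : Ex hT m k X ω) {r r' : ℤ}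
    (h : r ≡ r' [ZMOD m]) : Nr hT m k τ r ω = Nr hT m k τ r' ω := by
  obtain ⟨l, hl⟩ := h.dvd
  have : r' = r + l * m := by linarith [hl, mul_comm m l]
  rw [this, Nr_add_mul hE]

variable (hT)

lemma Nr_meas (m : ℤ) (k : ℕ) (τ : ℝ) (r : ℤ) : Measurable (Nr hT m k τ r) := by
  classical
  have : Nr hT m k τ r = fun ω => ∑ j ∈ Finset.range k,
      if τ < fm hT (k * m) (shift (r + j * m) ω) then 1 else 0 := by
    funext ω
    unfold Nr
    rw [Finset.card_filter]
  rw [this]
  refine Finset.measurable_sum _ fun j _ => ?_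
  refine Measurable.ite ?_ measurable_const measurable_const
  exact measurableSet_lt measurable_const ((fm_meas' hT _).comp (measurable_shift _))

/-- The complement of the selected set, at position `r`. -/
def Dr (m : ℤ) (k : ℕ) (τ : ℝ) (r : ℤ) : Set (ℤ → Bool) := {ω | 3 * Nr hT m k τ r ω < 2 * k}

lemma Dr_meas (m : ℤ) (k : ℕ) (τ : ℝ) (r : ℤ) : MeasurableSet (Dr hT m k τ r) := by
  have : Dr hT m k τ r = Nr hT m k τ r ⁻¹' {n | 3 * n < 2 * k} := rfl
  rw [this]
  exact (Nr_meas hT m k τ r) (MeasurableSet.of_discrete)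

/-- Both positions selected. -/
def Br (m : ℤ) (k : ℕ) (τ : ℝ) (r r' : ℤ) : Set (ℤ → Bool) := (Dr hT m k τ r)ᶜ ∩ (Dr hT m k τ r')ᶜ

lemma Br_meas (m : ℤ) (k : ℕ) (τ : ℝ) (r r' : ℤ) : MeasurableSet (Br hT m k τ r r') :=
  (Dr_meas hT m k τ r).compl.inter (Dr_meas hT m k τ r').compl

/-- The real indicator. -/
noncomputable def ind (S : Set (ℤ → Bool)) : (ℤ → Bool) → ℝ := S.indicator fun _ => 1

lemma ind_meas {S : Set (ℤ → Bool)} (h : MeasurableSet S) : Measurable (ind S) :=
  measurable_const.indicator h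

lemma ind_nonneg (S : Set (ℤ → Bool)) (ω : ℤ → Bool) : 0 ≤ ind S ω :=
  Set.indicator_nonneg (fun _ _ => zero_le_one) _

lemma ind_le (S : Set (ℤ → Bool)) (ω : ℤ → Bool) : ind S ω ≤ 1 :=
  Set.indicator_le_self' (fun _ _ => zero_le_one) _

lemma ind_abs (S : Set (ℤ → Bool)) (ω : ℤ → Bool) : |ind S ω| ≤ 1 := by
  rw [abs_of_nonneg (ind_nonneg S ω)]; exact ind_le S ω

lemma ind_of_mem {S : Set (ℤ → Bool)} {ω : ℤ → Bool} (h : ω ∈ S) : ind S ω = 1 :=
  Set.indicator_of_mem h _

lemma ind_of_notMem {S : Set (ℤ → Bool)} {ω : ℤ → Bool} (h : ω ∉ S) : ind S ω = 0 :=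
  Set.indicator_of_notMem h _

lemma ind_congr {S : Set (ℤ → Bool)} {ω ω' : ℤ → Bool} (h : ω ∈ S ↔ ω' ∈ S) : ind S ω = ind S ω' := by
  by_cases h1 : ω ∈ S
  · rw [ind_of_mem h1, ind_of_mem (h.1 h1)]
  · rw [ind_of_notMem h1, ind_of_notMem (fun h2 => h1 (h.2 h2))]

variable [IsProbabilityMeasure μ]

lemma int_ind {S : Set (ℤ → Bool)} (h : MeasurableSet S) : ∫ ω, ind S ω ∂μ = μ.real S := by
  unfold ind
  rw [integral_indicator_const _ h]; simp

/-- Lemma (a): the bad pairs have small measure. -/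
lemma bad_small (m : ℤ) (k : ℕ) (hk : 1 ≤ k) (τ : ℝ) (hτ : 0 < τ) (X : Set ℤ)
    (hX : ∀ x ∈ X, x ≠ 0 → μ (cyl ∩ shift x ⁻¹' cyl) = 0) (r r' : ℤ)
    (hgood : GoodClass X m (r' - r)) :
    μ.real (Br hT m k τ r r') ≤ 3 * (∫ ω, |fm hT (k * m) ω - finf hT ω| ∂μ) / τ ^ 2 := by
  set κ := ∫ ω, |fm hT (k * m) ω - finf hT ω| ∂μ with hκ
  set B := Br hT m k τ r r' with hB
  set β := μ.real B with hβ
  have hBm : MeasurableSet B := Br_meas hT m k τ r r'
  set G : Set (ℤ → Bool) := {ω | τ < fm hT (k * m) ω} with hG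
  have hGm : MeasurableSet G := measurableSet_lt measurable_const (fm_meas' hT _)
  have hEx := Ex_ae hT m k X hX
  obtain ⟨w, hw0, hw1, hw2, hw3⟩ := hgood
  have hkpos : (0 : ℝ) < k := by exact_mod_cast hk
  -- B is invariant under shift by m, on Ex
  have hBinv : ∀ ω, Ex hT m k X ω → ∀ l : ℤ, (shift (l * m) ω ∈ B ↔ ω ∈ B) := by
    intro ω hω l
    simp only [hB, Br, Dr, Set.mem_inter_iff, Set.mem_compl_iff, Set.mem_ofPred_eq, Nr_shift]
    rw [Nr_add_mul hω, Nr_add_mul hω]
  have step : ∀ x : ℤ, x ∈ X → x ≠ 0 → x ≡ r' - r [ZMOD m] →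
      τ ^ 2 * β / 3 - κ ≤ - ∫ ω, (ind B (shift (-r) ω) * f0 ω) * gfun hT (shift x ω) ∂μ := by
    intro x hxX hx0 hxm
    -- Φ
    set Φ : (ℤ → Bool) → ℝ := fun ω => ind B ω * ind G (shift r ω) * ind G (shift (r + x) ω) with hΦ
    have hΦm : Measurable Φ := ((ind_meas hBm).mul ((ind_meas hGm).comp (measurable_shift _))).mul
      ((ind_meas hGm).comp (measurable_shift _))
    have hΦb : ∀ ω, |Φ ω| ≤ 1 := by
      intro ω
      simp only [hΦ, abs_mul]
      have a1 := ind_abs B ω
      have a2 := ind_abs G (shift r ω)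
      have a3 := ind_abs G (shift (r + x) ω)
      calc |ind B ω| * |ind G (shift r ω)| * |ind G (shift (r + x) ω)| ≤ 1 * 1 * 1 := by gcongr
        _ = 1 := by norm_num
    have hΦi : Integrable Φ μ := int_of_bdd hΦm 1 hΦb
    have hcount : ∀ ω, Ex hT m k X ω → (k : ℝ) / 3 * ind B ω ≤
        ∑ j ∈ Finset.range k, Φ (shift (j * m) ω) := by
      intro ω hω
      by_cases hωB : ω ∈ B
      · rw [ind_of_mem hωB, mul_one]
        classical
        set P : Finset ℕ := (Finset.range k).filter fun j : ℕ => τ < fm hT (k * m) (shift (r + j * m) ω) with hP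
        set Q : Finset ℕ := (Finset.range k).filter fun j : ℕ => τ < fm hT (k * m) (shift (r + x + j * m) ω) with hQ
        have hPc : P.card = Nr hT m k τ r ω := by
          unfold Nr; congr
        have hQc : Q.card = Nr hT m k τ r' ω := by
          have : Q.card = Nr hT m k τ (r + x) ω := by unfold Nr; congr
          rw [this]
          apply Nr_congr hω
          have := hxm.add_left r
          simpa using this
        have hB1 : ¬ (3 * Nr hT m k τ r ω < 2 * k) := hωB.1
        have hB2 : ¬ (3 * Nr hT m k τ r' ω < 2 * k) := hωB.2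
        have hunion : (P ∪ Q).card ≤ k := by
          have : P ∪ Q ⊆ Finset.range k :=
            Finset.union_subset (Finset.filter_subset _ _) (Finset.filter_subset _ _)
          simpa using Finset.card_le_card this
        have hinter := Finset.card_union_add_card_inter P Q
        have h3 : k ≤ 3 * (P ∩ Q).card := by omega
        have h4 : ∀ j ∈ P ∩ Q, Φ (shift (j * m) ω) = 1 := by
          intro j hj
          rw [Finset.mem_inter, hP, hQ, Finset.mem_filter, Finset.mem_filter] at hj
          have m1 : shift ((j : ℤ) * m) ω ∈ B := (hBinv ω hω j).2 hωB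
          have m2 : shift r (shift ((j : ℤ) * m) ω) ∈ G := by
            rw [shift_shift]; exact hj.1.2
          have m3 : shift (r + x) (shift ((j : ℤ) * m) ω) ∈ G := by
            rw [shift_shift]; exact hj.2.2
          simp only [hΦ]
          rw [ind_of_mem m1, ind_of_mem m2, ind_of_mem m3]; norm_num
        have h5 : ∑ j ∈ P ∩ Q, Φ (shift (j * m) ω) ≤ ∑ j ∈ Finset.range k, Φ (shift (j * m) ω) := by
          apply Finset.sum_le_sum_of_subset_of_nonneg
          · exact (Finset.inter_subset_left).trans (Finset.filter_subset _ _)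
          · intro j _ _
            simp only [hΦ]
            exact mul_nonneg (mul_nonneg (ind_nonneg _ _) (ind_nonneg _ _)) (ind_nonneg _ _)
        rw [Finset.sum_congr rfl h4, Finset.sum_const, nsmul_eq_mul, mul_one] at h5
        have h6 : (k : ℝ) ≤ 3 * ((P ∩ Q).card : ℝ) := by exact_mod_cast h3
        linarith
      · rw [ind_of_notMem hωB, mul_zero]
        apply Finset.sum_nonneg
        intro j _
        simp only [hΦ]
        exact mul_nonneg (mul_nonneg (ind_nonneg _ _) (ind_nonneg _ _)) (ind_nonneg _ _)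
    have hΦint : β / 3 ≤ ∫ ω, Φ ω ∂μ := by
      have h1 : ∫ ω, (k : ℝ) / 3 * ind B ω ∂μ ≤ ∫ ω, ∑ j ∈ Finset.range k, Φ (shift (j * m) ω) ∂μ := by
        apply integral_mono_ae
        · exact (int_of_bdd (ind_meas hBm) 1 (ind_abs B)).const_mul _
        · apply integrable_finsetSum
          intro j _
          exact int_of_bdd (hΦm.comp (measurable_shift _)) 1 (fun ω => hΦb _)
        · filter_upwards [hEx] with ω hω using hcount ω hω
      rw [integral_const_mul, int_ind hBm, integral_finsetSum] at h1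
      · simp_rw [int_shift hT Φ] at h1
        rw [Finset.sum_const, Finset.card_range, nsmul_eq_mul] at h1
        have : (k : ℝ) * (β / 3) ≤ k * ∫ ω, Φ ω ∂μ := by
          calc (k : ℝ) * (β / 3) = (k : ℝ) / 3 * μ.real B := by rw [hβ]; ring
            _ ≤ _ := h1
        exact le_of_mul_le_mul_left this hkpos
      · intro j _
        exact int_of_bdd (hΦm.comp (measurable_shift _)) 1 (fun ω => hΦb _)
    -- (ii)
    have h2 : τ ^ 2 * ∫ ω, Φ ω ∂μ ≤
        ∫ ω, ind B ω * fm hT (k * m) (shift r ω) * fm hT (k * m) (shift (r + x) ω) ∂μ := by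
      rw [← integral_const_mul]
      apply integral_mono
      · exact hΦi.const_mul _
      · refine int_of_bdd (((ind_meas hBm).mul ((fm_meas' hT _).comp (measurable_shift _))).mul
          ((fm_meas' hT _).comp (measurable_shift _))) 1 ?_
        intro ω
        have a1 := ind_abs B ω
        rw [abs_mul, abs_mul, abs_of_nonneg (fm_nonneg hT _ _), abs_of_nonneg (fm_nonneg hT _ _)]
        calc |ind B ω| * fm hT (k * m) (shift r ω) * fm hT (k * m) (shift (r + x) ω) ≤ 1 * 1 * 1 := by
              have b1 := fm_le hT (k * m) (shift r ω)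
              have b2 := fm_le hT (k * m) (shift (r + x) ω)
              have c1 := fm_nonneg hT (k * m) (shift r ω)
              have c2 := fm_nonneg hT (k * m) (shift (r + x) ω)
              gcongr
          _ = 1 := by norm_num
      · intro ω
        simp only [hΦ]
        have key : ∀ ω', τ * ind G ω' ≤ fm hT (k * m) ω' := by
          intro ω'
          by_cases h : ω' ∈ G
          · rw [ind_of_mem h, mul_one]; exact le_of_lt h
          · rw [ind_of_notMem h, mul_zero]; exact fm_nonneg hT _ _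
        have k1 := key (shift r ω)
        have k2 := key (shift (r + x) ω)
        have n1 := ind_nonneg G (shift r ω)
        have n2 := ind_nonneg G (shift (r + x) ω)
        have nb := ind_nonneg B ω
        calc τ ^ 2 * (ind B ω * ind G (shift r ω) * ind G (shift (r + x) ω))
            = ind B ω * ((τ * ind G (shift r ω)) * (τ * ind G (shift (r + x) ω))) := by ring
          _ ≤ ind B ω * (fm hT (k * m) (shift r ω) * fm hT (k * m) (shift (r + x) ω)) := by
              apply mul_le_mul_of_nonneg_left _ nb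
              apply mul_le_mul k1 k2 (by positivity) (fm_nonneg hT _ _)
          _ = _ := by ring
    -- (iii)
    have h3 : ∫ ω, ind B ω * f0 (shift r ω) * fm hT (k * m) (shift (r + x) ω) ∂μ =
        ∫ ω, ind B ω * fm hT (k * m) (shift r ω) * fm hT (k * m) (shift (r + x) ω) ∂μ := by
      set ψ : (ℤ → Bool) → ℝ := fun ω => ind B (shift (-r) ω) * fm hT (k * m) (shift x ω) with hψ
      have hψm : Measurable ψ := ((ind_meas hBm).comp (measurable_shift _)).mul
        ((fm_meas' hT _).comp (measurable_shift _))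
      have hψb : ∀ ω, |ψ ω| ≤ 1 := by
        intro ω
        simp only [hψ, abs_mul]
        have a1 := ind_abs B (shift (-r) ω)
        rw [abs_of_nonneg (fm_nonneg hT _ _)]
        have b1 := fm_le hT (k * m) (shift x ω)
        have c1 := fm_nonneg hT (k * m) (shift x ω)
        calc |ind B (shift (-r) ω)| * fm hT (k * m) (shift x ω) ≤ 1 * 1 := by gcongr
          _ = 1 := by norm_num
      have hψinv : ∀ᵐ ω ∂μ, ψ (shift (k * m) ω) = ψ ω := by
        filter_upwards [hEx, ae_shift hT hEx (-r)] with ω hω hω'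
        simp only [hψ]
        have e1 : ind B (shift (-r) (shift (k * m) ω)) = ind B (shift (-r) ω) := by
          apply ind_congr
          rw [shift_shift, add_comm, ← shift_shift]
          exact hBinv _ hω' k
        have e2 : fm hT (k * m) (shift x (shift (k * m) ω)) = fm hT (k * m) (shift x ω) := by
          rw [shift_shift]; exact hω.1 x
        rw [e1, e2]
      have hp := proj_prop hT hψm 1 hψb hψinv
      have e1 : ∀ g : (ℤ → Bool) → ℝ, ∫ ω, ind B ω * g (shift r ω) * fm hT (k * m) (shift (r + x) ω) ∂μ =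
          ∫ ω, ψ ω * g ω ∂μ := by
        intro g
        rw [← int_shift hT (fun ω => ψ ω * g ω) r]
        congr 1
        funext ω
        simp only [hψ, shift_shift]
        have : -r + r = 0 := by ring
        rw [this, shift_zero, add_comm x r]
        ring
      rw [e1 f0, e1 (fm hT (k * m)), hp]
    -- (iv)
    have h4 : ∫ ω, ind B ω * f0 (shift r ω) * f0 (shift (r + x) ω) ∂μ = 0 := by
      have hnull : ∀ᵐ ω ∂μ, ω ∉ cyl ∩ shift x ⁻¹' cyl := by
        rw [ae_iff]
        simp only [not_not]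
        exact hX x hxX hx0
      have : ∀ᵐ ω ∂μ, ind B ω * f0 (shift r ω) * f0 (shift (r + x) ω) = 0 := by
        filter_upwards [ae_shift hT hnull r] with ω hω
        by_cases h1 : shift r ω ∈ cyl
        · have h2 : shift (r + x) ω ∉ cyl := by
            intro h2
            apply hω
            refine ⟨h1, ?_⟩
            show shift x (shift r ω) ∈ cyl
            rw [shift_shift, add_comm]; exact h2
          have : f0 (shift (r + x) ω) = 0 := Set.indicator_of_notMem h2 _
          rw [this, mul_zero]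
        · have : f0 (shift r ω) = 0 := Set.indicator_of_notMem h1 _
          rw [this]; ring
      rw [integral_congr_ae (g := fun _ => (0 : ℝ)) this]
      simp
    -- combine
    have hbf : ∀ ω, |ind B ω * f0 (shift r ω)| ≤ 1 := by
      intro ω
      rw [abs_mul, abs_of_nonneg (f0_nonneg _)]
      have a1 := ind_abs B ω
      have a2 := f0_le (shift r ω)
      have a3 := f0_nonneg (shift r ω)
      calc |ind B ω| * f0 (shift r ω) ≤ 1 * 1 := by gcongr
        _ = 1 := by norm_num
    have hbfm : Measurable fun ω => ind B ω * f0 (shift r ω) :=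
      (ind_meas hBm).mul (f0_meas.comp (measurable_shift _))
    have hgen : ∀ g : (ℤ → Bool) → ℝ, Measurable g → (∀ ω, |g ω| ≤ 1) →
        Integrable (fun ω => ind B ω * f0 (shift r ω) * g (shift (r + x) ω)) μ := by
      intro g hg hg1
      refine int_of_bdd (hbfm.mul (hg.comp (measurable_shift _))) 1 ?_
      intro ω
      rw [abs_mul]
      calc |ind B ω * f0 (shift r ω)| * |g (shift (r + x) ω)| ≤ 1 * 1 :=
            mul_le_mul (hbf ω) (hg1 _) (abs_nonneg _) zero_le_one
        _ = 1 := by norm_num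
    have hfmb : ∀ ω, |fm hT (k * m) ω| ≤ 1 := fun ω => by
      rw [abs_of_nonneg (fm_nonneg hT _ _)]; exact fm_le hT _ _
    have hf0b : ∀ ω, |f0 ω| ≤ 1 := fun ω => by
      rw [abs_of_nonneg (f0_nonneg _)]; exact f0_le _
    have hfib : ∀ ω, |finf hT ω| ≤ 1 := fun ω => by
      rw [abs_of_nonneg (finf_nonneg hT _)]; exact finf_le hT _
    have i1 := hgen _ (fm_meas' hT (k * m)) hfmb
    have i2 := hgen _ f0_meas hf0b
    have i3 := hgen _ (finf_meas hT) hfib
    have i4 := hgen _ (gfun_meas hT) (gfun_bound' hT)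
    -- ∫ b f0 (fm - finf)
    have h5 : ∫ ω, ind B ω * f0 (shift r ω) * fm hT (k * m) (shift (r + x) ω) ∂μ -
        ∫ ω, ind B ω * f0 (shift r ω) * finf hT (shift (r + x) ω) ∂μ ≤ κ := by
      rw [← integral_sub i1 i3]
      have e2 : κ = ∫ ω, |fm hT (k * m) (shift (r + x) ω) - finf hT (shift (r + x) ω)| ∂μ :=
        (int_shift hT (fun ω => |fm hT (k * m) ω - finf hT ω|) (r + x)).symm
      rw [e2]
      apply integral_mono (i1.sub i3)
      · refine int_of_bdd (((fm_meas' hT _).sub (finf_meas hT)).abs.comp (measurable_shift _)) 1 ?_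
        intro ω
        simp only [Pi.sub_apply, abs_abs]
        rw [abs_le]
        constructor <;> linarith [fm_nonneg hT (k * m) (shift (r + x) ω), fm_le hT (k * m) (shift (r + x) ω),
          finf_nonneg hT (shift (r + x) ω), finf_le hT (shift (r + x) ω)]
      · intro ω
        simp only [Pi.sub_apply]
        rw [← mul_sub]
        refine (le_abs_self _).trans ?_
        rw [abs_mul]
        calc |ind B ω * f0 (shift r ω)| * |fm hT (k * m) (shift (r + x) ω) - finf hT (shift (r + x) ω)|
            ≤ 1 * |fm hT (k * m) (shift (r + x) ω) - finf hT (shift (r + x) ω)| :=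
              mul_le_mul_of_nonneg_right (hbf ω) (abs_nonneg _)
          _ = _ := one_mul _
    have h6 : ∫ ω, ind B ω * f0 (shift r ω) * gfun hT (shift (r + x) ω) ∂μ =
        ∫ ω, ind B ω * f0 (shift r ω) * f0 (shift (r + x) ω) ∂μ -
        ∫ ω, ind B ω * f0 (shift r ω) * finf hT (shift (r + x) ω) ∂μ := by
      rw [← integral_sub i2 i3]
      congr 1
      funext ω
      simp only [gfun]; ring
    have h7 : ∫ ω, (ind B (shift (-r) ω) * f0 ω) * gfun hT (shift x ω) ∂μ =
        ∫ ω, ind B ω * f0 (shift r ω) * gfun hT (shift (r + x) ω) ∂μ := by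
      rw [← int_shift hT (fun ω => (ind B (shift (-r) ω) * f0 ω) * gfun hT (shift x ω)) r]
      congr 1
      funext ω
      simp only [shift_shift]
      have : -r + r = 0 := by ring
      rw [this, shift_zero, add_comm x r]
    rw [h7, h6, h4]
    have h8 : τ ^ 2 * (β / 3) ≤ τ ^ 2 * ∫ ω, Φ ω ∂μ :=
      mul_le_mul_of_nonneg_left hΦint (by positivity)
    rw [← h3] at h2
    have h9 : τ ^ 2 * β / 3 = τ ^ 2 * (β / 3) := by ring
    rw [h9]
    linarith
  -- averaging
  set φ : (ℤ → Bool) → ℝ := fun ω => ind B (shift (-r) ω) * f0 ω with hφ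
  have hφm : Measurable φ := ((ind_meas hBm).comp (measurable_shift _)).mul f0_meas
  have hφb : ∀ ω, |φ ω| ≤ 1 := by
    intro ω
    simp only [hφ]
    rw [abs_mul, abs_of_nonneg (f0_nonneg _)]
    have a1 := ind_abs B (shift (-r) ω)
    have a2 := f0_le ω
    have a3 := f0_nonneg ω
    calc |ind B (shift (-r) ω)| * f0 ω ≤ 1 * 1 := by gcongr
      _ = 1 := by norm_num
  have htend := avg_tendsto hT w hw0 hw1 hw3 φ hφm hφb
  have hle : ∀ i, τ ^ 2 * β / 3 - κ ≤
      -((w i).sum (fun x a => a * ∫ ω, φ ω * gfun hT (shift x ω) ∂μ)) := by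
    intro i
    have h1 : -((w i).sum (fun x a => a * ∫ ω, φ ω * gfun hT (shift x ω) ∂μ)) =
        (w i).sum (fun x a => a * (-∫ ω, φ ω * gfun hT (shift x ω) ∂μ)) := by
      rw [Finsupp.sum, Finsupp.sum, ← Finset.sum_neg_distrib]
      apply Finset.sum_congr rfl
      intro x _; ring
    rw [h1]
    have h2 : τ ^ 2 * β / 3 - κ = (w i).sum (fun _ a => a * (τ ^ 2 * β / 3 - κ)) := by
      rw [Finsupp.sum, ← Finset.sum_mul]
      have := hw1 i
      rw [Finsupp.sum] at this
      rw [this, one_mul]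
    rw [h2, Finsupp.sum, Finsupp.sum]
    apply Finset.sum_le_sum
    intro x hx
    have hne : w i x ≠ 0 := Finsupp.mem_support_iff.1 hx
    obtain ⟨a1, a2, a3⟩ := hw2 i x hne
    exact mul_le_mul_of_nonneg_left (step x a1 a2 a3) (hw0 i x)
  have hlim : τ ^ 2 * β / 3 - κ ≤ -0 := ge_of_tendsto' htend.neg hle
  rw [le_div_iff₀ (by positivity)]
  linarith

end core

end Pool.Agent.Lib.Pe70ed2
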