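import Pool.Agent.Lib.Pe70ed2.Core

set_option autoImplicit false

namespace Pool.Agent.Lib.Pe70ed2

open MeasureTheory Filter Topology

section core2

variable {μ : Measure (ℤ → Bool)}
variable (hT : ∀ n : ℤ, MeasurePreserving (shift n) μ μ)
variable [IsProbabilityMeasure μ]

/-- Lemma (b): the mass lost outside the selected classes. -/
lemma mass_small (m : ℤ) (k : ℕ) (hk : 1 ≤ k) (τ : ℝ) (hτ : 0 < τ) (X : Set ℤ)
    (hX : ∀ x ∈ X, x ≠ 0 → μ (cyl ∩ shift x ⁻¹' cyl) = 0) (r : ℤ) :
    ∫ ω, ind (Dr hT m k τ r) ω * f0 (shift r ω) ∂μ ≤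
      2 * τ + 3 / τ * ∫ ω, |fm hT (k * m) ω - fm hT m ω| ∂μ := by
  have hEx := Ex_ae hT m k X hX
  set D := Dr hT m k τ r with hD
  have hDm : MeasurableSet D := Dr_meas hT m k τ r
  have hkpos : (0 : ℝ) < k := by exact_mod_cast hk
  -- replace f0 by fm
  have h1 : ∀ g : (ℤ → Bool) → ℝ, ∫ ω, ind D ω * g (shift r ω) ∂μ =
      ∫ ω, ind D (shift (-r) ω) * g ω ∂μ := by
    intro g
    rw [← int_shift hT (fun ω => ind D (shift (-r) ω) * g ω) r]
    congr 1
    funext ω
    simp only [shift_shift]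
    have : -r + r = 0 := by ring
    rw [this, shift_zero]
  have hinv : ∀ᵐ ω ∂μ, ind D (shift (-r) (shift m ω)) = ind D (shift (-r) ω) := by
    filter_upwards [ae_shift hT hEx (-r)] with ω hω
    apply ind_congr
    rw [shift_shift, add_comm, ← shift_shift]
    simp only [hD, Dr, Set.mem_ofPred_eq]
    rw [Nr_shift r m, Nr_add hω]
  have h2 : ∫ ω, ind D ω * f0 (shift r ω) ∂μ = ∫ ω, ind D ω * fm hT m (shift r ω) ∂μ := by
    rw [h1 f0, h1 (fm hT m)]
    exact proj_prop hT ((ind_meas hDm).comp (measurable_shift _)) 1 (fun ω => ind_abs D _) hinv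
  rw [h2]
  -- pointwise bound
  set e : (ℤ → Bool) → ℝ := fun ω => |fm hT (k * m) ω - fm hT m ω| with he
  have hem : Measurable e := ((fm_meas' hT _).sub (fm_meas' hT _)).abs
  have heb : ∀ ω, |e ω| ≤ 1 := by
    intro ω
    simp only [he, abs_abs]
    rw [abs_le]
    constructor <;> linarith [fm_nonneg hT (k * m) ω, fm_le hT (k * m) ω, fm_nonneg hT m ω, fm_le hT m ω]
  have hpt : ∀ ω, Ex hT m k X ω → ind D ω * fm hT m (shift r ω) ≤
      2 * τ + 3 / (k * τ) * ∑ j ∈ Finset.range k, e (shift (r + j * m) ω) := by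
    intro ω hω
    have hsum0 : 0 ≤ ∑ j ∈ Finset.range k, e (shift (r + j * m) ω) :=
      Finset.sum_nonneg fun j _ => abs_nonneg _
    have hRHS : 0 ≤ 3 / (k * τ) * ∑ j ∈ Finset.range k, e (shift (r + j * m) ω) := by positivity
    by_cases hωD : ω ∈ D
    · rw [ind_of_mem hωD, one_mul]
      by_cases hle : fm hT m (shift r ω) ≤ 2 * τ
      · linarith
      · push Not at hle
        classical
        set P : Finset ℕ := (Finset.range k).filter fun j : ℕ => τ < fm hT (k * m) (shift (r + j * m) ω) with hP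
        have hPc : P.card = Nr hT m k τ r ω := by unfold Nr; congr
        have hD' : 3 * Nr hT m k τ r ω < 2 * k := hωD
        have hfmj : ∀ j : ℕ, fm hT m (shift (r + j * m) ω) = fm hT m (shift r ω) := by
          intro j
          induction j with
          | zero => simp
          | succ j ih =>
            rw [← ih, ← hω.2.1 (r + j * m)]
            congr 2
            push_cast; ring
        have hlow : ∀ j ∈ (Finset.range k) \ P, τ ≤ e (shift (r + j * m) ω) := by
          intro j hj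
          rw [Finset.mem_sdiff, hP, Finset.mem_filter] at hj
          have hj1 : fm hT (k * m) (shift (r + j * m) ω) ≤ τ := by
            by_contra hc
            push Not at hc
            exact hj.2 ⟨hj.1, hc⟩
          simp only [he]
          rw [hfmj j, abs_sub_comm]
          refine le_trans ?_ (le_abs_self _)
          linarith
        have hcard : (((Finset.range k) \ P).card : ℝ) ≥ k / 3 := by
          have h3 : ((Finset.range k) \ P).card = k - P.card := by
            rw [Finset.card_sdiff_of_subset (Finset.filter_subset _ _), Finset.card_range]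
          have h4 : P.card ≤ k := by
            have := Finset.card_le_card (Finset.filter_subset (fun j : ℕ => τ < fm hT (k * m) (shift (r + j * m) ω)) (Finset.range k))
            simpa using this
          have h5 : k ≤ 3 * ((Finset.range k) \ P).card := by omega
          have h6 : (k : ℝ) ≤ 3 * (((Finset.range k) \ P).card : ℝ) := by exact_mod_cast h5
          linarith
        have hsum : τ * (k / 3) ≤ ∑ j ∈ Finset.range k, e (shift (r + j * m) ω) := by
          calc τ * (k / 3) ≤ τ * (((Finset.range k) \ P).card : ℝ) :=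
                mul_le_mul_of_nonneg_left hcard hτ.le
            _ = ∑ j ∈ (Finset.range k) \ P, τ := by rw [Finset.sum_const, nsmul_eq_mul]; ring
            _ ≤ ∑ j ∈ (Finset.range k) \ P, e (shift (r + j * m) ω) := Finset.sum_le_sum hlow
            _ ≤ _ := Finset.sum_le_sum_of_subset_of_nonneg Finset.sdiff_subset
                (fun j _ _ => abs_nonneg _)
        have h1' : 1 ≤ 3 / (k * τ) * ∑ j ∈ Finset.range k, e (shift (r + j * m) ω) := by
          calc (1 : ℝ) = 3 / (k * τ) * (τ * (k / 3)) := by field_simp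
            _ ≤ _ := mul_le_mul_of_nonneg_left hsum (by positivity)
        have := fm_le hT m (shift r ω)
        linarith
    · rw [ind_of_notMem hωD, zero_mul]
      linarith
  have hint : ∫ ω, ind D ω * fm hT m (shift r ω) ∂μ ≤
      ∫ ω, (2 * τ + 3 / (k * τ) * ∑ j ∈ Finset.range k, e (shift (r + j * m) ω)) ∂μ := by
    apply integral_mono_ae
    · refine int_of_bdd ((ind_meas hDm).mul ((fm_meas' hT _).comp (measurable_shift _))) 1 ?_
      intro ω
      rw [abs_mul, abs_of_nonneg (fm_nonneg hT _ _)]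
      have a1 := ind_abs D ω
      have a2 := fm_le hT m (shift r ω)
      have a3 := fm_nonneg hT m (shift r ω)
      calc |ind D ω| * fm hT m (shift r ω) ≤ 1 * 1 := by gcongr
        _ = 1 := by norm_num
    · refine (integrable_const _).add (Integrable.const_mul ?_ _)
      apply integrable_finsetSum
      intro j _
      exact int_of_bdd (hem.comp (measurable_shift _)) 1 (fun ω => heb _)
    · filter_upwards [hEx] with ω hω using hpt ω hω
  refine hint.trans (le_of_eq ?_)
  rw [integral_add (integrable_const _)]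
  · rw [integral_const_mul (3 / (k * τ)), integral_finsetSum]
    · simp_rw [int_shift hT e]
      rw [Finset.sum_const, Finset.card_range, nsmul_eq_mul]
      simp only [integral_const, probReal_univ, smul_eq_mul, one_mul]
      field_simp
    · intro j _
      exact int_of_bdd (hem.comp (measurable_shift _)) 1 (fun ω => heb _)
  · refine Integrable.const_mul ?_ _
    apply integrable_finsetSum
    intro j _
    exact int_of_bdd (hem.comp (measurable_shift _)) 1 (fun ω => heb _)

include hT in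
/-- The core statement. -/
theorem core (X : Set ℤ) (hX : ∀ x ∈ X, x ≠ 0 → μ (cyl ∩ shift x ⁻¹' cyl) = 0) (ε : ℝ) (hε : 0 < ε)
    (hδ : ε < μ.real cyl) :
    ∃ m : ℕ, 1 ≤ m ∧ ∀ K : ℕ, 1 ≤ K → ∃ (ω : ℤ → Bool) (S : Set ℤ),
      (∀ n n' : ℤ, n ≡ n' [ZMOD (m : ℤ)] → n ∈ S → n' ∈ S) ∧
      (∀ r ∈ S, ∀ r' ∈ S, ¬ GoodClass X m (r' - r)) ∧
      (∀ n n' : ℤ, ω n = true → ω n' = true → n' - n ∈ X → n' - n = 0) ∧
      (μ.real cyl - ε) * (K * m) ≤
        (({n : ℕ | n < K * m ∧ (n : ℤ) ∈ S ∧ ω n = true}.ncard : ℕ) : ℝ) := by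
  classical
  set δ := μ.real cyl with hδd
  set τ : ℝ := ε / 16 with hτd
  have hτ : 0 < τ := by positivity
  have htend := tendsto_fm hT
  -- choose i₁
  have hev : ∀ᶠ i : ℕ in atTop, ∫ ω, |fm hT ((i.factorial : ℕ) : ℤ) ω - finf hT ω| ∂μ < ε * τ / 96 :=
    htend.eventually (gt_mem_nhds (by positivity))
  obtain ⟨i₁, hi₁⟩ := eventually_atTop.1 hev
  set m : ℕ := i₁.factorial with hm
  have hm1 : 1 ≤ m := Nat.factorial_pos i₁
  have hmpos : (0 : ℝ) < m := by exact_mod_cast hm1
  have hev2 : ∀ᶠ i : ℕ in atTop, ∫ ω, |fm hT ((i.factorial : ℕ) : ℤ) ω - finf hT ω| ∂μ <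
      ε * τ ^ 2 / (24 * m ^ 2) :=
    htend.eventually (gt_mem_nhds (by positivity))
  obtain ⟨i₂, hi₂⟩ := eventually_atTop.1 (hev2.and (eventually_ge_atTop i₁))
  obtain ⟨hi₂a, hi₂b⟩ := hi₂ i₂ le_rfl
  obtain ⟨k, hk⟩ := Nat.factorial_dvd_factorial hi₂b
  have hk1 : 1 ≤ k := by
    rcases Nat.eq_zero_or_pos k with h0 | h0
    · rw [h0, mul_zero] at hk
      exact absurd hk (Nat.factorial_pos i₂).ne'
    · exact h0
  have hkm : ((i₂.factorial : ℕ) : ℤ) = k * (m : ℤ) := by rw [hk]; push_cast; ring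
  rw [hkm] at hi₂a
  have hκ1 : ∫ ω, |fm hT (k * (m : ℤ)) ω - fm hT (m : ℤ) ω| ∂μ ≤ ε * τ / 48 := by
    have h1 := (hi₁ i₁ le_rfl).le
    have h2 := (hi₁ i₂ hi₂b).le
    rw [hkm] at h2
    have hi1 : Integrable (fun ω => |fm hT (k * (m : ℤ)) ω - finf hT ω|) μ :=
      ((fm_int hT _).sub (finf_int hT)).abs
    have hi2 : Integrable (fun ω => |fm hT (m : ℤ) ω - finf hT ω|) μ :=
      ((fm_int hT _).sub (finf_int hT)).abs
    calc ∫ ω, |fm hT (k * (m : ℤ)) ω - fm hT (m : ℤ) ω| ∂μ
        ≤ ∫ ω, (|fm hT (k * (m : ℤ)) ω - finf hT ω| + |fm hT (m : ℤ) ω - finf hT ω|) ∂μ := by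
          apply integral_mono ((fm_int hT _).sub (fm_int hT _)).abs (hi1.add hi2)
          intro ω
          simp only
          have := abs_sub_le (fm hT (k * (m : ℤ)) ω) (finf hT ω) (fm hT (m : ℤ) ω)
          rw [abs_sub_comm (finf hT ω)] at this
          exact this
      _ = ∫ ω, |fm hT (k * (m : ℤ)) ω - finf hT ω| ∂μ + ∫ ω, |fm hT (m : ℤ) ω - finf hT ω| ∂μ :=
          integral_add hi1 hi2
      _ ≤ ε * τ / 96 + ε * τ / 96 := add_le_add h2 h1
      _ = ε * τ / 48 := by ring
  -- bad pairs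
  set Pairs : Finset (ℕ × ℕ) := ((Finset.range m) ×ˢ (Finset.range m)).filter
    (fun p => GoodClass X m ((p.2 : ℤ) - p.1)) with hPairs
  set Bad : Set (ℤ → Bool) := ⋃ p ∈ Pairs, Br hT m k τ p.1 p.2 with hBad
  have hBadm : MeasurableSet Bad := by
    apply Finset.measurableSet_biUnion
    intro p _
    exact Br_meas hT m k τ _ _
  have hBadμ : μ.real Bad ≤ ε / 8 := by
    have h1 : μ.real Bad ≤ ∑ p ∈ Pairs, μ.real (Br hT m k τ p.1 p.2) := by
      rw [hBad]
      exact measureReal_biUnion_finset_le _ _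
    have h2 : ∀ p ∈ Pairs, μ.real (Br hT m k τ p.1 p.2) ≤ ε / (8 * m ^ 2) := by
      intro p hp
      rw [hPairs, Finset.mem_filter] at hp
      refine (bad_small hT m k hk1 τ hτ X hX _ _ hp.2).trans ?_
      rw [div_le_iff₀ (by positivity)]
      calc 3 * ∫ ω, |fm hT (k * (m : ℤ)) ω - finf hT ω| ∂μ ≤ 3 * (ε * τ ^ 2 / (24 * m ^ 2)) := by
            linarith [hi₂a.le]
        _ = ε / (8 * m ^ 2) * τ ^ 2 := by field_simp; ring
    have h3 : (Pairs.card : ℝ) ≤ m ^ 2 := by
      have : Pairs.card ≤ m * m := by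
        calc Pairs.card ≤ ((Finset.range m) ×ˢ (Finset.range m)).card := Finset.card_filter_le _ _
          _ = m * m := by simp
      have h4 : (Pairs.card : ℝ) ≤ m * m := by exact_mod_cast this
      nlinarith
    calc μ.real Bad ≤ ∑ p ∈ Pairs, μ.real (Br hT m k τ p.1 p.2) := h1
      _ ≤ ∑ p ∈ Pairs, ε / (8 * m ^ 2) := Finset.sum_le_sum h2
      _ = Pairs.card * (ε / (8 * m ^ 2)) := by rw [Finset.sum_const, nsmul_eq_mul]
      _ ≤ m ^ 2 * (ε / (8 * m ^ 2)) := mul_le_mul_of_nonneg_right h3 (by positivity)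
      _ = ε / 8 := by field_simp
  have hmass : ∀ r : ℤ, ∫ ω, ind (Dr hT m k τ r) ω * f0 (shift r ω) ∂μ ≤ ε / 4 := by
    intro r
    refine (mass_small hT m k hk1 τ hτ X hX r).trans ?_
    have : 3 / τ * ∫ ω, |fm hT (k * (m : ℤ)) ω - fm hT (m : ℤ) ω| ∂μ ≤ 3 / τ * (ε * τ / 48) :=
      mul_le_mul_of_nonneg_left hκ1 (by positivity)
    have h2 : 3 / τ * (ε * τ / 48) = ε / 16 := by field_simp; ring
    rw [h2] at this
    rw [hτd] at this ⊢
    linarith
  refine ⟨m, hm1, fun K hK => ?_⟩
  -- the counting function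
  set F : (ℤ → Bool) → ℝ := fun ω => ∑ n ∈ Finset.range (K * m),
    (1 - ind (Dr hT m k τ (n : ℤ)) ω) * f0 (shift (n : ℤ) ω) * (1 - ind Bad ω) with hF
  have hterm_meas : ∀ n : ℕ, Measurable fun ω =>
      (1 - ind (Dr hT m k τ (n : ℤ)) ω) * f0 (shift (n : ℤ) ω) * (1 - ind Bad ω) := by
    intro n
    exact ((measurable_const.sub (ind_meas (Dr_meas hT m k τ n))).mul
      (f0_meas.comp (measurable_shift _))).mul (measurable_const.sub (ind_meas hBadm))
  have hterm_nonneg : ∀ (n : ℕ) ω, 0 ≤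
      (1 - ind (Dr hT m k τ (n : ℤ)) ω) * f0 (shift (n : ℤ) ω) * (1 - ind Bad ω) := by
    intro n ω
    have a1 := ind_le (Dr hT m k τ (n : ℤ)) ω
    have a2 := ind_le Bad ω
    have a3 := f0_nonneg (shift (n : ℤ) ω)
    exact mul_nonneg (mul_nonneg (by linarith) a3) (by linarith)
  have hterm_le : ∀ (n : ℕ) ω,
      |(1 - ind (Dr hT m k τ (n : ℤ)) ω) * f0 (shift (n : ℤ) ω) * (1 - ind Bad ω)| ≤ 1 := by
    intro n ω
    rw [abs_of_nonneg (hterm_nonneg n ω)]
    have a1 := ind_le (Dr hT m k τ (n : ℤ)) ω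
    have a1' := ind_nonneg (Dr hT m k τ (n : ℤ)) ω
    have a2 := ind_le Bad ω
    have a2' := ind_nonneg Bad ω
    have a3 := f0_nonneg (shift (n : ℤ) ω)
    have a4 := f0_le (shift (n : ℤ) ω)
    calc (1 - ind (Dr hT m k τ (n : ℤ)) ω) * f0 (shift (n : ℤ) ω) * (1 - ind Bad ω) ≤ 1 * 1 * 1 := by
          apply mul_le_mul _ (by linarith) (by linarith) (by norm_num)
          exact mul_le_mul (by linarith) a4 a3 (by norm_num)
      _ = 1 := by norm_num
  have hFint : Integrable F μ := by
    apply integrable_finsetSum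
    intro n _
    exact int_of_bdd (hterm_meas n) 1 (hterm_le n)
  have hf0int : ∀ n : ℤ, ∫ ω, f0 (shift n ω) ∂μ = δ := by
    intro n
    rw [int_shift hT f0]
    exact int_ind measurableSet_cyl
  have hFlow : (δ - ε / 2) * (K * m) ≤ ∫ ω, F ω ∂μ := by
    rw [hF, integral_finsetSum]
    · have hone : ∀ n ∈ Finset.range (K * m), δ - ε / 2 ≤
          ∫ ω, (1 - ind (Dr hT m k τ (n : ℤ)) ω) * f0 (shift (n : ℤ) ω) * (1 - ind Bad ω) ∂μ := by
        intro n _
        have h1 : ∫ ω, f0 (shift (n : ℤ) ω) ∂μ ≤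
            ∫ ω, ((1 - ind (Dr hT m k τ (n : ℤ)) ω) * f0 (shift (n : ℤ) ω) * (1 - ind Bad ω) +
              (ind (Dr hT m k τ (n : ℤ)) ω * f0 (shift (n : ℤ) ω) + ind Bad ω)) ∂μ := by
          apply integral_mono
          · exact int_of_bdd (f0_meas.comp (measurable_shift _)) 1 (fun ω => by
              rw [abs_of_nonneg (f0_nonneg _)]; exact f0_le _)
          · refine (int_of_bdd (hterm_meas n) 1 (hterm_le n)).add (Integrable.add ?_ ?_)
            · refine int_of_bdd ((ind_meas (Dr_meas hT m k τ n)).mul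
                (f0_meas.comp (measurable_shift _))) 1 (fun ω => ?_)
              rw [abs_mul, abs_of_nonneg (f0_nonneg _)]
              have a1 := ind_abs (Dr hT m k τ (n : ℤ)) ω
              have a2 := f0_le (shift (n : ℤ) ω)
              have a3 := f0_nonneg (shift (n : ℤ) ω)
              calc |ind (Dr hT m k τ (n : ℤ)) ω| * f0 (shift (n : ℤ) ω) ≤ 1 * 1 := by gcongr
                _ = 1 := by norm_num
            · exact int_of_bdd (ind_meas hBadm) 1 (ind_abs Bad)
          · intro ω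
            simp only
            by_cases hb : ω ∈ Bad
            · rw [ind_of_mem hb]
              have a1 := ind_nonneg (Dr hT m k τ (n : ℤ)) ω
              have a3 := f0_nonneg (shift (n : ℤ) ω)
              have a4 := f0_le (shift (n : ℤ) ω)
              have : 0 ≤ ind (Dr hT m k τ (n : ℤ)) ω * f0 (shift (n : ℤ) ω) := mul_nonneg a1 a3
              linarith
            · rw [ind_of_notMem hb]
              linarith
        rw [hf0int, integral_add (int_of_bdd (hterm_meas n) 1 (hterm_le n)),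
          integral_add, int_ind hBadm] at h1
        · have := hmass (n : ℤ)
          linarith
        · refine int_of_bdd ((ind_meas (Dr_meas hT m k τ n)).mul
            (f0_meas.comp (measurable_shift _))) 1 (fun ω => ?_)
          rw [abs_mul, abs_of_nonneg (f0_nonneg _)]
          have a1 := ind_abs (Dr hT m k τ (n : ℤ)) ω
          have a2 := f0_le (shift (n : ℤ) ω)
          have a3 := f0_nonneg (shift (n : ℤ) ω)
          calc |ind (Dr hT m k τ (n : ℤ)) ω| * f0 (shift (n : ℤ) ω) ≤ 1 * 1 := by gcongr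
            _ = 1 := by norm_num
        · exact int_of_bdd (ind_meas hBadm) 1 (ind_abs Bad)
        · refine Integrable.add ?_ ?_
          · refine int_of_bdd ((ind_meas (Dr_meas hT m k τ n)).mul
                (f0_meas.comp (measurable_shift _))) 1 (fun ω => ?_)
            rw [abs_mul, abs_of_nonneg (f0_nonneg _)]
            have a1 := ind_abs (Dr hT m k τ (n : ℤ)) ω
            have a2 := f0_le (shift (n : ℤ) ω)
            have a3 := f0_nonneg (shift (n : ℤ) ω)
            calc |ind (Dr hT m k τ (n : ℤ)) ω| * f0 (shift (n : ℤ) ω) ≤ 1 * 1 := by gcongr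
              _ = 1 := by norm_num
          · exact int_of_bdd (ind_meas hBadm) 1 (ind_abs Bad)
      calc (δ - ε / 2) * (K * m) = ∑ n ∈ Finset.range (K * m), (δ - ε / 2) := by
            rw [Finset.sum_const, Finset.card_range, nsmul_eq_mul]; push_cast; ring
        _ ≤ _ := Finset.sum_le_sum hone
    · intro n _
      exact int_of_bdd (hterm_meas n) 1 (hterm_le n)
  -- pick ω
  have hEx := Ex_ae hT m k X hX
  obtain ⟨ω, hωE, hωF⟩ : ∃ ω, Ex hT m k X ω ∧ ∫ ω, F ω ∂μ ≤ F ω := by
    obtain ⟨ω, h1, h2⟩ := exists_notMem_null_integral_le hFint (N := {ω | ¬ Ex hT m k X ω})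
      (by rwa [ae_iff] at hEx)
    exact ⟨ω, by simpa using h1, h2⟩
  have hFpos : (δ - ε / 2) * (K * m) ≤ F ω := hFlow.trans hωF
  have hKm : (0 : ℝ) < K * m := by
    have : (0 : ℝ) < K := by exact_mod_cast hK
    positivity
  have hFpos2 : 0 < F ω := lt_of_lt_of_le (mul_pos (by linarith) hKm) hFpos
  have hnotbad : ω ∉ Bad := by
    intro hb
    have : F ω = 0 := by
      rw [hF]
      simp only
      apply Finset.sum_eq_zero
      intro n _
      rw [ind_of_mem hb]; ring
    linarith
  refine ⟨ω, {n : ℤ | ω ∉ Dr hT m k τ n}, ?_, ?_, ?_, ?_⟩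
  · intro n n' h hn
    simp only [Dr, Set.mem_ofPred_eq] at hn ⊢
    rwa [← Nr_congr hωE h]
  · intro r hr r' hr' hg
    -- reduce mod m
    have hmz : (m : ℤ) ≠ 0 := by exact_mod_cast (by omega : m ≠ 0)
    have hmp : (0 : ℤ) < m := by exact_mod_cast hm1
    set a : ℕ := (r % m).toNat with ha
    set b : ℕ := (r' % m).toNat with hb
    have ha1 : (a : ℤ) = r % m := Int.toNat_of_nonneg (Int.emod_nonneg _ hmz)
    have hb1 : (b : ℤ) = r' % m := Int.toNat_of_nonneg (Int.emod_nonneg _ hmz)
    have ha2 : (a : ℤ) ≡ r [ZMOD m] := by rw [ha1]; exact Int.mod_modEq r m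
    have hb2 : (b : ℤ) ≡ r' [ZMOD m] := by rw [hb1]; exact Int.mod_modEq r' m
    have ha3 : a < m := by
      have := Int.emod_lt_of_pos r hmp
      rw [← ha1] at this
      exact_mod_cast this
    have hb3 : b < m := by
      have := Int.emod_lt_of_pos r' hmp
      rw [← hb1] at this
      exact_mod_cast this
    apply hnotbad
    rw [hBad]
    simp only [Set.mem_iUnion]
    refine ⟨(a, b), ?_, ?_, ?_⟩
    · rw [hPairs, Finset.mem_filter]
      refine ⟨by simp [ha3, hb3], ?_⟩
      exact hg.congr (hb2.symm.sub ha2.symm)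
    · simp only [Dr, Set.mem_ofPred_eq, Set.mem_compl_iff] at hr ⊢
      rwa [Nr_congr hωE ha2]
    · simp only [Dr, Set.mem_ofPred_eq, Set.mem_compl_iff] at hr' ⊢
      rwa [Nr_congr hωE hb2]
  · exact hωE.2.2
  · have hcount : F ω ≤ (({n : ℕ | n < K * m ∧ (n : ℤ) ∈ {n : ℤ | ω ∉ Dr hT m k τ n} ∧ ω n = true}.ncard : ℕ) : ℝ) := by
      have hset : {n : ℕ | n < K * m ∧ (n : ℤ) ∈ {n : ℤ | ω ∉ Dr hT m k τ n} ∧ ω n = true} =
          ↑((Finset.range (K * m)).filter (fun n : ℕ => ω ∉ Dr hT m k τ (n : ℤ) ∧ ω n = true)) := by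
        ext n
        simp
      rw [hset, Set.ncard_coe_finset, Finset.card_filter]
      push_cast
      rw [hF]
      simp only
      apply Finset.sum_le_sum
      intro n _
      rw [ind_of_notMem hnotbad, sub_zero, mul_one]
      by_cases h1 : ω ∈ Dr hT m k τ (n : ℤ)
      · rw [ind_of_mem h1]
        simp [h1]
      · rw [ind_of_notMem h1]
        by_cases h2 : ω n = true
        · simp only [h1, not_false_eq_true, h2, and_self, if_true]
          have := f0_le (shift (n : ℤ) ω)
          linarith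
        · have : f0 (shift (n : ℤ) ω) = 0 := by
            apply Set.indicator_of_notMem
            rw [mem_cyl_shift]; exact h2
          rw [this]
          simp [h2]
    refine le_trans ?_ (hFpos.trans hcount)
    apply mul_le_mul_of_nonneg_right _ hKm.le
    linarith

end core2

end Pool.Agent.Lib.Pe70ed2
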