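import Pool.Agent.Lib.Pe70ed2.Defs

set_option autoImplicit false

namespace Pool.Agent.Lib.Pe70ed2

open MeasureTheory Filter Topology BoundedContinuousFunction

/-- The shift on two-sided binary sequences. -/
def shift (n : ℤ) (ω : ℤ → Bool) : ℤ → Bool := fun k => ω (k + n)

lemma continuous_shift (n : ℤ) : Continuous (shift n) :=
  continuous_pi fun k => continuous_apply (k + n)

lemma measurable_shift (n : ℤ) : Measurable (shift n) := (continuous_shift n).measurable

lemma shift_shift (a b : ℤ) (ω : ℤ → Bool) : shift a (shift b ω) = shift (a + b) ω := by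
  funext k; simp [shift, add_assoc]

lemma shift_zero (ω : ℤ → Bool) : shift 0 ω = ω := by funext k; simp [shift]

/-- The base cylinder. -/
def cyl : Set (ℤ → Bool) := {ω | ω 0 = true}

lemma isClopen_cyl : IsClopen cyl := by
  have : cyl = (fun ω : ℤ → Bool => ω 0) ⁻¹' {true} := rfl
  rw [this]
  exact (isClopen_discrete _).preimage (continuous_apply 0)

lemma measurableSet_cyl : MeasurableSet cyl := isClopen_cyl.isOpen.measurableSet

lemma mem_cyl_shift (n : ℤ) (ω : ℤ → Bool) : shift n ω ∈ cyl ↔ ω n = true := by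
  simp [cyl, shift]

open Classical in
/-- The point of the sequence space attached to a set of naturals. -/
noncomputable def pt (A : Set ℕ) : ℤ → Bool := fun k => decide (0 ≤ k ∧ k.toNat ∈ A)

lemma pt_true (A : Set ℕ) (k : ℤ) : pt A k = true ↔ 0 ≤ k ∧ k.toNat ∈ A := by
  simp [pt]

lemma pt_nat (A : Set ℕ) (k : ℕ) : pt A (k : ℤ) = true ↔ k ∈ A := by
  simp [pt]

/-- Empirical measures. -/
noncomputable def emp (ω : ℤ → Bool) (N : ℕ) : Measure (ℤ → Bool) :=
  ((N + 1 : ℕ) : ENNReal)⁻¹ • ∑ n ∈ Finset.Icc 1 (N + 1), Measure.dirac (shift (n : ℤ) ω)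

instance (ω : ℤ → Bool) (N : ℕ) : IsProbabilityMeasure (emp ω N) := by
  constructor
  rw [emp, Measure.smul_apply, Measure.finsetSum_apply]
  simp only [measure_univ, Finset.sum_const, Nat.card_Icc, add_tsub_cancel_right, nsmul_eq_mul,
    mul_one, smul_eq_mul]
  exact ENNReal.inv_mul_cancel (by simp) (by simp)

lemma integral_emp (ω : ℤ → Bool) (N : ℕ) (φ : (ℤ → Bool) →ᵇ ℝ) :
    ∫ x, φ x ∂(emp ω N) = ((N + 1 : ℕ) : ℝ)⁻¹ * ∑ n ∈ Finset.Icc 1 (N + 1), φ (shift (n : ℤ) ω) := by
  rw [emp, integral_smul_measure, integral_finsetSum_measure]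
  · simp only [integral_dirac, smul_eq_mul, ENNReal.toReal_inv]
    congr 1
  · intro i _
    exact φ.integrable _

/-- Density of the first `N+1` positive integers. -/
noncomputable def dens (A : Set ℕ) (N : ℕ) : ℝ := ((A ∩ Set.Icc 1 (N + 1)).ncard : ℝ) / ((N + 1 : ℕ) : ℝ)

/-- The indicator function of the base cylinder as a bounded continuous function. -/
noncomputable def cylFun : (ℤ → Bool) →ᵇ ℝ :=
  BoundedContinuousFunction.ofNormedAddCommGroup (cyl.indicator (fun _ => (1 : ℝ)))
    ((IsClopen.continuous_indicator isClopen_cyl continuous_const)) 1 (by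
      intro x
      by_cases h : x ∈ cyl
      · simp [h]
      · simp [h])

lemma cylFun_apply (ω : ℤ → Bool) : cylFun ω = cyl.indicator (fun _ => (1 : ℝ)) ω := rfl

/-- Abstract correspondence: any ultrafilter limit of the empirical measures. -/
theorem exists_limit (A : Set ℕ) (U : Ultrafilter ℕ) (hU : (U : Filter ℕ) ≤ atTop) (δ : ℝ)
    (hδ : Tendsto (dens A) U (𝓝 δ)) :
    ∃ μ : Measure (ℤ → Bool), IsProbabilityMeasure μ ∧
      (∀ n : ℤ, MeasurePreserving (shift n) μ μ) ∧
      μ.real cyl = δ ∧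
      ∀ x : ℤ, (∀ a ∈ A, ∀ b ∈ A, (b : ℤ) - a ≠ x) → μ (cyl ∩ shift x ⁻¹' cyl) = 0 := by
  set P : ℕ → ProbabilityMeasure (ℤ → Bool) := fun N => ⟨emp (pt A) N, inferInstance⟩ with hP
  obtain ⟨μ, -, hμ⟩ := (isCompact_univ (X := ProbabilityMeasure (ℤ → Bool))).ultrafilter_le_nhds'
    (U.map P) Filter.univ_mem
  have hlim : Tendsto P U (𝓝 μ) := hμ
  rw [ProbabilityMeasure.tendsto_iff_forall_integral_tendsto] at hlim
  have hlim' : ∀ φ : (ℤ → Bool) →ᵇ ℝ, Tendsto (fun N => ((N + 1 : ℕ) : ℝ)⁻¹ *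
      ∑ n ∈ Finset.Icc 1 (N + 1), φ (shift (n : ℤ) (pt A))) U (𝓝 (∫ x, φ x ∂(μ : Measure _))) := by
    intro φ
    refine (hlim φ).congr fun N => ?_
    exact integral_emp (pt A) N φ
  have hinv : Tendsto (fun N : ℕ => ((N + 1 : ℕ) : ℝ)⁻¹) U (𝓝 0) := by
    have : Tendsto (fun N : ℕ => ((N + 1 : ℕ) : ℝ)⁻¹) atTop (𝓝 0) :=
      (tendsto_inv_atTop_nhds_zero_nat (𝕜 := ℝ)).comp (tendsto_add_atTop_nat 1)
    exact this.mono_left hU
  classical
  have hcyl : ∀ n : ℕ, 1 ≤ n → cylFun (shift (n : ℤ) (pt A)) = if n ∈ A then 1 else 0 := by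
    intro n _
    rw [cylFun_apply]
    by_cases h : n ∈ A
    · rw [if_pos h, Set.indicator_of_mem]
      rw [mem_cyl_shift, pt_nat]; exact h
    · rw [if_neg h, Set.indicator_of_notMem]
      rw [mem_cyl_shift, pt_nat]; exact h
  refine ⟨(μ : Measure _), inferInstance, ?_, ?_, ?_⟩
  · -- invariance
    intro a
    refine ⟨measurable_shift a, ?_⟩
    have : IsProbabilityMeasure (Measure.map (shift a) (μ : Measure (ℤ → Bool))) :=
      Measure.isProbabilityMeasure_map (measurable_shift a).aemeasurable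
    apply ext_of_forall_integral_eq_of_IsFiniteMeasure
    intro φ
    rw [integral_map (measurable_shift a).aemeasurable
      φ.continuous.aestronglyMeasurable]
    set ψ : (ℤ → Bool) →ᵇ ℝ := φ.compContinuous ⟨shift a, continuous_shift a⟩ with hψ
    have h1 := hlim' φ
    have h2 := hlim' ψ
    have hdiff : Tendsto (fun N => ((N + 1 : ℕ) : ℝ)⁻¹ *
        ∑ n ∈ Finset.Icc 1 (N + 1), ψ (shift (n : ℤ) (pt A)) - ((N + 1 : ℕ) : ℝ)⁻¹ *
        ∑ n ∈ Finset.Icc 1 (N + 1), φ (shift (n : ℤ) (pt A))) U (𝓝 0) := by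
      have hb : ∀ N : ℕ, |((N + 1 : ℕ) : ℝ)⁻¹ *
        ∑ n ∈ Finset.Icc 1 (N + 1), ψ (shift (n : ℤ) (pt A)) - ((N + 1 : ℕ) : ℝ)⁻¹ *
        ∑ n ∈ Finset.Icc 1 (N + 1), φ (shift (n : ℤ) (pt A))| ≤
          (2 * (a.natAbs : ℝ) * ‖φ‖) * ((N + 1 : ℕ) : ℝ)⁻¹ := by
        intro N
        rw [← mul_sub, abs_mul, mul_comm, abs_of_nonneg (by positivity : (0 : ℝ) ≤ ((N + 1 : ℕ) : ℝ)⁻¹)]
        refine mul_le_mul_of_nonneg_right ?_ (by positivity)
        -- telescoping
        have hψ' : ∀ n : ℕ, ψ (shift (n : ℤ) (pt A)) = φ (shift ((n : ℤ) + a) (pt A)) := by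
          intro n
          rw [hψ]
          simp only [BoundedContinuousFunction.compContinuous_apply, ContinuousMap.coe_mk]
          rw [shift_shift, add_comm]
        simp_rw [hψ']
        set F : ℤ → ℝ := fun k => φ (shift k (pt A)) with hF
        have hFb : ∀ k, |F k| ≤ ‖φ‖ := fun k => φ.norm_coe_le_norm _
        -- general statement about sums over integer intervals
        have hsum : ∀ b : ℤ, ∑ n ∈ Finset.Icc 1 (N + 1), F ((n : ℤ) + b) =
            ∑ k ∈ Finset.Icc (1 + b) ((N : ℤ) + 1 + b), F k := by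
          intro b
          refine Finset.sum_nbij' (fun n : ℕ => (n : ℤ) + b) (fun k : ℤ => (k - b).toNat) ?_ ?_ ?_ ?_ ?_
          · intro n hn; simp only [Finset.mem_Icc] at hn ⊢; omega
          · intro k hk; simp only [Finset.mem_Icc] at hk ⊢; omega
          · intro n hn; simp
          · intro k hk; simp only [Finset.mem_Icc] at hk; simp; omega
          · intro n hn; rfl
        have e1 := hsum a
        have e0 := hsum 0
        simp only [add_zero] at e0
        show |∑ n ∈ Finset.Icc 1 (N + 1), F ((n : ℤ) + a) - ∑ n ∈ Finset.Icc 1 (N + 1), F (n : ℤ)| ≤ _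
        rw [e1, e0]
        set I := Finset.Icc (1 + a) ((N : ℤ) + 1 + a) with hI
        set J := Finset.Icc (1 : ℤ) ((N : ℤ) + 1) with hJ
        have hIJ : ∑ k ∈ I, F k - ∑ k ∈ J, F k = ∑ k ∈ I \ J, F k - ∑ k ∈ J \ I, F k := by
          have h1 := Finset.sum_inter_add_sum_sdiff I J F
          have h2 := Finset.sum_inter_add_sum_sdiff J I F
          rw [Finset.inter_comm J I] at h2
          linarith
        rw [hIJ]
        have hc1 : ((I \ J).card : ℝ) ≤ a.natAbs := by
          have : (I \ J) ⊆ (if 0 ≤ a then Finset.Icc ((N : ℤ) + 2) ((N : ℤ) + 1 + a)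
              else Finset.Icc (1 + a) 0) := by
            intro k hk
            simp only [hI, hJ, Finset.mem_sdiff, Finset.mem_Icc] at hk
            split_ifs with ha <;> simp only [Finset.mem_Icc] <;> omega
          have h3 := Finset.card_le_card this
          have h4 : (if 0 ≤ a then Finset.Icc ((N : ℤ) + 2) ((N : ℤ) + 1 + a)
              else Finset.Icc (1 + a) 0).card ≤ a.natAbs := by
            split_ifs with ha <;> simp only [Int.card_Icc] <;> omega
          exact_mod_cast h3.trans h4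
        have hc2 : ((J \ I).card : ℝ) ≤ a.natAbs := by
          have : (J \ I) ⊆ (if 0 ≤ a then Finset.Icc (1 : ℤ) a
              else Finset.Icc ((N : ℤ) + 2 + a) ((N : ℤ) + 1)) := by
            intro k hk
            simp only [hI, hJ, Finset.mem_sdiff, Finset.mem_Icc] at hk
            split_ifs with ha <;> simp only [Finset.mem_Icc] <;> omega
          have h3 := Finset.card_le_card this
          have h4 : (if 0 ≤ a then Finset.Icc (1 : ℤ) a
              else Finset.Icc ((N : ℤ) + 2 + a) ((N : ℤ) + 1)).card ≤ a.natAbs := by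
            split_ifs with ha <;> simp only [Int.card_Icc] <;> omega
          exact_mod_cast h3.trans h4
        have hb1 : |∑ k ∈ I \ J, F k| ≤ a.natAbs * ‖φ‖ := by
          refine (Finset.abs_sum_le_sum_abs _ _).trans ?_
          refine (Finset.sum_le_card_nsmul _ _ _ (fun k _ => hFb k)).trans ?_
          rw [nsmul_eq_mul]
          exact mul_le_mul_of_nonneg_right hc1 (norm_nonneg _)
        have hb2 : |∑ k ∈ J \ I, F k| ≤ a.natAbs * ‖φ‖ := by
          refine (Finset.abs_sum_le_sum_abs _ _).trans ?_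
          refine (Finset.sum_le_card_nsmul _ _ _ (fun k _ => hFb k)).trans ?_
          rw [nsmul_eq_mul]
          exact mul_le_mul_of_nonneg_right hc2 (norm_nonneg _)
        calc |∑ k ∈ I \ J, F k - ∑ k ∈ J \ I, F k| ≤ |∑ k ∈ I \ J, F k| + |∑ k ∈ J \ I, F k| :=
              abs_sub _ _
          _ ≤ a.natAbs * ‖φ‖ + a.natAbs * ‖φ‖ := add_le_add hb1 hb2
          _ = 2 * (a.natAbs : ℝ) * ‖φ‖ := by ring
      refine squeeze_zero_norm hb ?_
      simpa using hinv.const_mul (2 * (a.natAbs : ℝ) * ‖φ‖)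
    have h3 := h2.sub h1
    have h4 := tendsto_nhds_unique h3 hdiff
    have : ∫ x, φ (shift a x) ∂(μ : Measure _) = ∫ x, ψ x ∂(μ : Measure _) := rfl
    rw [this]
    linarith
  · -- the density
    have h1 := hlim' cylFun
    have h2 : ∀ N : ℕ, ((N + 1 : ℕ) : ℝ)⁻¹ *
        ∑ n ∈ Finset.Icc 1 (N + 1), cylFun (shift (n : ℤ) (pt A)) = dens A N := by
      intro N
      have : ∑ n ∈ Finset.Icc 1 (N + 1), cylFun (shift (n : ℤ) (pt A)) =
          ((A ∩ Set.Icc 1 (N + 1)).ncard : ℝ) := by
        rw [Finset.sum_congr rfl (fun n hn => hcyl n (Finset.mem_Icc.1 hn).1)]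
        classical
        rw [Finset.sum_ite, Finset.sum_const_zero, add_zero, Finset.sum_const, nsmul_eq_mul, mul_one]
        congr 1
        rw [← Set.ncard_coe_finset]
        congr 1
        ext n
        simp only [Finset.coe_filter, Finset.mem_Icc, Set.mem_ofPred_eq, Set.mem_inter_iff, Set.mem_Icc]
        tauto
      rw [this, dens, div_eq_inv_mul]
    simp_rw [h2] at h1
    have h3 := tendsto_nhds_unique h1 hδ
    rw [← h3]
    show μ.1.real cyl = ∫ x, cyl.indicator (fun _ => (1 : ℝ)) x ∂(μ : Measure _)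
    rw [integral_indicator_const _ measurableSet_cyl]
    simp
  · intro x hx
    set ψ : (ℤ → Bool) →ᵇ ℝ := cylFun * cylFun.compContinuous ⟨shift x, continuous_shift x⟩ with hψ
    have h1 := hlim' ψ
    have hle : ∀ N : ℕ, |((N + 1 : ℕ) : ℝ)⁻¹ *
        ∑ n ∈ Finset.Icc 1 (N + 1), ψ (shift (n : ℤ) (pt A))| ≤ 0 := by
      intro N
      have : ∑ n ∈ Finset.Icc 1 (N + 1), ψ (shift (n : ℤ) (pt A)) = 0 := by
        apply Finset.sum_eq_zero
        intro n hn
        rw [hψ]
        simp only [BoundedContinuousFunction.mul_apply,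
          BoundedContinuousFunction.compContinuous_apply, ContinuousMap.coe_mk]
        by_contra hne
        have hn1 : cylFun (shift (n : ℤ) (pt A)) ≠ 0 := left_ne_zero_of_mul hne
        have hn2 : cylFun (shift x (shift (n : ℤ) (pt A))) ≠ 0 := right_ne_zero_of_mul hne
        rw [cylFun_apply, Set.indicator_apply_ne_zero] at hn1 hn2
        have m1 := hn1.1
        have m2 := hn2.1
        rw [mem_cyl_shift, pt_nat] at m1
        rw [shift_shift, mem_cyl_shift, pt_true] at m2
        exact hx n m1 _ m2.2 (by omega)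
      rw [this]; simp
    have h2 : Tendsto (fun N => ((N + 1 : ℕ) : ℝ)⁻¹ *
        ∑ n ∈ Finset.Icc 1 (N + 1), ψ (shift (n : ℤ) (pt A))) U (𝓝 0) := by
      refine tendsto_const_nhds.congr fun N => ?_
      have := hle N
      exact (abs_nonpos_iff.1 this).symm
    have h3 := tendsto_nhds_unique h1 h2
    have h4 : ∫ y, ψ y ∂(μ : Measure _) = (μ : Measure _).real (cyl ∩ shift x ⁻¹' cyl) := by
      have : ∀ y, ψ y = (cyl ∩ shift x ⁻¹' cyl).indicator (fun _ => (1 : ℝ)) y := by
        intro y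
        rw [hψ]
        simp only [BoundedContinuousFunction.mul_apply,
          BoundedContinuousFunction.compContinuous_apply, ContinuousMap.coe_mk, cylFun_apply]
        by_cases h1 : y ∈ cyl
        · by_cases h2 : shift x y ∈ cyl
          · have h3 : y ∈ cyl ∩ shift x ⁻¹' cyl := ⟨h1, h2⟩
            rw [Set.indicator_of_mem h1, Set.indicator_of_mem h2, Set.indicator_of_mem h3]
            norm_num
          · have h3 : y ∉ cyl ∩ shift x ⁻¹' cyl := fun h => h2 h.2
            rw [Set.indicator_of_notMem h2, Set.indicator_of_notMem h3]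
            norm_num
        · have h3 : y ∉ cyl ∩ shift x ⁻¹' cyl := fun h => h1 h.1
          rw [Set.indicator_of_notMem h1, Set.indicator_of_notMem h3]
          norm_num
      simp_rw [this]
      rw [integral_indicator_const _
        (measurableSet_cyl.inter ((measurable_shift x) measurableSet_cyl))]
      simp
    rw [h3] at h4
    exact (measureReal_eq_zero_iff (by finiteness)).1 h4.symm

lemma ratio_nonneg (A : Set ℕ) (N : ℕ) : 0 ≤ ((A ∩ Set.Icc 1 N).ncard : ℝ) / (N : ℝ) := by positivity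

lemma ratio_le_one (A : Set ℕ) (N : ℕ) : ((A ∩ Set.Icc 1 N).ncard : ℝ) / (N : ℝ) ≤ 1 := by
  rcases Nat.eq_zero_or_pos N with rfl | hN
  · simp
  · rw [div_le_one (by exact_mod_cast hN)]
    have : (A ∩ Set.Icc 1 N).ncard ≤ (Set.Icc 1 N).ncard :=
      Set.ncard_le_ncard Set.inter_subset_right (Set.finite_Icc _ _)
    have h2 : (Set.Icc 1 N).ncard = N := by
      rw [← Finset.coe_Icc, Set.ncard_coe_finset]; simp
    rw [h2] at this
    exact_mod_cast this

theorem correspondence (A : Set ℕ) :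
    ∃ μ : Measure (ℤ → Bool), IsProbabilityMeasure μ ∧
      (∀ n : ℤ, MeasurePreserving (shift n) μ μ) ∧
      μ.real cyl = upperDensity A ∧
      ∀ x : ℤ, (∀ a ∈ A, ∀ b ∈ A, (b : ℤ) - a ≠ x) → μ (cyl ∩ shift x ⁻¹' cyl) = 0 := by
  set r : ℕ → ℝ := fun N => ((A ∩ Set.Icc 1 N).ncard : ℝ) / (N : ℝ) with hr
  have hbdd : IsBoundedUnder (· ≤ ·) atTop r := isBoundedUnder_of ⟨1, fun N => ratio_le_one A N⟩
  have hcob : IsCoboundedUnder (· ≤ ·) atTop r :=
    (isBoundedUnder_of ⟨0, fun N => ratio_nonneg A N⟩ : IsBoundedUnder (· ≥ ·) atTop r).isCoboundedUnder_le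
  -- the upper density is a cluster point of the ratios
  have hclus : MapClusterPt (upperDensity A) atTop (dens A) := by
    rw [mapClusterPt_iff_frequently]
    intro s hs
    obtain ⟨ε, hε, hball⟩ := Metric.mem_nhds_iff.1 hs
    have h1 : ∀ᶠ N in atTop, r N < upperDensity A + ε :=
      eventually_lt_of_limsup_lt (by show limsup r atTop < _; unfold upperDensity; linarith) hbdd
    have h2 : ∃ᶠ N in atTop, upperDensity A - ε < r N :=
      frequently_lt_of_lt_limsup hcob (by show _ < limsup r atTop; unfold upperDensity; linarith)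
    have h3 : ∃ᶠ N in atTop, r (N + 1) ∈ Metric.ball (upperDensity A) ε := by
      have h4 : ∃ᶠ N in atTop, r N ∈ Metric.ball (upperDensity A) ε := by
        refine (h2.and_eventually h1).mono fun N hN => ?_
        rw [Metric.mem_ball, Real.dist_eq, abs_lt]
        constructor <;> linarith [hN.1, hN.2]
      rw [frequently_atTop] at h4 ⊢
      intro a
      obtain ⟨b, hb, hb2⟩ := h4 (a + 1)
      exact ⟨b - 1, by omega, by rwa [Nat.sub_add_cancel (by omega)]⟩
    refine h3.mono fun N hN => hball ?_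
    have : dens A N = r (N + 1) := rfl
    rw [this]; exact hN
  rw [mapClusterPt_iff_ultrafilter] at hclus
  obtain ⟨U, hU, hUt⟩ := hclus
  exact exists_limit A U hU _ hUt

end Pool.Agent.Lib.Pe70ed2
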