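import Mathlib

set_option autoImplicit false

namespace Pool.Agent.Lib.Pe70ed2

open Filter

/-- Upper density of a set of natural numbers: the limsup of `|A ∩ {1, ..., N}| / N`. -/
noncomputable def upperDensity (A : Set ℕ) : ℝ :=
  limsup (fun N : ℕ => ((A ∩ Set.Icc 1 N).ncard : ℝ) / (N : ℝ)) atTop

/-- `(A - A) ∩ X ⊆ {0}`. -/
def Avoids (A : Set ℕ) (X : Set ℤ) : Prop :=
  ∀ a ∈ A, ∀ b ∈ A, (a : ℤ) - b ∈ X → (a : ℤ) - b = 0

/-- `μ(X)`: the supremum of the upper densities of sets of positive integers avoiding `X`. -/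
noncomputable def mu (X : Set ℤ) : ℝ :=
  sSup {d : ℝ | ∃ A : Set ℕ, 0 ∉ A ∧ Avoids A X ∧ d = upperDensity A}

/-- The residue classes modulo `m` containing a nonzero element of `X`. -/
def Xmod (X : Set ℤ) (m : ℕ) : Set (ZMod m) := {c | ∃ x ∈ X, x ≠ 0 ∧ (x : ZMod m) = c}

/-- `d_X(m)`: the largest size of a set of residues modulo `m` whose differences avoid `Xmod X m`. -/
noncomputable def dX (X : Set ℤ) (m : ℕ) : ℕ :=
  sSup {k : ℕ | ∃ B : Finset (ZMod m), (∀ a ∈ B, ∀ b ∈ B, a - b ∉ Xmod X m) ∧ B.card = k}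

end Pool.Agent.Lib.Pe70ed2
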