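import Pool.Agent.Lib.Pe70ed2.SieveAP
import Pool.Agent.Lib.Pe70ed2.Cells

set_option autoImplicit false

namespace Pool.Agent.Lib.Pe70ed2

open Finset ArithmeticFunction

lemma hyperbola (f : ℕ → ℕ → ℂ) (y Y : ℕ) :
    ∑ n ∈ Finset.Ioc y Y, ∑ x ∈ n.divisorsAntidiagonal, f x.1 x.2 =
      ∑ d ∈ Finset.Icc 1 Y, ∑ m ∈ Finset.Ioc (y / d) (Y / d), f d m := by
  rw [Finset.sum_sigma', Finset.sum_sigma']
  refine Finset.sum_nbij' (fun x => (⟨x.2.1, x.2.2⟩ : (_ : ℕ) × ℕ))
    (fun x => (⟨x.1 * x.2, (x.1, x.2)⟩ : (_ : ℕ) × (ℕ × ℕ))) ?_ ?_ ?_ ?_ ?_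
  · rintro ⟨n, d, m⟩ hx
    simp only [Finset.mem_sigma, Finset.mem_Ioc, Nat.mem_divisorsAntidiagonal, Finset.mem_Icc] at hx ⊢
    obtain ⟨⟨h1, h2⟩, h3, h4⟩ := hx
    have hd : 0 < d := Nat.pos_of_ne_zero (by rintro rfl; simp at h3; omega)
    have hm : 0 < m := Nat.pos_of_ne_zero (by rintro rfl; simp at h3; omega)
    refine ⟨⟨hd, ?_⟩, ?_, ?_⟩
    · nlinarith
    · rw [Nat.div_lt_iff_lt_mul hd, mul_comm, h3]; exact h1
    · rw [Nat.le_div_iff_mul_le hd, mul_comm, h3]; exact h2
  · rintro ⟨d, m⟩ hx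
    simp only [Finset.mem_sigma, Finset.mem_Ioc, Nat.mem_divisorsAntidiagonal, Finset.mem_Icc] at hx ⊢
    obtain ⟨⟨h1, h2⟩, h3, h4⟩ := hx
    have hd : 0 < d := h1
    rw [Nat.div_lt_iff_lt_mul hd] at h3
    rw [Nat.le_div_iff_mul_le hd] at h4
    refine ⟨⟨by rw [mul_comm]; exact h3, by rw [mul_comm]; exact h4⟩, trivial, ?_⟩
    have : 0 < m * d := by omega
    rw [mul_comm]; exact this.ne'
  · rintro ⟨n, d, m⟩ hx
    simp only [Finset.mem_sigma, Finset.mem_Ioc, Nat.mem_divisorsAntidiagonal] at hx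
    simp only [hx.2.1]
  · rintro ⟨d, m⟩ _; rfl
  · rintro ⟨n, d, m⟩ _; rfl

lemma rough_mul {z : ℝ} {q a b : ℕ} : rough z q (a * b) ↔ rough z q a ∧ rough z q b := by
  constructor
  · intro h
    exact ⟨fun p hp hz hd => h p hp hz (hd.mul_right b), fun p hp hz hd => h p hp hz (hd.mul_left a)⟩
  · rintro ⟨ha, hb⟩ p hp hz hd
    rcases (Nat.Prime.dvd_mul hp).1 hd with h | h
    · exact ha p hp hz h
    · exact hb p hp hz h

/-- A rough number coprime to the modulus, other than `1`, is at least `z`. -/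
lemma rough_ge {z : ℝ} {q n : ℕ} (h : rough z q n) (hc : n.Coprime q) (h1 : n ≠ 1) (h0 : n ≠ 0) :
    z ≤ n := by
  by_contra hcon
  push Not at hcon
  have hp := Nat.minFac_prime h1
  have hd := Nat.minFac_dvd n
  have hle : (n.minFac : ℝ) < z := by
    have : n.minFac ≤ n := Nat.minFac_le (Nat.pos_of_ne_zero h0)
    have : (n.minFac : ℝ) ≤ n := by exact_mod_cast this
    linarith
  have hq := h n.minFac hp hle hd
  have := Nat.dvd_gcd hd hq
  rw [hc] at this
  exact hp.one_lt.ne' (Nat.dvd_one.1 this)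

open Classical in
noncomputable def acoef (z L : ℝ) (q v : ℕ) (d : ℕ) : ℂ :=
  if rough z q d ∧ d ≡ v [MOD q] then ((Λ d / L : ℝ) : ℂ) else 0

open Classical in
noncomputable def bcoef (z : ℝ) (q w : ℕ) (m : ℕ) : ℂ :=
  if m ≠ 1 ∧ rough z q m ∧ m ≡ w [MOD q] then 1 else 0

lemma class_split (q : ℕ) (hq : 0 < q) (u d m : ℕ) (c : ℂ) :
    (if d * m ≡ u [MOD q] then c else 0) = ∑ v ∈ range q, ∑ w ∈ range q,
      if v * w ≡ u [MOD q] ∧ d ≡ v [MOD q] ∧ m ≡ w [MOD q] then c else 0 := by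
  rw [Finset.sum_eq_single_of_mem (d % q) (Finset.mem_range.2 (Nat.mod_lt _ hq)),
    Finset.sum_eq_single_of_mem (m % q) (Finset.mem_range.2 (Nat.mod_lt _ hq))]
  · have h1 : d ≡ d % q [MOD q] := (Nat.mod_modEq d q).symm
    have h2 : m ≡ m % q [MOD q] := (Nat.mod_modEq m q).symm
    have h3 : (d * m ≡ u [MOD q]) ↔ (d % q * (m % q) ≡ u [MOD q]) := by
      have := Nat.ModEq.mul h1 h2
      exact ⟨fun h => this.symm.trans h, fun h => this.trans h⟩
    by_cases h : d * m ≡ u [MOD q]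
    · rw [if_pos h, if_pos ⟨h3.1 h, h1, h2⟩]
    · rw [if_neg h, if_neg (fun h' => h (h3.2 h'.1))]
  · intro w hw hne
    rw [if_neg]
    rintro ⟨-, -, h⟩
    apply hne
    have : m % q = w % q := h
    rw [this, Nat.mod_eq_of_lt (Finset.mem_range.1 hw)]
  · intro v hv hne
    apply Finset.sum_eq_zero
    intro w _
    rw [if_neg]
    rintro ⟨-, h, -⟩
    apply hne
    have : d % q = v % q := h
    rw [this, Nat.mod_eq_of_lt (Finset.mem_range.1 hv)]

/-- Restricting the range of the first variable. -/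
lemma restrict_range (f : ℕ → ℕ → ℂ) (y Y j0 j1 : ℕ)
    (h : ∀ d m, 1 ≤ d → d ≤ Y → m ∈ Finset.Ioc (y / d) (Y / d) → f d m ≠ 0 → 2 ^ j0 ≤ d ∧ d < 2 ^ j1) :
    ∑ d ∈ Finset.Icc 1 Y, ∑ m ∈ Finset.Ioc (y / d) (Y / d), f d m =
      ∑ d ∈ Finset.Ico (2 ^ j0 : ℕ) (2 ^ j1), ∑ m ∈ Finset.Ioc (y / d) (Y / d), f d m := by
  classical
  set g : ℕ → ℂ := fun d => ∑ m ∈ Finset.Ioc (y / d) (Y / d), f d m with hg
  have e1 : ∑ d ∈ Finset.Icc 1 Y, g d = ∑ d ∈ Finset.Icc 1 Y ∪ Finset.Ico (2 ^ j0 : ℕ) (2 ^ j1), g d := by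
    apply Finset.sum_subset Finset.subset_union_left
    intro d hd hd2
    rw [Finset.mem_Icc] at hd2
    rw [Finset.mem_union, Finset.mem_Icc, Finset.mem_Ico] at hd
    have h2 : 0 < 2 ^ j0 := by positivity
    have h3 : Y < d := by omega
    have h4 : Y / d = 0 := Nat.div_eq_of_lt h3
    simp only [hg]
    rw [h4]
    simp
  have e2 : ∑ d ∈ Finset.Ico (2 ^ j0 : ℕ) (2 ^ j1), g d =
      ∑ d ∈ Finset.Icc 1 Y ∪ Finset.Ico (2 ^ j0 : ℕ) (2 ^ j1), g d := by
    apply Finset.sum_subset Finset.subset_union_right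
    intro d hd hd2
    rw [Finset.mem_Ico] at hd2
    rw [Finset.mem_union, Finset.mem_Icc, Finset.mem_Ico] at hd
    simp only [hg]
    apply Finset.sum_eq_zero
    intro m hm
    by_contra hne
    have := h d m (by omega) (by omega) hm hne
    omega
  rw [e1, e2]

/-- The combinatorial identity for primes. -/
theorem main_identity (z : ℝ) (q u X y H j0 j1 : ℕ) (hq : 0 < q) (hu : u.Coprime q) (hX : y + H ≤ X)
    (hX2 : 2 ≤ X) (hz0 : ((2 ^ j0 : ℕ) : ℝ) ≤ z) (hz1 : (X : ℝ) < z * 2 ^ j1) (F : ℕ → ℂ)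
    (R : Finset ℕ) (hR : ∀ x, x ∈ R ↔ x ∈ Finset.Ioc y (y + H) ∧ x ≡ u [MOD q] ∧ rough z q x)
    (B : ℝ) (hB : ∀ v w : ℕ, v * w ≡ u [MOD q] →
      ‖∑ d ∈ Finset.Ico (2 ^ j0 : ℕ) (2 ^ j1), ∑ m ∈ Finset.Ioc (y / d) ((y + H) / d),
        acoef z (Real.log X) q v d * bcoef z q w m * F (d * m)‖ ≤ B) :
    ‖∑ n ∈ R, (Λ n : ℂ) * F n‖ ≤ ‖∑ n ∈ R, (Real.log n : ℂ) * F n‖ + Real.log X * (q ^ 2 * B) := by
  classical
  have hX1 : (1 : ℝ) < X := by
    have : (2 : ℝ) ≤ X := by exact_mod_cast hX2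
    linarith
  have hL : 0 < Real.log X := Real.log_pos hX1
  set L := Real.log X with hLdef
  have hLC : (L : ℂ) ≠ 0 := by exact_mod_cast hL.ne'
  set g : ℕ → ℂ := fun n => if n ≡ u [MOD q] ∧ rough z q n then F n else 0 with hg
  have hRf : R = (Finset.Ioc y (y + H)).filter (fun n => n ≡ u [MOD q] ∧ rough z q n) := by
    ext x; rw [hR, Finset.mem_filter]
  have hsumR : ∀ c : ℕ → ℂ, ∑ n ∈ R, c n * F n = ∑ n ∈ Finset.Ioc y (y + H), c n * g n := by
    intro c
    rw [hRf, Finset.sum_filter]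
    apply Finset.sum_congr rfl
    intro n _
    simp only [hg]
    split_ifs <;> simp
  rw [hsumR (fun n => (Λ n : ℂ)), hsumR (fun n => (Real.log n : ℂ))]
  -- expand the logarithm
  have hlog : ∀ n ∈ Finset.Ioc y (y + H), (Real.log n : ℂ) * g n = (Λ n : ℂ) * g n +
      ∑ x ∈ n.divisorsAntidiagonal, (if x.2 = 1 then 0 else (Λ x.1 : ℂ) * g (x.1 * x.2)) := by
    intro n hn
    rw [Finset.mem_Ioc] at hn
    have hn0 : n ≠ 0 := by omega
    have h1 : (Real.log n : ℂ) * g n = ∑ x ∈ n.divisorsAntidiagonal, (Λ x.1 : ℂ) * g (x.1 * x.2) := by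
      have h2 : Real.log n = ∑ x ∈ n.divisorsAntidiagonal, Λ x.1 := by
        rw [Nat.sum_divisorsAntidiagonal (fun i _ => Λ i)]
        exact vonMangoldt_sum.symm
      rw [h2]
      push_cast
      rw [Finset.sum_mul]
      apply Finset.sum_congr rfl
      intro x hx
      rw [(Nat.mem_divisorsAntidiagonal.1 hx).1]
    rw [h1]
    have hmem : (n, 1) ∈ n.divisorsAntidiagonal := by
      rw [Nat.mem_divisorsAntidiagonal]; exact ⟨by simp, hn0⟩
    rw [← Finset.add_sum_erase _ _ hmem, ← Finset.add_sum_erase _ (fun x : ℕ × ℕ =>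
      (if x.2 = 1 then 0 else (Λ x.1 : ℂ) * g (x.1 * x.2))) hmem]
    simp only [mul_one, if_true, zero_add]
    congr 1
    apply Finset.sum_congr rfl
    intro x hx
    rw [Finset.mem_erase] at hx
    have : x.2 ≠ 1 := by
      intro h2
      apply hx.1
      have := (Nat.mem_divisorsAntidiagonal.1 hx.2).1
      rw [h2, mul_one] at this
      ext
      · exact this
      · exact h2
    rw [if_neg this]
  have hsum : ∑ n ∈ Finset.Ioc y (y + H), (Λ n : ℂ) * g n = ∑ n ∈ Finset.Ioc y (y + H), (Real.log n : ℂ) * g n -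
      ∑ d ∈ Finset.Icc 1 (y + H), ∑ m ∈ Finset.Ioc (y / d) ((y + H) / d),
        (if m = 1 then 0 else (Λ d : ℂ) * g (d * m)) := by
    rw [← hyperbola (fun d m => if m = 1 then 0 else (Λ d : ℂ) * g (d * m)), Finset.sum_congr rfl hlog,
      Finset.sum_add_distrib]
    ring
  rw [hsum]
  refine (norm_sub_le _ _).trans (add_le_add_right ?_ _)
  -- decompose into classes
  have hterm : ∀ d m : ℕ, (if m = 1 then 0 else (Λ d : ℂ) * g (d * m)) =
      ∑ v ∈ range q, ∑ w ∈ range q, if v * w ≡ u [MOD q] then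
        (L : ℂ) * (acoef z L q v d * bcoef z q w m * F (d * m)) else 0 := by
    intro d m
    by_cases hm : m = 1
    · rw [if_pos hm]
      symm
      apply Finset.sum_eq_zero; intro v _
      apply Finset.sum_eq_zero; intro w _
      have : bcoef z q w m = 0 := by unfold bcoef; rw [if_neg (fun h => h.1 hm)]
      rw [this]; simp
    · rw [if_neg hm]
      have e1 : (Λ d : ℂ) * g (d * m) = if d * m ≡ u [MOD q] then
          (if rough z q (d * m) then (Λ d : ℂ) * F (d * m) else 0) else 0 := by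
        simp only [hg]
        by_cases h1 : d * m ≡ u [MOD q] <;> by_cases h2 : rough z q (d * m) <;> simp [h1, h2]
      rw [e1, class_split q hq]
      apply Finset.sum_congr rfl; intro v _
      apply Finset.sum_congr rfl; intro w _
      by_cases h1 : v * w ≡ u [MOD q]
      · simp only [h1, true_and, if_true]
        unfold acoef bcoef
        by_cases h2 : d ≡ v [MOD q] <;> by_cases h3 : m ≡ w [MOD q] <;> by_cases h4 : rough z q d <;>
          by_cases h5 : rough z q m <;> simp [h2, h3, h4, h5, hm, rough_mul]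
        field_simp
      · simp only [h1, false_and, if_false]
  have hswap : ∑ d ∈ Finset.Icc 1 (y + H), ∑ m ∈ Finset.Ioc (y / d) ((y + H) / d),
        (if m = 1 then 0 else (Λ d : ℂ) * g (d * m)) =
      ∑ v ∈ range q, ∑ w ∈ range q, if v * w ≡ u [MOD q] then (L : ℂ) *
        ∑ d ∈ Finset.Icc 1 (y + H), ∑ m ∈ Finset.Ioc (y / d) ((y + H) / d),
          acoef z L q v d * bcoef z q w m * F (d * m) else 0 := by
    have e1 : ∀ d ∈ Finset.Icc 1 (y + H), ∑ m ∈ Finset.Ioc (y / d) ((y + H) / d),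
        (if m = 1 then 0 else (Λ d : ℂ) * g (d * m)) =
        ∑ v ∈ range q, ∑ w ∈ range q, ∑ m ∈ Finset.Ioc (y / d) ((y + H) / d),
          (if v * w ≡ u [MOD q] then (L : ℂ) * (acoef z L q v d * bcoef z q w m * F (d * m)) else 0) := by
      intro d _
      rw [Finset.sum_congr rfl (fun m _ => hterm d m), Finset.sum_comm]
      apply Finset.sum_congr rfl; intro v _
      rw [Finset.sum_comm]
    rw [Finset.sum_congr rfl e1, Finset.sum_comm]
    apply Finset.sum_congr rfl; intro v _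
    rw [Finset.sum_comm]
    apply Finset.sum_congr rfl; intro w _
    by_cases h1 : v * w ≡ u [MOD q]
    · simp only [h1, if_true]
      rw [Finset.mul_sum]
      apply Finset.sum_congr rfl; intro d _
      rw [Finset.mul_sum]
    · simp only [h1, if_false]
      simp
  rw [hswap]
  have hvw : ∀ v ∈ range q, ∀ w ∈ range q, ‖(if v * w ≡ u [MOD q] then (L : ℂ) *
        ∑ d ∈ Finset.Icc 1 (y + H), ∑ m ∈ Finset.Ioc (y / d) ((y + H) / d),
          acoef z L q v d * bcoef z q w m * F (d * m) else 0)‖ ≤ L * B := by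
    intro v _ w _
    split_ifs with h
    · rw [norm_mul, Complex.norm_real, Real.norm_of_nonneg hL.le]
      apply mul_le_mul_of_nonneg_left _ hL.le
      have hcop : (v * w).Coprime q := by
        have : Nat.gcd (v * w) q = Nat.gcd u q := h.gcd_eq
        rw [Nat.Coprime, this]; exact hu
      rw [restrict_range (fun d m => acoef z L q v d * bcoef z q w m * F (d * m)) y (y + H) j0 j1]
      · exact hB v w h
      · intro d m hd1 hd2 hm hne
        have ha : acoef z L q v d ≠ 0 := fun h0 => hne (by simp [h0])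
        have hb : bcoef z q w m ≠ 0 := fun h0 => hne (by simp [h0])
        have ha1 : rough z q d ∧ d ≡ v [MOD q] := by
          by_contra hcon
          exact ha (by unfold acoef; rw [if_neg hcon])
        have hb1 : m ≠ 1 ∧ rough z q m ∧ m ≡ w [MOD q] := by
          by_contra hcon
          exact hb (by unfold bcoef; rw [if_neg hcon])
        · have hdc : d.Coprime q := by
            have : Nat.gcd d q = Nat.gcd v q := ha1.2.gcd_eq
            rw [Nat.Coprime, this]
            exact Nat.Coprime.coprime_mul_right hcop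
          have hmc : m.Coprime q := by
            have : Nat.gcd m q = Nat.gcd w q := hb1.2.2.gcd_eq
            rw [Nat.Coprime, this]
            exact Nat.Coprime.coprime_mul_left hcop
          have hd3 : d ≠ 1 := by
            rintro rfl
            apply ha
            unfold acoef
            simp
          have hm0 : m ≠ 0 := by
            rw [Finset.mem_Ioc] at hm
            exact (lt_of_le_of_lt (Nat.zero_le _) hm.1).ne'
          have hdz := rough_ge ha1.1 hdc hd3 (by omega)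
          have hmz := rough_ge hb1.2.1 hmc hb1.1 hm0
          constructor
          · have : ((2 ^ j0 : ℕ) : ℝ) ≤ d := hz0.trans hdz
            exact_mod_cast this
          · rw [Finset.mem_Ioc, Nat.le_div_iff_mul_le (by omega)] at hm
            have h1 : (m : ℝ) * d ≤ X := by
              have : m * d ≤ X := hm.2.trans hX
              exact_mod_cast this
            have hz : 0 < z := lt_of_lt_of_le (by positivity) hz0
            have hd0 : (0 : ℝ) ≤ d := Nat.cast_nonneg d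
            have h2 : z * d < z * 2 ^ j1 := by
              calc z * d ≤ m * d := mul_le_mul_of_nonneg_right hmz hd0
                _ ≤ X := h1
                _ < _ := hz1
            have h3 := lt_of_mul_lt_mul_left h2 hz.le
            exact_mod_cast h3
    · rw [norm_zero]
      have hB0 : 0 ≤ B := by
        have := hB 1 u (by rw [one_mul])
        exact (norm_nonneg _).trans this
      positivity
  refine (norm_sum_le _ _).trans ?_
  have h1 : ∀ v ∈ range q, ‖∑ w ∈ range q, (if v * w ≡ u [MOD q] then (L : ℂ) *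
        ∑ d ∈ Finset.Icc 1 (y + H), ∑ m ∈ Finset.Ioc (y / d) ((y + H) / d),
          acoef z L q v d * bcoef z q w m * F (d * m) else 0)‖ ≤ q * (L * B) := by
    intro v hv
    refine (norm_sum_le _ _).trans ?_
    refine (Finset.sum_le_card_nsmul _ _ _ (hvw v hv)).trans ?_
    rw [Finset.card_range, nsmul_eq_mul]
  refine (Finset.sum_le_card_nsmul _ _ _ h1).trans (le_of_eq ?_)
  rw [Finset.card_range, nsmul_eq_mul]
  ring

/-- Removing the logarithm on a short interval. -/
lemma log_sum (X y H : ℕ) (hy : 1 ≤ y) (hX : y + H ≤ X) (F : ℕ → ℂ) (hF : ∀ n, ‖F n‖ ≤ 1)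
    (R : Finset ℕ) (hR : R ⊆ Finset.Ioc y (y + H)) :
    ‖∑ n ∈ R, (Real.log n : ℂ) * F n‖ ≤ Real.log X * ‖∑ n ∈ R, F n‖ + (H : ℝ) * (H / y) := by
  have hy0 : (0 : ℝ) < y := by exact_mod_cast hy
  have hyH0 : (0 : ℝ) < ((y + H : ℕ) : ℝ) := by push_cast; positivity
  have e1 : ∑ n ∈ R, (Real.log n : ℂ) * F n = (Real.log ((y + H : ℕ) : ℝ) : ℂ) * ∑ n ∈ R, F n +
      ∑ n ∈ R, ((Real.log n - Real.log ((y + H : ℕ) : ℝ) : ℝ) : ℂ) * F n := by
    rw [Finset.mul_sum, ← Finset.sum_add_distrib]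
    apply Finset.sum_congr rfl
    intro n _
    push_cast; ring
  rw [e1]
  refine (norm_add_le _ _).trans (add_le_add ?_ ?_)
  · rw [norm_mul, Complex.norm_real]
    apply mul_le_mul_of_nonneg_right _ (norm_nonneg _)
    rw [Real.norm_of_nonneg]
    · apply Real.log_le_log hyH0
      exact_mod_cast hX
    · apply Real.log_nonneg
      have : 1 ≤ y + H := by omega
      exact_mod_cast this
  · have h1 : ∀ n ∈ R, ‖((Real.log n - Real.log ((y + H : ℕ) : ℝ) : ℝ) : ℂ) * F n‖ ≤ (H : ℝ) / y := by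
      intro n hn
      have hn2 := hR hn
      rw [Finset.mem_Ioc] at hn2
      have hn0 : (0 : ℝ) < n := by
        have : 0 < n := by omega
        exact_mod_cast this
      have hyn : (y : ℝ) ≤ n := by exact_mod_cast hn2.1.le
      have hnH : (n : ℝ) ≤ ((y + H : ℕ) : ℝ) := by exact_mod_cast hn2.2
      rw [norm_mul, Complex.norm_real, Real.norm_eq_abs, abs_sub_comm]
      have h2 : |Real.log ((y + H : ℕ) : ℝ) - Real.log n| ≤ (H : ℝ) / y := by
        rw [abs_of_nonneg (sub_nonneg.2 (Real.log_le_log hn0 hnH)), ← Real.log_div hyH0.ne' hn0.ne']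
        have h3 := Real.log_le_sub_one_of_pos (div_pos hyH0 hn0)
        refine h3.trans ?_
        have h4 : ((y + H : ℕ) : ℝ) / n ≤ ((y + H : ℕ) : ℝ) / y :=
          div_le_div_of_nonneg_left hyH0.le hy0 hyn
        have h5 : ((y + H : ℕ) : ℝ) / y = 1 + H / y := by push_cast; field_simp
        linarith
      calc _ ≤ (H : ℝ) / y * 1 := mul_le_mul h2 (hF n) (norm_nonneg _) (by positivity)
        _ = _ := mul_one _
    refine (norm_sum_le _ _).trans ((Finset.sum_le_card_nsmul _ _ _ h1).trans ?_)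
    rw [nsmul_eq_mul]
    apply mul_le_mul_of_nonneg_right _ (by positivity)
    have := Finset.card_le_card hR
    rw [Nat.card_Ioc] at this
    have h2 : y + H - y = H := by omega
    rw [h2] at this
    exact_mod_cast this

end Pool.Agent.Lib.Pe70ed2
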