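import Pool.Agent.Lib.Pe70ed2.ParamMajor

set_option autoImplicit false

namespace Pool.Agent.Lib.Pe70ed2

open Finset ArithmeticFunction Filter Topology

lemma tendsto_loglog : Tendsto (fun T : ℝ => (1 + Real.log T) ^ 2 / T) atTop (𝓝 0) := by
  have h1 : Tendsto (fun T : ℝ => Real.log T ^ 2 / T) atTop (𝓝 0) := by
    have := (Real.isLittleO_pow_log_id_atTop (n := 2)).tendsto_div_nhds_zero
    simpa using this
  have h2 := h1.const_mul 4
  rw [mul_zero] at h2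
  refine squeeze_zero' ?_ ?_ h2
  · filter_upwards [eventually_gt_atTop 0] with T hT
    positivity
  · filter_upwards [eventually_ge_atTop (Real.exp 1)] with T hT
    have hT0 : 0 < T := lt_of_lt_of_le (Real.exp_pos 1) hT
    have hl : 1 ≤ Real.log T := (Real.le_log_iff_exp_le hT0).2 hT
    rw [← mul_div_assoc]
    apply div_le_div_of_nonneg_right _ hT0.le
    nlinarith

lemma exists_beta (C0 ε : ℝ) (hε : 0 < ε) : ∃ β : ℕ, (4 * (β : ℝ) + 8) * C0 / 4 ^ β ≤ ε := by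
  have h1 : Tendsto (fun n : ℕ => (n : ℝ) * (1 / 4 : ℝ) ^ n) atTop (𝓝 0) :=
    tendsto_self_mul_const_pow_of_lt_one (by norm_num) (by norm_num)
  have h2 : Tendsto (fun n : ℕ => (1 / 4 : ℝ) ^ n) atTop (𝓝 0) :=
    tendsto_pow_atTop_nhds_zero_of_lt_one (by norm_num) (by norm_num)
  have h3 := (h1.const_mul (4 * C0)).add (h2.const_mul (8 * C0))
  rw [mul_zero, mul_zero, add_zero] at h3
  obtain ⟨β, hβ⟩ := (h3.eventually (ge_mem_nhds hε)).exists
  refine ⟨β, le_trans (le_of_eq ?_) hβ⟩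
  rw [one_div, inv_pow]
  field_simp

lemma irr_gap (θ : ℝ) (hθ : Irrational θ) (Q : ℕ) :
    ∃ η : ℝ, 0 < η ∧ ∀ q : ℕ, 1 ≤ q → q < Q → ∀ a : ℤ, η ≤ |θ - a / q| := by
  induction Q with
  | zero => exact ⟨1, one_pos, fun q _ h => absurd h (Nat.not_lt_zero q)⟩
  | succ Q ih =>
    obtain ⟨η, hη, h⟩ := ih
    rcases Nat.eq_zero_or_pos Q with hQ | hQ
    · refine ⟨η, hη, fun q h1 h2 => ?_⟩
      omega
    · have hQR : (0 : ℝ) < Q := by exact_mod_cast hQ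
      have hirr : Irrational (Q * θ) := hθ.natCast_mul (by omega)
      have hpos : 0 < |(Q : ℝ) * θ - round ((Q : ℝ) * θ)| := by
        rw [abs_pos, sub_ne_zero]
        exact hirr.ne_int _
      refine ⟨min η (|(Q : ℝ) * θ - round ((Q : ℝ) * θ)| / Q), lt_min hη (by positivity), ?_⟩
      intro q h1 h2 a
      rcases Nat.lt_succ_iff_lt_or_eq.1 h2 with h3 | h3
      · exact (min_le_left _ _).trans (h q h1 h3 a)
      · refine (min_le_right _ _).trans ?_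
        rw [div_le_iff₀ hQR, h3]
        have h4 := round_le ((Q : ℝ) * θ) a
        refine h4.trans (le_of_eq ?_)
        rw [← abs_of_pos hQR, ← abs_mul, abs_of_pos hQR]
        congr 1
        field_simp

lemma floor_H {X W : ℝ} (hW : 0 < W) (hWX : W ≤ X) :
    ∃ H : ℕ, 1 ≤ H ∧ (H : ℝ) * W ≤ X ∧ X ≤ 2 * H * W := by
  have h1 : 1 ≤ X / W := (one_le_div hW).2 hWX
  have h2 : 1 ≤ ⌊X / W⌋₊ := Nat.le_floor (by simpa using h1)
  have h2R : (1 : ℝ) ≤ (⌊X / W⌋₊ : ℝ) := by exact_mod_cast h2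
  refine ⟨⌊X / W⌋₊, h2, ?_, ?_⟩
  · rw [← le_div_iff₀ hW]
    exact Nat.floor_le (by linarith)
  · rw [← div_le_iff₀ hW]
    have := Nat.lt_floor_add_one (X / W)
    linarith

/-- Cancellation in short intervals. -/
theorem interval_bound (k : ℕ) (h : Polynomial ℤ) (hdeg : h.natDegree = k + 1) (m0 u : ℕ) (hm0 : 0 < m0)
    (hu : u.Coprime m0) (θ : ℝ) (hθ : Irrational θ) (ε : ℝ) (hε : 0 < ε) :
    ∃ M0 N0 : ℕ, 1 ≤ M0 ∧ 8 * M0 ≤ N0 ∧ ∀ᶠ T : ℝ in atTop, ∀ X : ℕ, (X : ℝ) = T ^ N0 →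
      ∃ H : ℕ, 1 ≤ H ∧ (H : ℝ) * T ≤ X ∧ ∀ y : ℕ, (X : ℝ) ≤ y * T → y + H ≤ X → ∀ R : Finset ℕ,
        (∀ x, x ∈ R ↔ x ∈ Finset.Ioc y (y + H) ∧ x ≡ u [MOD m0] ∧ rough (T ^ M0) m0 x) →
        ‖∑ n ∈ R, (Λ n : ℂ) * Fθ h θ n‖ ≤ H * ε := by
  obtain ⟨C, hC1, hC, hW⟩ := exists_const k
  obtain ⟨C0, hC0, hS, hUp⟩ := exists_sieve
  obtain ⟨Ch, hCh0, hCh⟩ := poly_lip h k hdeg.le
  obtain ⟨β, hβ⟩ := exists_beta C0 (ε / 4) (by linarith)
  set e1 : ℕ := C + 5 with he1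
  set δ : ℕ := C + (e1 + 3) * (k + 1) + 1 with hδ
  set M0 : ℕ := 2 * δ + 14 with hM0
  set N0 : ℕ := (4 * β + 8) * M0 with hN0
  have hh0 : h ≠ 0 := by
    rintro rfl
    simp at hdeg
  have hlc : h.leadingCoeff ≠ 0 := Polynomial.leadingCoeff_ne_zero.2 hh0
  have hc1 : (1 : ℝ) ≤ |(h.leadingCoeff : ℝ)| := by
    have : 1 ≤ |h.leadingCoeff| := Int.one_le_abs hlc
    exact_mod_cast this
  set c := |(h.leadingCoeff : ℝ)| with hc
  have hNM : 8 * M0 ≤ N0 := by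
    rw [hN0]; exact Nat.mul_le_mul_right _ (by omega)
  have hm0R : (1 : ℝ) ≤ m0 := by exact_mod_cast hm0
  -- threshold for q
  have hPsi := (Psi_tendsto C m0 c hC1 hm0 hc1).mul_const
    ((4 * (β : ℝ) + 8) * C0 * m0 ^ 2 + 27 * N0 ^ 2 * m0 ^ 2 * C0 ^ 2)
  rw [zero_mul] at hPsi
  obtain ⟨Q1, hQ1⟩ := eventually_atTop.1 (hPsi.eventually (ge_mem_nhds (show (0 : ℝ) < ε / 4 by linarith)))
  obtain ⟨Q2, hQ2⟩ := exists_nat_ge (2 ^ C * (2 * c))
  obtain ⟨η, hη0, hη⟩ := irr_gap θ hθ (max Q1 Q2)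
  refine ⟨M0, N0, by omega, hNM, ?_⟩
  -- thresholds for T
  have ev1 := (tendsto_loglog.const_mul (55 * (N0 : ℝ) ^ 2 * m0 ^ 2)).eventually
    (ge_mem_nhds (show 55 * (N0 : ℝ) ^ 2 * m0 ^ 2 * 0 < ε / 4 by rw [mul_zero]; linarith))
  have ev2 := (tendsto_loglog.const_mul ((7 * Ch + 15) * (N0 : ℝ) ^ 2 * m0 ^ 2)).eventually
    (ge_mem_nhds (show (7 * Ch + 15) * (N0 : ℝ) ^ 2 * m0 ^ 2 * 0 < ε / 4 by rw [mul_zero]; linarith))
  have ev3 := (tendsto_loglog.const_mul (96 * (m0 : ℝ))).eventually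
    (ge_mem_nhds (show 96 * (m0 : ℝ) * 0 < C0 by rw [mul_zero]; exact hC0))
  filter_upwards [eventually_ge_atTop 32, eventually_ge_atTop (4 * (m0 : ℝ)), eventually_ge_atTop c,
    eventually_gt_atTop (1 / η), ev1, ev2, ev3] with T t1 t2 t3 t4 t5 t6 t7
  intro X hX
  have hT0 : (0 : ℝ) < T := by linarith
  have hT1 : (1 : ℝ) ≤ T := by linarith
  by_cases hm : ∀ r : ℕ, 1 ≤ r → (r : ℝ) ≤ T ^ δ → ¬ Near (r * θ) (T ^ δ / (X : ℝ) ^ (k + 1))
  · -- minor arcs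
    obtain ⟨H, hH, hH1, hH2⟩ := floor_H (X := X) (W := T ^ 2) (by positivity)
      (by rw [hX]; exact pow_le_pow_right₀ hT1 (by omega))
    refine ⟨H, hH, ?_, ?_⟩
    · refine le_trans ?_ hH1
      apply mul_le_mul_of_nonneg_left _ (Nat.cast_nonneg H)
      exact le_self_pow₀ hT1 (by norm_num)
    · intro y hy hyX R hR
      refine (minor_case k C hC1 hC hW C0 hC0 hS h hdeg θ m0 u hm0 hu e1 δ M0 N0 β he1 hδ hM0 hN0 T t1 t2 t3 X
        hX hm H hH1 hH2 y hy hyX R hR).trans ?_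
      apply mul_le_mul_of_nonneg_left _ (Nat.cast_nonneg H)
      linarith
  · push Not at hm
    obtain ⟨r, hr1, hr2, n, hn⟩ := hm
    set x : ℚ := (n : ℚ) / (r : ℚ) with hx
    have hr0 : (0 : ℝ) < r := by
      have : 0 < r := by omega
      exact_mod_cast this
    have hqr : x.den ≤ r := by
      have h1 : ((x.den : ℕ) : ℤ) ∣ (r : ℤ) := by
        have h2 := Rat.den_dvd n r
        rw [Rat.divInt_eq_div] at h2
        rw [hx]
        simpa using h2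
      exact Nat.le_of_dvd (by omega) (Int.natCast_dvd_natCast.1 h1)
    have hqrR : ((x.den : ℕ) : ℝ) ≤ r := by exact_mod_cast hqr
    have hxR : (x.num : ℝ) / ((x.den : ℕ) : ℝ) = (n : ℝ) / r := by
      have h1 : ((x : ℚ) : ℝ) = (x.num : ℝ) / ((x.den : ℕ) : ℝ) := Rat.cast_def x
      rw [← h1, hx]
      push_cast
      rfl
    have hx0 : (0 : ℝ) < X := by rw [hX]; positivity
    have hdist : |θ - (x.num : ℝ) / ((x.den : ℕ) : ℝ)| * (X : ℝ) ^ (k + 1) ≤ T ^ δ := by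
      rw [hxR]
      have h1 : θ - (n : ℝ) / r = (r * θ - n) / r := by field_simp
      rw [h1, abs_div, abs_of_pos hr0]
      have h2 : |(r : ℝ) * θ - n| / r ≤ |(r : ℝ) * θ - n| := by
        apply div_le_self (abs_nonneg _)
        exact_mod_cast hr1
      calc |(r : ℝ) * θ - n| / r * (X : ℝ) ^ (k + 1) ≤ |(r : ℝ) * θ - n| * (X : ℝ) ^ (k + 1) := by gcongr
        _ ≤ T ^ δ / (X : ℝ) ^ (k + 1) * (X : ℝ) ^ (k + 1) := by gcongr
        _ = T ^ δ := by field_simp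
    have hqbig : max Q1 Q2 ≤ x.den := by
      by_contra hneg
      rw [not_le] at hneg
      have h1 := hη x.den x.den_pos hneg x.num
      have h2 : T ^ δ * T ≤ (X : ℝ) ^ (k + 1) := by
        calc T ^ δ * T = T ^ (δ + 1) := by ring
          _ ≤ T ^ N0 := pow_le_pow_right₀ hT1 (by omega)
          _ = X := hX.symm
          _ ≤ (X : ℝ) ^ (k + 1) := le_self_pow₀ (by rw [hX]; exact one_le_pow₀ hT1) (by omega)
      have h3 : η * (T ^ δ * T) ≤ 1 * T ^ δ := by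
        calc η * (T ^ δ * T) ≤ |θ - (x.num : ℝ) / ((x.den : ℕ) : ℝ)| * (X : ℝ) ^ (k + 1) := by gcongr
          _ ≤ 1 * T ^ δ := by rw [one_mul]; exact hdist
      have h4 : η * T * T ^ δ ≤ 1 * T ^ δ := by linarith
      have h5 : η * T ≤ 1 := le_of_mul_le_mul_right h4 (by positivity)
      rw [div_lt_iff₀ hη0] at t4
      linarith
    have hcop : IsCoprime x.num ((x.den : ℕ) : ℤ) := by
      rw [Int.isCoprime_iff_gcd_eq_one]
      exact x.reduced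
    obtain ⟨H, hH, hH1, hH2⟩ := floor_H (X := X) (W := T ^ (δ + 2)) (by positivity)
      (by rw [hX]; exact pow_le_pow_right₀ hT1 (by omega))
    refine ⟨H, hH, ?_, ?_⟩
    · refine le_trans ?_ hH1
      apply mul_le_mul_of_nonneg_left _ (Nat.cast_nonneg H)
      exact le_self_pow₀ hT1 (by omega)
    · intro y hy hyX R hR
      have hQ2' : 2 ^ C * (2 * c) ≤ ((x.den : ℕ) : ℝ) := by
        refine hQ2.trans ?_
        exact_mod_cast (le_max_right Q1 Q2).trans hqbig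
      have hP := hQ1 x.den ((le_max_left Q1 Q2).trans hqbig)
      have hTL : 96 * (m0 : ℝ) * (1 + Real.log T) ^ 2 ≤ C0 * T := by
        rw [← div_le_iff₀ hT0, mul_div_assoc]
        exact t7
      refine (major_case k C hC1 hC C0 hC0 hS hUp h hdeg θ Ch hCh hCh0 m0 u hm0 hu δ M0 N0 β hM0 hN0 T t1
        hTL X hX x.den x.num x.den_pos (hqrR.trans hr2) hcop hQ2' hdist H hH1 hH2 y hy hyX R hR).trans ?_
      apply mul_le_mul_of_nonneg_left _ (Nat.cast_nonneg H)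
      have e1 : (4 * (β : ℝ) + 8) * C0 * (m0 ^ 2 * Psi C m0 c x.den + 1 / 4 ^ β) +
          27 * N0 ^ 2 * m0 ^ 2 * C0 ^ 2 * Psi C m0 c x.den =
          Psi C m0 c x.den * ((4 * (β : ℝ) + 8) * C0 * m0 ^ 2 + 27 * N0 ^ 2 * m0 ^ 2 * C0 ^ 2) +
            (4 * (β : ℝ) + 8) * C0 / 4 ^ β := by ring
      rw [e1]
      linarith

end Pool.Agent.Lib.Pe70ed2
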