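import Mathlib

set_option autoImplicit false

namespace Pool.Agent.Lib.Pe70ed2

open MeasureTheory Filter Topology ComplexConjugate
open scoped CompactlySupported

section Spectral

variable {H : Type*} [NormedAddCommGroup H] [InnerProductSpace ℂ H] [CompleteSpace H]

/-- The functional calculus of a unitary, as a star algebra hom. -/
noncomputable def Phi (u : unitary (H →L[ℂ] H)) :
    C(spectrum ℂ (u : H →L[ℂ] H), ℂ) →⋆ₐ[ℂ] (H →L[ℂ] H) :=
  cfcHom (R := ℂ) (a := (u : H →L[ℂ] H)) (p := IsStarNormal) inferInstance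

lemma norm_spec (u : unitary (H →L[ℂ] H)) (z : spectrum ℂ (u : H →L[ℂ] H)) : ‖(z : ℂ)‖ = 1 :=
  spectrum.norm_eq_one_of_unitary u.2 z.2

/-- The character `z ↦ z ^ x` on the spectrum. -/
noncomputable def chr (u : unitary (H →L[ℂ] H)) (x : ℤ) :
    C(spectrum ℂ (u : H →L[ℂ] H), ℂ) :=
  ⟨fun z => (z : ℂ) ^ x, by
    refine continuous_iff_continuousAt.2 fun z => ?_
    have hz : (z : ℂ) ≠ 0 := by
      have := norm_spec u z
      intro h
      rw [h] at this
      simp at this
    exact ContinuousAt.zpow₀ (continuous_subtype_val.continuousAt) x (Or.inl hz)⟩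

lemma chr_apply (u : unitary (H →L[ℂ] H)) (x : ℤ) (z : spectrum ℂ (u : H →L[ℂ] H)) :
    chr u x z = (z : ℂ) ^ x := rfl

lemma Phi_chr_nat (u : unitary (H →L[ℂ] H)) (n : ℕ) :
    Phi u (chr u n) = (u : H →L[ℂ] H) ^ n := by
  have h1 : chr u n = ((ContinuousMap.id ℂ).restrict (spectrum ℂ (u : H →L[ℂ] H))) ^ n := by
    ext z
    simp [chr_apply]
  rw [h1, map_pow]
  congr 1
  exact cfcHom_id _

lemma Phi_chr (u : unitary (H →L[ℂ] H)) (x : ℤ) :
    Phi u (chr u x) = ((u ^ x : unitary (H →L[ℂ] H)) : H →L[ℂ] H) := by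
  obtain ⟨n, rfl | rfl⟩ := x.eq_nat_or_neg
  · rw [Phi_chr_nat]; simp
  · have h1 : chr u (-(n : ℤ)) = star (chr u n) := by
      ext z
      have hz := norm_spec u z
      simp only [chr_apply, ContinuousMap.star_apply, zpow_neg, zpow_natCast]
      rw [RCLike.star_def, map_pow, ← inv_pow]
      congr 1
      rw [Complex.inv_def]
      have : Complex.normSq (z : ℂ) = 1 := by rw [Complex.normSq_eq_norm_sq, hz]; norm_num
      rw [this]; simp
    rw [h1, map_star, Phi_chr_nat]
    simp [← Unitary.star_eq_inv]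

/-- A real continuous function on the spectrum, seen as a complex one. -/
noncomputable def toC {S : Type*} [TopologicalSpace S] (φ : C_c(S, ℝ)) : C(S, ℂ) :=
  ⟨fun z => ((φ z : ℝ) : ℂ), Complex.continuous_ofReal.comp φ.continuous⟩

/-- The positive functional `φ ↦ re ⟪g, φ(u) g⟫`. -/
noncomputable def Lam (u : unitary (H →L[ℂ] H)) (g : H) :
    C_c(spectrum ℂ (u : H →L[ℂ] H), ℝ) →ₚ[ℝ] ℝ where
  toFun φ := (inner ℂ g (Phi u (toC φ) g)).re
  map_add' φ ψ := by
    have : toC (φ + ψ) = toC φ + toC ψ := by ext z; simp [toC]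
    rw [this, map_add, add_apply, inner_add_right, Complex.add_re]
  map_smul' c φ := by
    have : toC (c • φ) = (c : ℂ) • toC φ := by ext z; simp [toC]
    rw [this, map_smul, smul_apply, inner_smul_right, Complex.re_ofReal_mul]
    simp
  monotone' φ ψ h := by
    -- φ ≤ ψ : write ψ - φ = θ ^ 2
    set θ : C(spectrum ℂ (u : H →L[ℂ] H), ℂ) :=
      ⟨fun z => ((Real.sqrt (ψ z - φ z) : ℝ) : ℂ), by
        refine Complex.continuous_ofReal.comp (Real.continuous_sqrt.comp ?_)
        exact ψ.continuous.sub φ.continuous⟩ with hθ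
    have h1 : toC ψ = toC φ + star θ * θ := by
      ext z
      have hz : 0 ≤ ψ z - φ z := sub_nonneg.2 (h z)
      simp only [toC, hθ, ContinuousMap.coe_mk, ContinuousMap.add_apply, ContinuousMap.mul_apply,
        ContinuousMap.star_apply, RCLike.star_def, Complex.conj_ofReal]
      rw [← Complex.ofReal_mul, Real.mul_self_sqrt hz]
      push_cast; ring
    have h2 : (inner ℂ g (Phi u (star θ * θ) g)).re = ‖Phi u θ g‖ ^ 2 := by
      rw [map_mul, map_star, mul_apply_eq_comp, ContinuousLinearMap.star_eq_adjoint,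
        ContinuousLinearMap.adjoint_inner_right]
      exact inner_self_eq_norm_sq (𝕜 := ℂ) _
    show (inner ℂ g (Phi u (toC φ) g)).re ≤ (inner ℂ g (Phi u (toC ψ) g)).re
    rw [h1, map_add, add_apply, inner_add_right, Complex.add_re, h2]
    nlinarith [sq_nonneg ‖Phi u θ g‖]

theorem exists_spectral_measure (u : unitary (H →L[ℂ] H)) (g : H) :
    ∃ σ : Measure (spectrum ℂ (u : H →L[ℂ] H)), IsFiniteMeasure σ ∧
      ∀ F : C(spectrum ℂ (u : H →L[ℂ] H), ℂ), ∫ z, ‖F z‖ ^ 2 ∂σ = ‖Phi u F g‖ ^ 2 := by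
  refine ⟨RealRMK.rieszMeasure (Lam u g), ?_, ?_⟩
  · infer_instance
  · intro F
    set φ : C_c(spectrum ℂ (u : H →L[ℂ] H), ℝ) :=
      ⟨⟨fun z => ‖F z‖ ^ 2, (F.continuous.norm).pow 2⟩, HasCompactSupport.of_compactSpace _⟩ with hφ
    have h := RealRMK.integral_rieszMeasure (Lam u g) φ
    have h1 : toC φ = star F * F := by
      ext z
      simp only [toC, hφ, ContinuousMap.coe_mk, ContinuousMap.mul_apply,
        ContinuousMap.star_apply, RCLike.star_def]
      rw [← Complex.normSq_eq_conj_mul_self, Complex.normSq_eq_norm_sq]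
      rfl
    have h2 : (Lam u g) φ = ‖Phi u F g‖ ^ 2 := by
      show (inner ℂ g (Phi u (toC φ) g)).re = _
      rw [h1, map_mul, map_star, mul_apply_eq_comp,
        ContinuousLinearMap.star_eq_adjoint, ContinuousLinearMap.adjoint_inner_right]
      exact inner_self_eq_norm_sq (𝕜 := ℂ) _
    rw [← h2, ← h]
    rfl

/-- Orthogonality to all vectors fixed by some positive power of `u`. -/
def OrthRat (u : unitary (H →L[ℂ] H)) (g : H) : Prop :=
  ∀ m : ℕ, 1 ≤ m → ∀ v : H, ((u : H →L[ℂ] H) ^ m) v = v → inner ℂ v g = 0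

/-- The spectral measure of a vector orthogonal to the rational spectrum has no rational atoms. -/
theorem no_rational_atom (u : unitary (H →L[ℂ] H)) (g : H) (hg : OrthRat u g)
    (σ : Measure (spectrum ℂ (u : H →L[ℂ] H))) [IsFiniteMeasure σ]
    (hσ : ∀ F : C(spectrum ℂ (u : H →L[ℂ] H), ℂ), ∫ z, ‖F z‖ ^ 2 ∂σ = ‖Phi u F g‖ ^ 2)
    (z₀ : spectrum ℂ (u : H →L[ℂ] H)) (m : ℕ) (hm : 1 ≤ m) (hz : (z₀ : ℂ) ^ m = 1) :
    σ {z₀} = 0 := by
  set c : ℂ := conj (z₀ : ℂ) with hc
  have hz1 : ‖(z₀ : ℂ)‖ = 1 := norm_spec u z₀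
  have hcz : c * (z₀ : ℂ) = 1 := by
    rw [hc, ← Complex.normSq_eq_conj_mul_self, Complex.normSq_eq_norm_sq, hz1]; norm_num
  have hc1 : ‖c‖ = 1 := by rw [hc, RCLike.norm_conj, hz1]
  set V : H →L[ℂ] H := c • (u : H →L[ℂ] H) with hV
  have hVnorm : ‖V‖ ≤ 1 := by
    rw [hV, norm_smul, hc1, one_mul]
    exact ContinuousLinearMap.opNorm_le_bound _ zero_le_one (fun x => by
      rw [one_mul]
      exact (Unitary.norm_map u x).le)
  have hfix : (V.eqLocus (1 : H →L[ℂ] H)).orthogonalProjectionOnto g = 0 := by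
    rw [Submodule.orthogonalProjectionOnto_eq_zero_iff]
    rw [Submodule.mem_orthogonal]
    intro v hv
    apply hg m hm v
    have hv1 : c • (u : H →L[ℂ] H) v = v := by
      have := hv
      rw [LinearMap.mem_eqLocus] at this
      simpa [hV] using this
    have hv2 : (u : H →L[ℂ] H) v = (z₀ : ℂ) • v := by
      calc (u : H →L[ℂ] H) v = (c * (z₀ : ℂ)) • (u : H →L[ℂ] H) v := by rw [hcz, one_smul]
        _ = (z₀ : ℂ) • (c • (u : H →L[ℂ] H) v) := by rw [smul_smul, mul_comm]
        _ = _ := by rw [hv1]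
    have hv3 : ∀ n : ℕ, ((u : H →L[ℂ] H) ^ n) v = (z₀ : ℂ) ^ n • v := by
      intro n
      induction n with
      | zero => simp
      | succ n ih =>
        rw [pow_succ', mul_apply_eq_comp, ih, map_smul, hv2, smul_smul, pow_succ]
    rw [hv3 m, hz, one_smul]
  have htend := ContinuousLinearMap.tendsto_birkhoffAverage_orthogonalProjection V hVnorm g
  rw [hfix] at htend
  -- the test functions
  set F : ℕ → C(spectrum ℂ (u : H →L[ℂ] H), ℂ) := fun N =>
    ((N : ℂ)⁻¹) • ∑ n ∈ Finset.range N, (c ^ n) • chr u n with hF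
  have hPhi : ∀ N, Phi u (F N) g = birkhoffAverage ℂ V _root_.id N g := by
    intro N
    rw [hF]
    simp only [map_smul, map_sum, Phi_chr_nat, birkhoffAverage, birkhoffSum]
    rw [smul_apply, sum_apply]
    congr 1
    apply Finset.sum_congr rfl
    intro n _
    have : ∀ n : ℕ, (⇑V)^[n] g = (c ^ n) • ((u : H →L[ℂ] H) ^ n) g := by
      intro n
      induction n with
      | zero => simp
      | succ n ih =>
        rw [Function.iterate_succ', Function.comp_apply, ih, hV, smul_apply,
          map_smul, smul_smul, pow_succ' (u : H →L[ℂ] H), mul_apply_eq_comp, pow_succ']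
    rw [this n]
    simp
  have hFz : ∀ N, 1 ≤ N → ‖F N z₀‖ = 1 := by
    intro N hN
    have : F N z₀ = 1 := by
      rw [hF]
      simp only [ContinuousMap.smul_apply, ContinuousMap.sum_apply, chr_apply, smul_eq_mul,
        zpow_natCast]
      have : ∀ n ∈ Finset.range N, c ^ n * (z₀ : ℂ) ^ n = 1 := fun n _ => by
        rw [← mul_pow, hcz, one_pow]
      rw [Finset.sum_congr rfl this]
      have hN' : (N : ℂ) ≠ 0 := by exact_mod_cast (by omega : N ≠ 0)
      simp [hN']
    rw [this]; simp
  have hle : ∀ N, 1 ≤ N → (σ.real {z₀}) ≤ ‖Phi u (F N) g‖ ^ 2 := by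
    intro N hN
    rw [← hσ (F N)]
    have hint : Integrable (fun z => ‖F N z‖ ^ 2) σ := by
      have hcont : Continuous (fun z => ‖F N z‖ ^ 2) := ((F N).continuous.norm).pow 2
      exact hcont.integrable_of_hasCompactSupport (HasCompactSupport.of_compactSpace _)
    calc σ.real {z₀} = ∫ z in {z₀}, ‖F N z‖ ^ 2 ∂σ := by
          rw [integral_singleton, hFz N hN]; simp
      _ ≤ ∫ z, ‖F N z‖ ^ 2 ∂σ :=
          setIntegral_le_integral hint (Filter.Eventually.of_forall fun z => by positivity)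
  have hlim : Tendsto (fun N => ‖Phi u (F N) g‖ ^ 2) atTop (𝓝 0) := by
    simp_rw [hPhi]
    have := (htend.norm).pow 2
    simpa using this
  have hzero : σ.real {z₀} ≤ 0 := by
    refine ge_of_tendsto hlim ?_
    filter_upwards [eventually_ge_atTop 1] with N hN using hle N hN
  have := le_antisymm hzero measureReal_nonneg
  rwa [measureReal_eq_zero_iff] at this

/-- The main spectral statement. -/
theorem tendsto_avg_zero (u : unitary (H →L[ℂ] H)) (g : H) (hg : OrthRat u g)
    (w : ℕ → ℤ →₀ ℝ) (hw0 : ∀ i x, 0 ≤ w i x) (hw1 : ∀ i, (w i).sum (fun _ a => a) = 1)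
    (hw : ∀ θ : ℝ, Irrational θ → Tendsto (fun i => (w i).sum
      (fun x a => (a : ℂ) * Complex.exp (2 * Real.pi * Complex.I * (x * θ)))) atTop (𝓝 0)) :
    Tendsto (fun i => ‖(w i).sum (fun x a => (a : ℂ) •
      (((u ^ x : unitary (H →L[ℂ] H)) : H →L[ℂ] H) g))‖) atTop (𝓝 0) := by
  obtain ⟨σ, hfin, hσ⟩ := exists_spectral_measure u g
  set F : ℕ → C(spectrum ℂ (u : H →L[ℂ] H), ℂ) := fun i =>
    (w i).sum (fun x a => (a : ℂ) • chr u x) with hF
  have hPhi : ∀ i, Phi u (F i) g = (w i).sum (fun x a => (a : ℂ) •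
      (((u ^ x : unitary (H →L[ℂ] H)) : H →L[ℂ] H) g)) := by
    intro i
    rw [hF]
    simp only [Finsupp.sum, map_sum, map_smul, Phi_chr]
    rw [sum_apply]
    rfl
  have hFapp : ∀ i z, F i z = (w i).sum (fun x a => (a : ℂ) * (z : ℂ) ^ x) := by
    intro i z
    rw [hF]
    simp only [Finsupp.sum, ContinuousMap.sum_apply, ContinuousMap.smul_apply, chr_apply,
      smul_eq_mul]
  have hbound : ∀ i z, ‖F i z‖ ≤ 1 := by
    intro i z
    rw [hFapp, Finsupp.sum]
    refine (norm_sum_le _ _).trans ?_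
    have : ∀ x ∈ (w i).support, ‖((w i x : ℝ) : ℂ) * (z : ℂ) ^ x‖ = w i x := by
      intro x _
      rw [norm_mul, norm_zpow, norm_spec u z, one_zpow, mul_one, Complex.norm_real,
        Real.norm_of_nonneg (hw0 i x)]
    rw [Finset.sum_congr rfl this]
    exact (hw1 i).le
  have hlim : Tendsto (fun i => ∫ z, ‖F i z‖ ^ 2 ∂σ) atTop (𝓝 (∫ _z, (0 : ℝ) ∂σ)) := by
    refine tendsto_integral_of_dominated_convergence (fun _ => (1 : ℝ)) ?_ ?_ ?_ ?_
    · intro i
      exact ((F i).continuous.norm.pow 2).aestronglyMeasurable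
    · exact integrable_const _
    · intro i
      refine Eventually.of_forall fun z => ?_
      rw [Real.norm_of_nonneg (by positivity)]
      exact pow_le_one₀ (norm_nonneg _) (hbound i z)
    · -- a.e. convergence
      have hae : ∀ᵐ z : spectrum ℂ (u : H →L[ℂ] H) ∂σ, ∀ m : ℕ, 1 ≤ m → (z : ℂ) ^ m ≠ 1 := by
        rw [ae_all_iff]
        intro m
        by_cases hm : 1 ≤ m
        · have hfinite : {z : spectrum ℂ (u : H →L[ℂ] H) | (z : ℂ) ^ m = 1}.Countable := by
            have h1 : {z : ℂ | z ^ m = 1}.Finite := by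
              have hfr : (↑(Polynomial.nthRootsFinset m (1 : ℂ)) : Set ℂ).Finite :=
                Finset.finite_toSet _
              refine hfr.subset fun z hz => ?_
              rw [Finset.mem_coe, Polynomial.mem_nthRootsFinset (by omega)]
              exact hz
            exact (h1.countable.preimage Subtype.val_injective)
          have h0 : σ {z : spectrum ℂ (u : H →L[ℂ] H) | (z : ℂ) ^ m = 1} = 0 := by
            rw [measure_null_iff_singleton hfinite]
            intro z hz
            exact no_rational_atom u g hg σ hσ z m hm hz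
          have : ∀ᵐ z : spectrum ℂ (u : H →L[ℂ] H) ∂σ, ¬ ((z : ℂ) ^ m = 1) := by
            rw [ae_iff]; simpa using h0
          filter_upwards [this] with z hz _ using hz
        · exact Eventually.of_forall fun z h => absurd h hm
      filter_upwards [hae] with z hz
      -- z = exp (2 π i θ)
      have hz1 : ‖(z : ℂ)‖ = 1 := norm_spec u z
      set θ : ℝ := Complex.arg (z : ℂ) / (2 * Real.pi) with hθ
      have hpi : (2 * Real.pi) ≠ 0 := by positivity
      have hzθ : (z : ℂ) = Complex.exp (2 * Real.pi * Complex.I * θ) := by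
        have h1 := Complex.norm_mul_exp_arg_mul_I (z : ℂ)
        rw [hz1] at h1
        rw [← h1]
        simp only [Complex.ofReal_one, one_mul]
        congr 1
        rw [hθ]
        push_cast
        field_simp
      have hirr : Irrational θ := by
        rintro ⟨q, hq⟩
        apply hz q.den q.den_pos
        rw [hzθ, ← Complex.exp_nat_mul, ← hq]
        rw [show ((q.den : ℕ) : ℂ) * (2 * Real.pi * Complex.I * ((q : ℝ) : ℂ)) =
          (q.num : ℂ) * (2 * Real.pi * Complex.I) by
            have : ((q : ℝ) : ℂ) * (q.den : ℂ) = (q.num : ℂ) := by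
              have := Rat.mul_den_eq_num q
              exact_mod_cast congrArg (fun t : ℚ => (t : ℂ)) this
            rw [← this]; ring]
        exact Complex.exp_int_mul_two_pi_mul_I _
      have h2 := hw θ hirr
      have h3 : ∀ i, F i z = (w i).sum
          (fun x a => (a : ℂ) * Complex.exp (2 * Real.pi * Complex.I * (x * θ))) := by
        intro i
        rw [hFapp]
        apply Finsupp.sum_congr
        intro x _
        rw [hzθ, ← Complex.exp_int_mul]
        congr 2
        ring
      have h4 : Tendsto (fun i => F i z) atTop (𝓝 0) := by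
        simp_rw [h3]; exact h2
      have := (h4.norm).pow 2
      simpa using this
  have h5 : Tendsto (fun i => ‖Phi u (F i) g‖ ^ 2) atTop (𝓝 0) := by
    simp_rw [← hσ]
    simpa using hlim
  have h6 : Tendsto (fun i => ‖Phi u (F i) g‖) atTop (𝓝 0) := by
    have := (Real.continuous_sqrt.tendsto 0).comp h5
    simp only [Function.comp_def, Real.sqrt_zero] at this
    refine this.congr fun i => ?_
    exact Real.sqrt_sq (norm_nonneg _)
  refine h6.congr fun i => ?_
  rw [hPhi]

end Spectral

end Pool.Agent.Lib.Pe70ed2
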