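import Pool.Agent.Lib.Pe70ed2.Corr
import Pool.Agent.Lib.Pe70ed2.Spectral

set_option autoImplicit false

namespace Pool.Agent.Lib.Pe70ed2

open MeasureTheory Filter Topology

variable (μ : Measure (ℤ → Bool))

/-- The σ-algebra of measurable sets that are a.e. invariant under `shift m`. -/
@[instance_reducible] def Jalg (_hT : ∀ n : ℤ, MeasurePreserving (shift n) μ μ) (m : ℤ) : MeasurableSpace (ℤ → Bool) where
  MeasurableSet' S := MeasurableSet S ∧ (shift m ⁻¹' S) =ᵐ[μ] S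
  measurableSet_empty := ⟨MeasurableSet.empty, by simp⟩
  measurableSet_compl S hS := ⟨hS.1.compl, by
    rw [Set.preimage_compl]; exact hS.2.compl⟩
  measurableSet_iUnion f hf := ⟨MeasurableSet.iUnion fun i => (hf i).1, by
    rw [Set.preimage_iUnion]
    exact Filter.EventuallyEq.countable_iUnion fun i => (hf i).2⟩

variable {μ}
variable (hT : ∀ n : ℤ, MeasurePreserving (shift n) μ μ)

lemma Jalg_le (m : ℤ) : Jalg μ hT m ≤ (MeasurableSpace.pi : MeasurableSpace (ℤ → Bool)) :=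
  fun _ hS => hS.1

include hT in
lemma ae_shift {p : (ℤ → Bool) → Prop} (h : ∀ᵐ ω ∂μ, p ω) (n : ℤ) : ∀ᵐ ω ∂μ, p (shift n ω) :=
  (hT n).quasiMeasurePreserving.ae h

include hT in
lemma inv_mul {β : Type*} {g : (ℤ → Bool) → β} {m : ℤ} (h : ∀ᵐ ω ∂μ, g (shift m ω) = g ω) (k : ℕ) :
    ∀ᵐ ω ∂μ, g (shift (k * m) ω) = g ω := by
  induction k with
  | zero => simp [shift_zero]
  | succ k ih =>
    have h2 := ae_shift hT ih m
    filter_upwards [h, h2] with ω h1 h2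
    rw [← h1, ← h2, shift_shift]
    congr 2
    push_cast; ring

include hT in
/-- Being in `Jalg m` for a function: a.e. invariance. -/
lemma ae_inv_of_meas {m : ℤ} {g : (ℤ → Bool) → ℝ} (hg : Measurable[Jalg μ hT m] g) :
    ∀ᵐ ω ∂μ, g (shift m ω) = g ω := by
  have h1 : ∀ q : ℚ, ∀ᵐ ω ∂μ, (q : ℝ) < g (shift m ω) ↔ (q : ℝ) < g ω := by
    intro q
    have h2 : MeasurableSet[Jalg μ hT m] (g ⁻¹' Set.Ioi (q : ℝ)) := hg measurableSet_Ioi
    have h3 := h2.2
    filter_upwards [h3.mem_iff] with ω hω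
    exact hω
  rw [← ae_all_iff] at h1
  filter_upwards [h1] with ω hω
  apply le_antisymm
  · by_contra hlt
    push Not at hlt
    obtain ⟨q, hq1, hq2⟩ := exists_rat_btwn hlt
    exact absurd ((hω q).1 hq2) (not_lt.2 hq1.le)
  · by_contra hlt
    push Not at hlt
    obtain ⟨q, hq1, hq2⟩ := exists_rat_btwn hlt
    exact absurd ((hω q).2 hq2) (not_lt.2 hq1.le)

include hT in
lemma meas_of_ae_inv {m : ℤ} {g : (ℤ → Bool) → ℝ} (hg : Measurable g)
    (h : ∀ᵐ ω ∂μ, g (shift m ω) = g ω) : Measurable[Jalg μ hT m] g := by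
  intro s hs
  refine ⟨hg hs, ?_⟩
  filter_upwards [h] with ω hω
  show (g (shift m ω) ∈ s) = (g ω ∈ s)
  rw [hω]

lemma Jalg_mono {m m' : ℤ} (k : ℕ) (h : m' = k * m) : Jalg μ hT m ≤ Jalg μ hT m' := by
  intro S hS
  refine ⟨hS.1, ?_⟩
  have h1 : ∀ᵐ ω ∂μ, (shift m ω ∈ S) = (ω ∈ S) := by
    filter_upwards [hS.2.mem_iff] with ω hω
    exact propext hω
  have h2 := inv_mul hT (g := fun ω => (ω ∈ S)) h1 k
  filter_upwards [h2] with ω hω
  rw [h]
  exact hω

/-- The filtration along factorials. -/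
def Jfil : Filtration ℕ (MeasurableSpace.pi : MeasurableSpace (ℤ → Bool)) where
  seq i := Jalg μ hT ((i.factorial : ℕ) : ℤ)
  mono' i j hij := by
    obtain ⟨k, hk⟩ := Nat.factorial_dvd_factorial hij
    refine Jalg_mono hT k ?_
    rw [hk]; push_cast; ring
  le' i := Jalg_le hT _

/-- The indicator of the base cylinder. -/
noncomputable def f0 : (ℤ → Bool) → ℝ := cyl.indicator (fun _ => (1 : ℝ))

lemma f0_meas : Measurable f0 := measurable_const.indicator measurableSet_cyl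

lemma f0_nonneg (ω : ℤ → Bool) : 0 ≤ f0 ω := Set.indicator_nonneg (fun _ _ => zero_le_one) _

lemma f0_le (ω : ℤ → Bool) : f0 ω ≤ 1 := Set.indicator_le_self' (fun _ _ => zero_le_one) _

lemma f0_int [IsFiniteMeasure μ] : Integrable f0 μ :=
  (integrable_const (1 : ℝ)).indicator measurableSet_cyl

lemma f0_eq_one {ω : ℤ → Bool} (h : ω 0 = true) : f0 ω = 1 := Set.indicator_of_mem (s := cyl) h _

lemma f0_eq_zero {ω : ℤ → Bool} (h : ω 0 ≠ true) : f0 ω = 0 :=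
  Set.indicator_of_notMem (s := cyl) h _

/-- Truncation to `[0, 1]`. -/
noncomputable def trunc (g : (ℤ → Bool) → ℝ) : (ℤ → Bool) → ℝ := fun ω => max 0 (min 1 (g ω))

lemma trunc_nonneg (g : (ℤ → Bool) → ℝ) (ω : ℤ → Bool) : 0 ≤ trunc g ω := le_max_left _ _

lemma trunc_le (g : (ℤ → Bool) → ℝ) (ω : ℤ → Bool) : trunc g ω ≤ 1 :=
  max_le zero_le_one (min_le_left _ _)

lemma trunc_eq {g : (ℤ → Bool) → ℝ} {ω : ℤ → Bool} (h : 0 ≤ g ω ∧ g ω ≤ 1) : trunc g ω = g ω := by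
  rw [trunc, min_eq_right h.2, max_eq_right h.1]

/-- The conditional expectation on `Jalg m`. -/
noncomputable def fm (m : ℤ) : (ℤ → Bool) → ℝ := trunc (μ[f0 | Jalg μ hT m])

/-- The limiting conditional expectation. -/
noncomputable def finf : (ℤ → Bool) → ℝ := trunc (μ[f0 | ⨆ n, Jfil hT n])

lemma fm_nonneg (m : ℤ) (ω : ℤ → Bool) : 0 ≤ fm hT m ω := trunc_nonneg _ ω
lemma fm_le (m : ℤ) (ω : ℤ → Bool) : fm hT m ω ≤ 1 := trunc_le _ ω
lemma finf_nonneg (ω : ℤ → Bool) : 0 ≤ finf hT ω := trunc_nonneg _ ω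
lemma finf_le (ω : ℤ → Bool) : finf hT ω ≤ 1 := trunc_le _ ω

variable [IsProbabilityMeasure μ]

lemma condExp_bounds {J : MeasurableSpace (ℤ → Bool)}
    (hJ : J ≤ (MeasurableSpace.pi : MeasurableSpace (ℤ → Bool))) :
    ∀ᵐ ω ∂μ, 0 ≤ (μ[f0 | J]) ω ∧ (μ[f0 | J]) ω ≤ 1 := by
  have h1 : (0 : (ℤ → Bool) → ℝ) ≤ᵐ[μ] μ[f0 | J] := condExp_nonneg (Eventually.of_forall f0_nonneg)
  have h2 : μ[f0 | J] ≤ᵐ[μ] μ[(fun _ => (1 : ℝ)) | J] :=
    condExp_mono f0_int (integrable_const _) (Eventually.of_forall f0_le)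
  rw [condExp_const hJ] at h2
  filter_upwards [h1, h2] with ω a b
  exact ⟨a, b⟩

omit [IsProbabilityMeasure μ] in
lemma fm_meas (m : ℤ) : Measurable[Jalg μ hT m] (fm hT m) := by
  have h : Measurable[Jalg μ hT m] (μ[f0 | Jalg μ hT m]) := stronglyMeasurable_condExp.measurable
  exact Measurable.max measurable_const (Measurable.min measurable_const h)

omit [IsProbabilityMeasure μ] in
lemma fm_meas' (m : ℤ) : Measurable (fm hT m) := (fm_meas hT m).mono (Jalg_le hT m) le_rfl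

omit [IsProbabilityMeasure μ] in
lemma fm_inv (m : ℤ) : ∀ᵐ ω ∂μ, fm hT m (shift m ω) = fm hT m ω := ae_inv_of_meas hT (fm_meas hT m)

lemma fm_ae (m : ℤ) : fm hT m =ᵐ[μ] μ[f0 | Jalg μ hT m] := by
  filter_upwards [condExp_bounds (Jalg_le hT m)] with ω hω
  exact trunc_eq hω

omit [IsProbabilityMeasure μ] in
lemma sup_le' : (⨆ n, Jfil hT n) ≤ (MeasurableSpace.pi : MeasurableSpace (ℤ → Bool)) :=
  iSup_le fun n => (Jfil hT).le n

lemma finf_ae : finf hT =ᵐ[μ] μ[f0 | ⨆ n, Jfil hT n] := by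
  filter_upwards [condExp_bounds (sup_le' hT)] with ω hω
  exact trunc_eq hω

omit [IsProbabilityMeasure μ] in
lemma finf_meas : Measurable (finf hT) := by
  have h : Measurable (μ[f0 | ⨆ n, Jfil hT n]) :=
    (stronglyMeasurable_condExp (μ := μ) (f := f0)).measurable.mono (sup_le' hT) le_rfl
  exact Measurable.max measurable_const (Measurable.min measurable_const h)

lemma int_of_bdd {g : (ℤ → Bool) → ℝ} (hg : Measurable g) (C : ℝ) (h : ∀ ω, |g ω| ≤ C) :
    Integrable g μ :=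
  Integrable.of_bound hg.aestronglyMeasurable C (Eventually.of_forall h)

lemma fm_int (m : ℤ) : Integrable (fm hT m) μ :=
  int_of_bdd (fm_meas' hT m) 1 fun ω => by
    rw [abs_of_nonneg (fm_nonneg hT m ω)]; exact fm_le hT m ω

lemma finf_int : Integrable (finf hT) μ :=
  int_of_bdd (finf_meas hT) 1 fun ω => by
    rw [abs_of_nonneg (finf_nonneg hT ω)]; exact finf_le hT ω

lemma tendsto_fm : Tendsto (fun i : ℕ => ∫ ω, |fm hT ((i.factorial : ℕ) : ℤ) ω - finf hT ω| ∂μ)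
    atTop (𝓝 0) := by
  have h := tendsto_eLpNorm_condExp (μ := μ) (ℱ := Jfil hT) f0
  have h2 : ∀ i : ℕ, ∫ ω, |fm hT ((i.factorial : ℕ) : ℤ) ω - finf hT ω| ∂μ =
      (eLpNorm (μ[f0 | (Jfil hT) i] - μ[f0 | ⨆ n, Jfil hT n]) 1 μ).toReal := by
    intro i
    rw [eLpNorm_one_eq_lintegral_enorm]
    rw [← integral_norm_eq_lintegral_enorm]
    · apply integral_congr_ae
      filter_upwards [fm_ae hT ((i.factorial : ℕ) : ℤ), finf_ae hT] with ω a b
      rw [a, b]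
      rfl
    · exact (integrable_condExp.sub integrable_condExp).aestronglyMeasurable
  simp_rw [h2]
  have h3 := (ENNReal.tendsto_toReal ENNReal.zero_ne_top).comp h
  simpa [Function.comp_def] using h3

/-- The projection property for a.e. invariant functions. -/
lemma proj_prop {m : ℤ} {ψ : (ℤ → Bool) → ℝ} (hψ : Measurable ψ) (C : ℝ) (hC : ∀ ω, |ψ ω| ≤ C)
    (h : ∀ᵐ ω ∂μ, ψ (shift m ω) = ψ ω) :
    ∫ ω, ψ ω * f0 ω ∂μ = ∫ ω, ψ ω * fm hT m ω ∂μ := by
  have h1 : StronglyMeasurable[Jalg μ hT m] ψ := (meas_of_ae_inv hT hψ h).stronglyMeasurable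
  have hint : Integrable (ψ * f0) μ := by
    refine (f0_int (μ := μ)).bdd_mul (c := C) hψ.aestronglyMeasurable ?_
    exact Eventually.of_forall fun ω => by rw [Real.norm_eq_abs]; exact hC ω
  have h2 := condExp_mul_of_stronglyMeasurable_left h1 hint f0_int
  have h3 : ∫ ω, (ψ * f0) ω ∂μ = ∫ ω, (μ[ψ * f0 | Jalg μ hT m]) ω ∂μ :=
    (integral_condExp (Jalg_le hT m)).symm
  have h4 : ∫ ω, (μ[ψ * f0 | Jalg μ hT m]) ω ∂μ = ∫ ω, ψ ω * fm hT m ω ∂μ := by
    apply integral_congr_ae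
    filter_upwards [h2, fm_ae hT m] with ω a b
    rw [a, b]
    rfl
  rw [← h4, ← h3]
  rfl

/-- The projection property for the limit. -/
lemma proj_inf {ψ : (ℤ → Bool) → ℝ} (m : ℕ) (hm : 1 ≤ m) (hψ : Measurable ψ)
    (hint : Integrable ψ μ) (h : ∀ᵐ ω ∂μ, ψ (shift (m : ℤ) ω) = ψ ω) :
    ∫ ω, ψ ω * (f0 ω - finf hT ω) ∂μ = 0 := by
  have h0 : Measurable[Jalg μ hT (m : ℤ)] ψ := meas_of_ae_inv hT hψ h
  have hle : Jalg μ hT (m : ℤ) ≤ ⨆ n, Jfil hT n := by
    obtain ⟨k, hk⟩ := Nat.dvd_factorial hm le_rfl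
    refine (Jalg_mono hT (m' := ((m.factorial : ℕ) : ℤ)) k ?_).trans (le_iSup (Jfil hT) m)
    rw [hk]; push_cast; ring
  have h1 : StronglyMeasurable[⨆ n, Jfil hT n] ψ := (h0.mono hle le_rfl).stronglyMeasurable
  have hint2 : Integrable (ψ * f0) μ := by
    refine hint.mul_bdd (c := 1) f0_meas.aestronglyMeasurable ?_
    exact Eventually.of_forall fun ω => by
      rw [Real.norm_eq_abs, abs_of_nonneg (f0_nonneg ω)]; exact f0_le ω
  have hint3 : Integrable (fun ω => ψ ω * finf hT ω) μ := by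
    refine hint.mul_bdd (c := 1) (finf_meas hT).aestronglyMeasurable ?_
    exact Eventually.of_forall fun ω => by
      rw [Real.norm_eq_abs, abs_of_nonneg (finf_nonneg hT ω)]; exact finf_le hT ω
  have h2 := condExp_mul_of_stronglyMeasurable_left h1 hint2 f0_int
  have h3 : ∫ ω, (ψ * f0) ω ∂μ = ∫ ω, (μ[ψ * f0 | ⨆ n, Jfil hT n]) ω ∂μ :=
    (integral_condExp (sup_le' hT)).symm
  have h4 : ∫ ω, (μ[ψ * f0 | ⨆ n, Jfil hT n]) ω ∂μ = ∫ ω, ψ ω * finf hT ω ∂μ := by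
    apply integral_congr_ae
    filter_upwards [h2, finf_ae hT] with ω a b
    rw [a, b]
    rfl
  have h5 : ∀ ω, ψ ω * (f0 ω - finf hT ω) = (ψ * f0) ω - ψ ω * finf hT ω := by
    intro ω; simp only [Pi.mul_apply]; ring
  simp_rw [h5]
  rw [integral_sub hint2 hint3, h3, h4, sub_self]

end Pool.Agent.Lib.Pe70ed2
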