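import Pool.Agent.Lib.Pe70ed2.Jalg

set_option autoImplicit false

namespace Pool.Agent.Lib.Pe70ed2

open MeasureTheory Filter Topology

variable {μ : Measure (ℤ → Bool)}
variable (hT : ∀ n : ℤ, MeasurePreserving (shift n) μ μ)

/-- Composition with a shift on `L²`, as a linear isometry. -/
noncomputable def Kl (x : ℤ) : Lp ℂ 2 μ →ₗᵢ[ℂ] Lp ℂ 2 μ :=
  Lp.compMeasurePreservingₗᵢ ℂ (shift x) (hT x)

lemma Kl_coe (x : ℤ) (v : Lp ℂ 2 μ) : ⇑(Kl hT x v) =ᵐ[μ] fun ω => v (shift x ω) :=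
  Lp.coeFn_compMeasurePreserving v (hT x)

lemma Kl_comp (x y : ℤ) (v : Lp ℂ 2 μ) : Kl hT x (Kl hT y v) = Kl hT (x + y) v := by
  apply Lp.ext
  have h1 := Kl_coe hT x (Kl hT y v)
  have h2 := ae_shift hT (Kl_coe hT y v) x
  have h3 := Kl_coe hT (x + y) v
  filter_upwards [h1, h2, h3] with ω a b c
  rw [a, b, c, shift_shift, add_comm]

lemma Kl_zero (v : Lp ℂ 2 μ) : Kl hT 0 v = v := by
  apply Lp.ext
  filter_upwards [Kl_coe hT 0 v] with ω a
  rw [a, shift_zero]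

/-- Composition with a shift on `L²`, as a linear isometric equivalence. -/
noncomputable def Ke (x : ℤ) : Lp ℂ 2 μ ≃ₗᵢ[ℂ] Lp ℂ 2 μ where
  toLinearEquiv :=
    { (Kl hT x).toLinearMap with
      invFun := Kl hT (-x)
      left_inv := fun v => by
        show Kl hT (-x) (Kl hT x v) = v
        rw [Kl_comp]; simp [Kl_zero]
      right_inv := fun v => by
        show Kl hT x (Kl hT (-x) v) = v
        rw [Kl_comp]; simp [Kl_zero] }
  norm_map' := fun v => (Kl hT x).norm_map v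

lemma Ke_apply (x : ℤ) (v : Lp ℂ 2 μ) : Ke hT x v = Kl hT x v := rfl

/-- The group homomorphism from `ℤ`. -/
noncomputable def Kh : Multiplicative ℤ →* (Lp ℂ 2 μ ≃ₗᵢ[ℂ] Lp ℂ 2 μ) where
  toFun x := Ke hT (Multiplicative.toAdd x)
  map_one' := by
    ext1 v
    show Kl hT 0 v = v
    exact Kl_zero hT v
  map_mul' x y := by
    ext1 v
    show Kl hT (Multiplicative.toAdd x + Multiplicative.toAdd y) v = Kl hT _ (Kl hT _ v)
    rw [Kl_comp]

lemma Ke_zpow (x : ℤ) : Ke hT x = (Ke hT 1) ^ x := by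
  have h := map_zpow (Kh hT) (Multiplicative.ofAdd (1 : ℤ)) x
  have h2 : (Multiplicative.ofAdd (1 : ℤ)) ^ x = Multiplicative.ofAdd x := by
    rw [← ofAdd_zsmul]; simp
  rw [h2] at h
  exact h

/-- The Koopman unitary. -/
noncomputable def Ku : unitary (Lp ℂ 2 μ →L[ℂ] Lp ℂ 2 μ) :=
  Unitary.linearIsometryEquiv.symm (Ke hT 1)

lemma Ku_zpow (x : ℤ) (v : Lp ℂ 2 μ) :
    (((Ku hT) ^ x : unitary (Lp ℂ 2 μ →L[ℂ] Lp ℂ 2 μ)) : Lp ℂ 2 μ →L[ℂ] Lp ℂ 2 μ) v = Kl hT x v := by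
  have h : (Ku hT) ^ x = Unitary.linearIsometryEquiv.symm (Ke hT x) := by
    rw [Ku, ← map_zpow, ← Ke_zpow]
  rw [h]
  rfl

variable [IsProbabilityMeasure μ]

/-- The function `f0 - finf` as an `L²` function. -/
noncomputable def gfun : (ℤ → Bool) → ℝ := fun ω => f0 ω - finf hT ω

omit [IsProbabilityMeasure μ] in
lemma gfun_bound' (ω : ℤ → Bool) : |gfun hT ω| ≤ 1 := by
  have h1 := f0_nonneg ω
  have h2 := f0_le ω
  have h3 := trunc_nonneg (μ[f0 | ⨆ n, Jfil hT n]) ω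
  have h4 := trunc_le (μ[f0 | ⨆ n, Jfil hT n]) ω
  rw [gfun, finf, abs_le]
  constructor <;> linarith

omit [IsProbabilityMeasure μ] in
lemma gfun_bound : ∀ᵐ ω ∂μ, |gfun hT ω| ≤ 1 := Eventually.of_forall (gfun_bound' hT)

lemma gfun_meas : Measurable (gfun hT) := f0_meas.sub (finf_meas hT)

lemma gfunC_memLp : MemLp (fun ω => ((gfun hT ω : ℝ) : ℂ)) 2 μ := by
  refine MemLp.of_bound (Complex.measurable_ofReal.comp (gfun_meas hT)).aestronglyMeasurable 1 ?_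
  filter_upwards [gfun_bound hT] with ω hω
  simpa using hω

/-- The `L²` vector. -/
noncomputable def gvec : Lp ℂ 2 μ := (gfunC_memLp hT).toLp _

lemma gvec_coe : ⇑(gvec hT) =ᵐ[μ] fun ω => ((gfun hT ω : ℝ) : ℂ) := (gfunC_memLp hT).coeFn_toLp

lemma orth : OrthRat (Ku hT) (gvec hT) := by
  intro m hm v hv
  have hv' : Kl hT (m : ℤ) v = v := by
    rw [← Ku_zpow]
    rw [zpow_natCast]
    exact hv
  -- v is a.e. invariant
  have hinv : ∀ᵐ ω ∂μ, v (shift (m : ℤ) ω) = v ω := by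
    have h1 := Kl_coe hT (m : ℤ) v
    rw [hv'] at h1
    filter_upwards [h1] with ω hω
    exact hω.symm
  -- a measurable representative
  obtain ⟨v', hv'm, hv'e⟩ : ∃ v' : (ℤ → Bool) → ℂ, StronglyMeasurable v' ∧ v =ᵐ[μ] v' :=
    Lp.aestronglyMeasurable v
  have hinv' : ∀ᵐ ω ∂μ, v' (shift (m : ℤ) ω) = v' ω := by
    filter_upwards [hinv, hv'e, ae_shift hT hv'e (m : ℤ)] with ω a b c
    rw [← b, ← c, a]
  have hintv : Integrable v μ := (Lp.memLp v).integrable (by norm_num)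
  have hintv' : Integrable v' μ := hintv.congr hv'e
  have hre := proj_inf hT (ψ := fun ω => (v' ω).re) m hm
    (Complex.measurable_re.comp hv'm.measurable) hintv'.re
    (by filter_upwards [hinv'] with ω hω; rw [hω])
  have him := proj_inf hT (ψ := fun ω => (v' ω).im) m hm
    (Complex.measurable_im.comp hv'm.measurable) hintv'.im
    (by filter_upwards [hinv'] with ω hω; rw [hω])
  rw [L2.inner_def]
  have h1 : (fun ω => inner ℂ (v ω) (gvec hT ω)) =ᵐ[μ]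
      fun ω => (((v' ω).re * gfun hT ω : ℝ) : ℂ) - Complex.I * (((v' ω).im * gfun hT ω : ℝ) : ℂ) := by
    filter_upwards [hv'e, gvec_coe hT] with ω a b
    rw [a, b]
    simp only [RCLike.inner_apply]
    apply Complex.ext
    · simp; ring
    · simp; ring
  rw [integral_congr_ae h1]
  have hb : ∀ᵐ ω ∂μ, ‖gfun hT ω‖ ≤ 1 := gfun_bound hT
  have i1 : Integrable (fun ω => (v' ω).re * gfun hT ω) μ :=
    hintv'.re.mul_bdd (c := 1) (gfun_meas hT).aestronglyMeasurable hb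
  have i2 : Integrable (fun ω => (v' ω).im * gfun hT ω) μ :=
    hintv'.im.mul_bdd (c := 1) (gfun_meas hT).aestronglyMeasurable hb
  rw [integral_sub i1.ofReal (i2.ofReal.const_mul _), integral_const_mul,
    integral_complex_ofReal, integral_complex_ofReal]
  have e1 : ∫ ω, (v' ω).re * gfun hT ω ∂μ = 0 := hre
  have e2 : ∫ ω, (v' ω).im * gfun hT ω ∂μ = 0 := him
  rw [e1, e2]
  simp

/-- A good class: there are probability weights on the nonzero elements of `X` in the class `c`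
modulo `m` whose exponential sums tend to zero at all irrational frequencies. -/
def GoodClass (X : Set ℤ) (m : ℤ) (c : ℤ) : Prop :=
  ∃ w : ℕ → ℤ →₀ ℝ, (∀ i x, 0 ≤ w i x) ∧ (∀ i, (w i).sum (fun _ a => a) = 1) ∧
    (∀ i x, w i x ≠ 0 → x ∈ X ∧ x ≠ 0 ∧ x ≡ c [ZMOD m]) ∧
    ∀ θ : ℝ, Irrational θ → Tendsto (fun i => (w i).sum
      (fun x a => (a : ℂ) * Complex.exp (2 * Real.pi * Complex.I * (x * θ)))) atTop (𝓝 0)

lemma GoodClass.congr {X : Set ℤ} {m c c' : ℤ} (h : c ≡ c' [ZMOD m]) (hc : GoodClass X m c) :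
    GoodClass X m c' := by
  obtain ⟨w, h1, h2, h3, h4⟩ := hc
  exact ⟨w, h1, h2, fun i x hx => ⟨(h3 i x hx).1, (h3 i x hx).2.1, (h3 i x hx).2.2.trans h⟩, h4⟩

/-- Averages of correlations of a bounded function with `gfun` tend to zero. -/
lemma avg_tendsto (w : ℕ → ℤ →₀ ℝ) (hw0 : ∀ i x, 0 ≤ w i x)
    (hw1 : ∀ i, (w i).sum (fun _ a => a) = 1)
    (hw : ∀ θ : ℝ, Irrational θ → Tendsto (fun i => (w i).sum
      (fun x a => (a : ℂ) * Complex.exp (2 * Real.pi * Complex.I * (x * θ)))) atTop (𝓝 0))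
    (φ : (ℤ → Bool) → ℝ) (hφ : Measurable φ) (hφ1 : ∀ ω, |φ ω| ≤ 1) :
    Tendsto (fun i => (w i).sum (fun x a => a * ∫ ω, φ ω * gfun hT (shift x ω) ∂μ)) atTop (𝓝 0) := by
  have hφm : MemLp (fun ω => ((φ ω : ℝ) : ℂ)) 2 μ := by
    refine MemLp.of_bound (Complex.measurable_ofReal.comp hφ).aestronglyMeasurable 1 ?_
    exact Eventually.of_forall fun ω => by simpa using hφ1 ω
  set P : Lp ℂ 2 μ := hφm.toLp _ with hP
  have hPcoe : ⇑P =ᵐ[μ] fun ω => ((φ ω : ℝ) : ℂ) := hφm.coeFn_toLp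
  have key : ∀ x : ℤ, inner ℂ P (Kl hT x (gvec hT)) =
      ((∫ ω, φ ω * gfun hT (shift x ω) ∂μ : ℝ) : ℂ) := by
    intro x
    rw [L2.inner_def, ← integral_complex_ofReal]
    apply integral_congr_ae
    filter_upwards [hPcoe, Kl_coe hT x (gvec hT), ae_shift hT (gvec_coe hT) x] with ω a b c
    rw [a, b, c]
    simp [mul_comm]
  have hmain := tendsto_avg_zero (Ku hT) (gvec hT) (orth hT) w hw0 hw1 hw
  have hb : ∀ i, |(w i).sum (fun x a => a * ∫ ω, φ ω * gfun hT (shift x ω) ∂μ)| ≤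
      ‖P‖ * ‖(w i).sum (fun x a => (a : ℂ) •
      (((Ku hT ^ x : unitary (Lp ℂ 2 μ →L[ℂ] Lp ℂ 2 μ)) : Lp ℂ 2 μ →L[ℂ] Lp ℂ 2 μ) (gvec hT)))‖ := by
    intro i
    have h1 : inner ℂ P ((w i).sum (fun x a => (a : ℂ) •
      (((Ku hT ^ x : unitary (Lp ℂ 2 μ →L[ℂ] Lp ℂ 2 μ)) : Lp ℂ 2 μ →L[ℂ] Lp ℂ 2 μ) (gvec hT)))) =
        (((w i).sum (fun x a => a * ∫ ω, φ ω * gfun hT (shift x ω) ∂μ) : ℝ) : ℂ) := by
      rw [Finsupp.sum, inner_sum, Finsupp.sum]
      push_cast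
      apply Finset.sum_congr rfl
      intro x _
      rw [inner_smul_right, Ku_zpow, key x]
    have h2 := norm_inner_le_norm (𝕜 := ℂ) P ((w i).sum (fun x a => (a : ℂ) •
      (((Ku hT ^ x : unitary (Lp ℂ 2 μ →L[ℂ] Lp ℂ 2 μ)) : Lp ℂ 2 μ →L[ℂ] Lp ℂ 2 μ) (gvec hT))))
    rw [h1, Complex.norm_real] at h2
    exact h2
  refine squeeze_zero_norm hb ?_
  simpa using hmain.const_mul ‖P‖

end Pool.Agent.Lib.Pe70ed2
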