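import Pool.Agent.Lib.Pe70ed2.Minor

set_option autoImplicit false

namespace Pool.Agent.Lib.Pe70ed2

open Finset ArithmeticFunction

lemma prod_telescope (P0 : ℕ) (hP : 1 ≤ P0) :
    ∏ j ∈ Finset.Icc 2 P0, (1 - gi j)⁻¹ = (P0 : ℝ) := by
  induction P0, hP using Nat.le_induction with
  | base => simp
  | succ n hn ih =>
    rw [← Finset.insert_Icc_right_eq_Icc_add_one (by omega), Finset.prod_insert (by simp), ih]
    unfold gi
    have : (0 : ℝ) < n := by exact_mod_cast hn
    push_cast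
    field_simp
    rw [show (n : ℝ) + 1 - 1 = n by ring, div_self this.ne']

lemma totient_bound (P0 n : ℕ) (hP0 : 3 ≤ P0) (hn : 1 ≤ n) :
    (n : ℝ) / (n.totient : ℝ) ≤ P0 * (n : ℝ) ^ ((1 : ℝ) / P0) := by
  classical
  have hn0 : (0 : ℝ) < n := by exact_mod_cast hn
  have hfac : ∀ p : ℕ, p.Prime → 0 < 1 - gi p ∧ 1 - gi p ≤ 1 := by
    intro p hp
    have : (1 : ℝ) < p := by exact_mod_cast hp.one_lt
    unfold gi
    constructor
    · have : 1 / (p : ℝ) < 1 := by rw [div_lt_one (by linarith)]; exact this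
      linarith
    · have : 0 ≤ 1 / (p : ℝ) := by positivity
      linarith
  have h2 : (n.totient : ℝ) = n * ∏ p ∈ n.primeFactors, (1 - gi p) := by
    have := Nat.totient_eq_mul_prod_factors n
    have h3 : ((n.totient : ℚ) : ℝ) = ((n * ∏ p ∈ n.primeFactors, (1 - (p : ℚ)⁻¹) : ℚ) : ℝ) := by rw [this]
    push_cast at h3
    rw [h3]
    congr 1
    apply Finset.prod_congr rfl
    intro p _
    rw [gi, one_div]
  have h3 : (n : ℝ) / (n.totient : ℝ) = ∏ p ∈ n.primeFactors, (1 - gi p)⁻¹ := by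
    have h4 : 0 < ∏ p ∈ n.primeFactors, (1 - gi p) :=
      Finset.prod_pos fun p hp => (hfac p (Nat.prime_of_mem_primeFactors hp)).1
    rw [h2, Finset.prod_inv_distrib]
    field_simp
  rw [h3, ← Finset.prod_filter_mul_prod_filter_not n.primeFactors (fun p => p ≤ P0)]
  have hP0' : (3 : ℝ) ≤ P0 := by exact_mod_cast hP0
  apply mul_le_mul
  · rw [← prod_telescope P0 (by omega)]
    apply Finset.prod_le_prod_of_subset_of_one_le
    · intro p hp
      rw [Finset.mem_filter] at hp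
      rw [Finset.mem_Icc]
      exact ⟨(Nat.prime_of_mem_primeFactors hp.1).two_le, hp.2⟩
    · intro p hp
      rw [Finset.mem_filter] at hp
      exact (inv_pos.2 (hfac p (Nat.prime_of_mem_primeFactors hp.1)).1).le
    · intro j hj _
      rw [Finset.mem_Icc] at hj
      have h2j : (2 : ℝ) ≤ j := by exact_mod_cast hj.1
      apply one_le_inv_iff₀.2
      unfold gi
      constructor
      · have : 1 / (j : ℝ) < 1 := by rw [div_lt_one (by linarith)]; linarith
        linarith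
      · have : 0 ≤ 1 / (j : ℝ) := by positivity
        linarith
  · calc ∏ p ∈ n.primeFactors with ¬ p ≤ P0, (1 - gi p)⁻¹ ≤
          ∏ p ∈ n.primeFactors with ¬ p ≤ P0, ((p : ℝ) ^ ((1 : ℝ) / P0)) := by
          apply Finset.prod_le_prod
          · intro p hp
            rw [Finset.mem_filter] at hp
            exact (inv_pos.2 (hfac p (Nat.prime_of_mem_primeFactors hp.1)).1).le
          · intro p hp
            rw [Finset.mem_filter] at hp
            have hpP : P0 + 1 ≤ p := by omega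
            have hpR : (P0 : ℝ) + 1 ≤ p := by exact_mod_cast hpP
            have hp0 : (0 : ℝ) < p := by linarith
            have e1 : (1 - gi p)⁻¹ ≤ 1 + 1 / P0 := by
              rw [inv_le_iff_one_le_mul₀ (hfac p (Nat.prime_of_mem_primeFactors hp.1)).1]
              unfold gi
              have : (1 + 1 / (P0 : ℝ)) * (1 - 1 / p) - 1 = (p - P0 - 1) / (P0 * p) := by
                field_simp; ring
              have h5 : 0 ≤ ((p : ℝ) - P0 - 1) / (P0 * p) := div_nonneg (by linarith) (by positivity)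
              linarith
            have e2 : 1 + 1 / (P0 : ℝ) ≤ Real.exp (1 / P0) := by
              have := Real.add_one_le_exp (1 / (P0 : ℝ))
              linarith
            have e3 : Real.exp (1 / P0) ≤ (p : ℝ) ^ ((1 : ℝ) / P0) := by
              rw [Real.rpow_def_of_pos hp0]
              apply Real.exp_le_exp.2
              have hlog : 1 ≤ Real.log p := by
                rw [Real.le_log_iff_exp_le hp0]
                have := Real.exp_one_lt_d9
                linarith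
              have : 0 ≤ 1 / (P0 : ℝ) := by positivity
              nlinarith
            exact e1.trans (e2.trans e3)
      _ ≤ ∏ p ∈ n.primeFactors, ((p : ℝ) ^ ((1 : ℝ) / P0)) := by
          apply Finset.prod_le_prod_of_subset_of_one_le (Finset.filter_subset _ _)
          · intro p _; positivity
          · intro p hp _
            apply Real.one_le_rpow _ (by positivity)
            exact_mod_cast (Nat.prime_of_mem_primeFactors hp).one_le
      _ = (∏ p ∈ n.primeFactors, (p : ℝ)) ^ ((1 : ℝ) / P0) := by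
          rw [Real.finsetProd_rpow]
          intro p _; positivity
      _ ≤ (n : ℝ) ^ ((1 : ℝ) / P0) := by
          apply Real.rpow_le_rpow (by positivity) _ (by positivity)
          have h5 : ∏ p ∈ n.primeFactors, p ≤ n := Nat.le_of_dvd hn (Nat.prod_primeFactors_dvd n)
          have h6 : ((∏ p ∈ n.primeFactors, p : ℕ) : ℝ) ≤ n := by exact_mod_cast h5
          rw [Nat.cast_prod] at h6
          exact h6
  · apply Finset.prod_nonneg
    intro p hp
    rw [Finset.mem_filter] at hp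
    exact (inv_pos.2 (hfac p (Nat.prime_of_mem_primeFactors hp.1)).1).le
  · positivity

noncomputable def hR (h : Polynomial ℤ) : Polynomial ℝ := h.map (Int.castRingHom ℝ)

lemma eval_hR (h : Polynomial ℤ) (n : ℕ) : (hR h).eval (n : ℝ) = ((h.eval (n : ℤ) : ℤ) : ℝ) := by
  have := Polynomial.eval_intCast_map (Int.castRingHom ℝ) h (n : ℤ)
  simp only [Int.cast_natCast] at this
  unfold hR
  rw [this]
  rfl

/-- Exponential with rational frequency. -/
noncomputable def Gq (h : Polynomial ℤ) (a : ℤ) (q : ℕ) (n : ℕ) : ℂ :=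
  e ((Polynomial.C ((a : ℝ) / q) * hR h).eval (n : ℝ))

lemma Gq_norm (h : Polynomial ℤ) (a : ℤ) (q n : ℕ) : ‖Gq h a q n‖ ≤ 1 := (norm_e _).le

lemma Gq_periodic (h : Polynomial ℤ) (a : ℤ) (q : ℕ) (hq : 0 < q) (n n' : ℕ) (hn : n ≡ n' [MOD q]) :
    Gq h a q n = Gq h a q n' := by
  unfold Gq
  rw [Polynomial.eval_mul, Polynomial.eval_mul, Polynomial.eval_C, Polynomial.eval_C, eval_hR, eval_hR]
  have h1 : ((n : ℤ) - n') ∣ h.eval (n : ℤ) - h.eval (n' : ℤ) := Polynomial.sub_dvd_eval_sub _ _ _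
  have h2 : (q : ℤ) ∣ (n : ℤ) - n' := by
    have := (Int.natCast_modEq_iff.2 hn).symm
    exact (Int.modEq_iff_dvd.1 this)
  obtain ⟨t, ht⟩ := h2.trans h1
  have hq0 : (q : ℝ) ≠ 0 := by exact_mod_cast hq.ne'
  have h3 : ((h.eval (n : ℤ) : ℤ) : ℝ) = ((h.eval (n' : ℤ) : ℤ) : ℝ) + q * t := by
    have : h.eval (n : ℤ) = h.eval (n' : ℤ) + q * t := by linarith
    rw [this]; push_cast; ring
  have h4 : (a : ℝ) / q * ((h.eval (n : ℤ) : ℤ) : ℝ) = (a : ℝ) / q * ((h.eval (n' : ℤ) : ℤ) : ℝ) + ((a * t : ℤ) : ℝ) := by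
    rw [h3]; push_cast; field_simp
  rw [h4, e_add, e_int, mul_one]

/-- Complete bilinear sums over residues. -/
lemma res_bilin (k C : ℕ) (hC : BilinProp k C) (h : Polynomial ℤ) (hdeg : h.natDegree = k + 1)
    (a : ℤ) (q N : ℕ) (hq : 0 < q) (hqN : q ≤ N) (hcop : IsCoprime a (q : ℤ)) (K : ℝ) (hK : 2 ≤ K)
    (hK1 : K ^ C * |(h.leadingCoeff : ℝ)| < q) (α β : ℕ → ℂ) (hα : ∀ n, ‖α n‖ ≤ 1)
    (hβ : ∀ n, ‖β n‖ ≤ 1) :
    ‖∑ r ∈ range N, ∑ t ∈ range N, α r * β t * Gq h a q (r * t)‖ ≤ (N : ℝ) ^ 2 / K := by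
  have hK0 : 0 < K := by linarith
  have hKC : (1 : ℝ) ≤ K ^ C := one_le_pow₀ (by linarith)
  have hh0 : h ≠ 0 := by
    rintro rfl
    simp at hdeg
  have hc : h.leadingCoeff ≠ 0 := Polynomial.leadingCoeff_ne_zero.2 hh0
  have hc1 : (1 : ℝ) ≤ |(h.leadingCoeff : ℝ)| := by
    have : 1 ≤ |h.leadingCoeff| := Int.one_le_abs hc
    exact_mod_cast this
  have hq0 : (0 : ℝ) < q := by exact_mod_cast hq
  have hKq : K ^ C < q := by
    have : K ^ C * 1 ≤ K ^ C * |(h.leadingCoeff : ℝ)| := mul_le_mul_of_nonneg_left hc1 (by positivity)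
    linarith
  have hqNR : (q : ℝ) ≤ N := by exact_mod_cast hqN
  have hN0 : (0 : ℝ) < N := by linarith
  have hN1 : (1 : ℝ) ≤ N := by linarith
  by_contra hcon
  push Not at hcon
  set φ : Polynomial ℝ := Polynomial.C ((a : ℝ) / q) * hR h with hφ
  have hφdeg : φ.natDegree ≤ k + 1 := by
    rw [hφ]
    refine (Polynomial.natDegree_C_mul_le _ _).trans ?_
    unfold hR
    exact (Polynomial.natDegree_map_le).trans hdeg.le
  have hφc : φ.coeff (k + 1) = (a : ℝ) / q * h.leadingCoeff := by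
    rw [hφ, Polynomial.coeff_C_mul]
    unfold hR
    rw [Polynomial.coeff_map, Polynomial.leadingCoeff, hdeg]
    simp
  obtain ⟨r, hr1, hr2, t, ht⟩ := hC K hK N N 0 0 φ α β hφdeg (by linarith) (by linarith) hα hβ (by
    have e1 : Finset.Ico 0 (0 + N) = range N := by rw [zero_add, Finset.range_eq_Ico]
    rw [e1]
    refine le_trans (le_of_eq ?_) hcon.le
    ring)
  rw [hφc] at ht
  have hsmall : K ^ C / ((N : ℝ) * N) ^ (k + 1) < 1 / q := by
    rw [div_lt_div_iff₀ (by positivity) hq0, one_mul]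
    have h1 : (1 : ℝ) ≤ (N : ℝ) * N := by nlinarith
    calc K ^ C * q < q * q := mul_lt_mul_of_pos_right hKq hq0
      _ ≤ N * N := mul_le_mul hqNR hqNR hq0.le hN0.le
      _ = ((N : ℝ) * N) ^ 1 := (pow_one _).symm
      _ ≤ ((N : ℝ) * N) ^ (k + 1) := pow_le_pow_right₀ h1 (by omega)
  have h3 : |((r * a * h.leadingCoeff - t * q : ℤ) : ℝ)| < 1 := by
    have e1 : ((r * a * h.leadingCoeff - t * q : ℤ) : ℝ) =
        ((r : ℝ) * ((a : ℝ) / q * h.leadingCoeff) - t) * q := by
      push_cast; field_simp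
    rw [e1, abs_mul, abs_of_pos hq0]
    calc _ ≤ (K ^ C / ((N : ℝ) * N) ^ (k + 1)) * q := mul_le_mul_of_nonneg_right ht hq0.le
      _ < 1 / (q : ℝ) * q := mul_lt_mul_of_pos_right hsmall hq0
      _ = 1 := by field_simp
  have h4 : (r : ℤ) * a * h.leadingCoeff - t * q = 0 := by
    have : |((r : ℤ) * a * h.leadingCoeff - t * q)| < 1 := by exact_mod_cast h3
    exact Int.abs_lt_one_iff.1 this
  have h5 : (q : ℤ) ∣ r * h.leadingCoeff := by
    apply (hcop.symm).dvd_of_dvd_mul_left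
    exact ⟨t, by linarith⟩
  have h6 : (r : ℤ) * h.leadingCoeff ≠ 0 := mul_ne_zero (by exact_mod_cast (by omega : r ≠ 0)) hc
  have h7 : (q : ℤ) ≤ |(r : ℤ) * h.leadingCoeff| := Int.le_of_dvd (abs_pos.2 h6) ((dvd_abs _ _).2 h5)
  have h8 : (q : ℝ) ≤ r * |(h.leadingCoeff : ℝ)| := by
    have : ((q : ℤ) : ℝ) ≤ ((|(r : ℤ) * h.leadingCoeff| : ℤ) : ℝ) := by exact_mod_cast h7
    push_cast at this
    rw [abs_mul, abs_of_nonneg (Nat.cast_nonneg r)] at this
    exact this
  have h9 : (r : ℝ) * |(h.leadingCoeff : ℝ)| ≤ K ^ C * |(h.leadingCoeff : ℝ)| :=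
    mul_le_mul_of_nonneg_right hr2 (abs_nonneg _)
  linarith

/-- Regrouping a bilinear sum by residues. -/
lemma res_cell (N : ℕ) (hN : 0 < N) (G : ℕ → ℂ) (hG : ∀ n n', n ≡ n' [MOD N] → G n = G n')
    (I J : Finset ℕ) (a b : ℕ → ℂ) (A B : ℝ) (hA0 : 0 < A) (hB0 : 0 < B)
    (hA : ∀ r, ‖∑ d ∈ I.filter (fun d => d % N = r), a d‖ ≤ A)
    (hB : ∀ r, ‖∑ d ∈ J.filter (fun d => d % N = r), b d‖ ≤ B) (E : ℝ)
    (hE : ∀ α β : ℕ → ℂ, (∀ n, ‖α n‖ ≤ 1) → (∀ n, ‖β n‖ ≤ 1) →
      ‖∑ r ∈ range N, ∑ t ∈ range N, α r * β t * G (r * t)‖ ≤ E) :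
    ‖∑ d ∈ I, ∑ m ∈ J, a d * b m * G (d * m)‖ ≤ A * B * E := by
  classical
  set α : ℕ → ℂ := fun r => (∑ d ∈ I.filter (fun d => d % N = r), a d) / A with hα
  set β : ℕ → ℂ := fun r => (∑ d ∈ J.filter (fun d => d % N = r), b d) / B with hβ
  have hα1 : ∀ n, ‖α n‖ ≤ 1 := by
    intro n
    simp only [hα]
    rw [norm_div, Complex.norm_real, Real.norm_of_nonneg hA0.le, div_le_one hA0]
    exact hA n
  have hβ1 : ∀ n, ‖β n‖ ≤ 1 := by
    intro n
    simp only [hβ]
    rw [norm_div, Complex.norm_real, Real.norm_of_nonneg hB0.le, div_le_one hB0]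
    exact hB n
  have hAc : (A : ℂ) ≠ 0 := by exact_mod_cast hA0.ne'
  have hBc : (B : ℂ) ≠ 0 := by exact_mod_cast hB0.ne'
  have hmapI : ∀ d ∈ I, d % N ∈ range N := fun d _ => Finset.mem_range.2 (Nat.mod_lt _ hN)
  have hmapJ : ∀ d ∈ J, d % N ∈ range N := fun d _ => Finset.mem_range.2 (Nat.mod_lt _ hN)
  have key : ∑ d ∈ I, ∑ m ∈ J, a d * b m * G (d * m) =
      (A : ℂ) * B * ∑ r ∈ range N, ∑ t ∈ range N, α r * β t * G (r * t) := by
    rw [← Finset.sum_fiberwise_of_maps_to hmapI, Finset.mul_sum]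
    apply Finset.sum_congr rfl
    intro r _
    rw [Finset.mul_sum]
    have e1 : ∀ d ∈ I.filter (fun d => d % N = r), ∑ m ∈ J, a d * b m * G (d * m) =
        ∑ t ∈ range N, a d * (∑ m ∈ J.filter (fun m => m % N = t), b m) * G (r * t) := by
      intro d hd
      rw [Finset.mem_filter] at hd
      rw [← Finset.sum_fiberwise_of_maps_to hmapJ]
      apply Finset.sum_congr rfl
      intro t _
      rw [Finset.mul_sum, Finset.sum_mul]
      apply Finset.sum_congr rfl
      intro m hm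
      rw [Finset.mem_filter] at hm
      congr 1
      apply hG
      have h1 : d ≡ r [MOD N] := by rw [← hd.2]; exact (Nat.mod_modEq d N).symm
      have h2 : m ≡ t [MOD N] := by rw [← hm.2]; exact (Nat.mod_modEq m N).symm
      exact h1.mul h2
    rw [Finset.sum_congr rfl e1, Finset.sum_comm]
    apply Finset.sum_congr rfl
    intro t _
    rw [← Finset.sum_mul, ← Finset.sum_mul]
    simp only [hα, hβ]
    field_simp
  rw [key, norm_mul, norm_mul, Complex.norm_real, Complex.norm_real, Real.norm_of_nonneg hA0.le,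
    Real.norm_of_nonneg hB0.le]
  exact mul_le_mul_of_nonneg_left (hE α β hα1 hβ1) (by positivity)

end Pool.Agent.Lib.Pe70ed2
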