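import Pool.Agent.Lib.Pe70ed2.Major1

set_option autoImplicit false

namespace Pool.Agent.Lib.Pe70ed2

open Finset ArithmeticFunction

lemma coprime_of_rough {z : ℝ} {q m0 n : ℕ} (hq0 : 0 < q) (hq : (q : ℝ) < z) (hr : rough z m0 n)
    (hc : n.Coprime m0) : n.Coprime (q * m0) := by
  apply Nat.Coprime.mul_right _ hc
  by_contra hcon
  obtain ⟨p, hp, hpn, hpq⟩ := Nat.Prime.not_coprime_iff_dvd.1 hcon
  have hpz : (p : ℝ) < z := by
    have : p ≤ q := Nat.le_of_dvd hq0 hpq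
    have : (p : ℝ) ≤ q := by exact_mod_cast this
    linarith
  have := hr p hp hpz hpn
  have h2 := Nat.dvd_gcd hpn this
  rw [hc] at h2
  exact hp.one_lt.ne' (Nat.dvd_one.1 h2)

lemma rough_down {z w : ℝ} {q m0 n : ℕ} (hwz : w ≤ z) (hr : rough z m0 n) : rough w (q * m0) n :=
  fun p hp hpw hpn => (hr p hp (by linarith) hpn).mul_left q

/-- The upper bound sieve property with constant `C0`. -/
def UpperProp (C0 : ℝ) : Prop := ∀ w : ℝ, 2 ≤ w → ∀ N : ℕ, 0 < N → ∀ D : ℕ, w ^ 6 ≤ D →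
    ∀ y H v : ℕ, ∀ R : Finset ℕ, (∀ x, x ∈ R → x ∈ Finset.Ioc y (y + H) ∧ x ≡ v [MOD N] ∧ rough w N x) →
    (R.card : ℝ) ≤ 2 * C0 * (H / (N.totient * Real.log w)) + D * (Real.log w + 3)

/-- The asymptotic sieve property with constant `C0`. -/
def SieveProp (C0 : ℝ) : Prop := ∀ z : ℝ, 2 ≤ z → ∀ q : ℕ, 0 < q → ∀ β D : ℕ,
    z ^ (4 * β + 6) ≤ D → ∃ (lam : ℕ → ℝ) (Lam Xi : ℝ),
      (∀ d, lam d ≠ 0 → 1 ≤ d ∧ d ≤ D ∧ d.Coprime q) ∧ (∀ d, |lam d| ≤ 1) ∧
      0 ≤ Lam ∧ Lam ≤ C0 * ((q : ℝ) / (q.totient : ℝ) / Real.log z) ∧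
      Xi ≤ C0 / 4 ^ β * ((q : ℝ) / (q.totient : ℝ) / Real.log z) ∧
      ∀ y H v : ℕ, ∀ S : Finset ℕ, S = (Finset.Ioc y (y + H)).filter (fun x => x ≡ v [MOD q]) →
      ∀ R : Finset ℕ, (∀ x, x ∈ R ↔ x ∈ S ∧ rough z q x) →
      |(R.card : ℝ) - (H : ℝ) / q * Lam| ≤ (H : ℝ) / q * Xi + D * (Real.log z + 3) ∧
      ∀ F : ℕ → ℂ, (∀ n, ‖F n‖ ≤ 1) → ‖∑ x ∈ R, F x‖ ≤
        ‖∑ d ∈ Finset.Icc 1 D, (lam d : ℂ) * ∑ x ∈ S.filter (fun x => d ∣ x), F x‖ +
          ((H : ℝ) / q * Xi + D * (Real.log z + 2))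

theorem exists_sieve : ∃ C0 : ℝ, 0 < C0 ∧ SieveProp C0 ∧ UpperProp C0 := by
  classical
  obtain ⟨C0, hC0, h⟩ := sieve_ap
  refine ⟨C0, hC0, h, ?_⟩
  intro w hw N hN D hD y H v R hR
  obtain ⟨lam, Lam, Xi, -, -, l0, l1, l2, hfin⟩ := h w hw N hN 0 D (by simpa using hD)
  set S := (Finset.Ioc y (y + H)).filter (fun x => x ≡ v [MOD N]) with hS
  obtain ⟨h1, -⟩ := hfin y H v S rfl (S.filter (fun x => rough w N x)) (by
    intro x; rw [Finset.mem_filter])
  have hle : (R.card : ℝ) ≤ ((S.filter (fun x => rough w N x)).card : ℝ) := by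
    have : R ⊆ S.filter (fun x => rough w N x) := by
      intro x hx
      obtain ⟨a, b, c⟩ := hR x hx
      rw [Finset.mem_filter, hS, Finset.mem_filter]
      exact ⟨⟨a, b⟩, c⟩
    exact_mod_cast Finset.card_le_card this
  have h2 := (abs_le.1 h1).2
  have hN0 : (0 : ℝ) < N := by exact_mod_cast hN
  have hφ : (0 : ℝ) < (N.totient : ℝ) := by exact_mod_cast Nat.totient_pos.2 hN
  have hlog : 0 < Real.log w := Real.log_pos (by linarith)
  have e1 : (H : ℝ) / N * Lam ≤ C0 * (H / (N.totient * Real.log w)) := by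
    calc (H : ℝ) / N * Lam ≤ (H : ℝ) / N * (C0 * ((N : ℝ) / (N.totient : ℝ) / Real.log w)) :=
          mul_le_mul_of_nonneg_left l1 (by positivity)
      _ = _ := by field_simp
  have e2 : (H : ℝ) / N * Xi ≤ C0 * (H / (N.totient * Real.log w)) := by
    calc (H : ℝ) / N * Xi ≤ (H : ℝ) / N * (C0 / 4 ^ 0 * ((N : ℝ) / (N.totient : ℝ) / Real.log w)) :=
          mul_le_mul_of_nonneg_left l2 (by positivity)
      _ = _ := by rw [pow_zero]; field_simp
  linarith

lemma norm_acoef (z : ℝ) (X q v d : ℕ) (hX : 2 ≤ X) (hd : d ≤ X) :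
    ‖acoef z (Real.log X) q v d‖ ≤ 1 := by
  have hX1 : (1 : ℝ) < X := by
    have : (2 : ℝ) ≤ X := by exact_mod_cast hX
    linarith
  have hL : 0 < Real.log X := Real.log_pos hX1
  unfold acoef
  split_ifs
  · rw [Complex.norm_real, Real.norm_of_nonneg (div_nonneg vonMangoldt_nonneg hL.le), div_le_one hL]
    refine vonMangoldt_le_log.trans ?_
    rcases Nat.eq_zero_or_pos d with rfl | hd0
    · simp; exact hL.le
    · exact Real.log_le_log (by exact_mod_cast hd0) (by exact_mod_cast hd)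
  · simp

lemma norm_bcoef (z : ℝ) (q w m : ℕ) : ‖bcoef z q w m‖ ≤ 1 := by
  unfold bcoef
  split_ifs <;> simp

/-- Bilinear sums on the major arcs. -/
lemma major_T (C0 : ℝ) (hC0 : 0 < C0) (hUp : UpperProp C0) (z w : ℝ) (hw : 2 ≤ w) (hwz : w ≤ z)
    (X y H l j0 j1 m0 q D v v' : ℕ) (hm0 : 0 < m0) (hq : 0 < q)
    (hX : y + H ≤ X) (hX2 : 2 ≤ X) (hl : l ≤ j0) (hj : j0 ≤ j1) (hj1X : 2 ^ j1 ≤ X)
    (h2 : 2 * X ≤ H * 2 ^ l) (h3 : 4 * 2 ^ j1 ≤ H) (hD : w ^ 6 ≤ D)
    (h4 : D * (Real.log w + 3) * ((q * m0).totient * Real.log w) ≤ C0 * 2 ^ (j0 - l))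
    (h5 : D * (Real.log w + 3) * ((q * m0).totient * Real.log w) * (4 * 2 ^ j1) ≤ C0 * H)
    (G : ℕ → ℂ) (hG1 : ∀ n, ‖G n‖ ≤ 1) (hG : ∀ n n', n ≡ n' [MOD q * m0] → G n = G n') (E : ℝ)
    (hE : ∀ α β : ℕ → ℂ, (∀ n, ‖α n‖ ≤ 1) → (∀ n, ‖β n‖ ≤ 1) →
      ‖∑ r ∈ range (q * m0), ∑ t ∈ range (q * m0), α r * β t * G (r * t)‖ ≤ E) :
    ‖∑ d ∈ Finset.Ico (2 ^ j0 : ℕ) (2 ^ j1), ∑ m ∈ Finset.Ioc (y / d) ((y + H) / d),
        acoef z (Real.log X) m0 v d * bcoef z m0 v' m * G (d * m)‖ ≤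
      (3 * C0 / ((q * m0).totient * Real.log w)) ^ 2 * E * (H * j1 + 2 ^ j1) +
        (2 * X * j1 / 2 ^ l + 2 * 2 ^ j1) := by
  classical
  set N := q * m0 with hN
  have hN0 : 0 < N := Nat.mul_pos hq hm0
  have hφ : (0 : ℝ) < (N.totient : ℝ) := by exact_mod_cast Nat.totient_pos.2 hN0
  have hlog : 0 < Real.log w := Real.log_pos (by linarith)
  set W : ℝ := N.totient * Real.log w with hW
  have hW0 : 0 < W := by positivity
  have hE0 : 0 ≤ E := (norm_nonneg _).trans (hE (fun _ => 0) (fun _ => 0) (by simp) (by simp))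
  set a' : ℕ → ℂ := fun d => if d ≤ X then acoef z (Real.log X) m0 v d else 0 with ha'
  have ha'1 : ∀ d, ‖a' d‖ ≤ 1 := by
    intro d
    simp only [ha']
    split_ifs with hd
    · exact norm_acoef z X m0 v d hX2 hd
    · simp
  have hrepl : ∑ d ∈ Finset.Ico (2 ^ j0 : ℕ) (2 ^ j1), ∑ m ∈ Finset.Ioc (y / d) ((y + H) / d),
        acoef z (Real.log X) m0 v d * bcoef z m0 v' m * G (d * m) =
      ∑ d ∈ Finset.Ico (2 ^ j0 : ℕ) (2 ^ j1), ∑ m ∈ Finset.Ioc (y / d) ((y + H) / d),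
        a' d * bcoef z m0 v' m * G (d * m) := by
    apply Finset.sum_congr rfl
    intro d hd
    rw [Finset.mem_Ico] at hd
    simp only [ha']
    rw [if_pos (by omega)]
  rw [hrepl]
  apply cells_bound X y H l j0 j1 hX hl hj a' (bcoef z m0 v') G ha'1 (norm_bcoef z m0 v') hG1
    ((3 * C0 / W) ^ 2 * E) (by positivity)
  intro j hjm c hc
  rw [Finset.mem_Ico] at hjm
  obtain ⟨c1, c2, c3⟩ := cell_len X y H l j j1 c hX (by omega) hjm.2 hc h2 h3
  have hc2 := Finset.mem_Ico.1 hc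
  have hc0 : 0 < c := lt_of_lt_of_le (by positivity) hc2.1
  set Δ : ℕ := 2 ^ (j - l) with hΔ
  have hΔ0 : 0 < Δ := by positivity
  have hΔR : (0 : ℝ) < Δ := by exact_mod_cast hΔ0
  have e0 : ((2 : ℝ) ^ (j - l)) = (Δ : ℝ) := by rw [hΔ]; push_cast; rfl
  rw [e0] at c1 c2 ⊢
  set M : ℕ := (y + H) / ((c + 1) * Δ) - y / (c * Δ) with hM
  have hH0 : (0 : ℝ) ≤ H := Nat.cast_nonneg H
  have h3R : 4 * (2 : ℝ) ^ j1 ≤ H := by exact_mod_cast h3
  have hHM : (H : ℝ) / (4 * 2 ^ j1) ≤ M := by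
    refine le_trans ?_ c1
    apply div_le_div_of_nonneg_left hH0 (by positivity)
    linarith
  have hMpos : (0 : ℝ) < M := by
    refine lt_of_lt_of_le ?_ hHM
    have : (0 : ℝ) < 4 * 2 ^ j1 := by positivity
    have : (0 : ℝ) < H := by linarith
    positivity
  have hD0 : 0 ≤ (D : ℝ) * (Real.log w + 3) := by positivity
  have hI1 : (D : ℝ) * (Real.log w + 3) ≤ C0 * (Δ / W) := by
    rw [← mul_div_assoc, le_div_iff₀ hW0]
    refine h4.trans ?_
    apply mul_le_mul_of_nonneg_left _ hC0.le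
    rw [← e0]
    exact pow_le_pow_right₀ (by norm_num) (by omega)
  have hJ1 : (D : ℝ) * (Real.log w + 3) ≤ C0 * (M / W) := by
    have h6 : (D : ℝ) * (Real.log w + 3) ≤ C0 * ((H / (4 * 2 ^ j1)) / W) := by
      have e1 : C0 * ((H / (4 * 2 ^ j1)) / W) = C0 * H / (W * (4 * 2 ^ j1)) := by
        field_simp
      rw [e1, le_div_iff₀ (by positivity), ← mul_assoc]
      exact h5
    refine h6.trans ?_
    apply mul_le_mul_of_nonneg_left _ hC0.le
    exact div_le_div_of_nonneg_right hHM hW0.le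
  -- the roughness conditions
  have hA : ∀ r, ‖∑ d ∈ (Finset.Ico (c * Δ) ((c + 1) * Δ)).filter (fun d => d % N = r), a' d‖ ≤
      3 * C0 * (Δ / W) := by
    intro r
    set I := (Finset.Ico (c * Δ) ((c + 1) * Δ)).filter (fun d => d % N = r) with hI
    have hcΔ : 0 < c * Δ := Nat.mul_pos hc0 hΔ0
    have h6 := hUp w hw N hN0 D hD (c * Δ - 1) Δ r (I.filter (fun d => rough w N d)) (by
      intro x hx
      rw [Finset.mem_filter, hI, Finset.mem_filter, Finset.mem_Ico] at hx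
      obtain ⟨⟨⟨x1, x2⟩, x3⟩, x4⟩ := hx
      refine ⟨?_, ?_, x4⟩
      · rw [Finset.mem_Ioc]
        have : (c + 1) * Δ = c * Δ + Δ := by ring
        omega
      · rw [← x3]; exact (Nat.mod_modEq x N).symm)
    have h7 : ‖∑ d ∈ I, a' d‖ ≤ ((I.filter (fun d => rough w N d)).card : ℝ) := by
      refine (norm_sum_le _ _).trans ?_
      rw [Finset.card_filter]
      push_cast
      apply Finset.sum_le_sum
      intro d _
      by_cases hd : rough w N d
      · rw [if_pos hd]; exact ha'1 d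
      · rw [if_neg hd]
        have : a' d = 0 := by
          simp only [ha']
          split_ifs with hdX
          · unfold acoef
            rw [if_neg]
            rintro ⟨h8, -⟩
            exact hd (rough_down hwz h8)
          · rfl
        rw [this, norm_zero]
    linarith
  have hB : ∀ r, ‖∑ d ∈ (Finset.Ioc (y / (c * Δ)) ((y + H) / ((c + 1) * Δ))).filter (fun d => d % N = r),
      bcoef z m0 v' d‖ ≤ 3 * C0 * (M / W) := by
    intro r
    set I := (Finset.Ioc (y / (c * Δ)) ((y + H) / ((c + 1) * Δ))).filter (fun d => d % N = r) with hI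
    have h6 := hUp w hw N hN0 D hD (y / (c * Δ)) M r (I.filter (fun d => rough w N d)) (by
      intro x hx
      rw [Finset.mem_filter, hI, Finset.mem_filter, Finset.mem_Ioc] at hx
      obtain ⟨⟨⟨x1, x2⟩, x3⟩, x4⟩ := hx
      refine ⟨?_, ?_, x4⟩
      · rw [Finset.mem_Ioc]
        omega
      · rw [← x3]; exact (Nat.mod_modEq x N).symm)
    have h7 : ‖∑ d ∈ I, bcoef z m0 v' d‖ ≤ ((I.filter (fun d => rough w N d)).card : ℝ) := by
      refine (norm_sum_le _ _).trans ?_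
      rw [Finset.card_filter]
      push_cast
      apply Finset.sum_le_sum
      intro d _
      by_cases hd : rough w N d
      · rw [if_pos hd]; exact norm_bcoef z m0 v' d
      · rw [if_neg hd]
        have : bcoef z m0 v' d = 0 := by
          unfold bcoef
          rw [if_neg]
          rintro ⟨-, h8, -⟩
          exact hd (rough_down hwz h8)
        rw [this, norm_zero]
    linarith
  refine (res_cell N hN0 G hG _ _ a' (bcoef z m0 v') _ _ (by positivity) (by positivity) hA hB E hE).trans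
    (le_of_eq ?_)
  field_simp

/-- Multiplication by a unit permutes the reduced residues. -/
lemma sum_perm (N : ℕ) (hN : 0 < N) (g : ℕ → ℂ) (hg : ∀ n n', n ≡ n' [MOD N] → g n = g n') (t : ℕ)
    (ht : N.Coprime t) :
    ∑ r ∈ (range N).filter (fun r => N.Coprime r), g (t * r) =
      ∑ r ∈ (range N).filter (fun r => N.Coprime r), g r := by
  classical
  set U := (range N).filter (fun r => N.Coprime r) with hU
  have hcop : ∀ x, N.Coprime (x % N) ↔ N.Coprime x := by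
    intro x
    have h : Nat.gcd (x % N) N = Nat.gcd x N := (Nat.mod_modEq x N).gcd_eq
    unfold Nat.Coprime
    rw [Nat.gcd_comm N, Nat.gcd_comm N x, h]
  have hmaps : ∀ r ∈ U, (t * r) % N ∈ U := by
    intro r hr
    rw [hU, Finset.mem_filter] at hr ⊢
    refine ⟨Finset.mem_range.2 (Nat.mod_lt _ hN), ?_⟩
    rw [hcop]
    exact Nat.Coprime.mul_right ht hr.2
  have hinj : Set.InjOn (fun r => (t * r) % N) (U : Set ℕ) := by
    intro r hr r' hr' h
    simp only at h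
    have hr2 := Finset.mem_filter.1 hr
    have hr2' := Finset.mem_filter.1 hr'
    have h1 : t * r ≡ t * r' [MOD N] := h
    have h2 : r ≡ r' [MOD N] := Nat.ModEq.cancel_left_of_coprime ht h1
    have h3 : r % N = r' % N := h2
    rwa [Nat.mod_eq_of_lt (Finset.mem_range.1 hr2.1), Nat.mod_eq_of_lt (Finset.mem_range.1 hr2'.1)] at h3
  have himg : U.image (fun r => (t * r) % N) = U := by
    apply Finset.eq_of_subset_of_card_le
    · intro x hx
      rw [Finset.mem_image] at hx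
      obtain ⟨r, hr, rfl⟩ := hx
      exact hmaps r hr
    · rw [Finset.card_image_of_injOn hinj]
  calc ∑ r ∈ U, g (t * r) = ∑ r ∈ U, g ((t * r) % N) := by
        apply Finset.sum_congr rfl
        intro r _
        exact hg _ _ (Nat.mod_modEq _ _).symm
    _ = ∑ x ∈ U.image (fun r => (t * r) % N), g x := by rw [Finset.sum_image hinj]
    _ = ∑ x ∈ U, g x := by rw [himg]

lemma res_sum (N m0 u : ℕ) (hN : 0 < N) (hm0 : 0 < m0) (hdvd : m0 ∣ N) (G : ℕ → ℂ)
    (hG : ∀ n n', n ≡ n' [MOD N] → G n = G n') (E : ℝ)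
    (hE : ∀ α β : ℕ → ℂ, (∀ n, ‖α n‖ ≤ 1) → (∀ n, ‖β n‖ ≤ 1) →
      ‖∑ r ∈ range N, ∑ t ∈ range N, α r * β t * G (r * t)‖ ≤ E) :
    (N.totient : ℝ) * ‖∑ r ∈ (range N).filter (fun r => N.Coprime r ∧ r ≡ u [MOD m0]), G r‖ ≤
      (m0 : ℝ) ^ 2 * E := by
  classical
  set U := (range N).filter (fun r => N.Coprime r) with hU
  have hE0 : 0 ≤ E := (norm_nonneg _).trans (hE (fun _ => 0) (fun _ => 0) (by simp) (by simp))
  set g : ℕ → ℂ := fun r => if r ≡ u [MOD m0] then G r else 0 with hg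
  have hgp : ∀ n n', n ≡ n' [MOD N] → g n = g n' := by
    intro n n' h
    simp only [hg]
    have h1 : n ≡ n' [MOD m0] := h.of_dvd hdvd
    have h2 : (n ≡ u [MOD m0]) ↔ (n' ≡ u [MOD m0]) := ⟨fun h3 => h1.symm.trans h3, fun h3 => h1.trans h3⟩
    by_cases h3 : n ≡ u [MOD m0]
    · rw [if_pos h3, if_pos (h2.1 h3), hG n n' h]
    · rw [if_neg h3, if_neg (fun h4 => h3 (h2.2 h4))]
  have hsumg : ∑ r ∈ (range N).filter (fun r => N.Coprime r ∧ r ≡ u [MOD m0]), G r = ∑ r ∈ U, g r := by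
    rw [hU, ← Finset.filter_filter, Finset.sum_filter]
  have h1 : ∑ t ∈ U, ∑ r ∈ U, g (t * r) = (N.totient : ℂ) * ∑ r ∈ U, g r := by
    have h2 : ∀ t ∈ U, ∑ r ∈ U, g (t * r) = ∑ r ∈ U, g r := by
      intro t ht
      exact sum_perm N hN g hgp t (Finset.mem_filter.1 ht).2
    rw [Finset.sum_congr rfl h2, Finset.sum_const, nsmul_eq_mul, Nat.totient_eq_card_coprime]
  have h3 : ∑ t ∈ U, ∑ r ∈ U, g (t * r) = ∑ v ∈ range m0, ∑ w ∈ range m0,
      ∑ t ∈ range N, ∑ r ∈ range N, (if v * w ≡ u [MOD m0] then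
        ((if N.Coprime t ∧ t ≡ v [MOD m0] then 1 else 0) * (if N.Coprime r ∧ r ≡ w [MOD m0] then 1 else 0) *
          G (t * r)) else 0) := by
    have e1 : ∀ t r, (if N.Coprime t ∧ N.Coprime r then g (t * r) else 0) = ∑ v ∈ range m0, ∑ w ∈ range m0,
        (if v * w ≡ u [MOD m0] then
        ((if N.Coprime t ∧ t ≡ v [MOD m0] then 1 else 0) * (if N.Coprime r ∧ r ≡ w [MOD m0] then 1 else 0) *
          G (t * r)) else 0) := by
      intro t r
      have e2 : (if N.Coprime t ∧ N.Coprime r then g (t * r) else 0) =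
          if t * r ≡ u [MOD m0] then (if N.Coprime t ∧ N.Coprime r then G (t * r) else 0) else 0 := by
        simp only [hg]
        by_cases g1 : N.Coprime t ∧ N.Coprime r <;> by_cases g2 : t * r ≡ u [MOD m0] <;> simp [g1, g2]
      rw [e2, class_split m0 hm0]
      apply Finset.sum_congr rfl; intro v _
      apply Finset.sum_congr rfl; intro w _
      by_cases g4 : N.Coprime t
      · by_cases g5 : N.Coprime r
        · have hc : N.Coprime t ∧ N.Coprime r := ⟨g4, g5⟩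
          simp only [if_pos hc]
          by_cases g1 : v * w ≡ u [MOD m0]
          · by_cases g2 : t ≡ v [MOD m0]
            · by_cases g3 : r ≡ w [MOD m0]
              · have h6 : v * w ≡ u [MOD m0] ∧ t ≡ v [MOD m0] ∧ r ≡ w [MOD m0] := ⟨g1, g2, g3⟩
                have h7 : N.Coprime t ∧ t ≡ v [MOD m0] := ⟨g4, g2⟩
                have h8 : N.Coprime r ∧ r ≡ w [MOD m0] := ⟨g5, g3⟩
                simp only [if_pos h6, if_pos g1, if_pos h7, if_pos h8, one_mul]
              · simp [g3]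
            · simp [g2]
          · simp [g1]
        · simp [g5]
      · simp [g4]
    have e3 : ∑ t ∈ U, ∑ r ∈ U, g (t * r) = ∑ t ∈ range N, ∑ r ∈ range N,
        (if N.Coprime t ∧ N.Coprime r then g (t * r) else 0) := by
      rw [hU, Finset.sum_filter]
      apply Finset.sum_congr rfl
      intro t _
      by_cases g1 : N.Coprime t
      · rw [if_pos g1, Finset.sum_filter]
        apply Finset.sum_congr rfl
        intro r _
        by_cases g2 : N.Coprime r
        · rw [if_pos g2, if_pos ⟨g1, g2⟩]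
        · rw [if_neg g2, if_neg (fun h => g2 h.2)]
      · rw [if_neg g1]
        simp [g1]
    rw [e3]
    simp_rw [e1]
    rw [Finset.sum_congr rfl (fun t _ => Finset.sum_comm), Finset.sum_comm]
    apply Finset.sum_congr rfl; intro v _
    rw [Finset.sum_congr rfl (fun t _ => Finset.sum_comm), Finset.sum_comm]
  have h4 : ‖∑ t ∈ U, ∑ r ∈ U, g (t * r)‖ ≤ (m0 : ℝ) ^ 2 * E := by
    rw [h3]
    have hv : ∀ v ∈ range m0, ‖∑ w ∈ range m0,
      ∑ t ∈ range N, ∑ r ∈ range N, (if v * w ≡ u [MOD m0] then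
        ((if N.Coprime t ∧ t ≡ v [MOD m0] then 1 else 0) * (if N.Coprime r ∧ r ≡ w [MOD m0] then 1 else 0) *
          G (t * r)) else 0)‖ ≤ m0 * E := by
      intro v _
      have hw : ∀ w ∈ range m0, ‖∑ t ∈ range N, ∑ r ∈ range N, (if v * w ≡ u [MOD m0] then
        ((if N.Coprime t ∧ t ≡ v [MOD m0] then 1 else 0) * (if N.Coprime r ∧ r ≡ w [MOD m0] then 1 else 0) *
          G (t * r)) else 0)‖ ≤ E := by
        intro w _
        by_cases g1 : v * w ≡ u [MOD m0]
        · simp only [if_pos g1]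
          apply hE (fun t => if N.Coprime t ∧ t ≡ v [MOD m0] then 1 else 0)
            (fun r => if N.Coprime r ∧ r ≡ w [MOD m0] then 1 else 0)
          · intro n; split_ifs <;> simp
          · intro n; split_ifs <;> simp
        · simp only [if_neg g1, Finset.sum_const_zero, norm_zero]
          exact hE0
      refine (norm_sum_le _ _).trans ((Finset.sum_le_card_nsmul _ _ _ hw).trans (le_of_eq ?_))
      rw [Finset.card_range, nsmul_eq_mul]
    refine (norm_sum_le _ _).trans ((Finset.sum_le_card_nsmul _ _ _ hv).trans (le_of_eq ?_))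
    rw [Finset.card_range, nsmul_eq_mul]
    ring
  rw [h1, norm_mul, Complex.norm_natCast] at h4
  rw [hsumg]
  exact h4

end Pool.Agent.Lib.Pe70ed2
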