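import Pool.Agent.Lib.Pe70ed2.Major2

set_option autoImplicit false

namespace Pool.Agent.Lib.Pe70ed2

open Finset ArithmeticFunction

lemma major_a (C0 : ℝ) (hC0 : 0 < C0) (hS : SieveProp C0) (z : ℝ) (hz : 2 ≤ z) (m0 q u y H β D : ℕ)
    (hm0 : 0 < m0) (hq : 0 < q) (hqz : (q : ℝ) < z) (hu : u.Coprime m0) (hD : z ^ (4 * β + 6) ≤ D)
    (G : ℕ → ℂ) (hG1 : ∀ n, ‖G n‖ ≤ 1) (hG : ∀ n n', n ≡ n' [MOD q * m0] → G n = G n') (E : ℝ)
    (hE : ∀ α β : ℕ → ℂ, (∀ n, ‖α n‖ ≤ 1) → (∀ n, ‖β n‖ ≤ 1) →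
      ‖∑ r ∈ range (q * m0), ∑ t ∈ range (q * m0), α r * β t * G (r * t)‖ ≤ E)
    (R : Finset ℕ) (hR : ∀ x, x ∈ R ↔ x ∈ Finset.Ioc y (y + H) ∧ x ≡ u [MOD m0] ∧ rough z m0 x) :
    ‖∑ x ∈ R, G x‖ ≤ C0 * H / Real.log z * ((m0 : ℝ) ^ 2 * E / ((q * m0).totient : ℝ) ^ 2 + 1 / 4 ^ β) +
      (q * m0 : ℕ) * (D * (Real.log z + 3)) := by
  classical
  set N := q * m0 with hN
  have hN0 : 0 < N := Nat.mul_pos hq hm0
  have hNR : (0 : ℝ) < N := by exact_mod_cast hN0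
  have hφ : (0 : ℝ) < (N.totient : ℝ) := by exact_mod_cast Nat.totient_pos.2 hN0
  have hlog : 0 < Real.log z := Real.log_pos (by linarith)
  have hdvd : m0 ∣ N := ⟨q, by rw [hN, mul_comm]⟩
  obtain ⟨lam, Lam, Xi, -, -, l0, l1, l2, hfin⟩ := hS z hz N hN0 β D hD
  set A := (range N).filter (fun r => N.Coprime r ∧ r ≡ u [MOD m0]) with hA
  have hmaps : ∀ x ∈ R, x % N ∈ A := by
    intro x hx
    obtain ⟨x1, x2, x3⟩ := (hR x).1 hx
    have hxm : x.Coprime m0 := by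
      have : Nat.gcd x m0 = Nat.gcd u m0 := x2.gcd_eq
      rw [Nat.Coprime, this]; exact hu
    have hxN : x.Coprime N := coprime_of_rough hq hqz x3 hxm
    rw [hA, Finset.mem_filter]
    refine ⟨Finset.mem_range.2 (Nat.mod_lt _ hN0), ?_, ?_⟩
    · have h : Nat.gcd (x % N) N = Nat.gcd x N := (Nat.mod_modEq x N).gcd_eq
      rw [Nat.coprime_comm, Nat.Coprime, h]
      exact hxN
    · exact ((Nat.mod_modEq x N).of_dvd hdvd).trans x2
  have hcard : ∀ r ∈ A, |((R.filter (fun x => x % N = r)).card : ℝ) - (H : ℝ) / N * Lam| ≤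
      (H : ℝ) / N * Xi + D * (Real.log z + 3) := by
    intro r hr
    rw [hA, Finset.mem_filter, Finset.mem_range] at hr
    obtain ⟨hrN, hrc, hru⟩ := hr
    refine (hfin y H r _ rfl (R.filter (fun x => x % N = r)) ?_).1
    intro x
    rw [Finset.mem_filter, Finset.mem_filter, hR]
    constructor
    · rintro ⟨⟨x1, x2, x3⟩, x4⟩
      refine ⟨⟨x1, ?_⟩, ?_⟩
      · change x % N = r % N
        rw [x4, Nat.mod_eq_of_lt hrN]
      · intro p hp hpz hpx
        exact (x3 p hp hpz hpx).trans hdvd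
    · rintro ⟨⟨x1, x2⟩, x3⟩
      have hxr : x % N = r := by
        have : x % N = r % N := x2
        rw [this, Nat.mod_eq_of_lt hrN]
      have hxc : x.Coprime N := by
        have : Nat.gcd x N = Nat.gcd r N := x2.gcd_eq
        rw [Nat.Coprime, this]
        exact hrc.symm
      refine ⟨⟨x1, (x2.of_dvd hdvd).trans hru, ?_⟩, hxr⟩
      intro p hp hpz hpx
      exfalso
      have h1 := x3 p hp hpz hpx
      have h2 := Nat.dvd_gcd hpx h1
      rw [hxc] at h2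
      exact hp.one_lt.ne' (Nat.dvd_one.1 h2)
  set err : ℕ → ℝ := fun r => ((R.filter (fun x => x % N = r)).card : ℝ) - (H : ℝ) / N * Lam with herr
  have hsum : ∑ x ∈ R, G x = (((H : ℝ) / N * Lam : ℝ) : ℂ) * ∑ r ∈ A, G r + ∑ r ∈ A, (err r : ℂ) * G r := by
    rw [← Finset.sum_fiberwise_of_maps_to hmaps, Finset.mul_sum, ← Finset.sum_add_distrib]
    apply Finset.sum_congr rfl
    intro r _
    have e1 : ∀ x ∈ R.filter (fun x => x % N = r), G x = G r := by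
      intro x hx
      rw [Finset.mem_filter] at hx
      apply hG
      rw [← hx.2]
      exact (Nat.mod_modEq x N).symm
    rw [Finset.sum_congr rfl e1, Finset.sum_const, nsmul_eq_mul]
    simp only [herr]
    push_cast
    ring
  rw [hsum]
  refine (norm_add_le _ _).trans ?_
  have hres := res_sum N m0 u hN0 hm0 hdvd G hG E hE
  have hAcard : (A.card : ℝ) ≤ N.totient := by
    have : A.card ≤ N.totient := by
      rw [Nat.totient_eq_card_coprime]
      apply Finset.card_le_card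
      intro r hr
      rw [hA, Finset.mem_filter] at hr
      rw [Finset.mem_filter]
      exact ⟨hr.1, hr.2.1⟩
    exact_mod_cast this
  have hH0 : (0 : ℝ) ≤ H := Nat.cast_nonneg H
  have hE0 : 0 ≤ E := (norm_nonneg _).trans (hE (fun _ => 0) (fun _ => 0) (by simp) (by simp))
  have t1 : ‖(((H : ℝ) / N * Lam : ℝ) : ℂ) * ∑ r ∈ A, G r‖ ≤
      C0 * H / Real.log z * ((m0 : ℝ) ^ 2 * E / (N.totient : ℝ) ^ 2) := by
    rw [norm_mul, Complex.norm_real, Real.norm_of_nonneg (by positivity)]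
    have h1 : ‖∑ r ∈ A, G r‖ ≤ (m0 : ℝ) ^ 2 * E / N.totient := by
      rw [le_div_iff₀ hφ, mul_comm]; exact hres
    have h2 : (H : ℝ) / N * Lam ≤ C0 * H / (N.totient * Real.log z) := by
      calc (H : ℝ) / N * Lam ≤ (H : ℝ) / N * (C0 * ((N : ℝ) / (N.totient : ℝ) / Real.log z)) :=
            mul_le_mul_of_nonneg_left l1 (by positivity)
        _ = _ := by field_simp
    calc _ ≤ C0 * H / (N.totient * Real.log z) * ((m0 : ℝ) ^ 2 * E / N.totient) :=
          mul_le_mul h2 h1 (norm_nonneg _) (by positivity)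
      _ = _ := by field_simp
  have t2 : ‖∑ r ∈ A, (err r : ℂ) * G r‖ ≤ C0 * H / Real.log z * (1 / 4 ^ β) + N * (D * (Real.log z + 3)) := by
    have h1 : ∀ r ∈ A, ‖(err r : ℂ) * G r‖ ≤ C0 * H / (4 ^ β * (N.totient * Real.log z)) + D * (Real.log z + 3) := by
      intro r hr
      rw [norm_mul, Complex.norm_real, Real.norm_eq_abs]
      have h2 : (H : ℝ) / N * Xi ≤ C0 * H / (4 ^ β * (N.totient * Real.log z)) := by
        calc (H : ℝ) / N * Xi ≤ (H : ℝ) / N * (C0 / 4 ^ β * ((N : ℝ) / (N.totient : ℝ) / Real.log z)) :=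
              mul_le_mul_of_nonneg_left l2 (by positivity)
          _ = _ := by field_simp
      calc |err r| * ‖G r‖ ≤ |err r| * 1 := mul_le_mul_of_nonneg_left (hG1 r) (abs_nonneg _)
        _ = |err r| := mul_one _
        _ ≤ _ := by linarith [hcard r hr]
    refine (norm_sum_le _ _).trans ((Finset.sum_le_card_nsmul _ _ _ h1).trans ?_)
    rw [nsmul_eq_mul, mul_add]
    apply add_le_add
    · calc (A.card : ℝ) * (C0 * H / (4 ^ β * (N.totient * Real.log z))) ≤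
            (N.totient : ℝ) * (C0 * H / (4 ^ β * (N.totient * Real.log z))) :=
            mul_le_mul_of_nonneg_right hAcard (by positivity)
        _ = _ := by field_simp
    · apply mul_le_mul_of_nonneg_right _ (by positivity)
      refine hAcard.trans ?_
      exact_mod_cast Nat.totient_le N
  calc _ ≤ C0 * H / Real.log z * ((m0 : ℝ) ^ 2 * E / (N.totient : ℝ) ^ 2) +
        (C0 * H / Real.log z * (1 / 4 ^ β) + N * (D * (Real.log z + 3))) := add_le_add t1 t2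
    _ = _ := by ring

lemma poly_lip (h : Polynomial ℤ) (k : ℕ) (hdeg : h.natDegree ≤ k + 1) :
    ∃ Ch : ℝ, 0 ≤ Ch ∧ ∀ X y n : ℕ, 1 ≤ X → y ≤ X → n ≤ X →
      |(hR h).eval (n : ℝ) - (hR h).eval (y : ℝ)| ≤ Ch * X ^ k * |(n : ℝ) - y| := by
  refine ⟨∑ i ∈ range (k + 2), |(hR h).coeff i| * (k + 1), Finset.sum_nonneg fun i _ => by positivity, ?_⟩
  intro X y n hX hy hn
  have hd : (hR h).natDegree < k + 2 := by
    unfold hR
    exact lt_of_le_of_lt Polynomial.natDegree_map_le (by omega)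
  rw [Polynomial.eval_eq_sum_range' hd, Polynomial.eval_eq_sum_range' hd, ← Finset.sum_sub_distrib]
  refine (Finset.abs_sum_le_sum_abs _ _).trans ?_
  rw [Finset.sum_mul, Finset.sum_mul]
  apply Finset.sum_le_sum
  intro i hi
  rw [Finset.mem_range] at hi
  rw [← mul_sub, abs_mul]
  have h1 := abs_pow_sub_pow_le (n : ℝ) (y : ℝ) i
  have hX1 : (1 : ℝ) ≤ X := by exact_mod_cast hX
  have h2 : |(n : ℝ) ^ i - (y : ℝ) ^ i| ≤ |(n : ℝ) - y| * (k + 1) * X ^ k := by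
    refine h1.trans ?_
    have h3 : max |(n : ℝ)| |(y : ℝ)| ≤ X := by
      rw [abs_of_nonneg (Nat.cast_nonneg n), abs_of_nonneg (Nat.cast_nonneg y)]
      apply max_le
      · exact_mod_cast hn
      · exact_mod_cast hy
    have h4 : max |(n : ℝ)| |(y : ℝ)| ^ (i - 1) ≤ (X : ℝ) ^ k := by
      calc max |(n : ℝ)| |(y : ℝ)| ^ (i - 1) ≤ (X : ℝ) ^ (i - 1) :=
            pow_le_pow_left₀ (le_max_of_le_left (abs_nonneg _)) h3 _
        _ ≤ (X : ℝ) ^ k := pow_le_pow_right₀ hX1 (by omega)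
    have h5 : (i : ℝ) ≤ k + 1 := by
      have : i ≤ k + 1 := by omega
      exact_mod_cast this
    have h6 : (0 : ℝ) ≤ max |(n : ℝ)| |(y : ℝ)| ^ (i - 1) := by positivity
    gcongr
  calc |(hR h).coeff i| * |(n : ℝ) ^ i - (y : ℝ) ^ i| ≤ |(hR h).coeff i| * (|(n : ℝ) - y| * (k + 1) * X ^ k) :=
        mul_le_mul_of_nonneg_left h2 (abs_nonneg _)
    _ = _ := by ring

lemma e_lip (x : ℝ) : ‖e x - 1‖ ≤ 2 * Real.pi * |x| := by
  have h2 : e x = Complex.exp (Complex.I * ((2 * Real.pi * x : ℝ) : ℂ)) := by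
    unfold e
    congr 1
    push_cast; ring
  rw [h2]
  refine Real.norm_exp_I_mul_ofReal_sub_one_le.trans (le_of_eq ?_)
  rw [Real.norm_eq_abs, abs_mul, abs_of_pos (by positivity : 0 < 2 * Real.pi)]

noncomputable def Fθ (h : Polynomial ℤ) (θ : ℝ) (n : ℕ) : ℂ := e ((Polynomial.C θ * hR h).eval (n : ℝ))

lemma F_approx (h : Polynomial ℤ) (θ : ℝ) (a : ℤ) (q n y : ℕ) :
    ‖Fθ h θ n - e ((θ - a / q) * (hR h).eval (y : ℝ)) * Gq h a q n‖ ≤
      2 * Real.pi * (|θ - a / q| * |(hR h).eval (n : ℝ) - (hR h).eval (y : ℝ)|) := by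
  set β := θ - (a : ℝ) / q with hβ
  unfold Fθ Gq
  rw [Polynomial.eval_mul, Polynomial.eval_mul, Polynomial.eval_C, Polynomial.eval_C]
  set hn := (hR h).eval (n : ℝ)
  set hy := (hR h).eval (y : ℝ)
  have e1 : e (θ * hn) = e (β * hy) * e ((a : ℝ) / q * hn) * e (β * (hn - hy)) := by
    rw [← e_add, ← e_add]; congr 1; rw [hβ]; ring
  have e2 : e (θ * hn) - e (β * hy) * e ((a : ℝ) / q * hn) =
      (e (β * hy) * e ((a : ℝ) / q * hn)) * (e (β * (hn - hy)) - 1) := by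
    rw [e1]; ring
  rw [e2, norm_mul, norm_mul, norm_e, norm_e, one_mul, one_mul]
  refine (e_lip _).trans (le_of_eq ?_)
  rw [abs_mul]

/-- Total estimate on the major arcs. -/
theorem major_total (k : ℕ) (C0 : ℝ) (hC0 : 0 < C0) (hS : SieveProp C0) (hUp : UpperProp C0)
    (h : Polynomial ℤ) (θ Ch : ℝ)
    (hCh : ∀ X y n : ℕ, 1 ≤ X → y ≤ X → n ≤ X →
      |(hR h).eval (n : ℝ) - (hR h).eval (y : ℝ)| ≤ Ch * X ^ k * |(n : ℝ) - y|) (hCh0 : 0 ≤ Ch)
    (z w : ℝ) (hw : 2 ≤ w) (hwz : w ≤ z)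
    (X y H l j0 j1 m0 q u β D Dw : ℕ) (a : ℤ) (hm0 : 0 < m0) (hq : 0 < q) (hqz : (q : ℝ) < z)
    (hu : u.Coprime m0) (hy : 1 ≤ y)
    (hX : y + H ≤ X) (hX2 : 2 ≤ X) (hl : l ≤ j0) (hj : j0 ≤ j1) (hj1X : 2 ^ j1 ≤ X)
    (hz0 : ((2 ^ j0 : ℕ) : ℝ) ≤ z) (hz1 : (X : ℝ) < z * 2 ^ j1)
    (h2 : 2 * X ≤ H * 2 ^ l) (h3 : 4 * 2 ^ j1 ≤ H) (hD : z ^ (4 * β + 6) ≤ D) (hDw : w ^ 6 ≤ Dw)
    (h4 : Dw * (Real.log w + 3) * ((q * m0).totient * Real.log w) ≤ C0 * 2 ^ (j0 - l))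
    (h5 : Dw * (Real.log w + 3) * ((q * m0).totient * Real.log w) * (4 * 2 ^ j1) ≤ C0 * H) (E : ℝ)
    (hE : ∀ α β : ℕ → ℂ, (∀ n, ‖α n‖ ≤ 1) → (∀ n, ‖β n‖ ≤ 1) →
      ‖∑ r ∈ range (q * m0), ∑ t ∈ range (q * m0), α r * β t * Gq h a q (r * t)‖ ≤ E)
    (R : Finset ℕ) (hRm : ∀ x, x ∈ R ↔ x ∈ Finset.Ioc y (y + H) ∧ x ≡ u [MOD m0] ∧ rough z m0 x) :
    ‖∑ n ∈ R, (Λ n : ℂ) * Fθ h θ n‖ ≤
      H * (Real.log X * (2 * Real.pi * (|θ - a / q| * (Ch * X ^ k * H)))) +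
      ((Real.log X * (C0 * H / Real.log z *
          ((m0 : ℝ) ^ 2 * E / ((q * m0).totient : ℝ) ^ 2 + 1 / 4 ^ β) +
        (q * m0 : ℕ) * (D * (Real.log z + 3))) + (H : ℝ) * (H / y)) +
      Real.log X * ((m0 : ℝ) ^ 2 * ((3 * C0 / ((q * m0).totient * Real.log w)) ^ 2 * E * (H * j1 + 2 ^ j1) +
        (2 * X * j1 / 2 ^ l + 2 * 2 ^ j1)))) := by
  classical
  have hX1 : (1 : ℝ) < X := by
    have : (2 : ℝ) ≤ X := by exact_mod_cast hX2
    linarith
  have hL : 0 < Real.log X := Real.log_pos hX1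
  set G := Gq h a q with hGdef
  have hG1 : ∀ n, ‖G n‖ ≤ 1 := Gq_norm h a q
  have hG : ∀ n n', n ≡ n' [MOD q * m0] → G n = G n' := by
    intro n n' hn
    exact Gq_periodic h a q hq n n' (hn.of_dvd (Dvd.intro _ rfl))
  have hRsub : R ⊆ Finset.Ioc y (y + H) := fun x hx => ((hRm x).1 hx).1
  set ω : ℂ := e ((θ - a / q) * (hR h).eval (y : ℝ)) with hω
  have hω1 : ‖ω‖ = 1 := norm_e _
  have hΛ : ∀ n ∈ R, Λ n ≤ Real.log X := by
    intro n hn
    have := Finset.mem_Ioc.1 (hRsub hn)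
    refine vonMangoldt_le_log.trans ?_
    apply Real.log_le_log
    · have : 0 < n := by omega
      exact_mod_cast this
    · have : n ≤ X := by omega
      exact_mod_cast this
  have hRcard : (R.card : ℝ) ≤ H := by
    have := Finset.card_le_card hRsub
    rw [Nat.card_Ioc] at this
    have h2 : y + H - y = H := by omega
    rw [h2] at this
    exact_mod_cast this
  have e1 : ∑ n ∈ R, (Λ n : ℂ) * Fθ h θ n = ∑ n ∈ R, (Λ n : ℂ) * (Fθ h θ n - ω * G n) +
      ω * ∑ n ∈ R, (Λ n : ℂ) * G n := by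
    rw [Finset.mul_sum, ← Finset.sum_add_distrib]
    apply Finset.sum_congr rfl
    intro n _; ring
  rw [e1]
  refine (norm_add_le _ _).trans (add_le_add ?_ ?_)
  · set B : ℝ := 2 * Real.pi * (|θ - a / q| * (Ch * X ^ k * H)) with hB
    have hB0 : 0 ≤ B := by positivity
    have h6 : ∀ n ∈ R, ‖(Λ n : ℂ) * (Fθ h θ n - ω * G n)‖ ≤ Real.log X * B := by
      intro n hn
      have hn2 := Finset.mem_Ioc.1 (hRsub hn)
      rw [norm_mul, Complex.norm_real, Real.norm_of_nonneg vonMangoldt_nonneg]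
      apply mul_le_mul (hΛ n hn) _ (norm_nonneg _) hL.le
      refine (F_approx h θ a q n y).trans ?_
      rw [hB]
      have h7 := hCh X y n (by omega) (by omega) (by omega)
      have h8 : |(n : ℝ) - y| ≤ H := by
        rw [abs_of_nonneg]
        · have : (n : ℝ) ≤ y + H := by exact_mod_cast hn2.2
          linarith
        · have : (y : ℝ) ≤ n := by exact_mod_cast hn2.1.le
          linarith
      apply mul_le_mul_of_nonneg_left _ (by positivity)
      apply mul_le_mul_of_nonneg_left _ (abs_nonneg _)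
      refine h7.trans ?_
      exact mul_le_mul_of_nonneg_left h8 (by positivity)
    refine (norm_sum_le _ _).trans ((Finset.sum_le_card_nsmul _ _ _ h6).trans ?_)
    rw [nsmul_eq_mul]
    exact mul_le_mul_of_nonneg_right hRcard (by positivity)
  · rw [norm_mul, hω1, one_mul]
    refine (main_identity z m0 u X y H j0 j1 hm0 hu hX hX2 hz0 hz1 G R hRm _ ?_).trans
      (add_le_add_left ?_ _)
    · intro v v' _
      exact major_T C0 hC0 hUp z w hw hwz X y H l j0 j1 m0 q Dw v v' hm0 hq hX hX2 hl hj hj1X h2 h3 hDw h4 h5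
        G hG1 hG E hE
    · refine (log_sum X y H hy hX G hG1 R hRsub).trans (add_le_add_left ?_ _)
      apply mul_le_mul_of_nonneg_left _ hL.le
      exact major_a C0 hC0 hS z (by linarith) m0 q u y H β D hm0 hq hqz hu hD G hG1 hG E hE R hRm

end Pool.Agent.Lib.Pe70ed2
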