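import Pool.Agent.Lib.Pe70ed2.BilinNat
import Pool.Agent.Lib.Pe70ed2.Ident

set_option autoImplicit false

namespace Pool.Agent.Lib.Pe70ed2

open Finset ArithmeticFunction

/-- The bilinear inverse property with constant `C`. -/
def BilinProp (k C : ℕ) : Prop := ∀ K : ℝ, 2 ≤ K → ∀ (P M A B : ℕ) (φ : Polynomial ℝ)
    (a b : ℕ → ℂ), φ.natDegree ≤ k + 1 → K ^ C ≤ P → K ^ C ≤ M → (∀ n, ‖a n‖ ≤ 1) →
    (∀ n, ‖b n‖ ≤ 1) →
    (P : ℝ) * M / K ≤ ‖∑ p ∈ Finset.Ico A (A + P), ∑ m ∈ Finset.Ico B (B + M),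
      a p * b m * e (φ.eval ((p * m : ℕ) : ℝ))‖ →
    ∃ r : ℕ, 1 ≤ r ∧ (r : ℝ) ≤ K ^ C ∧
      Near (r * φ.coeff (k + 1)) (K ^ C / ((P : ℝ) * M) ^ (k + 1))

/-- The Weyl inverse property in progressions with constant `C`. -/
def WeylProp (k C : ℕ) : Prop := ∀ K : ℝ, 2 ≤ K → ∀ (y H Q v : ℕ) (φ : Polynomial ℝ),
    φ.natDegree ≤ k + 1 → 0 < Q → 2 * K ^ C * Q ≤ H →
    2 * (H : ℝ) / (Q * K) ≤ ‖∑ x ∈ (Finset.Ioc y (y + H)).filter (fun x => x ≡ v [MOD Q]),
      e (φ.eval (x : ℝ))‖ →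
    ∃ r : ℕ, 1 ≤ r ∧ (r : ℝ) ≤ K ^ C ∧
      Near (r * (φ.coeff (k + 1) * (Q : ℝ) ^ (k + 1))) (K ^ C / ((H : ℝ) / (2 * Q)) ^ (k + 1))

theorem exists_const (k : ℕ) : ∃ C : ℕ, 1 ≤ C ∧ BilinProp k C ∧ WeylProp k C := by
  obtain ⟨C1, h1⟩ := bilin_nat k
  obtain ⟨C2, h2⟩ := weyl_ap k
  refine ⟨C1 + C2 + 1, by omega, ?_, ?_⟩
  · intro K hK P M A B φ a b hφ hP hM ha hb h
    have hK1 : (1 : ℝ) ≤ K := by linarith
    have hle : K ^ C1 ≤ K ^ (C1 + C2 + 1) := pow_le_pow_right₀ hK1 (by omega)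
    obtain ⟨r, hr1, hr2, hr3⟩ := h1 K hK P M A B φ a b hφ (hle.trans hP) (hle.trans hM) ha hb h
    refine ⟨r, hr1, hr2.trans hle, hr3.mono ?_⟩
    exact div_le_div_of_nonneg_right hle (by positivity)
  · intro K hK y H Q v φ hφ hQ hH h
    have hK1 : (1 : ℝ) ≤ K := by linarith
    have hle : K ^ C2 ≤ K ^ (C1 + C2 + 1) := pow_le_pow_right₀ hK1 (by omega)
    obtain ⟨r, hr1, hr2, hr3⟩ := h2 K hK y H Q v φ hφ hQ (le_trans (by gcongr) hH) h
    refine ⟨r, hr1, hr2.trans hle, hr3.mono ?_⟩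
    exact div_le_div_of_nonneg_right hle (by positivity)

/-- The length of the second side of a cell. -/
lemma cell_len (X y H l j j1 c : ℕ) (hX : y + H ≤ X) (hlj : l ≤ j) (hj : j < j1)
    (hc : c ∈ Finset.Ico (2 ^ l : ℕ) (2 ^ (l + 1))) (h2 : 2 * X ≤ H * 2 ^ l) (h3 : 4 * 2 ^ j1 ≤ H) :
    (H : ℝ) / (4 * ((c + 1) * 2 ^ (j - l))) ≤
      (((y + H) / ((c + 1) * 2 ^ (j - l)) - y / (c * 2 ^ (j - l)) : ℕ) : ℝ) ∧
    ((c : ℝ) + 1) * 2 ^ (j - l) ≤ 2 ^ j1 ∧ (c : ℝ) + 1 ≤ 2 * 2 ^ l := by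
  rw [Finset.mem_Ico] at hc
  set Δ : ℕ := 2 ^ (j - l) with hΔ
  have hΔ0 : 0 < Δ := by positivity
  have hc0 : 0 < c := lt_of_lt_of_le (by positivity) hc.1
  have hcR : (0 : ℝ) < c := by exact_mod_cast hc0
  have hΔR : (0 : ℝ) < Δ := by exact_mod_cast hΔ0
  have e0 : ((2 : ℝ) ^ (j - l)) = (Δ : ℝ) := by rw [hΔ]; push_cast; rfl
  rw [e0]
  have hc1 : c + 1 ≤ 2 ^ (l + 1) := hc.2
  have hc1R : (c : ℝ) + 1 ≤ 2 * 2 ^ l := by
    have : ((c + 1 : ℕ) : ℝ) ≤ ((2 ^ (l + 1) : ℕ) : ℝ) := by exact_mod_cast hc1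
    push_cast at this
    rw [pow_succ] at this
    linarith
  have hcl : (2 : ℝ) ^ l ≤ c := by exact_mod_cast hc.1
  have hsmall : ((c : ℝ) + 1) * Δ ≤ 2 ^ j1 := by
    have h4 : (c + 1) * Δ ≤ 2 ^ j1 := by
      calc (c + 1) * Δ ≤ 2 ^ (l + 1) * 2 ^ (j - l) := Nat.mul_le_mul_right _ hc1
        _ = 2 ^ (j + 1) := by rw [← pow_add]; congr 1; omega
        _ ≤ 2 ^ j1 := Nat.pow_le_pow_right (by norm_num) hj
    exact_mod_cast h4
  refine ⟨?_, hsmall, hc1R⟩
  have a1 := (nat_div_real (y + H) ((c + 1) * Δ) (by positivity)).2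
  have a2 := (nat_div_real y (c * Δ) (by positivity)).1
  have h2R : 2 * (X : ℝ) ≤ H * 2 ^ l := by exact_mod_cast h2
  have h3R : 4 * (2 : ℝ) ^ j1 ≤ H := by exact_mod_cast h3
  have hyX : (y : ℝ) ≤ X := by
    have : y ≤ X := by omega
    exact_mod_cast this
  have hH0 : (0 : ℝ) ≤ H := Nat.cast_nonneg H
  have hsub : (((y + H) / ((c + 1) * Δ) : ℕ) : ℝ) - ((y / (c * Δ) : ℕ) : ℝ) ≤
      (((y + H) / ((c + 1) * Δ) - y / (c * Δ) : ℕ) : ℝ) := by
    have : (y + H) / ((c + 1) * Δ) ≤ ((y + H) / ((c + 1) * Δ) - y / (c * Δ)) + y / (c * Δ) := by omega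
    have h5 : (((y + H) / ((c + 1) * Δ) : ℕ) : ℝ) ≤
      (((y + H) / ((c + 1) * Δ) - y / (c * Δ) : ℕ) : ℝ) + ((y / (c * Δ) : ℕ) : ℝ) := by exact_mod_cast this
    linarith
  have h6 : (H : ℝ) / (2 * ((c + 1) * Δ)) ≤ ((y + H : ℕ) : ℝ) / (((c + 1) * Δ : ℕ) : ℝ) - (y : ℝ) / ((c * Δ : ℕ) : ℝ) := by
    push_cast
    rw [div_sub_div _ _ (by positivity) (by positivity), div_le_div_iff₀ (by positivity) (by positivity)]
    have e1 : (((y : ℝ) + H) * (c * Δ) - (c + 1) * Δ * y) * (2 * ((c + 1) * Δ)) =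
        (c * H - y) * (2 * (c + 1) * Δ * Δ) := by ring
    have e2 : (H : ℝ) * ((c + 1) * Δ * (c * Δ)) = (c * H / 2) * (2 * (c + 1) * Δ * Δ) := by ring
    rw [e1, e2]
    apply mul_le_mul_of_nonneg_right _ (by positivity)
    have : (2 : ℝ) * y ≤ c * H := by
      calc (2 : ℝ) * y ≤ 2 * X := by linarith
        _ ≤ H * 2 ^ l := h2R
        _ ≤ H * c := mul_le_mul_of_nonneg_left hcl hH0
        _ = c * H := mul_comm _ _
    linarith
  have h7 : (1 : ℝ) ≤ (H : ℝ) / (4 * ((c + 1) * Δ)) := by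
    rw [le_div_iff₀ (by positivity)]
    linarith
  have h8 : (H : ℝ) / (2 * ((c + 1) * Δ)) = (H : ℝ) / (4 * ((c + 1) * Δ)) + (H : ℝ) / (4 * ((c + 1) * Δ)) := by
    field_simp; ring
  linarith

/-- Bilinear sums on the minor arcs. -/
lemma minor_bilin (k C : ℕ) (hC : BilinProp k C) (K : ℝ) (hK : 2 ≤ K) (X y H l j0 j1 : ℕ)
    (φ : Polynomial ℝ) (hφ : φ.natDegree ≤ k + 1) (hX : y + H ≤ X) (hl : l ≤ j0) (hj : j0 ≤ j1)
    (h1 : K ^ C ≤ 2 ^ (j0 - l)) (h2 : 2 * X ≤ H * 2 ^ l) (h3 : 4 * 2 ^ j1 * K ^ C ≤ H)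
    (hminor : ∀ r : ℕ, 1 ≤ r → (r : ℝ) ≤ K ^ C →
      ¬ Near (r * φ.coeff (k + 1)) (K ^ C / ((H : ℝ) / (8 * 2 ^ l)) ^ (k + 1)))
    (a b : ℕ → ℂ) (ha : ∀ n, ‖a n‖ ≤ 1) (hb : ∀ n, ‖b n‖ ≤ 1) :
    ‖∑ d ∈ Finset.Ico (2 ^ j0 : ℕ) (2 ^ j1), ∑ m ∈ Finset.Ioc (y / d) ((y + H) / d),
      a d * b m * e (φ.eval ((d * m : ℕ) : ℝ))‖ ≤
      1 / K * (H * j1 + 2 ^ j1) + (2 * X * j1 / 2 ^ l + 2 * 2 ^ j1) := by
  have hK0 : 0 < K := by linarith
  have hK1 : 1 ≤ K := by linarith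
  have hKC : (1 : ℝ) ≤ K ^ C := one_le_pow₀ hK1
  apply cells_bound X y H l j0 j1 hX hl hj a b (fun n => e (φ.eval (n : ℝ))) ha hb (fun n => (norm_e _).le)
    (1 / K) (by positivity)
  intro j hjm c hc
  rw [Finset.mem_Ico] at hjm
  have h3' : 4 * 2 ^ j1 ≤ H := by
    have : (4 : ℝ) * 2 ^ j1 ≤ H := by
      have h4 : (0 : ℝ) < 4 * 2 ^ j1 := by positivity
      nlinarith
    exact_mod_cast this
  obtain ⟨c1, c2, c3⟩ := cell_len X y H l j j1 c hX (by omega) hjm.2 hc h2 h3'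
  have hc2 := Finset.mem_Ico.1 hc
  have hc0 : 0 < c := lt_of_lt_of_le (by positivity) hc2.1
  set Δ : ℕ := 2 ^ (j - l) with hΔ
  have hΔ0 : 0 < Δ := by positivity
  have hΔR : (0 : ℝ) < Δ := by exact_mod_cast hΔ0
  have e0 : ((2 : ℝ) ^ (j - l)) = (Δ : ℝ) := by rw [hΔ]; push_cast; rfl
  rw [e0] at c1 c2 ⊢
  set M : ℕ := (y + H) / ((c + 1) * Δ) - y / (c * Δ) with hM
  have hH0 : (0 : ℝ) ≤ H := Nat.cast_nonneg H
  have hMK : K ^ C ≤ M := by
    refine le_trans ?_ c1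
    rw [le_div_iff₀ (by positivity)]
    calc K ^ C * (4 * ((c + 1) * Δ)) ≤ K ^ C * (4 * 2 ^ j1) := by gcongr
      _ = 4 * 2 ^ j1 * K ^ C := by ring
      _ ≤ H := h3
  have hMpos : 0 < M := by
    have : (0 : ℝ) < M := by linarith
    exact_mod_cast this
  have hΔK : K ^ C ≤ Δ := by
    refine h1.trans ?_
    rw [← e0]
    exact pow_le_pow_right₀ (by norm_num) (by omega)
  by_contra hcon
  push Not at hcon
  have hI : Finset.Ico (c * Δ) ((c + 1) * Δ) = Finset.Ico (c * Δ) (c * Δ + Δ) := by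
    congr 1; ring
  have hJ : Finset.Ioc (y / (c * Δ)) ((y + H) / ((c + 1) * Δ)) =
      Finset.Ico (y / (c * Δ) + 1) (y / (c * Δ) + 1 + M) := by
    ext m
    rw [Finset.mem_Ioc, Finset.mem_Ico]
    omega
  rw [hI, hJ] at hcon
  obtain ⟨r, hr1, hr2, hr3⟩ := hC K hK Δ M (c * Δ) (y / (c * Δ) + 1) φ a b hφ hΔK hMK ha hb (by
    refine le_trans (le_of_eq ?_) hcon.le
    ring)
  apply hminor r hr1 hr2
  refine hr3.mono ?_
  have hlow : (H : ℝ) / (8 * 2 ^ l) ≤ Δ * M := by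
    calc (H : ℝ) / (8 * 2 ^ l) ≤ H / (4 * (c + 1)) := by
          apply div_le_div_of_nonneg_left hH0 (by positivity)
          linarith
      _ = Δ * (H / (4 * ((c + 1) * Δ))) := by field_simp
      _ ≤ Δ * M := mul_le_mul_of_nonneg_left c1 hΔR.le
  have hHpos : (0 : ℝ) < H := by
    have : (0 : ℝ) < 4 * 2 ^ j1 * K ^ C := by positivity
    linarith
  apply div_le_div_of_nonneg_left (by positivity) (by positivity)
  exact pow_le_pow_left₀ (by positivity) hlow _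

/-- Type I sums with sieve weights on the minor arcs. -/
lemma minor_typeI (k C : ℕ) (hC : BilinProp k C) (hW : WeylProp k C) (K : ℝ) (hK : 2 ≤ K)
    (X y H l j0 j1 q u D : ℕ) (φ : Polynomial ℝ) (hφ : φ.natDegree ≤ k + 1) (hq : 0 < q)
    (hX : y + H ≤ X) (hl : l ≤ j0) (hj : j0 ≤ j1)
    (h1 : K ^ C ≤ 2 ^ (j0 - l)) (h2 : 2 * X ≤ H * 2 ^ l) (h3 : 4 * 2 ^ j1 * K ^ C ≤ H)
    (h4 : 2 * K ^ C * (q * 2 ^ j0) ≤ H) (h5 : D < 2 ^ j1)
    (hminor : ∀ r : ℕ, 1 ≤ r → (r : ℝ) ≤ K ^ C →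
      ¬ Near (r * φ.coeff (k + 1)) (K ^ C / ((H : ℝ) / (8 * 2 ^ l)) ^ (k + 1)))
    (hminor2 : ∀ r : ℕ, 1 ≤ r → (r : ℝ) ≤ K ^ C * (q * 2 ^ j0) ^ (k + 1) →
      ¬ Near (r * φ.coeff (k + 1)) (K ^ C / ((H : ℝ) / (2 * (q * 2 ^ j0))) ^ (k + 1)))
    (lam : ℕ → ℝ) (hlam : ∀ d, |lam d| ≤ 1) (hlam2 : ∀ d, lam d ≠ 0 → 1 ≤ d ∧ d ≤ D ∧ d.Coprime q)
    (S : Finset ℕ) (hS : S = (Finset.Ioc y (y + H)).filter (fun x => x ≡ u [MOD q])) :
    ‖∑ d ∈ Finset.Icc 1 D, (lam d : ℂ) * ∑ x ∈ S.filter (fun x => d ∣ x), e (φ.eval (x : ℝ))‖ ≤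
      2 * H / K * j0 + q ^ 2 * (1 / K * (H * j1 + 2 ^ j1) + (2 * X * j1 / 2 ^ l + 2 * 2 ^ j1)) := by
  classical
  have hK0 : 0 < K := by linarith
  have hK1 : 1 ≤ K := by linarith
  have hKC : (1 : ℝ) ≤ K ^ C := one_le_pow₀ hK1
  have hqR : (1 : ℝ) ≤ q := by exact_mod_cast hq
  have hq0 : (0 : ℝ) < q := by linarith
  set F : ℕ → ℂ := fun n => e (φ.eval (n : ℝ)) with hF
  set I : ℕ → ℂ := fun d => ∑ x ∈ S.filter (fun x => d ∣ x), F x with hI
  -- splitting of the range of d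
  have hsplit : ∑ d ∈ Finset.Icc 1 D, (lam d : ℂ) * I d =
      ∑ d ∈ Finset.Ico (2 ^ 0 : ℕ) (2 ^ j0), (lam d : ℂ) * I d +
      ∑ d ∈ Finset.Ico (2 ^ j0 : ℕ) (2 ^ j1), (lam d : ℂ) * I d := by
    rw [Finset.sum_Ico_consecutive _ (Nat.pow_le_pow_right (by norm_num) (Nat.zero_le _))
      (Nat.pow_le_pow_right (by norm_num) hj), pow_zero]
    apply Finset.sum_subset
    · intro d hd
      rw [Finset.mem_Icc] at hd
      rw [Finset.mem_Ico]; omega
    · intro d _ hd2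
      by_cases h0 : lam d = 0
      · rw [h0]; simp
      · exfalso
        apply hd2
        obtain ⟨a, b, -⟩ := hlam2 d h0
        exact Finset.mem_Icc.2 ⟨a, b⟩
  rw [hsplit]
  refine (norm_add_le _ _).trans (add_le_add ?_ ?_)
  · -- small d
    have hH0 : (0 : ℝ) ≤ H := Nat.cast_nonneg H
    have hterm : ∀ d ∈ Finset.Ico (2 ^ 0 : ℕ) (2 ^ j0), ‖(lam d : ℂ) * I d‖ ≤ 2 * H / K * (1 / (d : ℝ)) := by
      intro d hd
      rw [Finset.mem_Ico, pow_zero] at hd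
      have hd0 : (0 : ℝ) < d := by exact_mod_cast hd.1
      by_cases h0 : lam d = 0
      · rw [h0]; simp only [Complex.ofReal_zero, zero_mul, norm_zero]; positivity
      obtain ⟨-, -, hcop⟩ := hlam2 d h0
      obtain ⟨w, hw1, hw2⟩ := Nat.chineseRemainder hcop.symm u 0
      have hfil : S.filter (fun x => d ∣ x) = (Finset.Ioc y (y + H)).filter (fun x => x ≡ w [MOD (q * d)]) := by
        rw [hS, Finset.filter_filter]
        apply Finset.filter_congr
        intro x _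
        rw [← Nat.modEq_and_modEq_iff_modEq_mul hcop.symm]
        constructor
        · rintro ⟨a, b⟩
          exact ⟨a.trans hw1.symm, ((Nat.modEq_zero_iff_dvd).2 b).trans hw2.symm⟩
        · rintro ⟨a, b⟩
          exact ⟨a.trans hw1, (Nat.modEq_zero_iff_dvd).1 (b.trans hw2)⟩
      have hd2 : (d : ℝ) ≤ 2 ^ j0 := by
        have : d ≤ 2 ^ j0 := hd.2.le
        exact_mod_cast this
      have hIle : ‖I d‖ ≤ 2 * H / K * (1 / (d : ℝ)) := by
        by_contra hcon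
        push Not at hcon
        have hqd : ((q * d : ℕ) : ℝ) = q * d := by push_cast; ring
        obtain ⟨r, hr1, hr2, hr3⟩ := hW K hK y H (q * d) w φ hφ (Nat.mul_pos hq hd.1) (by
          rw [hqd]
          refine le_trans ?_ h4
          gcongr) (by
          rw [← hfil]
          refine le_trans ?_ hcon.le
          rw [hqd]
          have : 2 * (H : ℝ) / (q * d * K) ≤ 2 * H / (d * K) := by
            apply div_le_div_of_nonneg_left (by positivity) (by positivity)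
            have : (0 : ℝ) ≤ d * K := by positivity
            nlinarith
          refine this.trans (le_of_eq ?_)
          field_simp)
        apply hminor2 (r * (q * d) ^ (k + 1))
        · have : 0 < r * (q * d) ^ (k + 1) := by
            have := hd.1
            positivity
          omega
        · push_cast
          gcongr
        · have e1 : ((r * (q * d) ^ (k + 1) : ℕ) : ℝ) * φ.coeff (k + 1) =
              r * (φ.coeff (k + 1) * ((q * d : ℕ) : ℝ) ^ (k + 1)) := by push_cast; ring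
          rw [e1]
          refine hr3.mono ?_
          have hHpos : (0 : ℝ) < H := by
            have : (0 : ℝ) < 4 * 2 ^ j1 * K ^ C := by positivity
            linarith
          apply div_le_div_of_nonneg_left (by positivity) (by positivity)
          apply pow_le_pow_left₀ (by positivity)
          apply div_le_div_of_nonneg_left hHpos.le (by rw [hqd]; positivity)
          rw [hqd]
          gcongr
      rw [norm_mul, Complex.norm_real, Real.norm_eq_abs]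
      calc |lam d| * ‖I d‖ ≤ 1 * (2 * H / K * (1 / (d : ℝ))) :=
            mul_le_mul (hlam d) hIle (norm_nonneg _) zero_le_one
        _ = _ := one_mul _
    refine (norm_sum_le _ _).trans ((Finset.sum_le_sum hterm).trans ?_)
    rw [← Finset.mul_sum]
    apply mul_le_mul_of_nonneg_left _ (by positivity)
    exact sum_inv_dyadic 0 j0 (Nat.zero_le _)
  · -- large d
    have hterm : ∀ d ∈ Finset.Ico (2 ^ j0 : ℕ) (2 ^ j1), (lam d : ℂ) * I d =
        ∑ v ∈ range q, ∑ w ∈ range q, ∑ m ∈ Finset.Ioc (y / d) ((y + H) / d),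
          (if v * w ≡ u [MOD q] then
            ((if d ≡ v [MOD q] then (lam d : ℂ) else 0) * (if m ≡ w [MOD q] then 1 else 0) * F (d * m))
            else 0) := by
      intro d hd
      rw [Finset.mem_Ico] at hd
      have hd0 : 0 < d := lt_of_lt_of_le (by positivity) hd.1
      have e1 : I d = ∑ m ∈ Finset.Ioc (y / d) ((y + H) / d), if d * m ≡ u [MOD q] then F (d * m) else 0 := by
        rw [← Finset.sum_filter]
        simp only [hI]
        symm
        refine Finset.sum_nbij' (fun m => d * m) (fun x => x / d) ?_ ?_ ?_ ?_ ?_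
        · intro m hm
          rw [Finset.mem_filter, Finset.mem_Ioc, Nat.div_lt_iff_lt_mul hd0, Nat.le_div_iff_mul_le hd0] at hm
          rw [Finset.mem_filter, hS, Finset.mem_filter, Finset.mem_Ioc]
          refine ⟨⟨⟨by rw [mul_comm]; exact hm.1.1, by rw [mul_comm]; exact hm.1.2⟩, hm.2⟩,
            Dvd.intro _ rfl⟩
        · intro x hx
          rw [Finset.mem_filter, hS, Finset.mem_filter, Finset.mem_Ioc] at hx
          obtain ⟨⟨⟨a1, a2⟩, a3⟩, j, rfl⟩ := hx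
          rw [Nat.mul_div_cancel_left j hd0]
          rw [Finset.mem_filter, Finset.mem_Ioc, Nat.div_lt_iff_lt_mul hd0, Nat.le_div_iff_mul_le hd0]
          exact ⟨⟨by rw [mul_comm]; exact a1, by rw [mul_comm]; exact a2⟩, a3⟩
        · intro m _
          exact Nat.mul_div_cancel_left m hd0
        · intro x hx
          rw [Finset.mem_filter] at hx
          exact Nat.mul_div_cancel' hx.2
        · intro m _; rfl
      rw [e1, Finset.mul_sum]
      have e2 : ∀ m ∈ Finset.Ioc (y / d) ((y + H) / d),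
          (lam d : ℂ) * (if d * m ≡ u [MOD q] then F (d * m) else 0) =
          ∑ v ∈ range q, ∑ w ∈ range q, (if v * w ≡ u [MOD q] then
            ((if d ≡ v [MOD q] then (lam d : ℂ) else 0) * (if m ≡ w [MOD q] then 1 else 0) * F (d * m))
            else 0) := by
        intro m _
        have e3 : (lam d : ℂ) * (if d * m ≡ u [MOD q] then F (d * m) else 0) =
            if d * m ≡ u [MOD q] then (lam d : ℂ) * F (d * m) else 0 := by split_ifs <;> simp
        rw [e3, class_split q hq]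
        apply Finset.sum_congr rfl; intro v _
        apply Finset.sum_congr rfl; intro w _
        by_cases g1 : v * w ≡ u [MOD q] <;> by_cases g2 : d ≡ v [MOD q] <;>
          by_cases g3 : m ≡ w [MOD q] <;> simp [g1, g2, g3]
      rw [Finset.sum_congr rfl e2, Finset.sum_comm]
      apply Finset.sum_congr rfl; intro v _
      rw [Finset.sum_comm]
    rw [Finset.sum_congr rfl hterm, Finset.sum_comm]
    have hv : ∀ v ∈ range q, ‖∑ d ∈ Finset.Ico (2 ^ j0 : ℕ) (2 ^ j1), ∑ w ∈ range q,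
        ∑ m ∈ Finset.Ioc (y / d) ((y + H) / d), (if v * w ≡ u [MOD q] then
            ((if d ≡ v [MOD q] then (lam d : ℂ) else 0) * (if m ≡ w [MOD q] then 1 else 0) * F (d * m))
            else 0)‖ ≤ q * (1 / K * (H * j1 + 2 ^ j1) + (2 * X * j1 / 2 ^ l + 2 * 2 ^ j1)) := by
      intro v _
      rw [Finset.sum_comm]
      refine (norm_sum_le _ _).trans ?_
      have hw : ∀ w ∈ range q, ‖∑ d ∈ Finset.Ico (2 ^ j0 : ℕ) (2 ^ j1),
        ∑ m ∈ Finset.Ioc (y / d) ((y + H) / d), (if v * w ≡ u [MOD q] then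
            ((if d ≡ v [MOD q] then (lam d : ℂ) else 0) * (if m ≡ w [MOD q] then 1 else 0) * F (d * m))
            else 0)‖ ≤ (1 / K * (H * j1 + 2 ^ j1) + (2 * X * j1 / 2 ^ l + 2 * 2 ^ j1)) := by
        intro w _
        by_cases g : v * w ≡ u [MOD q]
        · simp only [g, if_true]
          apply minor_bilin k C hC K hK X y H l j0 j1 φ hφ hX hl hj h1 h2 h3 hminor
            (fun d => if d ≡ v [MOD q] then (lam d : ℂ) else 0) (fun m => if m ≡ w [MOD q] then 1 else 0)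
          · intro n
            split_ifs
            · rw [Complex.norm_real]; exact hlam n
            · simp
          · intro n
            split_ifs <;> simp
        · simp only [g, if_false, Finset.sum_const_zero, norm_zero]
          positivity
      refine (Finset.sum_le_card_nsmul _ _ _ hw).trans (le_of_eq ?_)
      rw [Finset.card_range, nsmul_eq_mul]
    refine (norm_sum_le _ _).trans ((Finset.sum_le_card_nsmul _ _ _ hv).trans (le_of_eq ?_))
    rw [Finset.card_range, nsmul_eq_mul]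
    ring

end Pool.Agent.Lib.Pe70ed2
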