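import Mathlib

set_option autoImplicit false

namespace Pool.Agent.Lib.Pe70ed2

open Filter Topology Finset ComplexConjugate

/-- `e(x) = exp(2πi x)`. -/
noncomputable def e (x : ℝ) : ℂ := Complex.exp (2 * Real.pi * Complex.I * x)

lemma e_add (x y : ℝ) : e (x + y) = e x * e y := by
  unfold e; rw [← Complex.exp_add]; push_cast; ring_nf

lemma norm_e (x : ℝ) : ‖e x‖ = 1 := by
  unfold e
  rw [show (2 * Real.pi * Complex.I * x : ℂ) = ((2 * Real.pi * x : ℝ) : ℂ) * Complex.I by
    push_cast; ring]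
  exact Complex.norm_exp_ofReal_mul_I _

lemma e_neg (x : ℝ) : e (-x) = conj (e x) := by
  unfold e
  rw [← Complex.exp_conj]
  congr 1
  rw [map_mul, map_mul, map_mul, Complex.conj_ofReal, Complex.conj_ofReal, Complex.conj_I,
    map_ofNat]
  push_cast; ring

lemma e_sub (x y : ℝ) : e (x - y) = e x * conj (e y) := by
  rw [sub_eq_add_neg, e_add, e_neg]

lemma e_int (n : ℤ) : e n = 1 := by
  unfold e
  rw [show (2 * Real.pi * Complex.I * ((n : ℝ) : ℂ)) = (n : ℂ) * (2 * Real.pi * Complex.I) by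
    push_cast; ring]
  exact Complex.exp_int_mul_two_pi_mul_I n

lemma e_eq_one_iff (x : ℝ) : e x = 1 ↔ ∃ n : ℤ, x = n := by
  unfold e
  rw [Complex.exp_eq_one_iff]
  constructor
  · rintro ⟨n, hn⟩
    refine ⟨n, ?_⟩
    have h2 : (2 * Real.pi * Complex.I : ℂ) ≠ 0 := Complex.two_pi_I_ne_zero
    have h3 : (x : ℂ) = n := by
      apply mul_left_cancel₀ h2
      rw [hn]; ring
    exact_mod_cast h3
  · rintro ⟨n, rfl⟩
    exact ⟨n, by push_cast; ring⟩

/-- van der Corput's difference theorem (qualitative). -/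
theorem vdC (u : ℕ → ℂ) (hu : ∀ n, ‖u n‖ ≤ 1)
    (h : ∀ r : ℕ, 1 ≤ r → Tendsto (fun N : ℕ => ‖∑ n ∈ range N, u (n + r) * conj (u n)‖ / N) atTop (𝓝 0)) :
    Tendsto (fun N : ℕ => ‖∑ n ∈ range N, u n‖ / N) atTop (𝓝 0) := by
  -- for every H, eventually ‖∑‖/N is small
  rw [Metric.tendsto_atTop]
  intro ε hε
  obtain ⟨H, hH⟩ := exists_nat_gt (4 / ε ^ 2)
  have hH0 : (0 : ℝ) < H := lt_trans (by positivity) hH
  have hH1 : 1 ≤ H := by exact_mod_cast hH0
  -- correlation bounds for r < H
  have hcor : ∀ᶠ N : ℕ in atTop, ∀ r ∈ Finset.Icc 1 H, ‖∑ n ∈ range N, u (n + r) * conj (u n)‖ / N < ε ^ 2 / 8 := by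
    rw [Filter.eventually_all_finset]
    intro r hr
    exact (h r (Finset.mem_Icc.1 hr).1).eventually (gt_mem_nhds (by positivity))
  have hbig : ∀ᶠ N : ℕ in atTop, (32 * H + 8 * H / ε) / ε ^ 2 + 8 * H / ε < (N : ℝ) :=
    (tendsto_natCast_atTop_atTop (R := ℝ)).eventually_gt_atTop _
  obtain ⟨N₀, hN₀⟩ := eventually_atTop.1 ((hcor.and hbig).and (eventually_ge_atTop 1))
  refine ⟨N₀, fun N hN => ?_⟩
  obtain ⟨⟨hcorN, hbigN⟩, hN1⟩ := hN₀ N hN
  have hNpos : (0 : ℝ) < N := by exact_mod_cast hN1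
  rw [dist_zero_right, Real.norm_of_nonneg (by positivity)]
  rw [div_lt_iff₀ hNpos]
  -- S = ∑ u
  set S := ∑ n ∈ range N, u n with hS
  -- shift comparison
  have hshift : ∀ r : ℕ, ‖∑ n ∈ range N, u (n + r) - S‖ ≤ 2 * r := by
    intro r
    have h1 : ∑ n ∈ range N, u (n + r) - S = ∑ n ∈ Ico N (N + r), u n - ∑ n ∈ range r, u n := by
      have e1 : ∑ n ∈ range N, u (n + r) = ∑ n ∈ Ico r (N + r), u n := by
        rw [Finset.range_eq_Ico, Finset.sum_Ico_add' u 0 N r, zero_add]
      have e2 := Finset.sum_range_add_sum_Ico u (show r ≤ N + r by omega)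
      have e3 := Finset.sum_range_add_sum_Ico u (show N ≤ N + r by omega)
      rw [e1, hS]
      linear_combination e2 - e3
    rw [h1]
    refine (norm_sub_le _ _).trans ?_
    have h2 : ‖∑ n ∈ Ico N (N + r), u n‖ ≤ r := by
      refine (norm_sum_le_of_le _ (fun n _ => hu n)).trans ?_
      simp
    have h3 : ‖∑ n ∈ range r, u n‖ ≤ r := by
      refine (norm_sum_le_of_le _ (fun n _ => hu n)).trans ?_
      simp
    linarith
  -- H * S ≈ ∑_n ∑_{h<H} u(n+h)
  have h1 : ‖(H : ℂ) * S - ∑ n ∈ range N, ∑ r ∈ range H, u (n + r)‖ ≤ 2 * H * H := by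
    rw [Finset.sum_comm]
    have : (H : ℂ) * S - ∑ r ∈ range H, ∑ n ∈ range N, u (n + r) =
        ∑ r ∈ range H, (S - ∑ n ∈ range N, u (n + r)) := by
      rw [Finset.sum_sub_distrib, Finset.sum_const, card_range, nsmul_eq_mul]
    rw [this]
    refine (norm_sum_le_of_le (f := fun r => (S - ∑ n ∈ range N, u (n + r))) _ (n := fun _ => 2 * (H : ℝ)) (fun r hr => ?_)).trans ?_
    · rw [← norm_neg, neg_sub]
      refine (hshift r).trans ?_
      have : (r : ℝ) ≤ H := by exact_mod_cast (mem_range.1 hr).le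
      linarith
    · rw [Finset.sum_const, card_range, nsmul_eq_mul]; linarith
  -- Cauchy-Schwarz
  have h2 : ‖∑ n ∈ range N, ∑ r ∈ range H, u (n + r)‖ ^ 2 ≤
      N * ∑ n ∈ range N, ‖∑ r ∈ range H, u (n + r)‖ ^ 2 := by
    have h3 : ‖∑ n ∈ range N, ∑ r ∈ range H, u (n + r)‖ ≤
        ∑ n ∈ range N, ‖∑ r ∈ range H, u (n + r)‖ := norm_sum_le _ _
    calc ‖∑ n ∈ range N, ∑ r ∈ range H, u (n + r)‖ ^ 2 ≤
        (∑ n ∈ range N, ‖∑ r ∈ range H, u (n + r)‖) ^ 2 := by gcongr
      _ ≤ (range N).card * ∑ n ∈ range N, ‖∑ r ∈ range H, u (n + r)‖ ^ 2 :=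
          sq_sum_le_card_mul_sum_sq
      _ = _ := by rw [card_range]
  -- expand the square
  have h3 : ((∑ n ∈ range N, ‖∑ r ∈ range H, u (n + r)‖ ^ 2 : ℝ) : ℂ) =
      ∑ r ∈ range H, ∑ s ∈ range H, ∑ n ∈ range N, u (n + r) * conj (u (n + s)) := by
    push_cast
    have : ∀ n, ((‖∑ r ∈ range H, u (n + r)‖ : ℂ)) ^ 2 =
        ∑ r ∈ range H, ∑ s ∈ range H, u (n + r) * conj (u (n + s)) := by
      intro n
      rw [← Complex.mul_conj', map_sum, Finset.sum_mul_sum]
    simp_rw [this]
    rw [Finset.sum_comm]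
    apply Finset.sum_congr rfl
    intro r _
    rw [Finset.sum_comm]
  -- correlations
  have hoff : ∀ r s : ℕ, r < H → s < H → r ≠ s →
      ‖∑ n ∈ range N, u (n + r) * conj (u (n + s))‖ ≤ ε ^ 2 / 8 * N + 2 * H := by
    -- WLOG s < r
    have key : ∀ r s : ℕ, r < H → s < r →
        ‖∑ n ∈ range N, u (n + r) * conj (u (n + s))‖ ≤ ε ^ 2 / 8 * N + 2 * H := by
      intro r s hr hsr
      set v : ℕ → ℂ := fun n => u (n + (r - s)) * conj (u n) with hv
      have hvb : ∀ n, ‖v n‖ ≤ 1 := by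
        intro n
        rw [hv]
        simp only [norm_mul, RCLike.norm_conj]
        exact mul_le_one₀ (hu _) (norm_nonneg _) (hu _)
      have e1 : ∑ n ∈ range N, u (n + r) * conj (u (n + s)) = ∑ n ∈ range N, v (n + s) := by
        apply Finset.sum_congr rfl
        intro n _
        simp only [hv]
        have h0 : n + s + (r - s) = n + r := by omega
        rw [h0]
      have e2 : ‖∑ n ∈ range N, v (n + s) - ∑ n ∈ range N, v n‖ ≤ 2 * s := by
        have h1 : ∑ n ∈ range N, v (n + s) - ∑ n ∈ range N, v n = ∑ n ∈ Ico N (N + s), v n - ∑ n ∈ range s, v n := by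
          have e1 : ∑ n ∈ range N, v (n + s) = ∑ n ∈ Ico s (N + s), v n := by
            rw [Finset.range_eq_Ico, Finset.sum_Ico_add' v 0 N s, zero_add]
          have e2 := Finset.sum_range_add_sum_Ico v (show s ≤ N + s by omega)
          have e3 := Finset.sum_range_add_sum_Ico v (show N ≤ N + s by omega)
          rw [e1]
          linear_combination e2 - e3
        rw [h1]
        refine (norm_sub_le _ _).trans ?_
        have h2 : ‖∑ n ∈ Ico N (N + s), v n‖ ≤ s := by
          refine (norm_sum_le_of_le _ (fun n _ => hvb n)).trans ?_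
          simp
        have h3 : ‖∑ n ∈ range s, v n‖ ≤ s := by
          refine (norm_sum_le_of_le _ (fun n _ => hvb n)).trans ?_
          simp
        linarith
      have e3 : ‖∑ n ∈ range N, v n‖ / N < ε ^ 2 / 8 :=
        hcorN (r - s) (Finset.mem_Icc.2 ⟨by omega, by omega⟩)
      rw [div_lt_iff₀ hNpos] at e3
      rw [e1]
      have e4 := norm_le_norm_add_norm_sub' (∑ n ∈ range N, v (n + s)) (∑ n ∈ range N, v n)
      have hsH : (s : ℝ) ≤ H := by exact_mod_cast (by omega : s ≤ H)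
      linarith
    intro r s hr hs hrs
    rcases lt_or_gt_of_ne hrs with hlt | hgt
    · have := key s r hs hlt
      have hconj : ∑ n ∈ range N, u (n + r) * conj (u (n + s)) =
          conj (∑ n ∈ range N, u (n + s) * conj (u (n + r))) := by
        rw [map_sum]
        apply Finset.sum_congr rfl
        intro n _
        rw [map_mul, Complex.conj_conj, mul_comm]
      rw [hconj, RCLike.norm_conj]
      exact this
    · exact key r s hr hgt
  have h4 : ∑ n ∈ range N, ‖∑ r ∈ range H, u (n + r)‖ ^ 2 ≤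
      H * N + H * H * (ε ^ 2 / 8 * N + 2 * H) := by
    have h5 : ∑ n ∈ range N, ‖∑ r ∈ range H, u (n + r)‖ ^ 2 =
        ‖((∑ n ∈ range N, ‖∑ r ∈ range H, u (n + r)‖ ^ 2 : ℝ) : ℂ)‖ := by
      rw [Complex.norm_real, Real.norm_of_nonneg (Finset.sum_nonneg fun n _ => by positivity)]
    rw [h5, h3]
    have h6 : ∀ r ∈ range H, ‖∑ s ∈ range H, ∑ n ∈ range N, u (n + r) * conj (u (n + s))‖ ≤
        N + H * (ε ^ 2 / 8 * N + 2 * H) := by
      intro r hr
      rw [mem_range] at hr
      rw [← Finset.add_sum_erase _ _ (mem_range.2 hr)]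
      refine (norm_add_le _ _).trans ?_
      apply add_le_add
      · refine (norm_sum_le_of_le (n := fun _ => (1 : ℝ)) _ (fun n _ => ?_)).trans ?_
        · rw [norm_mul, RCLike.norm_conj]
          exact mul_le_one₀ (hu _) (norm_nonneg _) (hu _)
        · simp
      · refine (norm_sum_le_of_le (n := fun _ => ε ^ 2 / 8 * N + 2 * H) _ (fun s hs => ?_)).trans ?_
        · rw [Finset.mem_erase, mem_range] at hs
          exact hoff r s hr hs.2 (Ne.symm hs.1)
        · rw [Finset.sum_const, nsmul_eq_mul]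
          apply mul_le_mul_of_nonneg_right _ (by positivity)
          have : ((range H).erase r).card ≤ H := by
            calc ((range H).erase r).card ≤ (range H).card := Finset.card_erase_le
              _ = H := card_range H
          exact_mod_cast this
    refine (norm_sum_le_of_le _ h6).trans ?_
    rw [Finset.sum_const, card_range, nsmul_eq_mul]
    apply le_of_eq; ring
  -- combine
  have h5 : ‖∑ n ∈ range N, ∑ r ∈ range H, u (n + r)‖ ^ 2 ≤
      N * (H * N + H * H * (ε ^ 2 / 8 * N + 2 * H)) :=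
    h2.trans (mul_le_mul_of_nonneg_left h4 hNpos.le)
  -- bound by (ε/2 H N)^2... 
  have hε2 : 4 < ε ^ 2 * H := by
    rw [div_lt_iff₀ (by positivity)] at hH
    linarith
  have hA : (32 * H + 8 * H / ε) / ε ^ 2 < N := by
    have : 0 < 8 * (H : ℝ) / ε := by positivity
    linarith
  have hB : 8 * (H : ℝ) / ε < N := by
    have : 0 < (32 * (H : ℝ) + 8 * H / ε) / ε ^ 2 := by positivity
    linarith
  have hA' : 32 * (H : ℝ) < ε ^ 2 * N := by
    have h6 : 32 * (H : ℝ) / ε ^ 2 ≤ (32 * H + 8 * H / ε) / ε ^ 2 := by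
      apply div_le_div_of_nonneg_right _ (by positivity)
      have : 0 < 8 * (H : ℝ) / ε := by positivity
      linarith
    have h7 : 32 * (H : ℝ) / ε ^ 2 < N := lt_of_le_of_lt h6 hA
    rw [div_lt_iff₀ (by positivity)] at h7
    linarith
  have hB' : 8 * (H : ℝ) < ε * N := by
    rw [div_lt_iff₀ hε] at hB
    linarith
  have h6 : N * (H * N + H * H * (ε ^ 2 / 8 * N + 2 * H)) < (3 / 4 * ε * H * N : ℝ) ^ 2 := by
    have e1 : (H : ℝ) * N < ε ^ 2 / 4 * (H * H * N) := by
      have : (0 : ℝ) < H * N := by positivity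
      nlinarith
    have e2 : (2 : ℝ) * H < ε ^ 2 / 16 * N := by linarith
    have e3 : (H : ℝ) * H * (ε ^ 2 / 8 * N + 2 * H) < H * H * (ε ^ 2 / 8 * N + ε ^ 2 / 16 * N) := by
      apply mul_lt_mul_of_pos_left _ (by positivity)
      linarith
    calc (N : ℝ) * (H * N + H * H * (ε ^ 2 / 8 * N + 2 * H))
        < N * (ε ^ 2 / 4 * (H * H * N) + H * H * (ε ^ 2 / 8 * N + ε ^ 2 / 16 * N)) := by
          apply mul_lt_mul_of_pos_left _ hNpos
          linarith
      _ = 7 / 16 * (ε ^ 2 * H ^ 2 * N ^ 2) := by ring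
      _ ≤ 9 / 16 * (ε ^ 2 * H ^ 2 * N ^ 2) := by
          have : (0 : ℝ) ≤ ε ^ 2 * H ^ 2 * N ^ 2 := by positivity
          linarith
      _ = (3 / 4 * ε * H * N : ℝ) ^ 2 := by ring
  have h7 : ‖∑ n ∈ range N, ∑ r ∈ range H, u (n + r)‖ < 3 / 4 * ε * H * N :=
    lt_of_pow_lt_pow_left₀ 2 (by positivity) (lt_of_le_of_lt h5 h6)
  have h8 : ‖(H : ℂ) * S‖ < 3 / 4 * ε * H * N + 2 * H * H := by
    have := norm_le_norm_add_norm_sub' ((H : ℂ) * S) (∑ n ∈ range N, ∑ r ∈ range H, u (n + r))
    linarith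
  rw [norm_mul, Complex.norm_natCast] at h8
  have h9 : (H : ℝ) * ‖S‖ < H * (ε * N) := by
    calc (H : ℝ) * ‖S‖ < 3 / 4 * ε * H * N + 2 * H * H := h8
      _ = H * (3 / 4 * ε * N + 2 * H) := by ring
      _ ≤ H * (ε * N) := by
        apply mul_le_mul_of_nonneg_left _ hH0.le
        linarith
  exact lt_of_mul_lt_mul_left h9 hH0.le

/-- The linear case. -/
lemma weyl_linear (α β : ℝ) (hα : Irrational α) :
    Tendsto (fun N : ℕ => ‖∑ n ∈ range N, e (α * n + β)‖ / N) atTop (𝓝 0) := by
  have hne : e α ≠ 1 := by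
    rw [Ne, e_eq_one_iff]
    rintro ⟨n, hn⟩
    exact hα ⟨n, by simp [hn]⟩
  have hsum : ∀ N : ℕ, ∑ n ∈ range N, e (α * n + β) = e β * ((e α ^ N - 1) / (e α - 1)) := by
    intro N
    have : ∀ n : ℕ, e (α * n + β) = e β * e α ^ n := by
      intro n
      rw [e_add, mul_comm]
      congr 1
      unfold e
      rw [← Complex.exp_nat_mul]
      congr 1
      push_cast; ring
    simp_rw [this]
    rw [← Finset.mul_sum, geom_sum_eq hne]
  have hb : ∀ N : ℕ, ‖∑ n ∈ range N, e (α * n + β)‖ ≤ 2 / ‖e α - 1‖ := by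
    intro N
    rw [hsum, norm_mul, norm_e, one_mul, norm_div]
    apply div_le_div_of_nonneg_right _ (norm_nonneg _)
    refine (norm_sub_le _ _).trans ?_
    rw [norm_pow, norm_e, one_pow, norm_one]; norm_num
  have h0 : Tendsto (fun N : ℕ => (2 / ‖e α - 1‖) / (N : ℝ)) atTop (𝓝 0) :=
    tendsto_const_div_atTop_nhds_zero_nat _
  refine squeeze_zero (fun N => by positivity) (fun N => ?_) h0
  exact div_le_div_of_nonneg_right (hb N) (Nat.cast_nonneg _)

/-- **Weyl's theorem**: a real polynomial with irrational leading coefficient. -/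
theorem weyl (k : ℕ) : ∀ P : Polynomial ℝ, P.natDegree = k + 1 → Irrational P.leadingCoeff →
    Tendsto (fun N : ℕ => ‖∑ n ∈ range N, e (P.eval (n : ℝ))‖ / N) atTop (𝓝 0) := by
  induction k with
  | zero =>
    intro P hP hirr
    have h1 := Polynomial.eq_X_add_C_of_natDegree_le_one (p := P) (by omega)
    have hlead : P.leadingCoeff = P.coeff 1 := by
      rw [Polynomial.leadingCoeff, hP]
    rw [hlead] at hirr
    have h2 := weyl_linear (P.coeff 1) (P.coeff 0) hirr
    refine h2.congr fun N => ?_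
    congr 2
    apply Finset.sum_congr rfl
    intro n _
    conv_rhs => rw [h1]
    simp
  | succ k ih =>
    intro P hP hirr
    apply vdC (fun n => e (P.eval (n : ℝ))) (fun n => (norm_e _).le)
    intro r hr
    -- the difference polynomial
    set Q : Polynomial ℝ := P.comp (Polynomial.X + Polynomial.C (r : ℝ)) - P with hQ
    have hPdeg : P.natDegree = k + 2 := hP
    -- coefficient of degree k+1 of Q
    have hcomp : P.comp (Polynomial.X + Polynomial.C (r : ℝ)) = P.taylor (r : ℝ) := by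
      rw [Polynomial.taylor_apply]
    have hc1 : ∀ j, (P.taylor (r : ℝ)).coeff j = ((Polynomial.hasseDeriv j P).eval (r : ℝ)) := fun j =>
      Polynomial.taylor_coeff _ _ _
    have htop : Q.coeff (k + 2) = 0 := by
      rw [hQ, hcomp, Polynomial.coeff_sub]
      have h1 : (P.taylor (r : ℝ)).coeff (k + 2) = P.coeff (k + 2) := by
        have := Polynomial.coeff_taylor_natDegree (r := (r : ℝ)) (f := P)
        rw [hPdeg] at this
        rw [this, Polynomial.leadingCoeff, hPdeg]
      rw [h1, sub_self]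
    have hnext : Q.coeff (k + 1) = (k + 2 : ℝ) * r * P.leadingCoeff := by
      rw [hQ, hcomp, Polynomial.coeff_sub, hc1]
      -- hasseDeriv (k+1) P has degree ≤ 1
      have hdeg : (Polynomial.hasseDeriv (k + 1) P).natDegree ≤ 1 := by
        refine (Polynomial.natDegree_hasseDeriv_le P (k + 1)).trans ?_
        omega
      rw [Polynomial.eq_X_add_C_of_natDegree_le_one hdeg]
      simp only [Polynomial.hasseDeriv_coeff, Polynomial.eval_add, Polynomial.eval_mul,
        Polynomial.eval_C, Polynomial.eval_X, zero_add, Nat.choose_self, Nat.cast_one, one_mul]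
      have h2 : 1 + (k + 1) = k + 2 := by ring
      rw [h2]
      have h3 : (k + 2).choose (k + 1) = k + 2 := Nat.choose_succ_self_right (k + 1)
      rw [h3, Polynomial.leadingCoeff, hPdeg]
      push_cast; ring
    have hrpos : (r : ℝ) ≠ 0 := by exact_mod_cast (by omega : r ≠ 0)
    have hirr2 : Irrational ((k + 2 : ℝ) * r * P.leadingCoeff) := by
      have : ((k + 2 : ℝ) * r * P.leadingCoeff) = (((k + 2) * r : ℕ) : ℝ) * P.leadingCoeff := by
        push_cast; ring
      rw [this]
      exact hirr.natCast_mul (by positivity)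
    have hQdeg_le : Q.natDegree ≤ k + 1 := by
      rw [Polynomial.natDegree_le_iff_coeff_eq_zero]
      intro j hj
      rcases Nat.lt_or_ge (k + 2) j with h | h
      · rw [hQ, Polynomial.coeff_sub, hcomp]
        have h1 : (P.taylor (r : ℝ)).coeff j = 0 := by
          apply Polynomial.coeff_eq_zero_of_natDegree_lt
          rw [Polynomial.natDegree_taylor, hPdeg]; exact h
        have h2 : P.coeff j = 0 := Polynomial.coeff_eq_zero_of_natDegree_lt (by rw [hPdeg]; exact h)
        rw [h1, h2, sub_zero]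
      · have : j = k + 2 := by omega
        rw [this]; exact htop
    have hQdeg : Q.natDegree = k + 1 := by
      apply le_antisymm hQdeg_le
      apply Polynomial.le_natDegree_of_ne_zero
      rw [hnext]; exact hirr2.ne_zero
    have hQlead : Q.leadingCoeff = (k + 2 : ℝ) * r * P.leadingCoeff := by
      rw [Polynomial.leadingCoeff, hQdeg, hnext]
    have h5 := ih Q hQdeg (by rw [hQlead]; exact hirr2)
    refine h5.congr fun N => ?_
    congr 2
    apply Finset.sum_congr rfl
    intro n _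
    rw [← e_sub]
    congr 1
    rw [hQ]
    simp

end Pool.Agent.Lib.Pe70ed2
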