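import Pool.Agent.Lib.Pe70ed2.Soft
import Pool.Agent.Lib.Pe70ed2.Weyl

set_option autoImplicit false

namespace Pool.Agent.Lib.Pe70ed2

open Filter Topology Finset

/-- Producing a good class from a weighted sequence. -/
lemma goodClass_of_seq {X : Set ℤ} {m c : ℤ} (v : ℕ → ℤ) (a : ℕ → ℝ) (ha : ∀ j, 0 ≤ a j)
    (hv : ∀ j, a j ≠ 0 → v j ∈ X ∧ v j ≠ 0 ∧ v j ≡ c [ZMOD m]) (N : ℕ → ℕ)
    (hpos : ∀ i, 0 < ∑ j ∈ range (N i), a j)
    (hlim : ∀ θ : ℝ, Irrational θ → Tendsto (fun i => ‖∑ j ∈ range (N i), (a j : ℂ) * e (v j * θ)‖ /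
      ∑ j ∈ range (N i), a j) atTop (𝓝 0)) : GoodClass X m c := by
  set T : ℕ → ℝ := fun i => ∑ j ∈ range (N i), a j with hT
  set w : ℕ → ℤ →₀ ℝ := fun i => ∑ j ∈ range (N i), Finsupp.single (v j) (a j / T i) with hw
  have hTpos : ∀ i, 0 < T i := hpos
  refine ⟨w, ?_, ?_, ?_, ?_⟩
  · intro i x
    rw [hw]
    simp only [Finsupp.finsetSum_apply]
    apply Finset.sum_nonneg
    intro j _
    rw [Finsupp.single_apply]
    split_ifs
    · exact div_nonneg (ha j) (hTpos i).le
    · exact le_rfl
  · intro i
    have h1 : (w i).sum (fun _ b => b) = ∑ j ∈ range (N i), (Finsupp.single (v j) (a j / T i)).sum (fun _ b => b) := by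
      rw [hw]
      exact (Finsupp.sum_finsetSum_index (h := fun _ b => b) (by intro; rfl) (by intros; rfl)).symm
    rw [h1]
    have h2 : ∀ j ∈ range (N i), (Finsupp.single (v j) (a j / T i)).sum (fun _ b => b) = a j / T i := by
      intro j _
      rw [Finsupp.sum_single_index]; rfl
    rw [Finset.sum_congr rfl h2, ← Finset.sum_div]
    exact div_self (hTpos i).ne'
  · intro i x hx
    rw [hw] at hx
    simp only [Finsupp.finsetSum_apply] at hx
    obtain ⟨j, _, hj2⟩ := Finset.exists_ne_zero_of_sum_ne_zero hx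
    rw [Finsupp.single_apply] at hj2
    split_ifs at hj2 with h
    · have : a j ≠ 0 := by
        intro h0; rw [h0, zero_div] at hj2; exact hj2 rfl
      rw [← h]; exact hv j this
    · exact absurd rfl hj2
  · intro θ hθ
    have h1 : ∀ i, (w i).sum (fun x b => (b : ℂ) * Complex.exp (2 * Real.pi * Complex.I * (x * θ))) =
        (∑ j ∈ range (N i), (a j : ℂ) * e (v j * θ)) / T i := by
      intro i
      have h2 : (w i).sum (fun x b => (b : ℂ) * Complex.exp (2 * Real.pi * Complex.I * (x * θ))) =
          ∑ j ∈ range (N i), (Finsupp.single (v j) (a j / T i)).sum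
            (fun x b => (b : ℂ) * Complex.exp (2 * Real.pi * Complex.I * (x * θ))) := by
        rw [hw]
        exact (Finsupp.sum_finsetSum_index (by intro; simp) (by intros; push_cast; ring)).symm
      rw [h2, Finset.sum_div]
      apply Finset.sum_congr rfl
      intro j _
      rw [Finsupp.sum_single_index (by simp)]
      unfold e
      push_cast
      ring
    simp_rw [h1]
    rw [tendsto_zero_iff_norm_tendsto_zero]
    refine (hlim θ hθ).congr fun i => ?_
    rw [norm_div, Complex.norm_real, Real.norm_of_nonneg (hTpos i).le]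

/-- **The case `X = h(ℤ)`.** -/
theorem mu_range (h : Polynomial ℤ) (hh : h ≠ 0) :
    mu (Set.range fun n : ℤ => h.eval n) =
      ⨆ m : ℕ+, (dX (Set.range fun n : ℤ => h.eval n) m : ℝ) / (m : ℕ) := by
  apply soft
  intro m hm
  by_cases hdeg : h.natDegree = 0
  · -- constant polynomial: the range is finite
    have : (Set.range fun n : ℤ => h.eval n).Finite := by
      rw [Polynomial.eq_C_of_natDegree_eq_zero hdeg]
      refine (Set.finite_singleton (h.coeff 0)).subset ?_
      rintro _ ⟨n, rfl⟩
      simp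
    exact this.subset fun x hx => hx.1
  · -- nonconstant: every class is good
    convert Set.finite_empty
    rw [Set.eq_empty_iff_forall_notMem]
    rintro x ⟨⟨n₀, rfl⟩, -, hng⟩
    apply hng
    -- zeros of h are finite
    have hroots : {n : ℤ | h.eval n = 0}.Finite := by
      have h1 := h.roots.toFinset.finite_toSet
      refine h1.subset fun n hn => ?_
      simp only [Finset.mem_coe, Multiset.mem_toFinset]
      rw [Polynomial.mem_roots hh]
      exact hn
    obtain ⟨C, hC⟩ := hroots.bddAbove
    have hmz : (0 : ℤ) < m := by exact_mod_cast hm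
    set J : ℤ := |C| + |n₀| + 1 with hJ
    have hne : ∀ j : ℕ, h.eval (n₀ + m * (J + j)) ≠ 0 := by
      intro j h0
      have h1 := hC h0
      have h2 : (0 : ℤ) ≤ J + j := by positivity
      have h3 : J + j ≤ m * (J + j) := by nlinarith
      have h4 := le_abs_self C
      have h5 := neg_abs_le n₀
      have h6 : (0 : ℤ) ≤ j := Int.natCast_nonneg j
      linarith
    refine goodClass_of_seq (fun j => h.eval (n₀ + m * (J + j))) (fun _ => 1) (fun _ => zero_le_one)
      ?_ (fun i => i + 1) ?_ ?_
    · intro j _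
      refine ⟨⟨_, rfl⟩, hne j, ?_⟩
      have h1 : (n₀ + m * (J + j) - n₀) ∣ h.eval (n₀ + m * (J + j)) - h.eval n₀ :=
        Polynomial.sub_dvd_eval_sub _ _ _
      have h2 : (m : ℤ) ∣ h.eval (n₀ + m * (J + j)) - h.eval n₀ := by
        refine dvd_trans ?_ h1
        exact ⟨J + j, by ring⟩
      exact (Int.modEq_iff_dvd.2 h2).symm
    · intro i
      simp
      positivity
    · intro θ hθ
      -- the real polynomial P(j) = θ h(n₀ + m (J + j))
      set Q : Polynomial ℝ := (h.map (Int.castRingHom ℝ)).comp
        (Polynomial.C (m : ℝ) * Polynomial.X + Polynomial.C ((n₀ + m * J : ℤ) : ℝ)) with hQ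
      set P : Polynomial ℝ := Polynomial.C θ * Q with hP
      have hmr : (m : ℝ) ≠ 0 := by exact_mod_cast hmz.ne'
      have hdegmap : (h.map (Int.castRingHom ℝ)).natDegree = h.natDegree :=
        Polynomial.natDegree_map_eq_of_injective (RingHom.injective_int _) h
      have hlin : (Polynomial.C (m : ℝ) * Polynomial.X + Polynomial.C ((n₀ + m * J : ℤ) : ℝ)).natDegree = 1 :=
        Polynomial.natDegree_linear hmr
      have hlinlead : (Polynomial.C (m : ℝ) * Polynomial.X + Polynomial.C ((n₀ + m * J : ℤ) : ℝ)).leadingCoeff = (m : ℝ) :=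
        Polynomial.leadingCoeff_linear hmr
      have hQdeg : Q.natDegree = h.natDegree := by
        rw [hQ, Polynomial.natDegree_comp, hlin, hdegmap, mul_one]
      have hQlead : Q.leadingCoeff = (h.leadingCoeff : ℝ) * (m : ℝ) ^ h.natDegree := by
        rw [hQ, Polynomial.leadingCoeff_comp (by rw [hlin]; norm_num), hlinlead, hdegmap]
        congr 1
        rw [Polynomial.leadingCoeff_map_of_injective (RingHom.injective_int _)]
        simp
      have hθ0 : θ ≠ 0 := hθ.ne_zero
      have hPdeg : P.natDegree = h.natDegree := by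
        rw [hP, Polynomial.natDegree_C_mul hθ0, hQdeg]
      have hPlead : P.leadingCoeff = θ * ((h.leadingCoeff * (m : ℤ) ^ h.natDegree : ℤ) : ℝ) := by
        rw [hP, Polynomial.leadingCoeff_mul, Polynomial.leadingCoeff_C, hQlead]
        push_cast; ring
      have hirr : Irrational P.leadingCoeff := by
        rw [hPlead]
        apply hθ.mul_intCast
        exact mul_ne_zero (Polynomial.leadingCoeff_ne_zero.2 hh) (pow_ne_zero _ hmz.ne')
      obtain ⟨k, hk⟩ := Nat.exists_eq_succ_of_ne_zero hdeg
      have hw := weyl k P (by rw [hPdeg, hk]) hirr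
      have hw2 := hw.comp (tendsto_add_atTop_nat 1)
      refine hw2.congr fun i => ?_
      simp only [Function.comp_def]
      have e1 : ∑ j ∈ range (i + 1), ((1 : ℝ) : ℂ) * e (((h.eval (n₀ + m * (J + j)) : ℤ) : ℝ) * θ) =
          ∑ j ∈ range (i + 1), e (P.eval (j : ℝ)) := by
        apply Finset.sum_congr rfl
        intro j _
        rw [Complex.ofReal_one, one_mul]
        congr 1
        rw [hP, Polynomial.eval_mul, Polynomial.eval_C, hQ, Polynomial.eval_comp, mul_comm]
        congr 1
        have : Polynomial.eval (j : ℝ) (Polynomial.C (m : ℝ) * Polynomial.X + Polynomial.C ((n₀ + m * J : ℤ) : ℝ)) =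
            ((n₀ + m * (J + j) : ℤ) : ℝ) := by
          simp; ring
        rw [this, Polynomial.eval_intCast_map]
        simp
      have e2 : ∑ j ∈ range (i + 1), (1 : ℝ) = ((i + 1 : ℕ) : ℝ) := by simp
      rw [e1, e2]

end Pool.Agent.Lib.Pe70ed2
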