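import Pool.Agent.Lib.Pe70ed2.PrimeSum
import Pool.Agent.Lib.Pe70ed2.ZCase

set_option autoImplicit false

namespace Pool.Agent.Lib.Pe70ed2

open Finset ArithmeticFunction Filter Topology

/-- The weights `log p` on primes in a progression. -/
noncomputable def aw (m0 u : ℕ) (j : ℕ) : ℝ :=
  open scoped Classical in if j.Prime ∧ j ≡ u [MOD m0] then Real.log j else 0

lemma aw_nonneg (m0 u j : ℕ) : 0 ≤ aw m0 u j := by
  classical
  unfold aw
  split_ifs
  · exact Real.log_natCast_nonneg j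
  · exact le_rfl

lemma range_eq_Ioc {E : Type*} [AddCommMonoid E] (f : ℕ → E) (h0 : f 0 = 0) (X : ℕ) :
    ∑ j ∈ range (X + 1), f j = ∑ j ∈ Finset.Ioc 0 X, f j := by
  rw [Finset.sum_range_succ', h0, add_zero]
  rw [Finset.range_eq_Ico, Finset.sum_Ico_add' f 0 X 1]
  apply Finset.sum_congr _ fun _ _ => rfl
  ext j; simp only [Finset.mem_Ico, Finset.mem_Ioc]; omega

lemma aw_sum (m0 u X : ℕ) [NeZero m0] :
    ∑ j ∈ range (X + 1), aw m0 u j = PntAP.thetaAP (u : ZMod m0) (X : ℝ) := by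
  classical
  rw [range_eq_Ioc _ (by unfold aw; simp [Nat.not_prime_zero])]
  unfold PntAP.thetaAP PntAP.primesAP aw
  rw [← Finset.sum_filter]
  apply Finset.sum_congr _ fun _ _ => rfl
  ext p
  rw [Nat.floor_natCast]
  simp only [Finset.mem_filter, Finset.mem_Ioc, Finset.mem_Icc, ZMod.natCast_eq_natCast_iff]
  constructor
  · rintro ⟨⟨a, b⟩, c, d⟩; exact ⟨⟨by omega, b⟩, c, d⟩
  · rintro ⟨⟨a, b⟩, c, d⟩; exact ⟨⟨by omega, b⟩, c, d⟩

lemma aw_tendsto (m0 u : ℕ) (hm0 : 0 < m0) (hu : u.Coprime m0) :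
    Tendsto (fun X : ℕ => (∑ j ∈ range (X + 1), aw m0 u j) / X) atTop (𝓝 ((m0.totient : ℝ)⁻¹)) := by
  haveI : NeZero m0 := ⟨by omega⟩
  have hunit : IsUnit (u : ZMod m0) := (ZMod.unitOfCoprime u hu).isUnit
  have h1 := (PntAP.thetaAP_tendsto hunit).comp tendsto_natCast_atTop_atTop
  refine h1.congr fun X => ?_
  simp only [Function.comp_def]
  rw [aw_sum]

lemma aw_exp_tendsto (k : ℕ) (h : Polynomial ℤ) (hdeg : h.natDegree = k + 1) (m0 u : ℕ) (hm0 : 0 < m0)
    (hu : u.Coprime m0) (θ : ℝ) (hθ : Irrational θ) :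
    Tendsto (fun X : ℕ => ‖∑ j ∈ range (X + 1), (aw m0 u j : ℂ) * e (((h.eval (j : ℤ) : ℤ) : ℝ) * θ)‖ / X)
      atTop (𝓝 0) := by
  classical
  refine (prime_sum_tendsto k h hdeg m0 u hm0 hu θ hθ).congr fun X => ?_
  congr 2
  rw [range_eq_Ioc _ (by unfold aw; simp [Nat.not_prime_zero]), Finset.sum_filter]
  apply Finset.sum_congr rfl
  intro j _
  unfold aw
  split_ifs
  · congr 1
    unfold Fθ
    rw [Polynomial.eval_mul, Polynomial.eval_C, eval_hR, mul_comm]
  · simp

/-- The set of values `h(p)` at primes `p`. -/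
def primeValues (h : Polynomial ℤ) : Set ℤ := {x | ∃ p : ℕ, p.Prime ∧ h.eval (p : ℤ) = x}

lemma good_prime (h : Polynomial ℤ) (hh : h ≠ 0) (hdeg : h.natDegree ≠ 0) (m p0 : ℕ) (hm : 0 < m)
    (hp0 : p0.Prime) (hcop : p0.Coprime m) (hne : h.eval (p0 : ℤ) ≠ 0) :
    GoodClass (primeValues h) m (h.eval (p0 : ℤ)) := by
  classical
  obtain ⟨k, hk⟩ := Nat.exists_eq_succ_of_ne_zero hdeg
  -- roots
  have hroots : {n : ℕ | h.eval (n : ℤ) = 0}.Finite := by
    have h1 : {n : ℤ | h.eval n = 0}.Finite := by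
      have h1 := h.roots.toFinset.finite_toSet
      refine h1.subset fun n hn => ?_
      simp only [Finset.mem_coe, Multiset.mem_toFinset]
      rw [Polynomial.mem_roots hh]
      exact hn
    exact Set.Finite.preimage (Nat.cast_injective.injOn) h1
  set Z : Finset ℕ := hroots.toFinset with hZ
  have hZmem : ∀ n, n ∈ Z ↔ h.eval (n : ℤ) = 0 := by
    intro n; rw [hZ, Set.Finite.mem_toFinset]; rfl
  set B : ℝ := ∑ n ∈ Z, Real.log n with hB
  have hB0 : 0 ≤ B := Finset.sum_nonneg fun n _ => Real.log_natCast_nonneg n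
  set a : ℕ → ℝ := fun j => if h.eval (j : ℤ) = 0 then 0 else aw m p0 j with ha
  have ha0 : ∀ j, 0 ≤ a j := by
    intro j
    simp only [ha]
    split_ifs
    · exact le_rfl
    · exact aw_nonneg _ _ _
  have hdiff : ∀ X : ℕ, ∑ j ∈ range X, |aw m p0 j - a j| ≤ B := by
    intro X
    have h1 : ∀ j ∈ range X, |aw m p0 j - a j| ≤ if j ∈ Z then Real.log j else 0 := by
      intro j _
      simp only [ha, hZmem]
      split_ifs with h0
      · rw [sub_zero, abs_of_nonneg (aw_nonneg _ _ _)]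
        unfold aw
        split_ifs
        · exact le_rfl
        · exact Real.log_natCast_nonneg j
      · simp
    refine (Finset.sum_le_sum h1).trans ?_
    rw [← Finset.sum_filter, hB]
    apply Finset.sum_le_sum_of_subset_of_nonneg
    · intro j hj
      exact (Finset.mem_filter.1 hj).2
    · intro j _ _
      exact Real.log_natCast_nonneg j
  have hpa : 0 < a p0 := by
    simp only [ha]
    rw [if_neg hne]
    unfold aw
    rw [if_pos ⟨hp0, Nat.ModEq.refl _⟩]
    apply Real.log_pos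
    exact_mod_cast hp0.one_lt
  refine goodClass_of_seq (fun j => h.eval (j : ℤ)) a ha0 ?_ (fun i => i + p0 + 1) ?_ ?_
  · intro j hj
    simp only [ha] at hj
    have h1 : h.eval (j : ℤ) ≠ 0 := by
      intro h0; rw [if_pos h0] at hj; exact hj rfl
    rw [if_neg h1] at hj
    unfold aw at hj
    have h2 : j.Prime ∧ j ≡ p0 [MOD m] := by
      by_contra hneg
      rw [if_neg hneg] at hj; exact hj rfl
    refine ⟨⟨j, h2.1, rfl⟩, h1, ?_⟩
    have h3 : (j : ℤ) ≡ p0 [ZMOD m] := (Int.natCast_modEq_iff).2 h2.2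
    have h4 : (m : ℤ) ∣ (p0 : ℤ) - j := Int.modEq_iff_dvd.1 h3
    exact Int.modEq_iff_dvd.2 (h4.trans (Polynomial.sub_dvd_eval_sub _ _ _))
  · intro i
    refine lt_of_lt_of_le hpa ?_
    exact Finset.single_le_sum (fun j _ => ha0 j) (Finset.mem_range.2 (by omega))
  · intro θ hθ
    -- denominators
    have hden : Tendsto (fun X : ℕ => (∑ j ∈ range (X + 1), a j) / X) atTop (𝓝 ((m.totient : ℝ)⁻¹)) := by
      have h1 := aw_tendsto m p0 hm hcop
      have h2 : Tendsto (fun X : ℕ => (∑ j ∈ range (X + 1), aw m p0 j) / X -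
          (∑ j ∈ range (X + 1), a j) / X) atTop (𝓝 0) := by
        refine squeeze_zero_norm (a := fun X : ℕ => B / X) ?_ (tendsto_const_div_atTop_nhds_zero_nat B)
        intro X
        rw [← sub_div, norm_div, Real.norm_natCast, ← Finset.sum_sub_distrib]
        apply div_le_div_of_nonneg_right _ (Nat.cast_nonneg X)
        refine le_trans ?_ (hdiff (X + 1))
        rw [Real.norm_eq_abs]
        exact Finset.abs_sum_le_sum_abs _ _
      have h3 := h1.sub h2
      rw [sub_zero] at h3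
      refine h3.congr fun X => ?_
      ring
    -- numerators
    have hnum : Tendsto (fun X : ℕ => ‖∑ j ∈ range (X + 1), (a j : ℂ) *
        e (((h.eval (j : ℤ) : ℤ) : ℝ) * θ)‖ / X) atTop (𝓝 0) := by
      have h1 := aw_exp_tendsto k h hk m p0 hm hcop θ hθ
      have h2 := h1.add (tendsto_const_div_atTop_nhds_zero_nat B)
      rw [add_zero] at h2
      refine squeeze_zero (fun X => by positivity) ?_ h2
      intro X
      rw [← add_div]
      apply div_le_div_of_nonneg_right _ (Nat.cast_nonneg X)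
      have h3 : ∑ j ∈ range (X + 1), (a j : ℂ) * e (((h.eval (j : ℤ) : ℤ) : ℝ) * θ) =
          ∑ j ∈ range (X + 1), (aw m p0 j : ℂ) * e (((h.eval (j : ℤ) : ℤ) : ℝ) * θ) -
          ∑ j ∈ range (X + 1), ((aw m p0 j - a j : ℝ) : ℂ) * e (((h.eval (j : ℤ) : ℤ) : ℝ) * θ) := by
        rw [← Finset.sum_sub_distrib]
        apply Finset.sum_congr rfl
        intro j _
        push_cast; ring
      rw [h3]
      refine (norm_sub_le _ _).trans (add_le_add_right ?_ _)
      refine (norm_sum_le _ _).trans (le_trans (Finset.sum_le_sum fun j _ => ?_) (hdiff (X + 1)))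
      rw [norm_mul, norm_e, mul_one, Complex.norm_real, Real.norm_eq_abs]
    have hφ : ((m.totient : ℝ)⁻¹) ≠ 0 := by
      have : 0 < m.totient := Nat.totient_pos.2 hm
      positivity
    have hq := hnum.div hden hφ
    rw [zero_div] at hq
    have hq2 : Tendsto (fun X : ℕ => ‖∑ j ∈ range (X + 1), (a j : ℂ) *
        e (((h.eval (j : ℤ) : ℤ) : ℝ) * θ)‖ / ∑ j ∈ range (X + 1), a j) atTop (𝓝 0) := by
      refine hq.congr' ?_
      filter_upwards [eventually_gt_atTop 0] with X hX
      have hXR : (X : ℝ) ≠ 0 := by exact_mod_cast hX.ne'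
      simp only [Pi.div_apply]
      rw [div_div_div_cancel_right₀ hXR]
    exact hq2.comp (tendsto_add_atTop_nat p0)

/-- **The case `X = h(P)`.** -/
theorem mu_primeValues (h : Polynomial ℤ) (hh : h ≠ 0) :
    mu (primeValues h) = ⨆ m : ℕ+, (dX (primeValues h) m : ℝ) / (m : ℕ) := by
  apply soft
  intro m hm
  by_cases hdeg : h.natDegree = 0
  · have : (primeValues h).Finite := by
      rw [Polynomial.eq_C_of_natDegree_eq_zero hdeg]
      refine (Set.finite_singleton (h.coeff 0)).subset ?_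
      rintro _ ⟨n, -, rfl⟩
      simp
    exact this.subset fun x hx => hx.1
  · have hfin : ((fun p : ℕ => h.eval (p : ℤ)) '' {p : ℕ | p ∣ m}).Finite := by
      apply Set.Finite.image
      exact (Set.finite_Iic m).subset fun p hp => Nat.le_of_dvd (by omega) hp
    refine hfin.subset ?_
    rintro x ⟨⟨p, hp, rfl⟩, hx0, hng⟩
    refine ⟨p, ?_, rfl⟩
    by_contra hpm
    exact hng (good_prime h hh hdeg m p (by omega) hp ((Nat.Prime.coprime_iff_not_dvd hp).2 hpm) hx0)

end Pool.Agent.Lib.Pe70ed2
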