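import Pool.Agent.Lib.Pe70ed2.ParamMinor

set_option autoImplicit false

namespace Pool.Agent.Lib.Pe70ed2

open Finset ArithmeticFunction

lemma major_arith (H X T y N M m j1 P1 Pl D C0 ℓ b Q φ P Ch A : ℝ) (hH : 0 < H) (hT : 1 ≤ T) (hm : 1 ≤ m)
    (hN : 1 ≤ N) (hM : 0 < M) (hMN : M ≤ N) (hℓ : 1 ≤ ℓ) (hj10 : 0 ≤ j1)
    (hj1 : j1 ≤ 2 * (N * ℓ)) (hP0 : 0 ≤ P1) (hP : P1 ≤ H / T) (hX0 : 0 ≤ X) (hPl0 : 0 < Pl) (hPl : X / Pl ≤ 2 * (H / T))
    (hD0 : 0 ≤ D) (hQ0 : 0 ≤ Q) (hD : Q * D ≤ m * (H / T)) (hy : H / y ≤ 1 / T) (hb : 0 < b)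
    (hφ : 0 < φ) (hPsi : 0 ≤ P) (hCh : 0 ≤ Ch) (hA : A ≤ Ch / T) :
    H * (N * ℓ * (2 * Real.pi * A)) +
      ((N * ℓ * (C0 * H / (M * ℓ) * (m ^ 2 * (φ ^ 2 * P) / φ ^ 2 + 1 / b) + Q * (D * (M * ℓ + 3))) +
        H * (H / y)) +
      N * ℓ * (m ^ 2 * ((3 * C0 / (φ * ℓ)) ^ 2 * (φ ^ 2 * P) * (H * j1 + P1) +
        (2 * X * j1 / Pl + 2 * P1)))) ≤
    H * (N / M * C0 * (m ^ 2 * P + 1 / b) + 27 * N ^ 2 * m ^ 2 * C0 ^ 2 * P +
      (7 * Ch + 15) * N ^ 2 * m ^ 2 * ((1 + ℓ) ^ 2 / T)) := by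
  have hT0 : 0 < T := by linarith
  set L := 1 + ℓ with hL
  have hL1 : 1 ≤ L := by linarith
  have hℓL : ℓ ≤ L := by linarith
  have hℓ0 : 0 < ℓ := by linarith
  set S := H / T with hS
  have hS0 : 0 ≤ S := by positivity
  have hNL : 1 ≤ N * L := one_le_mul_of_one_le_of_one_le hN hL1
  have hNℓ : N * ℓ ≤ N * L := by gcongr
  have hNℓ1 : 1 ≤ N * ℓ := one_le_mul_of_one_le_of_one_le hN hℓ
  have hm2 : 1 ≤ m ^ 2 := one_le_pow₀ hm
  have hSH : S ≤ H := by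
    rw [hS, div_le_iff₀ hT0]
    exact le_mul_of_one_le_right hH.le hT
  have hPH : P1 ≤ H := hP.trans hSH
  have hW1 : 1 ≤ N ^ 2 * m ^ 2 * L ^ 2 := by
    have h1 : 1 ≤ (N * L) ^ 2 := one_le_pow₀ hNL
    have h2 : 1 ≤ (N * L) ^ 2 * m ^ 2 := one_le_mul_of_one_le_of_one_le h1 hm2
    calc 1 ≤ (N * L) ^ 2 * m ^ 2 := h2
      _ = _ := by ring
  have tA : H * (N * ℓ * (2 * Real.pi * A)) ≤ 7 * Ch * (N ^ 2 * m ^ 2 * L ^ 2 * S) := by
    have hpi : 2 * Real.pi ≤ 7 := by have := Real.pi_lt_d2; linarith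
    have hNL2 : N * L ≤ N ^ 2 * m ^ 2 * L ^ 2 := by
      calc N * L = (N * L) * 1 * 1 := by ring
        _ ≤ (N * L) * (N * L) * m ^ 2 := by gcongr
        _ = _ := by ring
    calc H * (N * ℓ * (2 * Real.pi * A)) ≤ H * (N * ℓ * (2 * Real.pi * (Ch / T))) := by gcongr
      _ ≤ H * (N * L * (7 * (Ch / T))) := by gcongr
      _ = 7 * Ch * ((N * L) * S) := by rw [hS]; ring
      _ ≤ 7 * Ch * ((N ^ 2 * m ^ 2 * L ^ 2) * S) := by gcongr
  have tB : N * ℓ * (C0 * H / (M * ℓ) * (m ^ 2 * (φ ^ 2 * P) / φ ^ 2 + 1 / b)) =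
      H * (N / M * C0 * (m ^ 2 * P + 1 / b)) := by
    field_simp
  have tC : N * ℓ * (Q * (D * (M * ℓ + 3))) ≤ 4 * (N ^ 2 * m ^ 2 * L ^ 2 * S) := by
    have h1 : M * ℓ + 3 ≤ 4 * (N * L) := by
      have : M * ℓ ≤ N * L := by gcongr
      linarith
    have h0 : 0 ≤ M * ℓ + 3 := by positivity
    calc N * ℓ * (Q * (D * (M * ℓ + 3))) = N * ℓ * ((Q * D) * (M * ℓ + 3)) := by ring
      _ ≤ N * L * ((m * S) * (4 * (N * L))) := by gcongr
      _ = 4 * (N ^ 2 * L ^ 2 * S) * (m * 1) := by ring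
      _ ≤ 4 * (N ^ 2 * L ^ 2 * S) * (m * m) := by gcongr
      _ = _ := by ring
  have tD : H * (H / y) ≤ 1 * (N ^ 2 * m ^ 2 * L ^ 2 * S) := by
    calc H * (H / y) ≤ H * (1 / T) := by gcongr
      _ = 1 * S := by rw [hS]; ring
      _ ≤ (N ^ 2 * m ^ 2 * L ^ 2) * S := by gcongr
      _ = _ := by ring
  have tE : N * ℓ * (m ^ 2 * ((3 * C0 / (φ * ℓ)) ^ 2 * (φ ^ 2 * P) * (H * j1 + P1))) ≤
      H * (27 * N ^ 2 * m ^ 2 * C0 ^ 2 * P) := by
    have h1 : H * j1 + P1 ≤ H * (3 * (N * ℓ)) := by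
      calc H * j1 + P1 ≤ H * (2 * (N * ℓ)) + H * 1 := by gcongr; linarith
        _ ≤ H * (2 * (N * ℓ)) + H * (N * ℓ) := by gcongr
        _ = _ := by ring
    calc _ ≤ N * ℓ * (m ^ 2 * ((3 * C0 / (φ * ℓ)) ^ 2 * (φ ^ 2 * P) * (H * (3 * (N * ℓ))))) := by gcongr
      _ = _ := by field_simp; ring
  have tF : N * ℓ * (m ^ 2 * (2 * X * j1 / Pl + 2 * P1)) ≤ 10 * (N ^ 2 * m ^ 2 * L ^ 2 * S) := by
    have h1 : 2 * X * j1 / Pl ≤ 8 * (N * L) * S := by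
      calc 2 * X * j1 / Pl = 2 * (X / Pl) * j1 := by ring
        _ ≤ 2 * (2 * S) * (2 * (N * L)) := by gcongr; linarith
        _ = _ := by ring
    have h2 : 2 * P1 ≤ 2 * (N * L) * S := by
      calc 2 * P1 ≤ 2 * 1 * S := by linarith
        _ ≤ 2 * (N * L) * S := by gcongr
    calc _ ≤ N * L * (m ^ 2 * (8 * (N * L) * S + 2 * (N * L) * S)) := by gcongr
      _ = _ := by ring
  have hexp : H * (N * ℓ * (2 * Real.pi * A)) +
      ((N * ℓ * (C0 * H / (M * ℓ) * (m ^ 2 * (φ ^ 2 * P) / φ ^ 2 + 1 / b) + Q * (D * (M * ℓ + 3))) +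
        H * (H / y)) +
      N * ℓ * (m ^ 2 * ((3 * C0 / (φ * ℓ)) ^ 2 * (φ ^ 2 * P) * (H * j1 + P1) +
        (2 * X * j1 / Pl + 2 * P1)))) =
      H * (N * ℓ * (2 * Real.pi * A)) +
      N * ℓ * (C0 * H / (M * ℓ) * (m ^ 2 * (φ ^ 2 * P) / φ ^ 2 + 1 / b)) +
      N * ℓ * (Q * (D * (M * ℓ + 3))) + H * (H / y) +
      N * ℓ * (m ^ 2 * ((3 * C0 / (φ * ℓ)) ^ 2 * (φ ^ 2 * P) * (H * j1 + P1))) +
      N * ℓ * (m ^ 2 * (2 * X * j1 / Pl + 2 * P1)) := by ring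
  rw [hexp, tB]
  have hfin : H * (N / M * C0 * (m ^ 2 * P + 1 / b) + 27 * N ^ 2 * m ^ 2 * C0 ^ 2 * P +
      (7 * Ch + 15) * N ^ 2 * m ^ 2 * (L ^ 2 / T)) =
      H * (N / M * C0 * (m ^ 2 * P + 1 / b)) + H * (27 * N ^ 2 * m ^ 2 * C0 ^ 2 * P) +
      (7 * Ch + 15) * (N ^ 2 * m ^ 2 * L ^ 2 * S) := by rw [hS]; ring
  rw [hfin]
  linarith

/-- The bound on the major arcs with the parameters fixed. -/
theorem major_case (k C : ℕ) (hC1 : 1 ≤ C) (hC : BilinProp k C) (C0 : ℝ)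
    (hC0 : 0 < C0) (hS : SieveProp C0) (hUp : UpperProp C0) (h : Polynomial ℤ)
    (hdeg : h.natDegree = k + 1) (θ Ch : ℝ)
    (hCh : ∀ X y n : ℕ, 1 ≤ X → y ≤ X → n ≤ X →
      |(hR h).eval (n : ℝ) - (hR h).eval (y : ℝ)| ≤ Ch * X ^ k * |(n : ℝ) - y|) (hCh0 : 0 ≤ Ch)
    (m0 u : ℕ) (hm0 : 0 < m0) (hu : u.Coprime m0) (δ M0 N0 β : ℕ)
    (hM0 : M0 = 2 * δ + 14) (hN0 : N0 = (4 * β + 8) * M0)
    (T : ℝ) (hT32 : 32 ≤ T) (hTL : 96 * (m0 : ℝ) * (1 + Real.log T) ^ 2 ≤ C0 * T)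
    (X : ℕ) (hX : (X : ℝ) = T ^ N0) (q : ℕ) (a : ℤ) (hq : 0 < q) (hqT : (q : ℝ) ≤ T ^ δ)
    (hcop : IsCoprime a (q : ℤ)) (hqbig : 2 ^ C * (2 * |(h.leadingCoeff : ℝ)|) ≤ q)
    (hη : |θ - a / q| * (X : ℝ) ^ (k + 1) ≤ T ^ δ)
    (H : ℕ) (hH1 : (H : ℝ) * T ^ (δ + 2) ≤ X) (hH2 : (X : ℝ) ≤ 2 * H * T ^ (δ + 2))
    (y : ℕ) (hy : (X : ℝ) ≤ y * T) (hyX : y + H ≤ X)
    (R : Finset ℕ) (hR : ∀ x, x ∈ R ↔ x ∈ Finset.Ioc y (y + H) ∧ x ≡ u [MOD m0] ∧
      rough (T ^ M0) m0 x) :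
    ‖∑ n ∈ R, (Λ n : ℂ) * Fθ h θ n‖ ≤
      H * ((4 * β + 8) * C0 * (m0 ^ 2 * Psi C m0 |(h.leadingCoeff : ℝ)| q + 1 / 4 ^ β) +
        27 * N0 ^ 2 * m0 ^ 2 * C0 ^ 2 * Psi C m0 |(h.leadingCoeff : ℝ)| q +
        (7 * Ch + 15) * N0 ^ 2 * m0 ^ 2 * ((1 + Real.log T) ^ 2 / T)) := by
  have hT0 : (0 : ℝ) < T := by linarith
  have hT1 : (1 : ℝ) ≤ T := by linarith
  have hm0R : (1 : ℝ) ≤ m0 := by exact_mod_cast hm0
  have hM14 : 14 ≤ M0 := by omega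
  have hNM : 8 * M0 ≤ N0 := by
    rw [hN0]; exact Nat.mul_le_mul_right _ (by omega)
  have hx1 : (1 : ℝ) ≤ X := by rw [hX]; exact one_le_pow₀ hT1
  have hx0 : (0 : ℝ) < X := by linarith
  have hxT : T ≤ X := by
    rw [hX]; exact le_self_pow₀ hT1 (by omega)
  have hX2 : 2 ≤ X := by
    have : (2 : ℝ) ≤ X := by linarith
    exact_mod_cast this
  have hH0 : (0 : ℝ) < H := by
    by_contra hneg
    have : (H : ℝ) = 0 := le_antisymm (not_lt.1 hneg) (Nat.cast_nonneg H)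
    rw [this] at hH2
    linarith
  have hy0 : (0 : ℝ) < y := by
    by_contra hneg
    have : (y : ℝ) = 0 := le_antisymm (not_lt.1 hneg) (Nat.cast_nonneg y)
    rw [this] at hy
    linarith
  have hy1 : 1 ≤ y := by
    have : 0 < y := by exact_mod_cast hy0
    omega
  set z : ℝ := T ^ M0 with hz
  have hz0' : 0 < z := by positivity
  have hz1' : 1 ≤ z := one_le_pow₀ hT1
  have hTz : T ≤ z := le_self_pow₀ hT1 (by omega)
  have hzX : z * z ≤ X := by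
    rw [hX, hz, ← pow_add]; exact pow_le_pow_right₀ hT1 (by omega)
  -- choice of the dyadic parameters
  obtain ⟨l, hl1, hl2⟩ := pow_above (x := T ^ (δ + 3)) (one_le_pow₀ hT1)
  obtain ⟨j0, hj01, hj02⟩ := pow_below (x := z) hz1'
  have hzX1 : z ≤ X := by nlinarith
  obtain ⟨j1, hj11, hj12⟩ := pow_above (x := X / z) ((one_le_div hz0').2 hzX1)
  rw [div_lt_iff₀ hz0'] at hj11
  rw [← mul_div_assoc, le_div_iff₀ hz0'] at hj12
  have h2p : (0 : ℝ) < 2 ^ l := by positivity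
  have hp0 : (0 : ℝ) < 2 ^ j0 := by positivity
  have hp1 : (0 : ℝ) < 2 ^ j1 := by positivity
  set W : ℝ := T ^ (δ + 2) with hW
  have hW0 : 0 < W := by positivity
  have hW1 : 1 ≤ W := one_le_pow₀ hT1
  have hW3 : T ^ (δ + 3) = T * W := by rw [hW]; ring
  rw [hW3] at hl1 hl2
  have hzW : z = T ^ (δ + 12) * W := by rw [hz, hW, ← pow_add, hM0]; congr 1; omega
  have hTδ12 : T ^ 2 ≤ T ^ (δ + 12) := pow_le_pow_right₀ hT1 (by omega)
  have hTW : 32 * (T * W) ≤ z := by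
    rw [hzW]
    calc 32 * (T * W) ≤ T * (T * W) := by gcongr
      _ = T ^ 2 * W := by ring
      _ ≤ _ := by gcongr
  have hll : l ≤ j0 := by
    have h1 : (2 : ℝ) ^ l < 2 ^ j0 := by linarith [mul_pos hT0 hW0]
    exact ((pow_lt_pow_iff_right₀ one_lt_two).1 h1).le
  have hsplit : (2 : ℝ) ^ (j0 - l) * 2 ^ l = 2 ^ j0 := by
    rw [← pow_add]; congr 1; omega
  have hj01' : j0 ≤ j1 := by
    have a1 : (2 : ℝ) ^ j0 * z < 2 ^ j1 * z := by
      calc (2 : ℝ) ^ j0 * z ≤ z * z := by gcongr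
        _ ≤ X := hzX
        _ < _ := hj11
    have a2 : (2 : ℝ) ^ j0 < 2 ^ j1 := lt_of_mul_lt_mul_right a1 (by positivity)
    exact ((pow_lt_pow_iff_right₀ one_lt_two).1 a2).le
  have hj1X : (2 : ℝ) ^ j1 ≤ X := by
    have a1 : (2 : ℝ) ^ j1 * 2 ≤ 2 ^ j1 * z := by
      apply mul_le_mul_of_nonneg_left _ hp1.le
      linarith
    linarith
  have hz0 : ((2 ^ j0 : ℕ) : ℝ) ≤ z := by
    push_cast
    exact hj01
  have hz1 : (X : ℝ) < z * 2 ^ j1 := by linarith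
  have h2 : 2 * (X : ℝ) ≤ H * 2 ^ l := by
    calc 2 * (X : ℝ) ≤ 2 * (2 * H * W) := by linarith
      _ = H * (4 * W) := by ring
      _ ≤ H * (T * W) := by gcongr; linarith
      _ ≤ H * 2 ^ l := by gcongr
  have h3 : 4 * 2 ^ j1 ≤ (H : ℝ) := by
    have a1 : 4 * 2 ^ j1 * z ≤ H * z := by
      calc 4 * 2 ^ j1 * z = 4 * (2 ^ j1 * z) := by ring
        _ ≤ 4 * (2 * (2 * H * W)) := by linarith
        _ = H * (16 * (1 * W)) := by ring
        _ ≤ H * (32 * (T * W)) := by gcongr; norm_num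
        _ ≤ H * z := by gcongr
    exact le_of_mul_le_mul_right a1 hz0'
  -- the level D
  set D : ℕ := ⌈z ^ (4 * β + 6)⌉₊ with hDdef
  have hD : z ^ (4 * β + 6) ≤ (D : ℝ) := Nat.le_ceil _
  have hzD : z ^ (4 * β + 6) * (z * z) = X := by
    rw [hX, hN0, hz, ← pow_mul, ← pow_add, ← pow_add]; congr 1; ring
  have hDle : (D : ℝ) ≤ 2 * z ^ (4 * β + 6) := by
    have a1 : (D : ℝ) < z ^ (4 * β + 6) + 1 := Nat.ceil_lt_add_one (by positivity)
    have a2 : (1 : ℝ) ≤ z ^ (4 * β + 6) := one_le_pow₀ hz1'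
    linarith
  have hDX : (D : ℝ) * (z * z) ≤ 2 * X := by
    calc (D : ℝ) * (z * z) ≤ 2 * z ^ (4 * β + 6) * (z * z) := by gcongr
      _ = 2 * (z ^ (4 * β + 6) * (z * z)) := by ring
      _ = 2 * X := by rw [hzD]
  -- the level Dw
  set Dw : ℕ := ⌈T ^ 6⌉₊ with hDwdef
  have hDw : T ^ 6 ≤ (Dw : ℝ) := Nat.le_ceil _
  have hDwle : (Dw : ℝ) ≤ 2 * T ^ 6 := by
    have a1 : (Dw : ℝ) < T ^ 6 + 1 := Nat.ceil_lt_add_one (by positivity)
    have a2 : (1 : ℝ) ≤ T ^ 6 := one_le_pow₀ hT1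
    linarith
  have hℓ1 : 1 ≤ Real.log T := by
    rw [Real.le_log_iff_exp_le hT0]
    have := Real.exp_one_lt_d9
    linarith
  have hℓ0 : 0 < Real.log T := by linarith
  have hN : 0 < q * m0 := Nat.mul_pos hq hm0
  have hφ : (0 : ℝ) < ((q * m0).totient : ℝ) := by exact_mod_cast Nat.totient_pos.2 hN
  have hφle : ((q * m0).totient : ℝ) ≤ T ^ δ * m0 := by
    have a1 : ((q * m0).totient : ℝ) ≤ ((q * m0 : ℕ) : ℝ) := by exact_mod_cast Nat.totient_le _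
    refine a1.trans ?_
    push_cast
    gcongr
  set L : ℝ := 1 + Real.log T with hL
  have hLHS : Dw * (Real.log T + 3) * ((q * m0).totient * Real.log T) ≤
      6 * m0 * L ^ 2 * (T ^ 6 * T ^ δ) := by
    calc Dw * (Real.log T + 3) * ((q * m0).totient * Real.log T) ≤
          (2 * T ^ 6) * (3 * L) * ((T ^ δ * m0) * L) := by
            gcongr
            · linarith
            · linarith
      _ = _ := by ring
  have h4 : Dw * (Real.log T + 3) * ((q * m0).totient * Real.log T) ≤ C0 * 2 ^ (j0 - l) := by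
    refine hLHS.trans ?_
    have a1 : 6 * m0 * L ^ 2 * (T ^ 6 * T ^ δ) * (4 * (T * W)) ≤ C0 * 2 ^ (j0 - l) * (4 * (T * W)) := by
      calc 6 * m0 * L ^ 2 * (T ^ 6 * T ^ δ) * (4 * (T * W)) =
            (24 * m0 * L ^ 2) * (T ^ (δ + 7) * W) := by ring
        _ ≤ (96 * m0 * L ^ 2) * (T ^ (δ + 7) * W) := by gcongr; norm_num
        _ ≤ (C0 * T) * (T ^ (δ + 7) * W) := by gcongr
        _ = C0 * (T ^ (δ + 8) * W) := by ring
        _ ≤ C0 * (T ^ (δ + 12) * W) := by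
            gcongr
            norm_num
        _ = C0 * z := by rw [hzW]
        _ ≤ C0 * (2 * (2 ^ (j0 - l) * 2 ^ l)) := by rw [hsplit]; gcongr
        _ ≤ C0 * (2 * (2 ^ (j0 - l) * (2 * (T * W)))) := by gcongr
        _ = _ := by ring
    exact le_of_mul_le_mul_right a1 (by positivity)
  have h5 : Dw * (Real.log T + 3) * ((q * m0).totient * Real.log T) * (4 * 2 ^ j1) ≤ C0 * H := by
    have a1 : Dw * (Real.log T + 3) * ((q * m0).totient * Real.log T) * (4 * 2 ^ j1) * z ≤ C0 * H * z := by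
      calc Dw * (Real.log T + 3) * ((q * m0).totient * Real.log T) * (4 * 2 ^ j1) * z ≤
            6 * m0 * L ^ 2 * (T ^ 6 * T ^ δ) * (4 * 2 ^ j1) * z := by gcongr
        _ = 24 * m0 * L ^ 2 * (T ^ 6 * T ^ δ) * (2 ^ j1 * z) := by ring
        _ ≤ 24 * m0 * L ^ 2 * (T ^ 6 * T ^ δ) * (2 * (2 * H * W)) :=
            mul_le_mul_of_nonneg_left (by linarith) (by positivity)
        _ = (96 * m0 * L ^ 2) * (T ^ (δ + 6) * W) * H := by ring
        _ ≤ (C0 * T) * (T ^ (δ + 6) * W) * H := by gcongr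
        _ = C0 * H * (T ^ (δ + 7) * W) := by ring
        _ ≤ C0 * H * (T ^ (δ + 12) * W) := by
            gcongr
            norm_num
        _ = C0 * H * z := by rw [hzW]
    exact le_of_mul_le_mul_right a1 hz0'
  have hqz : (q : ℝ) < z := by
    calc (q : ℝ) ≤ T ^ δ := hqT
      _ < T ^ M0 := pow_lt_pow_right₀ (by linarith) (by omega)
  have hE := res_E k C hC1 hC h hdeg a q m0 hq hm0 hcop hqbig
  have key := major_total k C0 hC0 hS hUp h θ Ch hCh hCh0 z T (by linarith) hTz X y H l j0 j1 m0 q u β D Dw a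
    hm0 hq hqz hu hy1 hyX hX2 hll hj01' (by exact_mod_cast hj1X) hz0 hz1 (by exact_mod_cast h2)
    (by exact_mod_cast h3) hD hDw h4 h5 _ hE R hR
  refine key.trans ?_
  set P : ℝ := Psi C m0 |(h.leadingCoeff : ℝ)| q with hP
  have hP0 : 0 ≤ P := by
    rw [hP]; unfold Psi; positivity
  have hlogX : Real.log X = N0 * Real.log T := by rw [hX, Real.log_pow]
  have hlogz : Real.log z = M0 * Real.log T := by rw [hz, Real.log_pow]
  rw [hlogX, hlogz]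
  have hN0R : (1 : ℝ) ≤ N0 := by
    have : 1 ≤ N0 := by omega
    exact_mod_cast this
  have hM0R : (0 : ℝ) < M0 := by
    have : 0 < M0 := by omega
    exact_mod_cast this
  have hMN : (M0 : ℝ) ≤ N0 := by
    have : M0 ≤ N0 := by omega
    exact_mod_cast this
  have hratio : (N0 : ℝ) / M0 = 4 * β + 8 := by
    rw [hN0]; push_cast; field_simp
  have hj1b : (j1 : ℝ) ≤ 2 * (N0 * Real.log T) := by
    rw [← hlogX]
    exact exp_le_log hj1X
  have hP1 : (2 : ℝ) ^ j1 ≤ H / T := by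
    rw [le_div_iff₀ hT0]
    have a1 : (2 : ℝ) ^ j1 * T * z ≤ H * z := by
      calc (2 : ℝ) ^ j1 * T * z = T * (2 ^ j1 * z) := by ring
        _ ≤ T * (2 * (2 * H * W)) := mul_le_mul_of_nonneg_left (by linarith) hT0.le
        _ = H * (4 * (T * W)) := by ring
        _ ≤ H * (32 * (T * W)) := by gcongr; norm_num
        _ ≤ H * z := by gcongr
    exact le_of_mul_le_mul_right a1 hz0'
  have hPl : (X : ℝ) / 2 ^ l ≤ 2 * (H / T) := by
    rw [div_le_iff₀ h2p]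
    calc (X : ℝ) ≤ 2 * H * W := hH2
      _ = 2 * (H / T) * (T * W) := by field_simp
      _ ≤ 2 * (H / T) * 2 ^ l := by gcongr
  have hDb : ((q * m0 : ℕ) : ℝ) * D ≤ m0 * (H / T) := by
    rw [← mul_div_assoc, le_div_iff₀ hT0]
    push_cast
    have a1 : (q : ℝ) * m0 * D * T * (z * z) ≤ m0 * H * (z * z) := by
      calc (q : ℝ) * m0 * D * T * (z * z) = q * m0 * T * (D * (z * z)) := by ring
        _ ≤ T ^ δ * m0 * T * (2 * (2 * H * W)) := by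
            apply mul_le_mul _ (by linarith) (by positivity) (by positivity)
            gcongr
        _ = m0 * H * ((4 * (T * W)) * T ^ δ) := by ring
        _ ≤ m0 * H * ((32 * (T * W)) * z) := by
            gcongr
            · norm_num
            · rw [hz]
              exact pow_le_pow_right₀ hT1 (by omega)
        _ ≤ m0 * H * (z * z) := by gcongr
    exact le_of_mul_le_mul_right a1 (by positivity)
  have hHy : (H : ℝ) / y ≤ 1 / T := by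
    rw [div_le_div_iff₀ hy0 hT0, one_mul]
    have a1 : (H : ℝ) * T * T ≤ y * T := by
      calc (H : ℝ) * T * T = H * T ^ 2 := by ring
        _ ≤ H * W := by
            apply mul_le_mul_of_nonneg_left _ hH0.le
            rw [hW]
            exact pow_le_pow_right₀ hT1 (by omega)
        _ ≤ X := hH1
        _ ≤ y * T := hy
    exact le_of_mul_le_mul_right a1 hT0
  have hA : |θ - a / q| * (Ch * X ^ k * H) ≤ Ch / T := by
    rw [le_div_iff₀ hT0]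
    have a2 : |θ - a / q| * (X ^ k * H * T) * T ^ δ ≤ 1 * T ^ δ := by
      calc |θ - a / q| * (X ^ k * H * T) * T ^ δ = |θ - a / q| * (X ^ k * (H * T ^ (δ + 1))) := by ring
        _ ≤ |θ - a / q| * (X ^ k * (H * T ^ (δ + 2))) := by
            gcongr
            norm_num
        _ ≤ |θ - a / q| * (X ^ k * X) := by gcongr
        _ = |θ - a / q| * X ^ (k + 1) := by ring
        _ ≤ 1 * T ^ δ := by rw [one_mul]; exact hη
    have a3 : |θ - a / q| * (X ^ k * H * T) ≤ 1 := le_of_mul_le_mul_right a2 (by positivity)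
    calc |θ - a / q| * (Ch * X ^ k * H) * T = Ch * (|θ - a / q| * (X ^ k * H * T)) := by ring
      _ ≤ Ch * 1 := by gcongr
      _ = Ch := mul_one _
  have fin := major_arith H X T y N0 M0 m0 j1 (2 ^ j1) (2 ^ l) D C0 (Real.log T) (4 ^ β)
    ((q * m0 : ℕ) : ℝ) ((q * m0).totient : ℝ) P Ch (|θ - a / q| * (Ch * X ^ k * H)) hH0 hT1 hm0R
    hN0R hM0R hMN hℓ1 (Nat.cast_nonneg _) hj1b hp1.le hP1 hx0.le h2p hPl
    (Nat.cast_nonneg _) (Nat.cast_nonneg _) hDb hHy (by positivity) hφ hP0 hCh0 hA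
  rw [hratio] at fin
  exact fin

end Pool.Agent.Lib.Pe70ed2
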