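import Pool.Agent.Lib.Pe70ed2.Total

set_option autoImplicit false

namespace Pool.Agent.Lib.Pe70ed2

open Finset ArithmeticFunction

lemma pow_above {x : ℝ} (hx : 1 ≤ x) : ∃ j : ℕ, x < 2 ^ j ∧ (2 : ℝ) ^ j ≤ 2 * x := by
  obtain ⟨n, h1, h2⟩ := exists_nat_pow_near hx (by norm_num : (1 : ℝ) < 2)
  exact ⟨n + 1, h2, by rw [pow_succ]; linarith⟩

lemma pow_below {x : ℝ} (hx : 1 ≤ x) : ∃ j : ℕ, (2 : ℝ) ^ j ≤ x ∧ x < 2 * 2 ^ j := by
  obtain ⟨n, h1, h2⟩ := exists_nat_pow_near hx (by norm_num : (1 : ℝ) < 2)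
  exact ⟨n, h1, by rw [pow_succ] at h2; linarith⟩

lemma exp_le_log {j : ℕ} {x : ℝ} (hx : (2 : ℝ) ^ j ≤ x) : (j : ℝ) ≤ 2 * Real.log x := by
  have h1 : Real.log ((2 : ℝ) ^ j) ≤ Real.log x := Real.log_le_log (by positivity) hx
  rw [Real.log_pow] at h1
  have h2 : (1 / 2 : ℝ) ≤ Real.log 2 := by
    have := Real.log_two_gt_d9
    linarith
  have hj : (0 : ℝ) ≤ j := Nat.cast_nonneg j
  nlinarith

lemma eta_bound {T x Y : ℝ} {a b k : ℕ} (hT : 0 < T) (hx : 0 < x) (hY : 0 < Y) (h : x ≤ Y * T ^ b) :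
    T ^ a / Y ^ (k + 1) ≤ T ^ (a + b * (k + 1)) / x ^ (k + 1) := by
  rw [div_le_div_iff₀ (by positivity) (by positivity)]
  calc T ^ a * x ^ (k + 1) ≤ T ^ a * (Y * T ^ b) ^ (k + 1) := by gcongr
    _ = T ^ (a + b * (k + 1)) * Y ^ (k + 1) := by
        rw [mul_pow, pow_add T a, pow_mul T b]; ring

lemma near_transfer {T x η θ : ℝ} {δ k r : ℕ} {lc : ℤ} (hlc : lc ≠ 0)
    (hm : ∀ r : ℕ, 1 ≤ r → (r : ℝ) ≤ T ^ δ → ¬ Near (r * θ) (T ^ δ / x ^ (k + 1)))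
    (hr : 1 ≤ r) (hr2 : (r : ℝ) * |(lc : ℝ)| ≤ T ^ δ) (hη : η ≤ T ^ δ / x ^ (k + 1)) :
    ¬ Near (r * (θ * lc)) η := by
  intro hn
  obtain ⟨n, hn⟩ := hn
  have habs : ((lc.natAbs : ℕ) : ℝ) = |(lc : ℝ)| := by
    rw [Nat.cast_natAbs]; push_cast; rfl
  have h1 : 1 ≤ r * lc.natAbs := Nat.mul_pos hr (Int.natAbs_pos.2 hlc)
  have h2 : ((r * lc.natAbs : ℕ) : ℝ) ≤ T ^ δ := by
    rw [Nat.cast_mul, habs]
    exact hr2
  apply hm _ h1 h2
  rcases abs_choice (lc : ℝ) with hc | hc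
  · refine ⟨n, ?_⟩
    have : (((r * lc.natAbs : ℕ) : ℝ)) * θ = r * (θ * lc) := by
      rw [Nat.cast_mul, habs, hc]; ring
    rw [this]
    exact hn.trans hη
  · refine ⟨-n, ?_⟩
    have : (((r * lc.natAbs : ℕ) : ℝ)) * θ - ((-n : ℤ) : ℝ) = -(r * (θ * lc) - n) := by
      rw [Nat.cast_mul, habs, hc]; push_cast; ring
    rw [this, abs_neg]
    exact hn.trans hη

lemma minor_arith (H X T y N M m j0 j1 P1 Pl D C0 ℓ : ℝ) (b : ℝ) (hH : 0 < H) (hT : 1 ≤ T) (hm : 1 ≤ m)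
    (hN : 1 ≤ N) (hM : 0 < M) (hMN : M ≤ N) (hℓ : 0 < ℓ) (hj00 : 0 ≤ j0) (hj10 : 0 ≤ j1) (hj0 : j0 ≤ 2 * (N * ℓ))
    (hj1 : j1 ≤ 2 * (N * ℓ)) (hP0 : 0 ≤ P1) (hP : P1 ≤ H / T) (hX0 : 0 ≤ X) (hPl0 : 0 < Pl) (hPl : X / Pl ≤ 2 * (H / T))
    (hD0 : 0 ≤ D) (hD : D ≤ H / T) (hy0 : 0 < y) (hy : H / y ≤ 1 / T) (hb : 0 < b) :
    (N * ℓ * ((2 * H / T * j0 + m ^ 2 * (1 / T * (H * j1 + P1) + (2 * X * j1 / Pl + 2 * P1))) +
      (C0 * H / (b * (M * ℓ)) + D * (M * ℓ + 2))) + H * (H / y)) +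
      N * ℓ * (m ^ 2 * (1 / T * (H * j1 + P1) + (2 * X * j1 / Pl + 2 * P1))) ≤
    H * (N / M * C0 / b + 55 * N ^ 2 * m ^ 2 * ((1 + ℓ) ^ 2 / T)) := by
  have hT0 : 0 < T := by linarith
  set L := 1 + ℓ with hL
  have hL1 : 1 ≤ L := by linarith
  have hℓL : ℓ ≤ L := by linarith
  set S := H / T with hS
  have hS0 : 0 ≤ S := by positivity
  have hNL : 1 ≤ N * L := one_le_mul_of_one_le_of_one_le hN hL1
  have hNℓ : N * ℓ ≤ N * L := by gcongr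
  have hNℓ0 : 0 ≤ N * ℓ := by positivity
  have hm2 : 1 ≤ m ^ 2 := one_le_pow₀ hm
  have hPH : P1 ≤ H := by
    refine hP.trans ?_
    rw [hS, div_le_iff₀ hT0]
    exact le_mul_of_one_le_right hH.le hT
  have tB : 1 / T * (H * j1 + P1) ≤ 3 * (N * L) * S := by
    calc 1 / T * (H * j1 + P1) ≤ 1 / T * (H * (2 * (N * L)) + H * (N * L)) := by
          gcongr
          · linarith
          · exact hPH.trans (le_mul_of_one_le_right hH.le hNL)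
      _ = 3 * (N * L) * S := by rw [hS]; ring
  have tC : 2 * X * j1 / Pl ≤ 8 * (N * L) * S := by
    calc 2 * X * j1 / Pl = 2 * (X / Pl) * j1 := by ring
      _ ≤ 2 * (2 * S) * (2 * (N * L)) := by gcongr; linarith
      _ = _ := by ring
  have tD : 2 * P1 ≤ 2 * (N * L) * S := by
    calc 2 * P1 ≤ 2 * 1 * S := by linarith
      _ ≤ 2 * (N * L) * S := by gcongr
  have tBCD : N * ℓ * (m ^ 2 * (1 / T * (H * j1 + P1) + (2 * X * j1 / Pl + 2 * P1))) ≤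
      13 * (N ^ 2 * m ^ 2 * L ^ 2 * S) := by
    have h0 : 0 ≤ 1 / T * (H * j1 + P1) + (2 * X * j1 / Pl + 2 * P1) := by positivity
    calc _ ≤ N * L * (m ^ 2 * (3 * (N * L) * S + (8 * (N * L) * S + 2 * (N * L) * S))) := by gcongr
      _ = _ := by ring
  have tA : N * ℓ * (2 * H / T * j0) ≤ 4 * (N ^ 2 * m ^ 2 * L ^ 2 * S) := by
    calc N * ℓ * (2 * H / T * j0) ≤ N * L * (2 * H / T * (2 * (N * L))) := by gcongr; linarith
      _ = 4 * (N ^ 2 * L ^ 2 * S) * 1 := by rw [hS]; ring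
      _ ≤ 4 * (N ^ 2 * L ^ 2 * S) * m ^ 2 := by gcongr
      _ = _ := by ring
  have tF : N * ℓ * (D * (M * ℓ + 2)) ≤ 3 * (N ^ 2 * m ^ 2 * L ^ 2 * S) := by
    have h1 : M * ℓ + 2 ≤ 3 * (N * L) := by
      have : M * ℓ ≤ N * L := by gcongr
      linarith
    calc N * ℓ * (D * (M * ℓ + 2)) ≤ N * L * (S * (3 * (N * L))) := by gcongr
      _ = 3 * (N ^ 2 * L ^ 2 * S) * 1 := by ring
      _ ≤ 3 * (N ^ 2 * L ^ 2 * S) * m ^ 2 := by gcongr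
      _ = _ := by ring
  have tG : H * (H / y) ≤ 1 * (N ^ 2 * m ^ 2 * L ^ 2 * S) := by
    have h1 : 1 ≤ N ^ 2 * m ^ 2 * L ^ 2 := by
      have h2 : 1 ≤ (N * L) ^ 2 * m ^ 2 := one_le_mul_of_one_le_of_one_le (one_le_pow₀ hNL) hm2
      calc 1 ≤ (N * L) ^ 2 * m ^ 2 := h2
        _ = _ := by ring
    calc H * (H / y) ≤ H * (1 / T) := by gcongr
      _ = 1 * S := by rw [hS]; ring
      _ ≤ (N ^ 2 * m ^ 2 * L ^ 2) * S := by gcongr
      _ = _ := by ring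
  have tE : N * ℓ * (C0 * H / (b * (M * ℓ))) = H * (N / M * C0 / b) := by
    field_simp
  have hW : 0 ≤ N ^ 2 * m ^ 2 * L ^ 2 * S := by positivity
  have hfin : H * (N / M * C0 / b + 55 * N ^ 2 * m ^ 2 * (L ^ 2 / T)) =
      H * (N / M * C0 / b) + 55 * (N ^ 2 * m ^ 2 * L ^ 2 * S) := by rw [hS]; ring
  rw [hfin]
  have hexp : (N * ℓ * ((2 * H / T * j0 + m ^ 2 * (1 / T * (H * j1 + P1) + (2 * X * j1 / Pl + 2 * P1))) +
      (C0 * H / (b * (M * ℓ)) + D * (M * ℓ + 2))) + H * (H / y)) +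
      N * ℓ * (m ^ 2 * (1 / T * (H * j1 + P1) + (2 * X * j1 / Pl + 2 * P1))) =
      N * ℓ * (2 * H / T * j0) + N * ℓ * (m ^ 2 * (1 / T * (H * j1 + P1) + (2 * X * j1 / Pl + 2 * P1))) +
      N * ℓ * (C0 * H / (b * (M * ℓ))) + N * ℓ * (D * (M * ℓ + 2)) + H * (H / y) +
      N * ℓ * (m ^ 2 * (1 / T * (H * j1 + P1) + (2 * X * j1 / Pl + 2 * P1))) := by ring
  rw [hexp, tE]
  linarith

/-- The bound on the minor arcs with the parameters fixed. -/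
theorem minor_case (k C : ℕ) (hC1 : 1 ≤ C) (hC : BilinProp k C) (hW : WeylProp k C) (C0 : ℝ)
    (hC0 : 0 < C0) (hS : SieveProp C0) (h : Polynomial ℤ) (hdeg : h.natDegree = k + 1) (θ : ℝ)
    (m0 u : ℕ) (hm0 : 0 < m0) (hu : u.Coprime m0) (e1 δ M0 N0 β : ℕ) (he1 : e1 = C + 5)
    (hδ : δ = C + (e1 + 3) * (k + 1) + 1) (hM0 : M0 = 2 * δ + 14) (hN0 : N0 = (4 * β + 8) * M0)
    (T : ℝ) (hT32 : 32 ≤ T) (hTm : 4 * (m0 : ℝ) ≤ T) (hTc : |(h.leadingCoeff : ℝ)| ≤ T)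
    (X : ℕ) (hX : (X : ℝ) = T ^ N0)
    (hm : ∀ r : ℕ, 1 ≤ r → (r : ℝ) ≤ T ^ δ → ¬ Near (r * θ) (T ^ δ / (X : ℝ) ^ (k + 1)))
    (H : ℕ) (hH1 : (H : ℝ) * T ^ 2 ≤ X) (hH2 : (X : ℝ) ≤ 2 * H * T ^ 2)
    (y : ℕ) (hy : (X : ℝ) ≤ y * T) (hyX : y + H ≤ X)
    (R : Finset ℕ) (hR : ∀ x, x ∈ R ↔ x ∈ Finset.Ioc y (y + H) ∧ x ≡ u [MOD m0] ∧
      rough (T ^ M0) m0 x) :
    ‖∑ n ∈ R, (Λ n : ℂ) * Fθ h θ n‖ ≤
      H * ((4 * β + 8) * C0 / 4 ^ β + 55 * N0 ^ 2 * m0 ^ 2 * ((1 + Real.log T) ^ 2 / T)) := by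
  have hT0 : (0 : ℝ) < T := by linarith
  have hT1 : (1 : ℝ) ≤ T := by linarith
  have hh0 : h ≠ 0 := by
    rintro rfl
    simp at hdeg
  have hlc : h.leadingCoeff ≠ 0 := Polynomial.leadingCoeff_ne_zero.2 hh0
  have hm0R : (1 : ℝ) ≤ m0 := by exact_mod_cast hm0
  have hM14 : 14 ≤ M0 := by omega
  have hNM : 8 * M0 ≤ N0 := by
    rw [hN0]; exact Nat.mul_le_mul_right _ (by omega)
  have hδe : e1 + 3 ≤ δ := by
    have : (e1 + 3) * 1 ≤ (e1 + 3) * (k + 1) := Nat.mul_le_mul_left _ (by omega)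
    omega
  have hδ1 : C + 6 * (k + 1) ≤ δ := by
    have : 6 * (k + 1) ≤ (e1 + 3) * (k + 1) := Nat.mul_le_mul_right _ (by omega)
    omega
  have hδ2 : C + (e1 + 1) * (k + 1) + 1 ≤ δ := by
    have : (e1 + 1) * (k + 1) ≤ (e1 + 3) * (k + 1) := Nat.mul_le_mul_right _ (by omega)
    omega
  have hx1 : (1 : ℝ) ≤ X := by rw [hX]; exact one_le_pow₀ hT1
  have hx0 : (0 : ℝ) < X := by linarith
  have hxT : T ≤ X := by
    rw [hX]; exact le_self_pow₀ hT1 (by omega)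
  have hX2 : 2 ≤ X := by
    have : (2 : ℝ) ≤ X := by linarith
    exact_mod_cast this
  have hH0 : (0 : ℝ) < H := by
    by_contra hneg
    have : (H : ℝ) = 0 := le_antisymm (not_lt.1 hneg) (Nat.cast_nonneg H)
    rw [this] at hH2
    linarith
  have hy0 : (0 : ℝ) < y := by
    by_contra hneg
    have : (y : ℝ) = 0 := le_antisymm (not_lt.1 hneg) (Nat.cast_nonneg y)
    rw [this] at hy
    linarith
  have hy1 : 1 ≤ y := by
    have : 0 < y := by exact_mod_cast hy0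
    omega
  -- choice of the dyadic parameters
  obtain ⟨l, hl1, hl2⟩ := pow_above (x := T ^ 3) (one_le_pow₀ hT1)
  obtain ⟨j0, hj01, hj02⟩ := pow_below (x := T ^ e1) (one_le_pow₀ hT1)
  have hTN1 : (T : ℝ) ^ e1 ≤ X := by
    rw [hX]; exact pow_le_pow_right₀ hT1 (by omega)
  have hTe0 : (0 : ℝ) < T ^ e1 := by positivity
  obtain ⟨j1, hj11, hj12⟩ := pow_above (x := X / T ^ e1) ((one_le_div hTe0).2 hTN1)
  rw [div_lt_iff₀ hTe0] at hj11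
  rw [← mul_div_assoc, le_div_iff₀ hTe0] at hj12
  -- powers of T
  have hTn : ∀ n : ℕ, (32 : ℝ) * T ^ n ≤ T ^ (n + 1) := by
    intro n
    rw [pow_succ, mul_comm (T ^ n)]
    exact mul_le_mul_of_nonneg_right hT32 (by positivity)
  have hT3 : (32 : ℝ) * T ^ 2 ≤ T ^ 3 := hTn 2
  have hT4 : (32 : ℝ) * T ^ 3 ≤ T ^ 4 := hTn 3
  have hT5 : (32 : ℝ) * T ^ 4 ≤ T ^ 5 := hTn 4
  have hT2 : (32 : ℝ) * T ≤ T ^ 2 := by have := hTn 1; rwa [pow_one] at this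
  have hT3p : (0 : ℝ) < T ^ 3 := pow_pos hT0 3
  have hT2p : (0 : ℝ) < T ^ 2 := pow_pos hT0 2
  have he15 : T ^ 5 ≤ T ^ e1 := pow_le_pow_right₀ hT1 (by omega)
  have he1C : T ^ e1 = T ^ C * T ^ 5 := by rw [he1, pow_add]
  have h2p : (0 : ℝ) < 2 ^ l := by positivity
  have hp0 : (0 : ℝ) < 2 ^ j0 := by positivity
  have hp1 : (0 : ℝ) < 2 ^ j1 := by positivity
  have hTC : (0 : ℝ) < T ^ C := by positivity
  have hll : l ≤ j0 := by
    have h1 : (2 : ℝ) ^ l < 2 ^ j0 := by linarith only [hl2, hj02, he15, hT5, hT4, hT3p]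
    exact ((pow_lt_pow_iff_right₀ one_lt_two).1 h1).le
  have hsplit : (2 : ℝ) ^ (j0 - l) * 2 ^ l = 2 ^ j0 := by
    rw [← pow_add]; congr 1; omega
  have h1 : T ^ C ≤ 2 ^ (j0 - l) := by
    have a1 : T ^ C * T ^ 5 < 2 * (2 ^ (j0 - l) * 2 ^ l) := by rw [hsplit, ← he1C]; exact hj02
    have a2 : 2 * (2 ^ (j0 - l) * 2 ^ l) ≤ (2 : ℝ) * (2 ^ (j0 - l) * (2 * T ^ 3)) := by gcongr
    have a3 : T ^ C * (4 * T ^ 3) ≤ T ^ C * T ^ 5 := by
      apply mul_le_mul_of_nonneg_left _ hTC.le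
      linarith only [hT5, hT4, hT3p]
    have a4 : T ^ C * (4 * T ^ 3) ≤ 2 ^ (j0 - l) * (4 * T ^ 3) := by linarith
    exact le_of_mul_le_mul_right a4 (by positivity)
  have h2 : 2 * (X : ℝ) ≤ H * 2 ^ l := by
    calc 2 * (X : ℝ) ≤ 2 * (2 * H * T ^ 2) := by linarith only [hH2]
      _ = H * (4 * T ^ 2) := by ring
      _ ≤ H * T ^ 3 := mul_le_mul_of_nonneg_left (by linarith only [hT3, hT2p]) hH0.le
      _ ≤ H * 2 ^ l := by gcongr
  have h3 : 4 * 2 ^ j1 * T ^ C ≤ (H : ℝ) := by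
    have a1 : 4 * 2 ^ j1 * T ^ C * T ^ 5 ≤ H * T ^ 5 := by
      calc 4 * 2 ^ j1 * T ^ C * T ^ 5 = 4 * (2 ^ j1 * T ^ e1) := by rw [he1C]; ring
        _ ≤ 4 * (2 * (2 * H * T ^ 2)) := by linarith
        _ = H * (16 * T ^ 2) := by ring
        _ ≤ H * T ^ 5 := by
            have : (16 : ℝ) * T ^ 2 ≤ T ^ 5 := by linarith only [hT5, hT4, hT3, hT2p, hT3p]
            exact mul_le_mul_of_nonneg_left this hH0.le
    exact le_of_mul_le_mul_right a1 (by positivity)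
  have hH3 : T ^ N0 ≤ H * T ^ 3 := by
    rw [← hX]
    calc (X : ℝ) ≤ 2 * H * T ^ 2 := hH2
      _ = H * (2 * T ^ 2) := by ring
      _ ≤ H * T ^ 3 := mul_le_mul_of_nonneg_left (by linarith only [hT3, hT2p]) hH0.le
  have hmj : (m0 : ℝ) * 2 ^ j0 ≤ T ^ (e1 + 1) := by
    calc (m0 : ℝ) * 2 ^ j0 ≤ T * T ^ e1 := by gcongr; linarith
      _ = T ^ (e1 + 1) := by ring
  have h4 : 2 * T ^ C * ((m0 : ℝ) * 2 ^ j0) ≤ H := by
    have a1 : 2 * T ^ C * ((m0 : ℝ) * 2 ^ j0) * T ^ 3 ≤ H * T ^ 3 := by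
      calc 2 * T ^ C * ((m0 : ℝ) * 2 ^ j0) * T ^ 3 ≤ T * T ^ C * T ^ (e1 + 1) * T ^ 3 := by
            gcongr; linarith
        _ = T ^ (1 + C + (e1 + 1) + 3) := by ring
        _ ≤ T ^ N0 := pow_le_pow_right₀ hT1 (by omega)
        _ ≤ _ := hH3
    exact le_of_mul_le_mul_right a1 (by positivity)
  -- the level D
  set D : ℕ := ⌈(T ^ M0) ^ (4 * β + 6)⌉₊ with hDdef
  have hD : (T ^ M0) ^ (4 * β + 6) ≤ (D : ℝ) := Nat.le_ceil _
  have hzD : (T ^ M0) ^ (4 * β + 6) * T ^ (2 * M0) = X := by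
    rw [hX, hN0, ← pow_mul, ← pow_add]; congr 1; ring
  have hDle : (D : ℝ) ≤ 2 * (T ^ M0) ^ (4 * β + 6) := by
    have a1 : (D : ℝ) < (T ^ M0) ^ (4 * β + 6) + 1 := Nat.ceil_lt_add_one (by positivity)
    have a2 : (1 : ℝ) ≤ (T ^ M0) ^ (4 * β + 6) := one_le_pow₀ (one_le_pow₀ hT1)
    linarith
  have hDX : (D : ℝ) * T ^ (2 * M0) ≤ 2 * X := by
    calc (D : ℝ) * T ^ (2 * M0) ≤ 2 * (T ^ M0) ^ (4 * β + 6) * T ^ (2 * M0) := by gcongr
      _ = 2 * ((T ^ M0) ^ (4 * β + 6) * T ^ (2 * M0)) := by ring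
      _ = 2 * X := by rw [hzD]
  have h5 : D < 2 ^ j1 := by
    have a1 : (D : ℝ) * T ^ (2 * M0) < 2 ^ j1 * T ^ (2 * M0) := by
      calc (D : ℝ) * T ^ (2 * M0) ≤ 2 * X := hDX
        _ < 2 * (2 ^ j1 * T ^ e1) := by linarith
        _ ≤ T * (2 ^ j1 * T ^ e1) := by gcongr; linarith
        _ = 2 ^ j1 * T ^ (e1 + 1) := by ring
        _ ≤ 2 ^ j1 * T ^ (2 * M0) := by
            apply mul_le_mul_of_nonneg_left _ hp1.le
            exact pow_le_pow_right₀ hT1 (by omega)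
    have a2 : (D : ℝ) < 2 ^ j1 := lt_of_mul_lt_mul_right a1 (by positivity)
    exact_mod_cast a2
  have hj01' : j0 ≤ j1 := by
    have a1 : (2 : ℝ) ^ j0 * T ^ e1 < 2 ^ j1 * T ^ e1 := by
      calc (2 : ℝ) ^ j0 * T ^ e1 ≤ T ^ e1 * T ^ e1 := by gcongr
        _ = T ^ (e1 + e1) := by ring
        _ ≤ T ^ N0 := pow_le_pow_right₀ hT1 (by omega)
        _ = X := hX.symm
        _ < _ := hj11
    have a2 : (2 : ℝ) ^ j0 < 2 ^ j1 := lt_of_mul_lt_mul_right a1 (by positivity)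
    exact ((pow_lt_pow_iff_right₀ one_lt_two).1 a2).le
  have hj1X : (2 : ℝ) ^ j1 ≤ X := by
    have a1 : (2 : ℝ) ^ j1 * 2 ≤ 2 ^ j1 * T ^ e1 := by
      apply mul_le_mul_of_nonneg_left _ hp1.le
      linarith only [he15, hT5, hT4, hT3, hT2, hT32, hT3p]
    linarith
  have hz0 : ((2 ^ j0 : ℕ) : ℝ) ≤ T ^ M0 := by
    push_cast
    exact hj01.trans (pow_le_pow_right₀ hT1 (by omega))
  have hz1 : (X : ℝ) < T ^ M0 * 2 ^ j1 := by
    calc (X : ℝ) < 2 ^ j1 * T ^ e1 := hj11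
      _ ≤ 2 ^ j1 * T ^ M0 := by
          apply mul_le_mul_of_nonneg_left _ hp1.le
          exact pow_le_pow_right₀ hT1 (by omega)
      _ = T ^ M0 * 2 ^ j1 := by ring
  have hminor : ∀ r : ℕ, 1 ≤ r → (r : ℝ) ≤ T ^ C →
      ¬ Near (r * (θ * h.leadingCoeff)) (T ^ C / ((H : ℝ) / (8 * 2 ^ l)) ^ (k + 1)) := by
    intro r hr1 hr2
    refine near_transfer hlc hm hr1 ?_ ?_
    · calc (r : ℝ) * |(h.leadingCoeff : ℝ)| ≤ T ^ C * T := by gcongr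
        _ = T ^ (C + 1) := by ring
        _ ≤ T ^ δ := pow_le_pow_right₀ hT1 (by omega)
    · refine (eta_bound (x := X) (b := 6) hT0 hx0 (by positivity) ?_).trans ?_
      · rw [div_mul_eq_mul_div, le_div_iff₀ (by positivity)]
        calc (X : ℝ) * (8 * 2 ^ l) ≤ (2 * H * T ^ 2) * (8 * (2 * T ^ 3)) := by gcongr
          _ = 32 * T ^ 5 * H := by ring
          _ ≤ T * T ^ 5 * H := by gcongr
          _ = H * T ^ 6 := by ring
      · apply div_le_div_of_nonneg_right _ (by positivity)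
        exact pow_le_pow_right₀ hT1 hδ1
  have hminor2 : ∀ r : ℕ, 1 ≤ r → (r : ℝ) ≤ T ^ C * (m0 * 2 ^ j0) ^ (k + 1) →
      ¬ Near (r * (θ * h.leadingCoeff)) (T ^ C / ((H : ℝ) / (2 * (m0 * 2 ^ j0))) ^ (k + 1)) := by
    intro r hr1 hr2
    refine near_transfer hlc hm hr1 ?_ ?_
    · calc (r : ℝ) * |(h.leadingCoeff : ℝ)| ≤ (T ^ C * (T ^ (e1 + 1)) ^ (k + 1)) * T := by
            refine mul_le_mul (hr2.trans ?_) hTc (abs_nonneg _) (by positivity)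
            gcongr
        _ = T ^ (C + (e1 + 1) * (k + 1) + 1) := by
            rw [← pow_mul, pow_succ T (C + (e1 + 1) * (k + 1)), pow_add T C]
        _ ≤ T ^ δ := pow_le_pow_right₀ hT1 hδ2
    · refine (eta_bound (x := X) (b := e1 + 3) hT0 hx0 (by positivity) ?_).trans ?_
      · rw [div_mul_eq_mul_div, le_div_iff₀ (by positivity)]
        calc (X : ℝ) * (2 * (m0 * 2 ^ j0)) ≤ (2 * H * T ^ 2) * (2 * (m0 * T ^ e1)) := by gcongr
          _ = (4 * m0) * (H * T ^ 2 * T ^ e1) := by ring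
          _ ≤ T * (H * T ^ 2 * T ^ e1) := by gcongr
          _ = H * T ^ (e1 + 3) := by ring
      · apply div_le_div_of_nonneg_right _ (by positivity)
        apply pow_le_pow_right₀ hT1
        omega
  have hz2 : (2 : ℝ) ≤ T ^ M0 := by
    have := le_self_pow₀ hT1 (show M0 ≠ 0 by omega)
    linarith
  have key := minor_total k C hC hW C0 hC0 hS h hdeg θ T (by linarith) (T ^ M0) hz2 X y H l j0 j1 m0 u β D
    hm0 hu hy1 hyX hX2 hll hj01' (by exact_mod_cast hj1X) hz0 hz1 h1 (by exact_mod_cast h2) h3 h4 h5 hD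
    hminor hminor2 R hR
  refine key.trans ?_
  have hℓ : 0 < Real.log T := Real.log_pos (by linarith)
  have hlogX : Real.log X = N0 * Real.log T := by rw [hX, Real.log_pow]
  have hlogz : Real.log (T ^ M0) = M0 * Real.log T := by rw [Real.log_pow]
  rw [hlogX, hlogz]
  have hN0R : (1 : ℝ) ≤ N0 := by
    have : 1 ≤ N0 := by omega
    exact_mod_cast this
  have hM0R : (0 : ℝ) < M0 := by
    have : 0 < M0 := by omega
    exact_mod_cast this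
  have hMN : (M0 : ℝ) ≤ N0 := by
    have : M0 ≤ N0 := by omega
    exact_mod_cast this
  have hratio : (N0 : ℝ) / M0 = 4 * β + 8 := by
    rw [hN0]; push_cast; field_simp
  have hj0b : (j0 : ℝ) ≤ 2 * (N0 * Real.log T) := by
    rw [← hlogX]
    exact exp_le_log (hj01.trans hTN1)
  have hj1b : (j1 : ℝ) ≤ 2 * (N0 * Real.log T) := by
    rw [← hlogX]
    exact exp_le_log hj1X
  have hP : (2 : ℝ) ^ j1 ≤ H / T := by
    rw [le_div_iff₀ hT0]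
    have a1 : (2 : ℝ) ^ j1 * T * T ^ 4 ≤ H * T ^ 4 := by
      calc (2 : ℝ) ^ j1 * T * T ^ 4 = 2 ^ j1 * T ^ 5 := by ring
        _ ≤ 2 ^ j1 * T ^ e1 := by gcongr
        _ ≤ 2 * (2 * H * T ^ 2) := by linarith
        _ = H * (4 * T ^ 2) := by ring
        _ ≤ H * T ^ 4 := by
            apply mul_le_mul_of_nonneg_left _ hH0.le
            linarith [pow_pos hT0 2]
    exact le_of_mul_le_mul_right a1 (by positivity)
  have hPl : (X : ℝ) / 2 ^ l ≤ 2 * (H / T) := by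
    rw [div_le_iff₀ h2p]
    calc (X : ℝ) ≤ 2 * H * T ^ 2 := hH2
      _ = 2 * (H / T) * T ^ 3 := by field_simp
      _ ≤ 2 * (H / T) * 2 ^ l := by gcongr
  have hDb : (D : ℝ) ≤ H / T := by
    rw [le_div_iff₀ hT0]
    have a1 : (D : ℝ) * T * T ^ 4 ≤ H * T ^ 4 := by
      calc (D : ℝ) * T * T ^ 4 = D * T ^ 5 := by ring
        _ ≤ D * T ^ (2 * M0) := by
            apply mul_le_mul_of_nonneg_left _ (Nat.cast_nonneg D)
            exact pow_le_pow_right₀ hT1 (by omega)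
        _ ≤ 2 * (2 * H * T ^ 2) := by linarith
        _ = H * (4 * T ^ 2) := by ring
        _ ≤ H * T ^ 4 := by
            apply mul_le_mul_of_nonneg_left _ hH0.le
            linarith [pow_pos hT0 2]
    exact le_of_mul_le_mul_right a1 (by positivity)
  have hHy : (H : ℝ) / y ≤ 1 / T := by
    rw [div_le_div_iff₀ hy0 hT0, one_mul]
    have a1 : (H : ℝ) * T * T ≤ y * T := by
      calc (H : ℝ) * T * T = H * T ^ 2 := by ring
        _ ≤ X := hH1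
        _ ≤ y * T := hy
    exact le_of_mul_le_mul_right a1 hT0
  have fin := minor_arith H X T y N0 M0 m0 j0 j1 (2 ^ j1) (2 ^ l) D C0 (Real.log T) (4 ^ β) hH0 hT1 hm0R
    hN0R hM0R hMN hℓ (Nat.cast_nonneg _) (Nat.cast_nonneg _) hj0b hj1b hp1.le hP hx0.le h2p hPl
    (Nat.cast_nonneg _) hDb hy0 hHy (by positivity)
  rw [hratio] at fin
  exact fin

end Pool.Agent.Lib.Pe70ed2
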