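import Pool.Agent.Lib.Pe70ed2.Interval
import Pool.Agent.Lib.PntAP.PntAP

set_option autoImplicit false

namespace Pool.Agent.Lib.Pe70ed2

open Finset ArithmeticFunction Filter Topology

lemma desc_sum (f : ℕ → ℂ) (X H : ℕ) (ε : ℝ) (J : ℕ) (hJ : J * H ≤ X)
    (hstep : ∀ j < J, ‖∑ n ∈ Finset.Ioc (X - (j + 1) * H) (X - (j + 1) * H + H), f n‖ ≤ H * ε) :
    ‖∑ n ∈ Finset.Ioc (X - J * H) X, f n‖ ≤ J * H * ε := by
  induction J with
  | zero => simp
  | succ J ih =>
    have hJ' : J * H ≤ X := le_trans (Nat.mul_le_mul_right _ (by omega)) hJ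
    have h1 := ih hJ' (fun j hj => hstep j (by omega))
    have h2 := hstep J (by omega)
    have h3 : (J + 1) * H = J * H + H := by ring
    have h4 : X - (J + 1) * H + H = X - J * H := by omega
    rw [h4] at h2
    have h5 : X - (J + 1) * H ≤ X - J * H := by omega
    rw [← Finset.sum_Ioc_consecutive f h5 (Nat.sub_le _ _)]
    refine (norm_add_le _ _).trans ?_
    push_cast
    linarith

lemma interval_sum (f : ℕ → ℂ) (X H : ℕ) (T ε : ℝ) (hT : 1 ≤ T) (hH : 1 ≤ H) (hHT : (H : ℝ) * T ≤ X)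
    (hε : 0 ≤ ε) (hf : ∀ n ∈ Finset.Ioc 0 X, ‖f n‖ ≤ Real.log X)
    (hI : ∀ y : ℕ, (X : ℝ) ≤ y * T → y + H ≤ X → ‖∑ n ∈ Finset.Ioc y (y + H), f n‖ ≤ H * ε) :
    ‖∑ n ∈ Finset.Ioc 0 X, f n‖ ≤ X * ε + 3 * (X / T) * Real.log X := by
  have hT0 : 0 < T := by linarith
  have hHR : (1 : ℝ) ≤ H := by exact_mod_cast hH
  have hXT : 1 ≤ (X : ℝ) / T := by
    rw [le_div_iff₀ hT0]
    nlinarith
  have hX0 : (0 : ℝ) ≤ X := Nat.cast_nonneg X
  have hXT2 : (X : ℝ) / T ≤ X := div_le_self hX0 hT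
  set Y0 := ⌈(X : ℝ) / T⌉₊ with hY0
  have hY1 : (X : ℝ) / T ≤ Y0 := Nat.le_ceil _
  have hY2 : (Y0 : ℝ) < X / T + 1 := Nat.ceil_lt_add_one (by positivity)
  have hY3 : Y0 ≤ X := Nat.ceil_le.2 hXT2
  set J := (X - Y0) / H with hJ
  have hJ1 : J * H ≤ X - Y0 := Nat.div_mul_le_self _ _
  have hJ2 : X - Y0 < J * H + H := by
    have h1 := Nat.div_add_mod (X - Y0) H
    have h2 := Nat.mod_lt (X - Y0) (show H > 0 by omega)
    rw [← hJ] at h1
    have h3 : H * J = J * H := mul_comm _ _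
    omega
  have hJX : J * H ≤ X := by omega
  have hHle : (H : ℝ) ≤ X / T := by rw [le_div_iff₀ hT0]; exact hHT
  have h1 : ‖∑ n ∈ Finset.Ioc (X - J * H) X, f n‖ ≤ J * H * ε := by
    apply desc_sum f X H ε J hJX
    intro j hj
    have h3 : (j + 1) * H ≤ J * H := Nat.mul_le_mul_right _ hj
    apply hI
    · rw [← div_le_iff₀ hT0]
      refine hY1.trans ?_
      have : Y0 ≤ X - (j + 1) * H := by omega
      exact_mod_cast this
    · have h4 : H ≤ (j + 1) * H := Nat.le_mul_of_pos_left H (by omega)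
      omega
  have hlog : 0 ≤ Real.log X := Real.log_natCast_nonneg X
  have h2 : ‖∑ n ∈ Finset.Ioc 0 (X - J * H), f n‖ ≤ 3 * (X / T) * Real.log X := by
    have h3 : ∀ n ∈ Finset.Ioc 0 (X - J * H), ‖f n‖ ≤ Real.log X := by
      intro n hn
      apply hf
      rw [Finset.mem_Ioc] at hn ⊢
      exact ⟨hn.1, hn.2.trans (Nat.sub_le _ _)⟩
    refine (norm_sum_le _ _).trans ((Finset.sum_le_card_nsmul _ _ _ h3).trans ?_)
    rw [nsmul_eq_mul, Nat.card_Ioc, Nat.sub_zero]
    apply mul_le_mul_of_nonneg_right _ hlog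
    have h4 : X - J * H ≤ Y0 + H := by omega
    have h5 : ((X - J * H : ℕ) : ℝ) ≤ Y0 + H := by exact_mod_cast h4
    linarith
  rw [← Finset.sum_Ioc_consecutive f (Nat.zero_le (X - J * H)) (Nat.sub_le _ _)]
  refine (norm_add_le _ _).trans ?_
  have h6 : (J : ℝ) * H * ε ≤ X * ε := by
    apply mul_le_mul_of_nonneg_right _ hε
    exact_mod_cast hJX
  linarith

lemma norm_Fθ (h : Polynomial ℤ) (θ : ℝ) (n : ℕ) : ‖Fθ h θ n‖ = 1 := norm_e _

/-- Passing from rough numbers to primes. -/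
lemma prime_vs_rough (F : ℕ → ℂ) (hF : ∀ n, ‖F n‖ ≤ 1) (z : ℝ) (hz : 0 ≤ z) (m0 u X : ℕ) (hX : 1 ≤ X) :
    ‖∑ p ∈ (Finset.Ioc 0 X).filter (fun p => p.Prime ∧ p ≡ u [MOD m0]), (Real.log p : ℂ) * F p -
      ∑ n ∈ Finset.Ioc 0 X, (open scoped Classical in
        if n ≡ u [MOD m0] ∧ rough z m0 n then (Λ n : ℂ) * F n else 0)‖ ≤
      z * Real.log X + 2 * √X * Real.log X := by
  classical
  have hlog : 0 ≤ Real.log X := Real.log_natCast_nonneg X
  rw [Finset.sum_filter, ← Finset.sum_sub_distrib]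
  have hterm : ∀ n ∈ Finset.Ioc 0 X, ‖(if n.Prime ∧ n ≡ u [MOD m0] then (Real.log n : ℂ) * F n else 0) -
      (if n ≡ u [MOD m0] ∧ rough z m0 n then (Λ n : ℂ) * F n else 0)‖ ≤
      (if (n : ℝ) < z then Real.log X else 0) + (if ¬ n.Prime then Λ n else 0) := by
    intro n hn
    rw [Finset.mem_Ioc] at hn
    have hlogn : Real.log n ≤ Real.log X := by
      apply Real.log_le_log
      · exact_mod_cast hn.1
      · exact_mod_cast hn.2
    have hlogn0 : 0 ≤ Real.log n := Real.log_natCast_nonneg n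
    have hb1 : ‖(Real.log n : ℂ) * F n‖ ≤ Real.log X := by
      rw [norm_mul, Complex.norm_real, Real.norm_of_nonneg hlogn0]
      calc Real.log n * ‖F n‖ ≤ Real.log n * 1 := by gcongr; exact hF n
        _ ≤ _ := by rw [mul_one]; exact hlogn
    have hb2 : ‖(Λ n : ℂ) * F n‖ ≤ Λ n := by
      rw [norm_mul, Complex.norm_real, Real.norm_of_nonneg vonMangoldt_nonneg]
      calc Λ n * ‖F n‖ ≤ Λ n * 1 := by
            gcongr
            exact hF n
        _ = _ := mul_one _
    by_cases hp : n.Prime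
    · have hΛ : (Λ n : ℂ) = (Real.log n : ℂ) := by rw [vonMangoldt_apply_prime hp]
      rw [hΛ]
      simp only [hp, true_and, not_true_eq_false, if_false, add_zero]
      by_cases hu : n ≡ u [MOD m0]
      · simp only [hu, true_and, if_true]
        by_cases hr : rough z m0 n
        · simp only [hr, if_true, sub_self, norm_zero]
          split_ifs <;> simp [hlog]
        · simp only [hr, if_false, sub_zero]
          have hlt : (n : ℝ) < z := by
            unfold rough at hr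
            push Not at hr
            obtain ⟨p, hp1, hp2, hp3, -⟩ := hr
            rw [(Nat.prime_dvd_prime_iff_eq hp1 hp).1 hp3] at hp2
            exact hp2
          rw [if_pos hlt]
          exact hb1
      · simp only [hu, false_and, if_false, sub_self, norm_zero]
        split_ifs <;> simp [hlog]
    · simp only [hp, false_and, if_false, zero_sub, norm_neg, not_false_eq_true, if_true]
      have h0 : 0 ≤ (if (n : ℝ) < z then Real.log X else 0) := by split_ifs <;> simp [hlog]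
      have h1 : ‖(if n ≡ u [MOD m0] ∧ rough z m0 n then (Λ n : ℂ) * F n else 0)‖ ≤ Λ n := by
        split_ifs
        · exact hb2
        · rw [norm_zero]; exact vonMangoldt_nonneg
      linarith
  refine (norm_sum_le _ _).trans ((Finset.sum_le_sum hterm).trans ?_)
  rw [Finset.sum_add_distrib]
  apply add_le_add
  · rw [← Finset.sum_filter, Finset.sum_const, nsmul_eq_mul]
    apply mul_le_mul_of_nonneg_right _ hlog
    have h1 : ((Finset.Ioc 0 X).filter (fun n : ℕ => (n : ℝ) < z)).card ≤ ⌊z⌋₊ := by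
      have : (Finset.Ioc 0 X).filter (fun n : ℕ => (n : ℝ) < z) ⊆ Finset.Ioc 0 ⌊z⌋₊ := by
        intro n hn
        rw [Finset.mem_filter, Finset.mem_Ioc] at hn
        rw [Finset.mem_Ioc]
        exact ⟨hn.1.1, Nat.le_floor hn.2.le⟩
      have h2 := Finset.card_le_card this
      rwa [Nat.card_Ioc, Nat.sub_zero] at h2
    calc (((Finset.Ioc 0 X).filter (fun n : ℕ => (n : ℝ) < z)).card : ℝ) ≤ (⌊z⌋₊ : ℝ) := by exact_mod_cast h1
      _ ≤ z := Nat.floor_le hz
  · have h1 := Chebyshev.psi_sub_theta_eq_sum_not_prime (X : ℝ)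
    rw [Nat.floor_natCast] at h1
    rw [← Finset.sum_filter, ← h1]
    exact Chebyshev.psi_sub_theta_le (by exact_mod_cast hX)

/-- Equidistribution of `θ h(p)` along the primes in an arithmetic progression. -/
theorem prime_sum_tendsto (k : ℕ) (h : Polynomial ℤ) (hdeg : h.natDegree = k + 1) (m0 u : ℕ) (hm0 : 0 < m0)
    (hu : u.Coprime m0) (θ : ℝ) (hθ : Irrational θ) :
    Tendsto (fun X : ℕ => ‖∑ p ∈ (Finset.Ioc 0 X).filter (fun p => p.Prime ∧ p ≡ u [MOD m0]),
      (Real.log p : ℂ) * Fθ h θ p‖ / X) atTop (𝓝 0) := by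
  classical
  refine tendsto_order.2 ⟨fun a ha => Eventually.of_forall fun X => lt_of_lt_of_le ha (by positivity), ?_⟩
  intro a ha
  obtain ⟨M0, N0, hM0, hNM, hev⟩ := interval_bound k h hdeg m0 u hm0 hu θ hθ (a / 4) (by linarith)
  have hN0 : 0 < N0 := by omega
  have hN0R : (0 : ℝ) < N0 := by exact_mod_cast hN0
  have hTt : Tendsto (fun X : ℕ => (X : ℝ) ^ ((1 : ℝ) / N0)) atTop atTop :=
    (tendsto_rpow_atTop (by positivity)).comp tendsto_natCast_atTop_atTop
  have hev2 := hTt.eventually hev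
  have hev3 := hTt.eventually (eventually_ge_atTop 1)
  have hlim1 : Tendsto (fun X : ℕ => 4 * (Real.log X / (X : ℝ) ^ ((1 : ℝ) / N0))) atTop (𝓝 0) := by
    have h1 : (fun x : ℝ => Real.log x) =o[atTop] (fun x : ℝ => x ^ ((1 : ℝ) / N0)) :=
      isLittleO_log_rpow_atTop (by positivity)
    have h2 := (h1.tendsto_div_nhds_zero.comp tendsto_natCast_atTop_atTop).const_mul 4
    rw [mul_zero] at h2
    exact h2
  have hlim2 : Tendsto (fun X : ℕ => 2 * √(X : ℝ) * Real.log X / X) atTop (𝓝 0) :=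
    PntAP.tendsto_sqrt_mul_log_div.comp tendsto_natCast_atTop_atTop
  filter_upwards [hev2, hev3, hlim1.eventually (gt_mem_nhds (show (0 : ℝ) < a / 4 by linarith)),
    hlim2.eventually (gt_mem_nhds (show (0 : ℝ) < a / 4 by linarith)), eventually_ge_atTop 1]
    with X e1 e2 e3 e4 e5
  have hX0 : (0 : ℝ) < X := by
    have : 0 < X := by omega
    exact_mod_cast this
  set T : ℝ := (X : ℝ) ^ ((1 : ℝ) / N0) with hT
  have hT0 : 0 < T := by linarith
  have hXT : (X : ℝ) = T ^ N0 := by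
    rw [hT, ← Real.rpow_natCast, ← Real.rpow_mul hX0.le, one_div, inv_mul_cancel₀ hN0R.ne', Real.rpow_one]
  obtain ⟨H, hH1, hH2, hH3⟩ := e1 X hXT
  set f : ℕ → ℂ := fun n => if n ≡ u [MOD m0] ∧ rough (T ^ M0) m0 n then (Λ n : ℂ) * Fθ h θ n else 0 with hf
  have hlog : 0 ≤ Real.log X := Real.log_natCast_nonneg X
  have hb1 := interval_sum f X H T (a / 4) e2 hH1 hH2 (by linarith) (by
    intro n hn
    rw [Finset.mem_Ioc] at hn
    simp only [hf]
    split_ifs
    · rw [norm_mul, norm_Fθ, mul_one, Complex.norm_real, Real.norm_of_nonneg vonMangoldt_nonneg]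
      refine vonMangoldt_le_log.trans ?_
      apply Real.log_le_log
      · exact_mod_cast hn.1
      · exact_mod_cast hn.2
    · simpa using hlog) (by
    intro y hy hyX
    have := hH3 y hy hyX ((Finset.Ioc y (y + H)).filter (fun n => n ≡ u [MOD m0] ∧ rough (T ^ M0) m0 n)) (by
      intro x; rw [Finset.mem_filter])
    rw [Finset.sum_filter] at this
    exact this)
  have hb2 := prime_vs_rough (Fθ h θ) (fun n => (norm_Fθ h θ n).le) (T ^ M0) (by positivity) m0 u X e5
  have hz : T ^ M0 ≤ X / T := by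
    rw [le_div_iff₀ hT0, ← pow_succ, hXT]
    exact pow_le_pow_right₀ e2 (by omega)
  rw [div_lt_iff₀ hX0]
  have hb3 := norm_le_norm_add_norm_sub' (∑ p ∈ (Finset.Ioc 0 X).filter (fun p => p.Prime ∧ p ≡ u [MOD m0]),
      (Real.log p : ℂ) * Fθ h θ p) (∑ n ∈ Finset.Ioc 0 X, f n)
  have hz2 : T ^ M0 * Real.log X ≤ X / T * Real.log X := mul_le_mul_of_nonneg_right hz hlog
  have e3' : 4 * (X / T * Real.log X) < a / 4 * X := by
    have : 4 * (X / T * Real.log X) = 4 * (Real.log X / T) * X := by ring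
    rw [this]
    exact mul_lt_mul_of_pos_right e3 hX0
  have e4' : 2 * √(X : ℝ) * Real.log X < a / 4 * X := by
    rwa [div_lt_iff₀ hX0] at e4
  have haX : 0 < a * X := mul_pos ha hX0
  calc _ ≤ _ := hb3
    _ ≤ (X * (a / 4) + 3 * (X / T) * Real.log X) + (T ^ M0 * Real.log X + 2 * √X * Real.log X) :=
        add_le_add hb1 hb2
    _ < a * X := by linarith

end Pool.Agent.Lib.Pe70ed2
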