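import Pool.Agent.Lib.Pe70ed2.Weyl

set_option autoImplicit false

namespace Pool.Agent.Lib.Pe70ed2

open Finset

/-- `x` is within `ε` of an integer. -/
def Near (x ε : ℝ) : Prop := ∃ n : ℤ, |x - n| ≤ ε

lemma Near.mono {x ε ε' : ℝ} (h : Near x ε) (hε : ε ≤ ε') : Near x ε' := by
  obtain ⟨n, hn⟩ := h
  exact ⟨n, hn.trans hε⟩

lemma Near.sub {x y ε δ : ℝ} (hx : Near x ε) (hy : Near y δ) : Near (x - y) (ε + δ) := by
  obtain ⟨n, hn⟩ := hx
  obtain ⟨m, hm⟩ := hy
  refine ⟨n - m, ?_⟩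
  have : x - y - ((n - m : ℤ) : ℝ) = (x - n) - (y - m) := by push_cast; ring
  rw [this]
  exact (abs_sub _ _).trans (add_le_add hn hm)

lemma Near.natMul {x ε : ℝ} (hx : Near x ε) (c : ℕ) : Near (c * x) (c * ε) := by
  obtain ⟨n, hn⟩ := hx
  refine ⟨c * n, ?_⟩
  have : (c : ℝ) * x - ((c * n : ℤ) : ℝ) = c * (x - n) := by push_cast; ring
  rw [this, abs_mul, abs_of_nonneg (Nat.cast_nonneg c)]
  exact mul_le_mul_of_nonneg_left hn (Nat.cast_nonneg c)

lemma Near.nonneg {x ε : ℝ} (h : Near x ε) : 0 ≤ ε := by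
  obtain ⟨n, hn⟩ := h
  exact (abs_nonneg _).trans hn

lemma count_near (a : ℤ) (q : ℕ) (hq : 0 < q) (hcop : IsCoprime a (q : ℤ)) (A : ℤ) (L : ℕ) (ρ : ℝ)
    (hρ : 0 ≤ ρ) (S : Finset ℤ) (hS : S ⊆ Finset.Ico A (A + L))
    (h : ∀ n ∈ S, Near (n * (a / q)) ρ) :
    (S.card : ℝ) ≤ ((L : ℝ) / q + 1) * (2 * (ρ * q) + 1) := by
  classical
  have hq0 : (0 : ℝ) < q := by exact_mod_cast hq
  have hqz : (0 : ℤ) < q := by exact_mod_cast hq
  unfold Near at h
  choose! t ht using h
  set c : ℤ → ℤ := fun n => n * a - t n * q with hc_def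
  have hc : ∀ n ∈ S, |(c n : ℝ)| ≤ ρ * q := by
    intro n hn
    have h1 := ht n hn
    have h2 : (c n : ℝ) = ((n : ℝ) * (a / q) - t n) * q := by
      rw [hc_def]; push_cast; field_simp
    rw [h2, abs_mul, abs_of_pos hq0]
    exact mul_le_mul_of_nonneg_right h1 hq0.le
  set f : ℤ → ℤ × ℤ := fun n => ((n - A) / q, c n) with hf
  have hinj : Set.InjOn f S := by
    intro n hn n' hn' hnn
    simp only [hf, Prod.mk.injEq] at hnn
    obtain ⟨h1, h2⟩ := hnn
    have h3 : (n - n') * a = (t n - t n') * q := by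
      simp only [hc_def] at h2
      linarith
    have h4 : (q : ℤ) ∣ (n - n') * a := ⟨t n - t n', by rw [h3]; ring⟩
    have h5 : (q : ℤ) ∣ n - n' := (hcop.symm).dvd_of_dvd_mul_right h4
    have h6 := Int.emod_add_mul_ediv (n - A) q
    have h7 := Int.emod_add_mul_ediv (n' - A) q
    have h8 := Int.emod_nonneg (n - A) hqz.ne'
    have h9 := Int.emod_lt_of_pos (n - A) hqz
    have h10 := Int.emod_nonneg (n' - A) hqz.ne'
    have h11 := Int.emod_lt_of_pos (n' - A) hqz
    rw [h1] at h6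
    have h12 : |n - n'| < q := by
      rw [abs_lt]
      constructor <;> linarith
    have h13 := Int.eq_zero_of_abs_lt_dvd h5 h12
    linarith
  have hmaps : ∀ n ∈ S, f n ∈ (Finset.Icc (0 : ℤ) ((L : ℤ) / q)) ×ˢ (Finset.Icc (-⌊ρ * q⌋) ⌊ρ * q⌋) := by
    intro n hn
    have h1 := hS hn
    rw [Finset.mem_Ico] at h1
    simp only [hf, Finset.mem_product, Finset.mem_Icc]
    refine ⟨⟨Int.ediv_nonneg (by linarith) hqz.le, Int.ediv_le_ediv hqz (by linarith)⟩, ?_⟩
    have h2 := abs_le.1 (hc n hn)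
    constructor
    · have h3 : -(c n) ≤ ⌊ρ * q⌋ := by
        rw [Int.le_floor]; push_cast; linarith
      linarith
    · rw [Int.le_floor]; exact h2.2
  have hcard := Finset.card_le_card_of_injOn f hmaps hinj
  rw [Finset.card_product, Int.card_Icc, Int.card_Icc] at hcard
  have h1 : ((((L : ℤ) / q + 1 - 0).toNat : ℕ) : ℝ) ≤ (L : ℝ) / q + 1 := by
    have h2 : (0 : ℤ) ≤ (L : ℤ) / q + 1 - 0 := by
      have := Int.ediv_nonneg (Int.natCast_nonneg L) hqz.le
      linarith
    have h3 : ((((L : ℤ) / q + 1 - 0).toNat : ℕ) : ℝ) = (((L : ℤ) / q + 1 - 0 : ℤ) : ℝ) := by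
      exact_mod_cast congrArg (fun z : ℤ => (z : ℝ)) (Int.toNat_of_nonneg h2)
    rw [h3]
    push_cast
    have h4 : (((L : ℤ) / (q : ℤ) : ℤ) : ℝ) ≤ (L : ℝ) / q := by
      rw [le_div_iff₀ hq0]
      have := Int.ediv_mul_le (L : ℤ) hqz.ne'
      exact_mod_cast this
    linarith
  have h2 : (((⌊ρ * q⌋ + 1 - -⌊ρ * q⌋).toNat : ℕ) : ℝ) ≤ 2 * (ρ * q) + 1 := by
    have h0 : 0 ≤ ⌊ρ * q⌋ := Int.floor_nonneg.2 (by positivity)
    have h2 : (0 : ℤ) ≤ ⌊ρ * q⌋ + 1 - -⌊ρ * q⌋ := by linarith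
    have h3 : (((⌊ρ * q⌋ + 1 - -⌊ρ * q⌋).toNat : ℕ) : ℝ) = ((⌊ρ * q⌋ + 1 - -⌊ρ * q⌋ : ℤ) : ℝ) := by
      exact_mod_cast congrArg (fun z : ℤ => (z : ℝ)) (Int.toNat_of_nonneg h2)
    rw [h3]
    push_cast
    have := Int.floor_le (ρ * q)
    linarith
  calc (S.card : ℝ) ≤ ((((L : ℤ) / q + 1 - 0).toNat * (⌊ρ * q⌋ + 1 - -⌊ρ * q⌋).toNat : ℕ) : ℝ) := by
        exact_mod_cast hcard
    _ = ((((L : ℤ) / q + 1 - 0).toNat : ℕ) : ℝ) * (((⌊ρ * q⌋ + 1 - -⌊ρ * q⌋).toNat : ℕ) : ℝ) := by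
        push_cast; ring
    _ ≤ ((L : ℝ) / q + 1) * (2 * (ρ * q) + 1) := by
        apply mul_le_mul h1 h2 (Nat.cast_nonneg _) (by positivity)

/-- Linear recurrence lemma. -/
lemma lin_rec (K : ℝ) (hK : 2 ≤ K) (β ε : ℝ) (hε0 : 0 ≤ ε) (hε : ε ≤ 1 / (48 * K)) (L : ℕ)
    (hL : 6 * K ≤ L) (S : Finset ℤ) (hS : S ⊆ Finset.Ioo (-(L : ℤ)) L) (hcard : L / K ≤ S.card)
    (h : ∀ n ∈ S, Near (n * β) ε) :
    ∃ r : ℕ, 1 ≤ r ∧ (r : ℝ) ≤ 6 * K ∧ Near (r * β) (4 * K * ε / L) := by
  have hK0 : 0 < K := by linarith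
  have hL0 : (0 : ℝ) < L := by linarith
  have hLn : 0 < L := by exact_mod_cast hL0
  obtain ⟨x, hx1, hx2⟩ := Real.exists_rat_abs_sub_le_and_den_le β (n := 4 * L) (by omega)
  set q := x.den with hq
  have hqpos : 0 < q := x.den_pos
  have hq0 : (0 : ℝ) < q := by exact_mod_cast hqpos
  have hq1 : (1 : ℝ) ≤ q := by exact_mod_cast hqpos
  have hxe : (x : ℝ) = (x.num : ℝ) / q := by
    rw [hq]; exact Rat.cast_def x
  set η := |β - x| with hη
  have hη1 : η ≤ 1 / (4 * L * q) := by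
    refine hx1.trans ?_
    apply one_div_le_one_div_of_le (by positivity)
    apply mul_le_mul_of_nonneg_right _ hq0.le
    push_cast; linarith
  have hηL : η * L ≤ 1 / (4 * q) := by
    calc η * L ≤ 1 / (4 * L * q) * L := mul_le_mul_of_nonneg_right hη1 hL0.le
      _ = 1 / (4 * q) := by field_simp
  have hη0 : 0 ≤ η := abs_nonneg _
  have hnS : ∀ n ∈ S, |(n : ℝ)| ≤ L := by
    intro n hn
    have h1 := hS hn
    rw [Finset.mem_Ioo] at h1
    rw [abs_le]
    constructor
    · have : (-(L : ℤ) : ℤ) ≤ n := h1.1.le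
      exact_mod_cast this
    · have : n ≤ (L : ℤ) := h1.2.le
      exact_mod_cast this
  have hdist : ∀ n ∈ S, |(n : ℝ) * β - n * (x.num / q)| ≤ 1 / (4 * q) := by
    intro n hn
    rw [← hxe, ← mul_sub, abs_mul]
    calc |(n : ℝ)| * |β - x| ≤ L * η := mul_le_mul_of_nonneg_right (hnS n hn) hη0
      _ = η * L := mul_comm _ _
      _ ≤ _ := hηL
  have hcop : IsCoprime x.num (q : ℤ) := by
    rw [Int.isCoprime_iff_nat_coprime]
    simpa [hq] using x.reduced
  -- first count: q is small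
  have hqK : (q : ℝ) ≤ 6 * K := by
    have h1 := count_near x.num q hqpos hcop (-(L : ℤ)) (2 * L) (ε + 1 / (4 * q)) (by positivity) S
      (by
        intro n hn
        have := hS hn
        rw [Finset.mem_Ioo] at this
        rw [Finset.mem_Ico]
        push_cast
        constructor <;> linarith) (by
        intro n hn
        obtain ⟨t, ht⟩ := h n hn
        refine ⟨t, ?_⟩
        have : (n : ℝ) * (x.num / q) - t = (n * β - t) - (n * β - n * (x.num / q)) := by ring
        rw [this]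
        exact (abs_sub _ _).trans (add_le_add ht (hdist n hn)))
    have h2 : (L : ℝ) / K ≤ ((2 * L : ℕ) / q + 1) * (2 * ((ε + 1 / (4 * q)) * q) + 1) := hcard.trans h1
    have h3 : (2 * ((ε + 1 / (4 * q)) * q) + 1 : ℝ) = 2 * ε * q + 3 / 2 := by field_simp; ring
    rw [h3] at h2
    push_cast at h2
    have hqL : (q : ℝ) ≤ 4 * L := by exact_mod_cast hx2
    have h4 : (2 * (L : ℝ) / q + 1) * (2 * ε * q + 3 / 2) = 4 * ε * L + 3 * L / q + 2 * ε * q + 3 / 2 := by
      field_simp; ring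
    rw [h4] at h2
    have h5 : 2 * ε * q ≤ 8 * ε * L := by nlinarith
    have h6 : ε * (48 * K) ≤ 1 := by
      rwa [le_div_iff₀ (by positivity)] at hε
    have h7 : 12 * ε * L ≤ (L : ℝ) / K / 4 := by
      rw [le_div_iff₀ (by norm_num), le_div_iff₀ hK0]
      nlinarith
    have h8 : (3 : ℝ) / 2 ≤ L / K / 4 := by
      rw [le_div_iff₀ (by norm_num), le_div_iff₀ hK0]
      nlinarith
    have h9 : (L : ℝ) / K / 2 ≤ 3 * L / q := by linarith
    rw [div_div, div_le_div_iff₀ (by positivity) hq0] at h9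
    nlinarith
  -- q divides each element
  have hεq : ε < 3 / (4 * q) := by
    have h1 : 1 / (48 * K) < 3 / (4 * q) := by
      rw [div_lt_div_iff₀ (by positivity) (by positivity)]
      nlinarith
    linarith
  have hdvd : ∀ n ∈ S, (q : ℤ) ∣ n ∧ |(n : ℝ)| * η ≤ ε := by
    intro n hn
    obtain ⟨t, ht⟩ := h n hn
    have h1 := hdist n hn
    -- |n num / q - t| ≤ ε + 1/(4q) < 1/q
    have h2 : |(n : ℝ) * (x.num / q) - t| < 1 / q := by
      have : (n : ℝ) * (x.num / q) - t = (n * β - t) - (n * β - n * (x.num / q)) := by ring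
      rw [this]
      have h3 := (abs_sub (n * β - t : ℝ) (n * β - n * (x.num / q)))
      have h4 : (3 : ℝ) / (4 * q) + 1 / (4 * q) = 1 / q := by field_simp; norm_num
      linarith
    have h3 : |((n * x.num - t * q : ℤ) : ℝ)| < 1 := by
      have h4 : ((n * x.num - t * q : ℤ) : ℝ) = ((n : ℝ) * (x.num / q) - t) * q := by
        push_cast; field_simp
      rw [h4, abs_mul, abs_of_pos hq0]
      calc _ < 1 / (q : ℝ) * q := mul_lt_mul_of_pos_right h2 hq0
        _ = 1 := by field_simp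
    have h5 : n * x.num - t * q = 0 := by
      have : |(n * x.num - t * q : ℤ)| < 1 := by exact_mod_cast h3
      exact Int.abs_lt_one_iff.1 this
    refine ⟨?_, ?_⟩
    · apply (hcop.symm).dvd_of_dvd_mul_right
      exact ⟨t, by linarith⟩
    · have h6 : (n : ℝ) * (x.num / q) = t := by
        have : ((n * x.num : ℤ) : ℝ) = ((t * q : ℤ) : ℝ) := by
          congr 1; linarith
        push_cast at this
        field_simp
        linarith
      have h7 : (n : ℝ) * β - t = n * (β - x) := by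
        rw [hxe]; rw [mul_sub, h6]
      rw [h7, abs_mul] at ht
      exact ht
  refine ⟨q, hqpos, hqK, x.num, ?_⟩
  have h1 : (q : ℝ) * β - x.num = q * (β - x) := by
    rw [hxe]; field_simp
  rw [h1, abs_mul, abs_of_pos hq0]
  change q * η ≤ _
  rcases hη0.eq_or_lt with h0 | hηpos
  · rw [← h0]; simp; positivity
  -- count the multiples of q with |n| ≤ ε/η
  have hcard2 : (S.card : ℝ) ≤ 2 * (ε / (η * q)) + 1 := by
    have hmaps : ∀ n ∈ S, n / q ∈ Finset.Icc (-⌊ε / (η * q)⌋) ⌊ε / (η * q)⌋ := by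
      intro n hn
      obtain ⟨⟨j, hj⟩, h3⟩ := hdvd n hn
      have hqz : (q : ℤ) ≠ 0 := by exact_mod_cast hqpos.ne'
      have h4 : n / q = j := by rw [hj]; exact Int.mul_ediv_cancel_left j hqz
      rw [h4, Finset.mem_Icc]
      have h5 : |(j : ℝ)| ≤ ε / (η * q) := by
        rw [le_div_iff₀ (by positivity)]
        have h6 : |(n : ℝ)| = q * |(j : ℝ)| := by
          rw [hj]; push_cast; rw [abs_mul, abs_of_pos hq0]
        rw [h6] at h3
        linarith
      have h6 := abs_le.1 h5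
      constructor
      · have h7 : -j ≤ ⌊ε / (η * q)⌋ := by
          rw [Int.le_floor]; push_cast; linarith
        linarith
      · rw [Int.le_floor]; exact h6.2
    have hinj : Set.InjOn (fun n : ℤ => n / q) S := by
      intro n hn n' hn' hnn
      obtain ⟨⟨j, hj⟩, -⟩ := hdvd n hn
      obtain ⟨⟨j', hj'⟩, -⟩ := hdvd n' hn'
      have hqz : (q : ℤ) ≠ 0 := by exact_mod_cast hqpos.ne'
      simp only at hnn
      rw [hj, hj', Int.mul_ediv_cancel_left j hqz, Int.mul_ediv_cancel_left j' hqz] at hnn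
      rw [hj, hj', hnn]
    have hcard := Finset.card_le_card_of_injOn (fun n : ℤ => n / q) hmaps hinj
    rw [Int.card_Icc] at hcard
    have h0 : 0 ≤ ⌊ε / (η * q)⌋ := Int.floor_nonneg.2 (by positivity)
    have h2 : (0 : ℤ) ≤ ⌊ε / (η * q)⌋ + 1 - -⌊ε / (η * q)⌋ := by linarith
    have h3 : (((⌊ε / (η * q)⌋ + 1 - -⌊ε / (η * q)⌋).toNat : ℕ) : ℝ) =
        ((⌊ε / (η * q)⌋ + 1 - -⌊ε / (η * q)⌋ : ℤ) : ℝ) := by
      exact_mod_cast congrArg (fun z : ℤ => (z : ℝ)) (Int.toNat_of_nonneg h2)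
    calc (S.card : ℝ) ≤ (((⌊ε / (η * q)⌋ + 1 - -⌊ε / (η * q)⌋).toNat : ℕ) : ℝ) := by exact_mod_cast hcard
      _ = ((⌊ε / (η * q)⌋ + 1 - -⌊ε / (η * q)⌋ : ℤ) : ℝ) := h3
      _ ≤ 2 * (ε / (η * q)) + 1 := by
        push_cast
        have := Int.floor_le (ε / (η * q))
        linarith
  have h3 : (1 : ℝ) ≤ L / K / 2 := by
    rw [le_div_iff₀ (by norm_num), le_div_iff₀ hK0]
    nlinarith
  have h4 : (L : ℝ) / K / 2 ≤ 2 * (ε / (η * q)) := by linarith
  have h5 : (L : ℝ) / K / 2 * (η * q) ≤ 2 * ε := by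
    calc (L : ℝ) / K / 2 * (η * q) ≤ 2 * (ε / (η * q)) * (η * q) :=
          mul_le_mul_of_nonneg_right h4 (by positivity)
      _ = 2 * ε := by field_simp
  rw [le_div_iff₀ hL0]
  have h6 : (q : ℝ) * η * L = ((L : ℝ) / K / 2 * (η * q)) * (2 * K) := by field_simp
  rw [h6]
  nlinarith

lemma diff_poly (k : ℕ) (φ : Polynomial ℝ) (hφ : φ.natDegree ≤ k + 1) (h : ℝ) :
    ∃ ψ : Polynomial ℝ, ψ.natDegree ≤ k ∧ ψ.coeff k = (k + 1) * h * φ.coeff (k + 1) ∧
      ∀ x, ψ.eval x = φ.eval (x + h) - φ.eval x := by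
  set Q : Polynomial ℝ := φ.taylor h - φ with hQ
  have hc1 : ∀ j, (φ.taylor h).coeff j = ((Polynomial.hasseDeriv j φ).eval h) := fun j =>
    Polynomial.taylor_coeff _ _ _
  have hhigh : ∀ j, k + 1 < j → φ.coeff j = 0 := fun j hj =>
    Polynomial.coeff_eq_zero_of_natDegree_lt (by omega)
  have htop : Q.coeff (k + 1) = 0 := by
    rw [hQ, Polynomial.coeff_sub, hc1]
    have hdeg : (Polynomial.hasseDeriv (k + 1) φ).natDegree ≤ 0 := by
      refine (Polynomial.natDegree_hasseDeriv_le φ (k + 1)).trans ?_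
      omega
    rw [Polynomial.eq_C_of_natDegree_le_zero hdeg]
    simp [Polynomial.hasseDeriv_coeff]
  have hnext : Q.coeff k = (k + 1 : ℝ) * h * φ.coeff (k + 1) := by
    rw [hQ, Polynomial.coeff_sub, hc1]
    have hdeg : (Polynomial.hasseDeriv k φ).natDegree ≤ 1 := by
      refine (Polynomial.natDegree_hasseDeriv_le φ k).trans ?_
      omega
    rw [Polynomial.eq_X_add_C_of_natDegree_le_one hdeg]
    simp only [Polynomial.hasseDeriv_coeff, Polynomial.eval_add, Polynomial.eval_mul,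
      Polynomial.eval_C, Polynomial.eval_X, zero_add, Nat.choose_self, Nat.cast_one, one_mul]
    have h2 : 1 + k = k + 1 := by ring
    rw [h2]
    have h3 : (k + 1).choose k = k + 1 := Nat.choose_succ_self_right k
    rw [h3]
    push_cast; ring
  refine ⟨Q, ?_, hnext, ?_⟩
  · rw [Polynomial.natDegree_le_iff_coeff_eq_zero]
    intro j hj
    rcases Nat.lt_or_ge (k + 1) j with h' | h'
    · rw [hQ, Polynomial.coeff_sub, hhigh j h']
      have h1 : (φ.taylor h).coeff j = 0 := by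
        apply Polynomial.coeff_eq_zero_of_natDegree_lt
        rw [Polynomial.natDegree_taylor]; omega
      rw [h1, sub_zero]
    · have : j = k + 1 := by omega
      rw [this]; exact htop
  · intro x
    rw [hQ, Polynomial.eval_sub, Polynomial.taylor_eval]

lemma pigeon {α : Type*} (H : Finset α) (r : α → ℕ) (R : ℝ) (hR : 1 ≤ R)
    (hr : ∀ h ∈ H, 1 ≤ r h ∧ (r h : ℝ) ≤ R) :
    ∃ r0 : ℕ, 1 ≤ r0 ∧ (r0 : ℝ) ≤ R ∧ (H.card : ℝ) / R ≤ ((H.filter (fun h => r h = r0)).card : ℝ) := by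
  classical
  by_contra hcon
  push Not at hcon
  have hfl : 1 ≤ ⌊R⌋₊ := Nat.one_le_floor_iff R |>.2 hR
  have hmaps : ∀ h ∈ H, r h ∈ Finset.Icc 1 ⌊R⌋₊ := by
    intro h hh
    obtain ⟨h1, h2⟩ := hr h hh
    rw [Finset.mem_Icc]
    exact ⟨h1, Nat.le_floor h2⟩
  have h1 := Finset.card_eq_sum_card_fiberwise hmaps
  have h2 : (H.card : ℝ) = ∑ b ∈ Finset.Icc 1 ⌊R⌋₊, ((H.filter (fun h => r h = b)).card : ℝ) := by
    exact_mod_cast h1
  have h3 : ∑ b ∈ Finset.Icc 1 ⌊R⌋₊, ((H.filter (fun h => r h = b)).card : ℝ) <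
      ∑ b ∈ Finset.Icc 1 ⌊R⌋₊, (H.card : ℝ) / R := by
    apply Finset.sum_lt_sum_of_nonempty
    · exact ⟨1, by rw [Finset.mem_Icc]; exact ⟨le_rfl, hfl⟩⟩
    · intro b hb
      rw [Finset.mem_Icc] at hb
      exact hcon b hb.1 ((Nat.cast_le.2 hb.2).trans (Nat.floor_le (by linarith)))
  rw [← h2, Finset.sum_const, Nat.card_Icc, nsmul_eq_mul] at h3
  have h4 : ((⌊R⌋₊ + 1 - 1 : ℕ) : ℝ) ≤ R := by
    rw [Nat.add_sub_cancel]; exact Nat.floor_le (by linarith)
  have h5 : ((⌊R⌋₊ + 1 - 1 : ℕ) : ℝ) * ((H.card : ℝ) / R) ≤ R * ((H.card : ℝ) / R) :=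
    mul_le_mul_of_nonneg_right h4 (by positivity)
  have h6 : R * ((H.card : ℝ) / R) = H.card := by field_simp
  linarith

lemma sum_le_popular {α : Type*} (U : Finset α) (f : α → ℝ) (B c : ℝ) (hc : 0 ≤ c)
    (hB : ∀ u ∈ U, f u ≤ B) :
    ∑ u ∈ U, f u ≤ c * U.card + B * (U.filter (fun u => c ≤ f u)).card := by
  classical
  rw [← Finset.sum_filter_add_sum_filter_not U (fun u => c ≤ f u)]
  have h1 : ∑ u ∈ U.filter (fun u => c ≤ f u), f u ≤ B * (U.filter (fun u => c ≤ f u)).card := by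
    rw [mul_comm, ← nsmul_eq_mul]
    apply Finset.sum_le_card_nsmul
    intro u hu
    exact hB u (Finset.mem_filter.1 hu).1
  have h2 : ∑ u ∈ U.filter (fun u => ¬ c ≤ f u), f u ≤ c * U.card := by
    calc _ ≤ ∑ u ∈ U.filter (fun u => ¬ c ≤ f u), c := by
          apply Finset.sum_le_sum
          intro u hu
          exact (not_le.1 (Finset.mem_filter.1 hu).2).le
      _ = ((U.filter (fun u => ¬ c ≤ f u)).card : ℝ) * c := by rw [Finset.sum_const, nsmul_eq_mul]
      _ ≤ (U.card : ℝ) * c := by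
          apply mul_le_mul_of_nonneg_right _ hc
          exact_mod_cast Finset.card_filter_le _ _
      _ = c * U.card := mul_comm _ _
  linarith

/-- Recurrence lemma for polynomials. -/
theorem poly_rec (k : ℕ) : ∃ C : ℕ, ∀ K : ℝ, 2 ≤ K → ∀ (ε : ℝ) (L : ℕ) (A : ℤ) (ψ : Polynomial ℝ),
    ψ.natDegree ≤ k → ∀ S : Finset ℤ, S ⊆ Finset.Ico A (A + L) → (L : ℝ) / K ≤ S.card →
    (∀ n ∈ S, Near (ψ.eval (n : ℝ)) ε) → K ^ C ≤ L → ε ≤ 1 / K ^ C →
    ∃ r : ℕ, 1 ≤ r ∧ (r : ℝ) ≤ K ^ C ∧ Near (r * ψ.coeff k) (K ^ C * ε / L ^ k) := by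
  induction k with
  | zero =>
    refine ⟨0, ?_⟩
    intro K hK ε L A ψ hψ S hS hcard h hL hε
    have hL0 : (0 : ℝ) < L := by
      have : (1 : ℝ) ≤ L := by simpa using hL
      linarith
    have hne : S.Nonempty := by
      rw [← Finset.card_pos]
      have : (0 : ℝ) < S.card := lt_of_lt_of_le (by positivity) hcard
      exact_mod_cast this
    obtain ⟨n, hn⟩ := hne
    refine ⟨1, le_rfl, by simp, ?_⟩
    have h1 := h n hn
    rw [Polynomial.eq_C_of_natDegree_le_zero hψ, Polynomial.eval_C] at h1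
    simpa using h1
  | succ k ih =>
    obtain ⟨C, hC⟩ := ih
    refine ⟨7 + k + 4 * (2 * C + 1), ?_⟩
    intro K hK ε L A ψ hψ S hS hcard h hL hε
    set β := ψ.coeff (k + 1) with hβ
    have hK0 : 0 < K := by linarith
    have hK1 : 1 ≤ K := by linarith
    set K1 : ℝ := 4 * K ^ 2 with hK1def
    have hK1ge : 2 ≤ K1 := by rw [hK1def]; nlinarith
    have hK1one : 1 ≤ K1 := by linarith
    have hK1K : K1 ≤ K ^ 4 := by
      have h4 : (4 : ℝ) ≤ K ^ 2 := by nlinarith
      rw [hK1def]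
      calc 4 * K ^ 2 ≤ K ^ 2 * K ^ 2 := mul_le_mul_of_nonneg_right h4 (by positivity)
        _ = K ^ 4 := by ring
    -- master constant
    have hM : 96 * (k + 1) * K1 ^ (2 * C + 1) ≤ K ^ (7 + k + 4 * (2 * C + 1)) := by
      have h96 : (96 : ℝ) ≤ K ^ 7 := by
        calc (96 : ℝ) ≤ 2 ^ 7 := by norm_num
          _ ≤ K ^ 7 := pow_le_pow_left₀ (by norm_num) hK 7
      have hk : ((k : ℝ) + 1) ≤ K ^ k := by
        have h1 : k + 1 ≤ 2 ^ k := Nat.lt_two_pow_self
        calc ((k : ℝ) + 1) ≤ 2 ^ k := by exact_mod_cast h1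
          _ ≤ K ^ k := pow_le_pow_left₀ (by norm_num) hK k
      have hp : K1 ^ (2 * C + 1) ≤ K ^ (4 * (2 * C + 1)) := by
        rw [pow_mul]
        exact pow_le_pow_left₀ (by linarith) hK1K _
      rw [pow_add K (7 + k), pow_add K 7 k]
      exact mul_le_mul (mul_le_mul h96 hk (by positivity) (by positivity)) hp (by positivity)
        (by positivity)
    have hM1 : (1 : ℝ) ≤ K1 ^ C := one_le_pow₀ hK1one
    have hk1 : (1 : ℝ) ≤ (k : ℝ) + 1 := by
      have : (0 : ℝ) ≤ k := Nat.cast_nonneg k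
      linarith
    set K2 : ℝ := K1 ^ (C + 1) with hK2
    have hK2ge : 2 ≤ K2 := by
      rw [hK2, pow_succ]
      nlinarith
    have hK2K1 : K2 * K1 ^ C = K1 ^ (2 * C + 1) := by
      rw [hK2, ← pow_add]; congr 1; ring
    have hL96 : 96 * (k + 1) * (K2 * K1 ^ C) ≤ L := by
      rw [hK2K1]; exact hM.trans hL
    have hL1 : 96 * K2 ≤ L := by
      calc 96 * K2 ≤ 96 * (k + 1) * (K2 * K1 ^ C) := by
            have : 96 * K2 * 1 ≤ 96 * K2 * ((k + 1) * K1 ^ C) := by
              apply mul_le_mul_of_nonneg_left _ (by positivity)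
              nlinarith
            calc 96 * K2 = 96 * K2 * 1 := by ring
              _ ≤ _ := this
              _ = _ := by ring
        _ ≤ L := hL96
    have hL0 : (0 : ℝ) < L := by linarith
    have hL1' : (1 : ℝ) ≤ L := by linarith
    -- the set of popular differences
    set U : Finset ℤ := Finset.Ioo (-(L : ℤ)) L with hU
    set Sh : ℤ → Finset ℤ := fun h => S.filter (fun n => n + h ∈ S) with hSh
    have hsum : ((S.card : ℝ)) ^ 2 ≤ ∑ h ∈ U, ((Sh h).card : ℝ) := by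
      have hmaps : ∀ x ∈ S ×ˢ S, x.2 - x.1 ∈ U := by
        rintro ⟨n, n'⟩ hx
        rw [Finset.mem_product] at hx
        have h1 := hS hx.1
        have h2 := hS hx.2
        rw [Finset.mem_Ico] at h1 h2
        rw [hU, Finset.mem_Ioo]
        constructor <;> simp only <;> linarith
      have h1 := Finset.card_eq_sum_card_fiberwise hmaps
      have h2 : ∀ h ∈ U, ((S ×ˢ S).filter (fun x => x.2 - x.1 = h)).card ≤ (Sh h).card := by
        intro h _
        apply Finset.card_le_card_of_injOn (fun x => x.1)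
        · intro x hx
          simp only [Finset.coe_filter, Set.mem_ofPred_eq, Finset.mem_product] at hx
          simp only [hSh, Finset.coe_filter, Set.mem_ofPred_eq]
          refine ⟨hx.1.1, ?_⟩
          have : x.1 + h = x.2 := by rw [← hx.2]; ring
          rw [this]; exact hx.1.2
        · intro x hx y hy hxy
          simp only [Finset.coe_filter, Set.mem_ofPred_eq, Finset.mem_product] at hx hy
          simp only at hxy
          ext
          · exact hxy
          · have := hx.2.trans hy.2.symm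
            linarith
      have h3 : (S ×ˢ S).card ≤ ∑ h ∈ U, (Sh h).card := by
        rw [h1]; exact Finset.sum_le_sum h2
      rw [Finset.card_product] at h3
      calc ((S.card : ℝ)) ^ 2 = ((S.card * S.card : ℕ) : ℝ) := by push_cast; ring
        _ ≤ ((∑ h ∈ U, (Sh h).card : ℕ) : ℝ) := by exact_mod_cast h3
        _ = _ := by push_cast; rfl
    have hScardL : ∀ h, ((Sh h).card : ℝ) ≤ L := by
      intro h
      have h1 : (Sh h).card ≤ (Finset.Ico A (A + L)).card :=
        Finset.card_le_card ((Finset.filter_subset _ _).trans hS)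
      rw [Int.card_Ico] at h1
      have h2 : (A + L - A).toNat = L := by simp
      rw [h2] at h1
      exact_mod_cast h1
    have hUcard : (U.card : ℝ) ≤ 2 * L := by
      rw [hU, Int.card_Ioo]
      have h1 : ((L : ℤ) - -(L : ℤ) - 1).toNat ≤ 2 * L := by omega
      exact_mod_cast h1
    set H0 := U.filter (fun h => (L : ℝ) / K1 ≤ ((Sh h).card : ℝ)) with hH0
    have hpop := sum_le_popular U (fun h => ((Sh h).card : ℝ)) L (L / K1) (by positivity)
      (fun h _ => hScardL h)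
    have hH0card : (L : ℝ) / (2 * K ^ 2) ≤ H0.card := by
      have h1 : ((L : ℝ) / K) ^ 2 ≤ (S.card : ℝ) ^ 2 := pow_le_pow_left₀ (by positivity) hcard 2
      have h2 : (L : ℝ) / K1 * U.card ≤ L / K1 * (2 * L) := mul_le_mul_of_nonneg_left hUcard (by positivity)
      have h3 : ((L : ℝ) / K) ^ 2 ≤ L / K1 * (2 * L) + L * H0.card :=
        h1.trans (hsum.trans (hpop.trans (add_le_add_left h2 _)))
      have h4 : ((L : ℝ) / K) ^ 2 - L / K1 * (2 * L) = L * (L / (2 * K ^ 2)) := by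
        rw [hK1def]; field_simp; ring
      have h5 : L * (L / (2 * K ^ 2)) ≤ L * (H0.card : ℝ) := by linarith
      exact le_of_mul_le_mul_left h5 hL0
    -- apply the induction hypothesis to each popular difference
    have hstep : ∀ h ∈ H0, ∃ r : ℕ, 1 ≤ r ∧ (r : ℝ) ≤ K1 ^ C ∧
        Near (r * ((k + 1) * h * β)) (K1 ^ C * (2 * ε) / L ^ k) := by
      intro d hd
      obtain ⟨φ, hφ1, hφ2, hφ3⟩ := diff_poly k ψ hψ (d : ℝ)
      have hd2 := (Finset.mem_filter.1 hd).2
      have := hC K1 hK1ge (2 * ε) L A φ hφ1 (Sh d) ((Finset.filter_subset _ _).trans hS) hd2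
        (by
          intro n hn
          rw [hSh, Finset.mem_filter] at hn
          rw [hφ3]
          have h1 := (h _ hn.2).sub (h _ hn.1)
          push_cast at h1
          rw [two_mul]; exact h1) (by
          calc K1 ^ C ≤ K2 * K1 ^ C := by nlinarith
            _ ≤ 96 * (k + 1) * (K2 * K1 ^ C) := by
              have : (0 : ℝ) ≤ K2 * K1 ^ C := by positivity
              nlinarith
            _ ≤ L := hL96) (by
          have h1 : 2 * ε ≤ 2 * (1 / K ^ (7 + k + 4 * (2 * C + 1))) := by linarith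
          refine h1.trans ?_
          have h2 : 1 / K ^ (7 + k + 4 * (2 * C + 1)) ≤ 1 / (96 * (k + 1) * K1 ^ (2 * C + 1)) :=
            one_div_le_one_div_of_le (by positivity) hM
          have h3 : 1 / (96 * (k + 1) * K1 ^ (2 * C + 1)) ≤ 1 / (2 * K1 ^ C) := by
            apply one_div_le_one_div_of_le (by positivity)
            have h4 : K1 ^ C ≤ K1 ^ (2 * C + 1) := pow_le_pow_right₀ hK1one (by omega)
            have h5 : (0 : ℝ) ≤ K1 ^ (2 * C + 1) := by positivity
            nlinarith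
          calc 2 * (1 / K ^ (7 + k + 4 * (2 * C + 1))) ≤ 2 * (1 / (2 * K1 ^ C)) := by linarith
            _ = 1 / K1 ^ C := by field_simp)
      rw [hφ2] at this
      exact this
    choose! r hr1 hr2 hr3 using hstep
    obtain ⟨r0, hr01, hr02, hr0card⟩ := pigeon H0 r (K1 ^ C) hM1 (fun h hh => ⟨hr1 h hh, hr2 h hh⟩)
    set ε' : ℝ := K1 ^ C * (2 * ε) / L ^ k with hε'
    have hε0 : 0 ≤ ε := by
      have hne : S.Nonempty := by
        rw [← Finset.card_pos]
        have : (0 : ℝ) < S.card := lt_of_lt_of_le (by positivity) hcard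
        exact_mod_cast this
      obtain ⟨n, hn⟩ := hne
      exact (h n hn).nonneg
    have hε'0 : 0 ≤ ε' := by positivity
    have hε'le : ε' ≤ 1 / (48 * K2) := by
      have h1 : ε' ≤ K1 ^ C * (2 * ε) := by
        rw [hε']
        apply div_le_self (by positivity)
        exact one_le_pow₀ hL1'
      have h2 : ε ≤ 1 / (96 * (k + 1) * (K2 * K1 ^ C)) := by
        rw [hK2K1]
        exact hε.trans (one_div_le_one_div_of_le (by positivity) hM)
      calc ε' ≤ K1 ^ C * (2 * ε) := h1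
        _ ≤ K1 ^ C * (2 * (1 / (96 * (k + 1) * (K2 * K1 ^ C)))) := by gcongr
        _ = 1 / (48 * K2) / (k + 1) := by field_simp; norm_num
        _ ≤ 1 / (48 * K2) := div_le_self (by positivity) hk1
    obtain ⟨r', hr'1, hr'2, hr'3⟩ := lin_rec K2 hK2ge (r0 * (k + 1) * β) ε' hε'0 hε'le L (by linarith)
      (H0.filter (fun h => r h = r0))
      ((Finset.filter_subset _ _).trans (Finset.filter_subset _ _)) (by
        refine le_trans ?_ hr0card
        calc (L : ℝ) / K2 ≤ L / (2 * K ^ 2) / K1 ^ C := by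
              rw [div_div]
              apply div_le_div_of_nonneg_left hL0.le (by positivity)
              rw [hK2, pow_succ, mul_comm]
              apply mul_le_mul_of_nonneg_left _ (by positivity)
              have := sq_nonneg K
              linarith
          _ ≤ H0.card / K1 ^ C := div_le_div_of_nonneg_right hH0card (by positivity)) (by
        intro d hd
        rw [Finset.mem_filter] at hd
        have h1 := hr3 d hd.1
        rw [hd.2] at h1
        have h2 : (d : ℝ) * (r0 * (k + 1) * β) = r0 * ((k + 1) * d * β) := by ring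
        rw [h2]; exact h1)
    refine ⟨r' * r0 * (k + 1), ?_, ?_, ?_⟩
    · have : 0 < r' * r0 * (k + 1) := by positivity
      omega
    · push_cast
      calc (r' : ℝ) * r0 * (k + 1) ≤ (6 * K2) * K1 ^ C * (k + 1) := by gcongr
        _ ≤ 96 * (k + 1) * (K2 * K1 ^ C) := by
          have : (0 : ℝ) ≤ (k + 1) * (K2 * K1 ^ C) := by positivity
          nlinarith
        _ ≤ _ := by rw [hK2K1]; exact hM
    · have h1 : ((r' * r0 * (k + 1) : ℕ) : ℝ) * β = r' * (r0 * (k + 1) * β) := by push_cast; ring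
      rw [h1]
      refine hr'3.mono ?_
      rw [hε']
      calc 4 * K2 * (K1 ^ C * (2 * ε) / L ^ k) / L = 8 * (K2 * K1 ^ C) * ε / L ^ (k + 1) := by
            rw [pow_succ]; field_simp; ring
        _ ≤ K ^ (7 + k + 4 * (2 * C + 1)) * ε / L ^ (k + 1) := by
            apply div_le_div_of_nonneg_right _ (by positivity)
            apply mul_le_mul_of_nonneg_right _ hε0
            calc 8 * (K2 * K1 ^ C) ≤ 96 * (k + 1) * (K2 * K1 ^ C) := by
                  have : (0 : ℝ) ≤ (K2 * K1 ^ C) := by positivity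
                  nlinarith
              _ ≤ _ := by rw [hK2K1]; exact hM

end Pool.Agent.Lib.Pe70ed2
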