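import Mathlib

set_option autoImplicit false

namespace Pool.Agent.Lib.Pe70ed2

open Finset

/-- Elementary symmetric sum. -/
noncomputable def Esym (i : ℕ) (P : Finset ℕ) (g : ℕ → ℝ) : ℝ :=
  ∑ D ∈ P.powersetCard i, ∏ p ∈ D, g p

/-- Truncated alternating sum over the subsets with fewer than `b` elements. -/
noncomputable def Tr (b : ℕ) (P : Finset ℕ) (g : ℕ → ℝ) : ℝ :=
  ∑ i ∈ range b, (-1) ^ i * Esym i P g

noncomputable def Vp (P : Finset ℕ) (g : ℕ → ℝ) : ℝ := ∏ p ∈ P, (1 - g p)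

lemma Esym_zero (P : Finset ℕ) (g : ℕ → ℝ) : Esym 0 P g = 1 := by
  simp [Esym]

lemma Esym_succ_empty (i : ℕ) (g : ℕ → ℝ) : Esym (i + 1) ∅ g = 0 := by
  unfold Esym
  rw [Finset.powersetCard_eq_empty.2 (by simp)]
  simp

lemma Esym_insert (i : ℕ) (P : Finset ℕ) (g : ℕ → ℝ) (p : ℕ) (hp : p ∉ P) :
    Esym (i + 1) (insert p P) g = Esym (i + 1) P g + g p * Esym i P g := by
  unfold Esym
  rw [Finset.powersetCard_succ_insert hp, Finset.sum_union, Finset.sum_image, Finset.mul_sum]
  · congr 1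
    apply Finset.sum_congr rfl
    intro D hD
    rw [Finset.mem_powersetCard] at hD
    rw [Finset.prod_insert (fun h => hp (hD.1 h))]
  · intro D hD D' hD' h
    simp only [Finset.mem_coe, Finset.mem_powersetCard] at hD hD'
    have h1 : (insert p D).erase p = (insert p D').erase p := by rw [h]
    rwa [Finset.erase_insert (fun h => hp (hD.1 h)), Finset.erase_insert (fun h => hp (hD'.1 h))] at h1
  · rw [Finset.disjoint_left]
    intro D hD hD'
    rw [Finset.mem_image] at hD'
    obtain ⟨D', _, rfl⟩ := hD'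
    rw [Finset.mem_powersetCard] at hD
    exact hp (hD.1 (Finset.mem_insert_self p D'))

lemma Tr_insert (b : ℕ) (P : Finset ℕ) (g : ℕ → ℝ) (p : ℕ) (hp : p ∉ P) :
    Tr (b + 1) (insert p P) g = Tr (b + 1) P g - g p * Tr b P g := by
  unfold Tr
  rw [Finset.sum_range_succ', Finset.sum_range_succ' _ b, Finset.mul_sum]
  simp only [Esym_zero, pow_zero, mul_one]
  rw [add_sub_right_comm, ← Finset.sum_sub_distrib]
  congr 1
  apply Finset.sum_congr rfl
  intro i _
  rw [Esym_insert i P g p hp, pow_succ]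
  ring

lemma Esym_nonneg (i : ℕ) (P : Finset ℕ) (g : ℕ → ℝ) (hg : ∀ p ∈ P, 0 ≤ g p) : 0 ≤ Esym i P g := by
  unfold Esym
  apply Finset.sum_nonneg
  intro D hD
  apply Finset.prod_nonneg
  intro p hp
  exact hg p ((Finset.mem_powersetCard.1 hD).1 hp)

lemma Vp_mem (P : Finset ℕ) (g : ℕ → ℝ) (h0 : ∀ p ∈ P, 0 ≤ g p) (h1 : ∀ p ∈ P, g p ≤ 1) :
    0 ≤ Vp P g ∧ Vp P g ≤ 1 := by
  unfold Vp
  refine ⟨Finset.prod_nonneg fun p hp => by linarith [h1 p hp], ?_⟩
  apply Finset.prod_le_one
  · intro p hp; linarith [h1 p hp]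
  · intro p hp; linarith [h0 p hp]

/-- Bonferroni inequalities. -/
lemma bonferroni (P : Finset ℕ) (g : ℕ → ℝ) : ∀ b : ℕ, (∀ p ∈ P, 0 ≤ g p) → (∀ p ∈ P, g p ≤ 1) →
    0 ≤ (-1) ^ (b + 1) * (Tr b P g - Vp P g) ∧ (-1) ^ (b + 1) * (Tr b P g - Vp P g) ≤ Esym b P g := by
  classical
  induction P using Finset.induction_on with
  | empty =>
    intro b _ _
    cases b with
    | zero => simp [Tr, Vp, Esym_zero]
    | succ b =>
      have : Tr (b + 1) ∅ g = 1 := by
        unfold Tr
        rw [Finset.sum_range_succ', Esym_zero]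
        simp [Esym_succ_empty]
      rw [this, Esym_succ_empty]
      simp [Vp]
  | insert p P hp ih =>
    intro b h0 h1
    have h0' : ∀ p ∈ P, 0 ≤ g p := fun q hq => h0 q (Finset.mem_insert_of_mem hq)
    have h1' : ∀ p ∈ P, g p ≤ 1 := fun q hq => h1 q (Finset.mem_insert_of_mem hq)
    have hp0 := h0 p (Finset.mem_insert_self p P)
    cases b with
    | zero =>
      have h2 := Vp_mem (insert p P) g h0 h1
      simp only [Tr, Finset.range_zero, Finset.sum_empty, Esym_zero]
      constructor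
      · have : (-1 : ℝ) ^ (0 + 1) * (0 - Vp (insert p P) g) = Vp (insert p P) g := by ring
        rw [this]; exact h2.1
      · have : (-1 : ℝ) ^ (0 + 1) * (0 - Vp (insert p P) g) = Vp (insert p P) g := by ring
        rw [this]; exact h2.2
    | succ b =>
      have hV : Vp (insert p P) g = (1 - g p) * Vp P g := by
        unfold Vp; rw [Finset.prod_insert hp]
      rw [Tr_insert b P g p hp, hV, Esym_insert b P g p hp]
      have e1 : (-1 : ℝ) ^ (b + 1 + 1) * (Tr (b + 1) P g - g p * Tr b P g - (1 - g p) * Vp P g) =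
          (-1) ^ (b + 1 + 1) * (Tr (b + 1) P g - Vp P g) +
            g p * ((-1) ^ (b + 1) * (Tr b P g - Vp P g)) := by
        ring
      rw [e1]
      obtain ⟨h2, h3⟩ := ih (b + 1) h0' h1'
      obtain ⟨h4, h5⟩ := ih b h0' h1'
      constructor
      · have := mul_nonneg hp0 h4
        linarith
      · have := mul_le_mul_of_nonneg_left h5 hp0
        linarith

lemma bonferroni_odd (P : Finset ℕ) (g : ℕ → ℝ) (c : ℕ) (h0 : ∀ p ∈ P, 0 ≤ g p)
    (h1 : ∀ p ∈ P, g p ≤ 1) :
    Vp P g ≤ Tr (2 * c + 1) P g ∧ Tr (2 * c + 1) P g ≤ Vp P g + Esym (2 * c + 1) P g := by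
  obtain ⟨h2, h3⟩ := bonferroni P g (2 * c + 1) h0 h1
  have e1 : (-1 : ℝ) ^ (2 * c + 1 + 1) = 1 := by
    rw [show 2 * c + 1 + 1 = 2 * (c + 1) by ring, pow_mul]; simp
  rw [e1, one_mul] at h2 h3
  constructor <;> linarith

lemma Esym_le (P : Finset ℕ) (g : ℕ → ℝ) (h0 : ∀ p ∈ P, 0 ≤ g p) : ∀ i : ℕ,
    Esym i P g ≤ (∑ p ∈ P, g p) ^ i / (i.factorial : ℝ) := by
  classical
  induction P using Finset.induction_on with
  | empty =>
    intro i
    cases i with
    | zero => simp [Esym_zero]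
    | succ i => rw [Esym_succ_empty]; simp
  | insert p P hp ih =>
    intro i
    have h0' : ∀ p ∈ P, 0 ≤ g p := fun q hq => h0 q (Finset.mem_insert_of_mem hq)
    have hp0 := h0 p (Finset.mem_insert_self p P)
    cases i with
    | zero => simp [Esym_zero]
    | succ i =>
      rw [Esym_insert i P g p hp, Finset.sum_insert hp]
      set S := ∑ p ∈ P, g p with hS
      have hS0 : 0 ≤ S := Finset.sum_nonneg h0'
      have h1 := ih h0' (i + 1)
      have h2 := ih h0' i
      have h3 : S ^ (i + 1) + (i + 1) * (g p * S ^ i) ≤ (g p + S) ^ (i + 1) := by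
        have key : ∀ n : ℕ, S ^ (n + 1) + (n + 1) * (g p * S ^ n) ≤ (g p + S) ^ (n + 1) := by
          intro n
          induction n with
          | zero => simp; linarith
          | succ n ihn =>
            have e1 : (g p + S) ^ (n + 1 + 1) = (g p + S) ^ (n + 1) * (g p + S) := pow_succ _ _
            rw [e1]
            have e2 : (S ^ (n + 1) + (n + 1) * (g p * S ^ n)) * (g p + S) ≤ (g p + S) ^ (n + 1) * (g p + S) :=
              mul_le_mul_of_nonneg_right ihn (by linarith)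
            refine le_trans ?_ e2
            push_cast
            have e3 : (S ^ (n + 1) + (n + 1) * (g p * S ^ n)) * (g p + S) =
              (S ^ (n + 1 + 1) + ((n : ℝ) + 1 + 1) * (g p * S ^ (n + 1))) + (n + 1) * (g p ^ 2 * S ^ n) := by
              ring
            rw [e3]
            have : 0 ≤ ((n : ℝ) + 1) * (g p ^ 2 * S ^ n) := by positivity
            linarith
        exact key i
      have hf : ((i + 1).factorial : ℝ) = (i + 1) * (i.factorial : ℝ) := by
        rw [Nat.factorial_succ]; push_cast; ring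
      have hf0 : (0 : ℝ) < (i.factorial : ℝ) := by exact_mod_cast Nat.factorial_pos i
      calc Esym (i + 1) P g + g p * Esym i P g ≤ S ^ (i + 1) / ((i + 1).factorial : ℝ) +
            g p * (S ^ i / (i.factorial : ℝ)) := add_le_add h1 (mul_le_mul_of_nonneg_left h2 hp0)
        _ = (S ^ (i + 1) + (i + 1) * (g p * S ^ i)) / ((i + 1).factorial : ℝ) := by
            rw [hf]; field_simp
        _ ≤ _ := div_le_div_of_nonneg_right h3 (by positivity)

/-- The product of truncated sums over the blocks. -/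
noncomputable def Yw (P : ℕ → Finset ℕ) (c : ℕ → ℕ) (J : ℕ) (g : ℕ → ℝ) : ℝ :=
  ∏ j ∈ range J, Tr (2 * c j + 1) (P j) g

noncomputable def Xw (P : ℕ → Finset ℕ) (c : ℕ → ℕ) : ℕ → (ℕ → ℝ) → ℝ
  | 0, _ => 0
  | J + 1, g => Xw P c J g * Tr (2 * c J + 1) (P J) g + Yw P c J g * Esym (2 * c J + 1) (P J) g

lemma Xw_zero (P : ℕ → Finset ℕ) (c : ℕ → ℕ) (g : ℕ → ℝ) : Xw P c 0 g = 0 := rfl
lemma Xw_succ (P : ℕ → Finset ℕ) (c : ℕ → ℕ) (J : ℕ) (g : ℕ → ℝ) :
    Xw P c (J + 1) g = Xw P c J g * Tr (2 * c J + 1) (P J) g + Yw P c J g * Esym (2 * c J + 1) (P J) g := rfl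

lemma Yw_succ (P : ℕ → Finset ℕ) (c : ℕ → ℕ) (J : ℕ) (g : ℕ → ℝ) :
    Yw P c (J + 1) g = Yw P c J g * Tr (2 * c J + 1) (P J) g := by
  unfold Yw; rw [Finset.prod_range_succ]

lemma Yw_sub_le (P : ℕ → Finset ℕ) (c : ℕ → ℕ) (g : ℕ → ℝ) (J : ℕ) (h0 : ∀ j < J, ∀ p ∈ P j, 0 ≤ g p)
    (h1 : ∀ j < J, ∀ p ∈ P j, g p ≤ 1) :
    0 ≤ ∏ j ∈ range J, Vp (P j) g ∧ ∏ j ∈ range J, Vp (P j) g ≤ Yw P c J g ∧
      Yw P c J g - ∏ j ∈ range J, Vp (P j) g ≤ Xw P c J g ∧ 0 ≤ Xw P c J g := by
  induction J with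
  | zero => simp [Yw, Xw_zero]
  | succ J ih =>
    obtain ⟨i1, i2, i3, i4⟩ := ih (fun j hj => h0 j (by omega)) (fun j hj => h1 j (by omega))
    rw [Finset.prod_range_succ, Yw_succ, Xw_succ]
    set x := ∏ j ∈ range J, Vp (P j) g
    set Y := Yw P c J g
    set X := Xw P c J g
    obtain ⟨b1, b2⟩ := bonferroni_odd (P J) g (c J) (h0 J (by omega)) (h1 J (by omega))
    obtain ⟨v1, v2⟩ := Vp_mem (P J) g (h0 J (by omega)) (h1 J (by omega))
    have e1 := Esym_nonneg (2 * c J + 1) (P J) g (h0 J (by omega))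
    set T := Tr (2 * c J + 1) (P J) g
    set V := Vp (P J) g
    set E := Esym (2 * c J + 1) (P J) g
    have hT : 0 ≤ T := v1.trans b1
    refine ⟨mul_nonneg i1 v1, mul_le_mul i2 b1 v1 (i1.trans i2), ?_, ?_⟩
    · have e2 : Y * T - x * V = (Y - x) * T + x * (T - V) := by ring
      rw [e2]
      have e3 : (Y - x) * T ≤ X * T := mul_le_mul_of_nonneg_right i3 hT
      have e4 : x * (T - V) ≤ Y * E := mul_le_mul i2 (by linarith) (by linarith) (i1.trans i2)
      linarith
    · have := mul_nonneg i4 hT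
      have := mul_nonneg (i1.trans i2) e1
      linarith

/-- Functionals of `g` that are small combinations of products of `g` over small sets. -/
def Rep (Φ : (ℕ → ℝ) → ℝ) (PP : Finset ℕ) (ℓ B : ℝ) : Prop :=
  ∃ c : Finset ℕ → ℝ, (∀ D, |c D| ≤ B) ∧ (∀ D, c D ≠ 0 → D ⊆ PP ∧ ∑ p ∈ D, Real.log p ≤ ℓ) ∧
    ∀ g, Φ g = ∑ D ∈ PP.powerset, c D * ∏ p ∈ D, g p

lemma Rep.add {Φ Ψ : (ℕ → ℝ) → ℝ} {PP : Finset ℕ} {ℓ B B' : ℝ} (h : Rep Φ PP ℓ B) (h' : Rep Ψ PP ℓ B') :
    Rep (fun g => Φ g + Ψ g) PP ℓ (B + B') := by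
  obtain ⟨c, h1, h2, h3⟩ := h
  obtain ⟨c', h1', h2', h3'⟩ := h'
  refine ⟨fun D => c D + c' D, ?_, ?_, ?_⟩
  · intro D
    exact (abs_add_le _ _).trans (add_le_add (h1 D) (h1' D))
  · intro D hD
    by_cases h0 : c D = 0
    · apply h2'
      intro h0'
      apply hD
      simp only [h0, h0', add_zero]
    · exact h2 D h0
  · intro g
    simp only
    rw [h3, h3', ← Finset.sum_add_distrib]
    apply Finset.sum_congr rfl
    intro D _
    ring

lemma Rep.mono {Φ : (ℕ → ℝ) → ℝ} {PP : Finset ℕ} {ℓ ℓ' B B' : ℝ} (h : Rep Φ PP ℓ B) (hℓ : ℓ ≤ ℓ')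
    (hB : B ≤ B') : Rep Φ PP ℓ' B' := by
  obtain ⟨c, h1, h2, h3⟩ := h
  exact ⟨c, fun D => (h1 D).trans hB, fun D hD => ⟨(h2 D hD).1, (h2 D hD).2.trans hℓ⟩, h3⟩

lemma sum_powerset_union {PP QQ : Finset ℕ} (hd : Disjoint PP QQ) (f : Finset ℕ → ℝ) :
    ∑ D ∈ (PP ∪ QQ).powerset, f D = ∑ D ∈ PP.powerset, ∑ D' ∈ QQ.powerset, f (D ∪ D') := by
  classical
  rw [← Finset.sum_product']
  refine Finset.sum_nbij' (fun D => (D ∩ PP, D ∩ QQ)) (fun x => x.1 ∪ x.2) ?_ ?_ ?_ ?_ ?_
  · intro D _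
    simp only [Finset.mem_product, Finset.mem_powerset]
    exact ⟨Finset.inter_subset_right, Finset.inter_subset_right⟩
  · intro x hx
    simp only [Finset.mem_product, Finset.mem_powerset] at hx ⊢
    exact Finset.union_subset_union hx.1 hx.2
  · intro D hD
    rw [Finset.mem_powerset] at hD
    simp only
    rw [← Finset.inter_union_distrib_left]
    exact Finset.inter_eq_left.2 hD
  · rintro ⟨D, D'⟩ hx
    simp only [Finset.mem_product, Finset.mem_powerset] at hx
    simp only [Prod.mk.injEq]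
    constructor
    · ext p
      simp only [Finset.mem_inter, Finset.mem_union]
      constructor
      · rintro ⟨h | h, hp⟩
        · exact h
        · exact absurd (hx.2 h) (Finset.disjoint_left.1 hd hp)
      · intro h; exact ⟨Or.inl h, hx.1 h⟩
    · ext p
      simp only [Finset.mem_inter, Finset.mem_union]
      constructor
      · rintro ⟨h | h, hp⟩
        · exact absurd hp (Finset.disjoint_left.1 hd (hx.1 h))
        · exact h
      · intro h; exact ⟨Or.inr h, hx.2 h⟩
  · intro D hD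
    rw [Finset.mem_powerset] at hD
    simp only
    rw [← Finset.inter_union_distrib_left, Finset.inter_eq_left.2 hD]

lemma Rep.mul {Φ Ψ : (ℕ → ℝ) → ℝ} {PP QQ : Finset ℕ} {ℓ ℓ' B B' : ℝ} (hd : Disjoint PP QQ)
    (hB : 0 ≤ B) (h : Rep Φ PP ℓ B) (h' : Rep Ψ QQ ℓ' B') :
    Rep (fun g => Φ g * Ψ g) (PP ∪ QQ) (ℓ + ℓ') (B * B') := by
  classical
  obtain ⟨c, h1, h2, h3⟩ := h
  obtain ⟨c', h1', h2', h3'⟩ := h'
  refine ⟨fun D => if D ⊆ PP ∪ QQ then c (D ∩ PP) * c' (D ∩ QQ) else 0, ?_, ?_, ?_⟩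
  · intro D
    simp only
    split_ifs
    · rw [abs_mul]
      exact mul_le_mul (h1 _) (h1' _) (abs_nonneg _) hB
    · rw [abs_zero]
      have := (abs_nonneg _).trans (h1' ∅)
      positivity
  · intro D hD
    simp only at hD
    split_ifs at hD with hs
    · refine ⟨hs, ?_⟩
      have h4 := (h2 _ (left_ne_zero_of_mul hD)).2
      have h5 := (h2' _ (right_ne_zero_of_mul hD)).2
      have h6 : D = (D ∩ PP) ∪ (D ∩ QQ) := by
        rw [← Finset.inter_union_distrib_left]
        exact (Finset.inter_eq_left.2 hs).symm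
      have h7 : Disjoint (D ∩ PP) (D ∩ QQ) :=
        Finset.disjoint_of_subset_left Finset.inter_subset_right
          (Finset.disjoint_of_subset_right Finset.inter_subset_right hd)
      conv_lhs => rw [h6]
      rw [Finset.sum_union h7]
      exact add_le_add h4 h5
    · exact absurd rfl hD
  · intro g
    simp only
    rw [h3, h3', Finset.sum_mul_sum, sum_powerset_union hd]
    apply Finset.sum_congr rfl
    intro D hD
    apply Finset.sum_congr rfl
    intro D' hD'
    rw [Finset.mem_powerset] at hD hD'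
    have e1 : (D ∪ D') ∩ PP = D := by
      ext p
      simp only [Finset.mem_inter, Finset.mem_union]
      constructor
      · rintro ⟨h | h, hp⟩
        · exact h
        · exact absurd (hD' h) (Finset.disjoint_left.1 hd hp)
      · intro h; exact ⟨Or.inl h, hD h⟩
    have e2 : (D ∪ D') ∩ QQ = D' := by
      ext p
      simp only [Finset.mem_inter, Finset.mem_union]
      constructor
      · rintro ⟨h | h, hp⟩
        · exact absurd hp (Finset.disjoint_left.1 hd (hD h))
        · exact h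
      · intro h; exact ⟨Or.inr h, hD' h⟩
    have e3 : Disjoint D D' := Finset.disjoint_of_subset_left hD (Finset.disjoint_of_subset_right hD' hd)
    rw [if_pos (Finset.union_subset_union hD hD'), e1, e2, Finset.prod_union e3]
    ring

lemma Rep.subset {Φ : (ℕ → ℝ) → ℝ} {PP QQ : Finset ℕ} {ℓ B : ℝ} (h : Rep Φ PP ℓ B) (hs : PP ⊆ QQ) :
    Rep Φ QQ ℓ B := by
  obtain ⟨c, h1, h2, h3⟩ := h
  refine ⟨c, h1, fun D hD => ⟨(h2 D hD).1.trans hs, (h2 D hD).2⟩, ?_⟩
  intro g
  rw [h3]
  apply Finset.sum_subset (Finset.powerset_mono.2 hs)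
  intro D _ hD
  by_cases h0 : c D = 0
  · rw [h0, zero_mul]
  · exact absurd (Finset.mem_powerset.2 (h2 D h0).1) hD

lemma Rep_Esym (i : ℕ) (P : Finset ℕ) (w : ℝ) (hw : ∀ p ∈ P, Real.log p ≤ w) :
    Rep (Esym i P) P (i * w) 1 := by
  classical
  refine ⟨fun D => if D ∈ P.powersetCard i then 1 else 0, ?_, ?_, ?_⟩
  · intro D; simp only; split_ifs <;> simp
  · intro D hD
    simp only at hD
    split_ifs at hD with h
    · rw [Finset.mem_powersetCard] at h
      refine ⟨h.1, ?_⟩
      rw [← h.2, ← nsmul_eq_mul]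
      exact Finset.sum_le_card_nsmul _ _ _ fun p hp => hw p (h.1 hp)
    · exact absurd rfl hD
  · intro g
    unfold Esym
    rw [Finset.powersetCard_eq_filter, Finset.sum_filter]
    apply Finset.sum_congr rfl
    intro D hD
    rw [← Finset.powersetCard_eq_filter]
    simp only [Finset.mem_powersetCard]
    rw [Finset.mem_powerset] at hD
    by_cases h : D.card = i
    · rw [if_pos h, if_pos ⟨hD, h⟩, one_mul]
    · rw [if_neg h, if_neg (fun h' => h h'.2), zero_mul]

lemma Rep_Tr (b : ℕ) (P : Finset ℕ) (w : ℝ) (hw0 : 0 ≤ w) (hw : ∀ p ∈ P, Real.log p ≤ w) :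
    Rep (Tr (b + 1) P) P (b * w) 1 := by
  classical
  refine ⟨fun D => if D ⊆ P ∧ D.card < b + 1 then (-1) ^ D.card else 0, ?_, ?_, ?_⟩
  · intro D; simp only; split_ifs <;> simp
  · intro D hD
    simp only at hD
    split_ifs at hD with h
    · refine ⟨h.1, ?_⟩
      calc ∑ p ∈ D, Real.log p ≤ D.card • w := Finset.sum_le_card_nsmul _ _ _ fun p hp => hw p (h.1 hp)
        _ = D.card * w := nsmul_eq_mul _ _
        _ ≤ b * w := by
          apply mul_le_mul_of_nonneg_right _ hw0
          exact_mod_cast Nat.lt_succ_iff.1 h.2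
    · exact absurd rfl hD
  · intro g
    unfold Tr Esym
    simp_rw [Finset.mul_sum]
    have h1 : ∀ i ∈ range (b + 1), ∑ D ∈ P.powersetCard i, (-1 : ℝ) ^ i * ∏ p ∈ D, g p =
        ∑ D ∈ P.powerset, if D.card = i then (-1 : ℝ) ^ D.card * ∏ p ∈ D, g p else 0 := by
      intro i _
      rw [Finset.powersetCard_eq_filter, Finset.sum_filter]
      apply Finset.sum_congr rfl
      intro D _
      by_cases h : D.card = i
      · rw [if_pos h, if_pos h, h]
      · rw [if_neg h, if_neg h]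
    rw [Finset.sum_congr rfl h1, Finset.sum_comm]
    apply Finset.sum_congr rfl
    intro D hD
    rw [Finset.mem_powerset] at hD
    rw [Finset.sum_ite_eq]
    simp only [Finset.mem_range]
    by_cases h : D.card < b + 1
    · rw [if_pos h, if_pos ⟨hD, h⟩]
    · rw [if_neg h, if_neg (fun h' => h h'.2), zero_mul]

lemma Rep_Yw (P : ℕ → Finset ℕ) (c : ℕ → ℕ) (w : ℕ → ℝ) (hw0 : ∀ j, 0 ≤ w j)
    (hw : ∀ j, ∀ p ∈ P j, Real.log p ≤ w j) (J : ℕ)
    (hd : ∀ i < J, ∀ j < J, i ≠ j → Disjoint (P i) (P j)) :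
    Rep (Yw P c J) ((range J).biUnion P) (∑ j ∈ range J, (2 * (c j : ℝ) + 1) * w j) 1 ∧
    Rep (Xw P c J) ((range J).biUnion P) (∑ j ∈ range J, (2 * (c j : ℝ) + 1) * w j) J := by
  classical
  induction J with
  | zero =>
    constructor
    · refine ⟨fun D => if D = ∅ then 1 else 0, ?_, ?_, ?_⟩
      · intro D; simp only; split_ifs <;> simp
      · intro D hD
        simp only at hD
        split_ifs at hD with h
        · subst h; simp
        · exact absurd rfl hD
      · intro g; simp [Yw]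
    · refine ⟨fun D => 0, ?_, ?_, ?_⟩
      · intro D; simp
      · intro D hD; exact absurd rfl hD
      · intro g; simp [Xw_zero]
  | succ J ih =>
    obtain ⟨r1, r2⟩ := ih (fun i hi j hj => hd i (by omega) j (by omega))
    have hdis : Disjoint ((range J).biUnion P) (P J) := by
      rw [Finset.disjoint_biUnion_left]
      intro j hj
      rw [Finset.mem_range] at hj
      exact hd j (by omega) J (by omega) (by omega)
    have hun : (range (J + 1)).biUnion P = (range J).biUnion P ∪ P J := by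
      rw [Finset.range_add_one, Finset.biUnion_insert, Finset.union_comm]
    rw [hun, Finset.sum_range_succ]
    have hT := Rep_Tr (2 * c J) (P J) (w J) (hw0 J) (hw J)
    have hE := Rep_Esym (2 * c J + 1) (P J) (w J) (hw J)
    have hT' : Rep (Tr (2 * c J + 1) (P J)) (P J) ((2 * (c J : ℝ) + 1) * w J) 1 := by
      refine hT.mono ?_ le_rfl
      push_cast
      apply mul_le_mul_of_nonneg_right _ (hw0 J)
      linarith
    have hE' : Rep (Esym (2 * c J + 1) (P J)) (P J) ((2 * (c J : ℝ) + 1) * w J) 1 := by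
      refine hE.mono ?_ le_rfl
      push_cast
      exact le_rfl
    constructor
    · have h1 := r1.mul hdis zero_le_one hT'
      rw [one_mul] at h1
      have h2 : Yw P c (J + 1) = fun g => Yw P c J g * Tr (2 * c J + 1) (P J) g := by
        funext g; exact Yw_succ P c J g
      rw [h2]; exact h1
    · have h1 := r2.mul hdis (Nat.cast_nonneg J) hT'
      have h3 := r1.mul hdis zero_le_one hE'
      have h4 := h1.add h3
      rw [mul_one, mul_one] at h4
      have h2 : Xw P c (J + 1) = fun g => Xw P c J g * Tr (2 * c J + 1) (P J) g +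
          Yw P c J g * Esym (2 * c J + 1) (P J) g := by
        funext g; exact Xw_succ P c J g
      rw [h2]
      push_cast
      exact h4

end Pool.Agent.Lib.Pe70ed2
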