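import Pool.Agent.Lib.Pe70ed2.SieveMain

set_option autoImplicit false

namespace Pool.Agent.Lib.Pe70ed2

open Finset

/-- Primes below `z` not dividing `q`. -/
noncomputable def allP (z : ℝ) (q : ℕ) : Finset ℕ :=
  (Finset.range ⌈z⌉₊).filter (fun p => p.Prime ∧ ¬ p ∣ q)

noncomputable def blk (z : ℝ) (q : ℕ) (j : ℕ) : Finset ℕ :=
  (Finset.range ⌈z⌉₊).filter (fun p => p.Prime ∧ ¬ p ∣ q ∧ Real.log z / 2 ^ (j + 1) ≤ Real.log p ∧
    Real.log p < Real.log z / 2 ^ j)

/-- All prime factors of `n` below `z` divide `q`. -/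
def rough (z : ℝ) (q n : ℕ) : Prop := ∀ p : ℕ, p.Prime → (p : ℝ) < z → p ∣ n → p ∣ q

lemma mem_allP {z : ℝ} {q p : ℕ} : p ∈ allP z q ↔ (p : ℝ) < z ∧ p.Prime ∧ ¬ p ∣ q := by
  unfold allP
  rw [Finset.mem_filter, Finset.mem_range, Nat.lt_ceil]

lemma blk_union (z : ℝ) (_hz : 2 ≤ z) (q J : ℕ) (hJ1 : 1 ≤ J) (hJ : Real.log z / 2 ^ J ≤ Real.log 2) :
    (range J).biUnion (blk z q) = allP z q := by
  classical
  ext p
  rw [Finset.mem_biUnion, mem_allP]
  constructor
  · rintro ⟨j, _, hp⟩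
    unfold blk at hp
    rw [Finset.mem_filter, Finset.mem_range, Nat.lt_ceil] at hp
    exact ⟨hp.1, hp.2.1, hp.2.2.1⟩
  · rintro ⟨h1, h2, h3⟩
    have hp0 : (0 : ℝ) < p := by exact_mod_cast h2.pos
    have hlog : Real.log p < Real.log z / 2 ^ 0 := by
      rw [pow_zero, div_one]; exact Real.log_lt_log hp0 h1
    have hlog2 : Real.log 2 ≤ Real.log p := Real.log_le_log (by norm_num) (by exact_mod_cast h2.two_le)
    have hex : ∃ j, Real.log z / 2 ^ (j + 1) ≤ Real.log p := by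
      refine ⟨J - 1, ?_⟩
      rw [show J - 1 + 1 = J by omega]
      exact hJ.trans hlog2
    set j := Nat.find hex with hj
    have hjs := Nat.find_spec hex
    have hjJ : j < J := by
      have : j ≤ J - 1 := by
        apply Nat.find_min'
        rw [show J - 1 + 1 = J by omega]
        exact hJ.trans hlog2
      omega
    refine ⟨j, Finset.mem_range.2 hjJ, ?_⟩
    unfold blk
    rw [Finset.mem_filter, Finset.mem_range, Nat.lt_ceil]
    refine ⟨h1, h2, h3, hjs, ?_⟩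
    rcases Nat.eq_zero_or_pos j with h0 | hpos
    · rw [h0]; exact hlog
    · have := Nat.find_min hex (m := j - 1) (by omega)
      rw [show j - 1 + 1 = j by omega] at this
      exact not_le.1 this

lemma blk_disjoint (z : ℝ) (hz : 2 ≤ z) (q : ℕ) (i j : ℕ) (hij : i ≠ j) :
    Disjoint (blk z q i) (blk z q j) := by
  have hz0 : 0 ≤ Real.log z := Real.log_nonneg (by linarith)
  rw [Finset.disjoint_left]
  intro p h1 h2
  unfold blk at h1 h2
  rw [Finset.mem_filter] at h1 h2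
  obtain ⟨-, -, -, a1, a2⟩ := h1
  obtain ⟨-, -, -, b1, b2⟩ := h2
  rcases lt_or_gt_of_ne hij with h | h
  · have : Real.log z / 2 ^ j ≤ Real.log z / 2 ^ (i + 1) :=
      div_le_div_of_nonneg_left hz0 (by positivity) (pow_le_pow_right₀ (by norm_num) (by omega))
    linarith
  · have : Real.log z / 2 ^ i ≤ Real.log z / 2 ^ (j + 1) :=
      div_le_div_of_nonneg_left hz0 (by positivity) (pow_le_pow_right₀ (by norm_num) (by omega))
    linarith

lemma level_sum (a : ℝ) (ha : 0 ≤ a) (J : ℕ) : ∑ j ∈ range J, (a + 2 * (j : ℝ)) / 2 ^ j ≤ 2 * a + 4 := by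
  have h : ∀ J : ℕ, ∑ j ∈ range J, (a + 2 * (j : ℝ)) / 2 ^ j = 2 * a + 4 - (a + 2 * J + 2) * 2 / 2 ^ J := by
    intro J
    induction J with
    | zero => simp; ring
    | succ J ih =>
      rw [Finset.sum_range_succ, ih, pow_succ]
      push_cast
      field_simp
      ring
  rw [h]
  have : 0 ≤ (a + 2 * (J : ℝ) + 2) * 2 / 2 ^ J := by positivity
  linarith

/-- From set-indexed weights to integer-indexed weights. -/
lemma Rep.toInt {Φ : (ℕ → ℝ) → ℝ} {PP : Finset ℕ} {ℓ B : ℝ} (h : Rep Φ PP ℓ B)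
    (hP : ∀ p ∈ PP, p.Prime) (hB : 0 ≤ B) (D : ℕ) (hD : Real.exp ℓ < D + 1) :
    ∃ lam : ℕ → ℝ, (∀ d, |lam d| ≤ B) ∧
      (∀ d, lam d ≠ 0 → 1 ≤ d ∧ d ≤ D ∧ Squarefree d ∧ d.primeFactors ⊆ PP) ∧
      ∀ g, Φ g = ∑ d ∈ Finset.Icc 1 D, lam d * ∏ p ∈ d.primeFactors, g p := by
  classical
  obtain ⟨c, h1, h2, h3⟩ := h
  set lam : ℕ → ℝ := fun d => if Squarefree d ∧ d.primeFactors ⊆ PP then c d.primeFactors else 0 with hlam
  have hle : ∀ d, lam d ≠ 0 → 1 ≤ d ∧ d ≤ D ∧ Squarefree d ∧ d.primeFactors ⊆ PP := by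
    intro d hd
    simp only [hlam] at hd
    split_ifs at hd with hs
    · have hd0 : d ≠ 0 := hs.1.ne_zero
      have h4 := (h2 _ hd).2
      have h5 : ∑ p ∈ d.primeFactors, Real.log p = Real.log d := by
        rw [← Real.log_prod]
        · congr 1
          conv_rhs => rw [← Nat.prod_primeFactors_of_squarefree hs.1]
          push_cast
          rfl
        · intro p hp
          exact_mod_cast (Nat.prime_of_mem_primeFactors hp).ne_zero
      rw [h5] at h4
      have h6 : (d : ℝ) < D + 1 := by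
        have h7 : (0 : ℝ) < d := by exact_mod_cast Nat.pos_of_ne_zero hd0
        calc (d : ℝ) = Real.exp (Real.log d) := (Real.exp_log h7).symm
          _ ≤ Real.exp ℓ := Real.exp_le_exp.2 h4
          _ < _ := hD
      have h7 : d < D + 1 := by exact_mod_cast h6
      exact ⟨Nat.pos_of_ne_zero hd0, by omega, hs.1, hs.2⟩
    · exact absurd rfl hd
  refine ⟨lam, ?_, hle, ?_⟩
  · intro d
    simp only [hlam]
    split_ifs
    · exact h1 _
    · simpa using hB
  · intro g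
    rw [h3]
    have hpf : ∀ S ∈ PP.powerset, (∏ p ∈ S, p).primeFactors = S := by
      intro S hS
      rw [Finset.mem_powerset] at hS
      exact Nat.primeFactors_prod fun p hp => hP p (hS hp)
    have hsqf : ∀ S ∈ PP.powerset, Squarefree (∏ p ∈ S, p) := by
      intro S hS
      rw [Finset.mem_powerset] at hS
      apply Finset.squarefree_prod_of_pairwise_isCoprime
      · intro p hp r hr hpr
        exact Nat.coprime_iff_isRelPrime.1 ((Nat.coprime_primes (hP p (hS hp)) (hP r (hS hr))).2 hpr)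
      · intro p hp
        exact (hP p (hS hp)).squarefree
    have hinj : Set.InjOn (fun S : Finset ℕ => ∏ p ∈ S, p) (PP.powerset : Set (Finset ℕ)) := by
      intro S hS S' hS' hSS
      rw [← hpf S hS, ← hpf S' hS']
      simp only at hSS
      rw [hSS]
    set T := PP.powerset.image (fun S : Finset ℕ => ∏ p ∈ S, p) with hT
    have e1 : ∑ S ∈ PP.powerset, c S * ∏ p ∈ S, g p = ∑ d ∈ T, lam d * ∏ p ∈ d.primeFactors, g p := by
      rw [hT, Finset.sum_image hinj]
      apply Finset.sum_congr rfl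
      intro S hS
      simp only [hlam]
      rw [hpf S hS, if_pos ⟨hsqf S hS, Finset.mem_powerset.1 hS⟩]
    rw [e1]
    have e2 : ∑ d ∈ T, lam d * ∏ p ∈ d.primeFactors, g p =
        ∑ d ∈ T ∪ Finset.Icc 1 D, lam d * ∏ p ∈ d.primeFactors, g p := by
      apply Finset.sum_subset Finset.subset_union_left
      intro d _ hd
      by_cases h0 : lam d = 0
      · rw [h0, zero_mul]
      · exfalso
        apply hd
        obtain ⟨-, -, h5, h6⟩ := hle d h0
        rw [hT, Finset.mem_image]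
        exact ⟨d.primeFactors, Finset.mem_powerset.2 h6, Nat.prod_primeFactors_of_squarefree h5⟩
    have e3 : ∑ d ∈ Finset.Icc 1 D, lam d * ∏ p ∈ d.primeFactors, g p =
        ∑ d ∈ T ∪ Finset.Icc 1 D, lam d * ∏ p ∈ d.primeFactors, g p := by
      apply Finset.sum_subset Finset.subset_union_right
      intro d _ hd
      by_cases h0 : lam d = 0
      · rw [h0, zero_mul]
      · exfalso
        apply hd
        obtain ⟨h5, h6, -, -⟩ := hle d h0
        exact Finset.mem_Icc.2 ⟨h5, h6⟩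
    rw [e2, e3]

lemma Vp_allP_le (z : ℝ) (hz : 2 ≤ z) (q : ℕ) (hq : 0 < q) :
    Vp (allP z q) gi ≤ (q : ℝ) / (q.totient : ℝ) / Real.log z := by
  classical
  set N := ⌈z⌉₊ with hN
  have hN1 : 1 ≤ N := Nat.one_le_ceil_iff.2 (by linarith)
  have hlogz : 0 < Real.log z := Real.log_pos (by linarith)
  have h1 : Real.log z ≤ ∏ p ∈ N.primesBelow, (1 - gi p)⁻¹ := by
    refine le_trans ?_ (log_le_prod N hN1)
    exact Real.log_le_log (by linarith) (Nat.le_ceil z)
  have hq0 : (0 : ℝ) < q := by exact_mod_cast hq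
  have hφ0 : (0 : ℝ) < (q.totient : ℝ) := by exact_mod_cast Nat.totient_pos.2 hq
  have hfac : ∀ p : ℕ, p.Prime → 0 < 1 - gi p ∧ 1 - gi p ≤ 1 := by
    intro p hp
    have : (1 : ℝ) < p := by exact_mod_cast hp.one_lt
    unfold gi
    constructor
    · have : 1 / (p : ℝ) < 1 := by rw [div_lt_one (by linarith)]; exact this
      linarith
    · have : 0 ≤ 1 / (p : ℝ) := by positivity
      linarith
  set A := Vp (allP z q) gi with hA
  have hA0 : 0 < A := Finset.prod_pos fun p hp => (hfac p (mem_allP.1 hp).2.1).1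
  have h2 : (q.totient : ℝ) = q * ∏ p ∈ q.primeFactors, (1 - gi p) := by
    have := Nat.totient_eq_mul_prod_factors q
    have h3 : ((q.totient : ℚ) : ℝ) = ((q * ∏ p ∈ q.primeFactors, (1 - (p : ℚ)⁻¹) : ℚ) : ℝ) := by rw [this]
    push_cast at h3
    rw [h3]
    congr 1
    apply Finset.prod_congr rfl
    intro p _
    rw [gi, one_div]
  set Bq := ∏ p ∈ q.primeFactors, (1 - gi p) with hBq
  have hBq0 : 0 < Bq := Finset.prod_pos fun p hp => (hfac p (Nat.prime_of_mem_primeFactors hp)).1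
  -- split of the primes below N
  have h3 : N.primesBelow = allP z q ∪ (N.primesBelow.filter (fun p => p ∣ q)) := by
    ext p
    rw [Finset.mem_union, mem_allP, Finset.mem_filter, Nat.mem_primesBelow, hN, Nat.lt_ceil]
    constructor
    · rintro ⟨a, b⟩
      by_cases h : p ∣ q
      · exact Or.inr ⟨⟨a, b⟩, h⟩
      · exact Or.inl ⟨a, b, h⟩
    · rintro (⟨a, b, c⟩ | ⟨⟨a, b⟩, c⟩)
      · exact ⟨a, b⟩
      · exact ⟨a, b⟩
  have h4 : Disjoint (allP z q) (N.primesBelow.filter (fun p => p ∣ q)) := by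
    rw [Finset.disjoint_left]
    intro p hp hp'
    exact (mem_allP.1 hp).2.2 (Finset.mem_filter.1 hp').2
  have h5 : ∏ p ∈ N.primesBelow, (1 - gi p) = A * ∏ p ∈ N.primesBelow.filter (fun p => p ∣ q), (1 - gi p) := by
    conv_lhs => rw [h3]
    rw [Finset.prod_union h4]
    rfl
  have h6 : Bq ≤ ∏ p ∈ N.primesBelow.filter (fun p => p ∣ q), (1 - gi p) := by
    rw [hBq]
    apply Finset.prod_le_prod_of_subset_of_le_one
    · intro p hp
      rw [Finset.mem_filter, Nat.mem_primesBelow] at hp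
      exact Nat.mem_primeFactors.2 ⟨hp.1.2, hp.2, by omega⟩
    · intro p hp
      exact (hfac p (Nat.prime_of_mem_primeFactors hp)).1.le
    · intro p hp _
      exact (hfac p (Nat.prime_of_mem_primeFactors hp)).2
  have h7 : A * Bq ≤ ∏ p ∈ N.primesBelow, (1 - gi p) := by
    rw [h5]; exact mul_le_mul_of_nonneg_left h6 hA0.le
  have h8 : Real.log z * (A * Bq) ≤ 1 := by
    have h9 : 0 < ∏ p ∈ N.primesBelow, (1 - gi p) :=
      Finset.prod_pos fun p hp => (hfac p (Nat.mem_primesBelow.1 hp).2).1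
    calc Real.log z * (A * Bq) ≤ (∏ p ∈ N.primesBelow, (1 - gi p)⁻¹) * ∏ p ∈ N.primesBelow, (1 - gi p) :=
          mul_le_mul h1 h7 (by positivity) (hlogz.le.trans h1)
      _ = 1 := by
        rw [Finset.prod_inv_distrib]
        exact inv_mul_cancel₀ h9.ne'
  rw [h2]
  have h9 : (q : ℝ) / (q * Bq) / Real.log z = 1 / (Bq * Real.log z) := by
    field_simp
  rw [h9, le_div_iff₀ (by positivity)]
  linarith

lemma Vp_ind (z : ℝ) (q n : ℕ) [Decidable (rough z q n)] :
    Vp (allP z q) (fun p => if p ∣ n then 1 else 0) = if rough z q n then 1 else 0 := by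
  unfold Vp
  split_ifs with h
  · apply Finset.prod_eq_one
    intro p hp
    rw [mem_allP] at hp
    have : ¬ p ∣ n := fun hd => hp.2.2 (h p hp.2.1 hp.1 hd)
    simp [this]
  · unfold rough at h
    push Not at h
    obtain ⟨p, h1, h2, h3, h4⟩ := h
    exact Finset.prod_eq_zero (mem_allP.2 ⟨h2, h1, h4⟩) (by simp [h3])

lemma prod_ind_dvd (d n : ℕ) (hd : Squarefree d) :
    ∏ p ∈ d.primeFactors, (if p ∣ n then (1 : ℝ) else 0) = if d ∣ n then 1 else 0 := by
  classical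
  split_ifs with h
  · apply Finset.prod_eq_one
    intro p hp
    rw [if_pos ((Nat.dvd_of_mem_primeFactors hp).trans h)]
  · have : ∃ p ∈ d.primeFactors, ¬ p ∣ n := by
      by_contra hcon
      push Not at hcon
      apply h
      rw [← Nat.prod_primeFactors_of_squarefree hd]
      exact Finset.prod_primes_dvd n (fun p hp => (Nat.prime_of_mem_primeFactors hp).prime) hcon
    obtain ⟨p, hp, hpn⟩ := this
    exact Finset.prod_eq_zero hp (by simp [hpn])

lemma prod_gi (d : ℕ) (hd : Squarefree d) : ∏ p ∈ d.primeFactors, gi p = 1 / (d : ℝ) := by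
  unfold gi
  rw [Finset.prod_div_distrib, Finset.prod_const_one]
  congr 1
  conv_rhs => rw [← Nat.prod_primeFactors_of_squarefree hd]
  push_cast
  rfl

/-- **Fundamental lemma of the sieve** (Brun - Hooley form). -/
theorem fund_lemma : ∃ C0 : ℝ, 0 < C0 ∧ ∀ z : ℝ, 2 ≤ z → ∀ q : ℕ, 0 < q → ∀ β D : ℕ,
    z ^ (4 * β + 6) ≤ D → ∃ lam xi : ℕ → ℝ,
      (∀ d, lam d ≠ 0 → 1 ≤ d ∧ d ≤ D ∧ d.Coprime q) ∧ (∀ d, |lam d| ≤ 1) ∧
      (∀ d, xi d ≠ 0 → 1 ≤ d ∧ d ≤ D ∧ d.Coprime q) ∧ (∀ d, |xi d| ≤ Real.log z + 2) ∧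
      (∀ n : ℕ, rough z q n → (1 : ℝ) ≤ ∑ d ∈ Finset.Icc 1 D, lam d * (if d ∣ n then 1 else 0) ∧
        ∑ d ∈ Finset.Icc 1 D, lam d * (if d ∣ n then 1 else 0) - 1 ≤
          ∑ d ∈ Finset.Icc 1 D, xi d * (if d ∣ n then 1 else 0)) ∧
      (∀ n : ℕ, ¬ rough z q n → (0 : ℝ) ≤ ∑ d ∈ Finset.Icc 1 D, lam d * (if d ∣ n then 1 else 0) ∧
        ∑ d ∈ Finset.Icc 1 D, lam d * (if d ∣ n then 1 else 0) ≤
          ∑ d ∈ Finset.Icc 1 D, xi d * (if d ∣ n then 1 else 0)) ∧
      0 ≤ ∑ d ∈ Finset.Icc 1 D, lam d / (d : ℝ) ∧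
      ∑ d ∈ Finset.Icc 1 D, lam d / (d : ℝ) ≤ C0 * ((q : ℝ) / (q.totient : ℝ) / Real.log z) ∧
      ∑ d ∈ Finset.Icc 1 D, xi d / (d : ℝ) ≤ C0 / 4 ^ β * ((q : ℝ) / (q.totient : ℝ) / Real.log z) := by
  classical
  refine ⟨Real.exp (Real.exp 8 * Real.exp 8) * (Real.exp 8 * Real.exp 8 + 1), by positivity, ?_⟩
  intro z hz q hq β D hD
  set u := Real.log z with hu
  have hu0 : 0 < u := Real.log_pos (by linarith)
  have hq0 : (0 : ℝ) < q := by exact_mod_cast hq
  have hφ0 : (0 : ℝ) < (q.totient : ℝ) := by exact_mod_cast Nat.totient_pos.2 hq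
  set J := ⌈u⌉₊ + 1 with hJ
  have hJu : (J : ℝ) ≤ u + 2 := by
    rw [hJ]; push_cast
    have := Nat.ceil_lt_add_one hu0.le
    linarith
  have hJ2 : u / 2 ^ J ≤ Real.log 2 := by
    rw [div_le_iff₀ (by positivity)]
    have h1 : (⌈u⌉₊ + 1 : ℝ) ≤ 2 ^ ⌈u⌉₊ := by
      have : ⌈u⌉₊ + 1 ≤ 2 ^ ⌈u⌉₊ := Nat.lt_two_pow_self
      exact_mod_cast this
    have h2 : u ≤ ⌈u⌉₊ := Nat.le_ceil u
    have h3 : (0.5 : ℝ) ≤ Real.log 2 := by have := Real.log_two_gt_d9; linarith
    rw [hJ, pow_succ]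
    have h4 : (0 : ℝ) ≤ 2 ^ ⌈u⌉₊ := by positivity
    nlinarith
  set P := blk z q with hPdef
  have hPp : ∀ j, ∀ p ∈ P j, p.Prime := by
    intro j p hp
    rw [hPdef] at hp; unfold blk at hp
    exact (Finset.mem_filter.1 hp).2.1
  have hS : ∀ j, ∑ p ∈ P j, gi p ≤ 4 := by
    intro j
    apply block_sum (u / 2 ^ (j + 1))
    intro p hp
    rw [hPdef] at hp; unfold blk at hp
    obtain ⟨-, a, -, b, c⟩ := Finset.mem_filter.1 hp
    refine ⟨a, b, ?_⟩
    have : 2 * (u / 2 ^ (j + 1)) = u / 2 ^ j := by rw [pow_succ]; field_simp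
    rw [this]; exact c
  have hlogw : ∀ j, ∀ p ∈ P j, Real.log p ≤ u / 2 ^ j := by
    intro j p hp
    rw [hPdef] at hp; unfold blk at hp
    obtain ⟨-, -, -, -, c⟩ := Finset.mem_filter.1 hp
    exact c.le
  have hun : (range J).biUnion P = allP z q := blk_union z hz q J (by omega) hJ2
  obtain ⟨rY, rX⟩ := Rep_Yw P (fun j => β + j) (fun j => u / 2 ^ j) (fun j => by positivity) hlogw J
    (fun i _ j _ hij => blk_disjoint z hz q i j hij)
  rw [hun] at rY rX
  have hlev : ∑ j ∈ range J, (2 * ((β + j : ℕ) : ℝ) + 1) * (u / 2 ^ j) ≤ (4 * β + 6) * u := by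
    have h1 : ∑ j ∈ range J, (2 * ((β + j : ℕ) : ℝ) + 1) * (u / 2 ^ j) =
        u * ∑ j ∈ range J, ((2 * β + 1 : ℝ) + 2 * j) / 2 ^ j := by
      rw [Finset.mul_sum]
      apply Finset.sum_congr rfl
      intro j _
      push_cast; ring
    rw [h1]
    have h2 := level_sum (2 * β + 1) (by positivity) J
    nlinarith
  have hexpD : Real.exp ((4 * β + 6) * u) < D + 1 := by
    have h1 : Real.exp ((4 * β + 6) * u) = z ^ (4 * β + 6) := by
      have h2 : (4 * (β : ℝ) + 6) * u = ((4 * β + 6 : ℕ) : ℝ) * u := by push_cast; ring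
      rw [h2, Real.exp_nat_mul, hu, Real.exp_log (by linarith)]
    rw [h1]; linarith
  have hallp : ∀ p ∈ allP z q, p.Prime := fun p hp => (mem_allP.1 hp).2.1
  obtain ⟨lam, l1, l2, l3⟩ := (rY.mono hlev le_rfl).toInt hallp zero_le_one D hexpD
  obtain ⟨xi, x1, x2, x3⟩ := (rX.mono hlev le_rfl).toInt hallp (Nat.cast_nonneg J) D hexpD
  have hcop : ∀ d : ℕ, d.primeFactors ⊆ allP z q → Squarefree d → d.Coprime q := by
    intro d hd hsq
    rw [← Nat.disjoint_primeFactors (hsq.ne_zero) (by omega)]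
    rw [Finset.disjoint_left]
    intro p hp hp'
    exact (mem_allP.1 (hd hp)).2.2 (Nat.dvd_of_mem_primeFactors hp')
  -- evaluation at indicator functions
  have evl : ∀ n : ℕ, Yw P (fun j => β + j) J (fun p => if p ∣ n then 1 else 0) =
      ∑ d ∈ Finset.Icc 1 D, lam d * (if d ∣ n then 1 else 0) := by
    intro n
    rw [l3]
    apply Finset.sum_congr rfl
    intro d _
    by_cases h0 : lam d = 0
    · rw [h0, zero_mul, zero_mul]
    · rw [prod_ind_dvd d n (l2 d h0).2.2.1]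
  have evx : ∀ n : ℕ, Xw P (fun j => β + j) J (fun p => if p ∣ n then 1 else 0) =
      ∑ d ∈ Finset.Icc 1 D, xi d * (if d ∣ n then 1 else 0) := by
    intro n
    rw [x3]
    apply Finset.sum_congr rfl
    intro d _
    by_cases h0 : xi d = 0
    · rw [h0, zero_mul, zero_mul]
    · rw [prod_ind_dvd d n (x2 d h0).2.2.1]
  have evlg : Yw P (fun j => β + j) J gi = ∑ d ∈ Finset.Icc 1 D, lam d / (d : ℝ) := by
    rw [l3]
    apply Finset.sum_congr rfl
    intro d _
    by_cases h0 : lam d = 0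
    · rw [h0, zero_mul, zero_div]
    · rw [prod_gi d (l2 d h0).2.2.1]; ring
  have evxg : Xw P (fun j => β + j) J gi = ∑ d ∈ Finset.Icc 1 D, xi d / (d : ℝ) := by
    rw [x3]
    apply Finset.sum_congr rfl
    intro d _
    by_cases h0 : xi d = 0
    · rw [h0, zero_mul, zero_div]
    · rw [prod_gi d (x2 d h0).2.2.1]; ring
  have hprodV : ∀ g : ℕ → ℝ, ∏ j ∈ range J, Vp (P j) g = Vp (allP z q) g := by
    intro g
    unfold Vp
    rw [← hun, Finset.prod_biUnion]
    intro i _ j _ hij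
    exact blk_disjoint z hz q i j hij
  obtain ⟨m0, m1, m2, m3⟩ := main_terms P β hPp hS J
  rw [hprodV] at m0 m1
  have hVle := Vp_allP_le z hz q hq
  have hsE := sumE_bound P β J hPp hS
  set SE := ∑ j ∈ range J, Esym (2 * (β + j) + 1) (P j) gi with hSE
  have hSE0 : 0 ≤ SE := Finset.sum_nonneg fun j _ => Esym_nonneg _ _ _ (gi_mem (hPp j)).1
  have h4β : (1 : ℝ) ≤ 4 ^ β := one_le_pow₀ (by norm_num)
  have hSE1 : SE ≤ Real.exp 8 := hsE.trans (div_le_self (Real.exp_pos _).le h4β)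
  have hYle : Yw P (fun j => β + j) J gi ≤
      Real.exp (Real.exp 8 * Real.exp 8) * ((q : ℝ) / (q.totient : ℝ) / u) := by
    refine m1.trans ?_
    rw [mul_comm]
    apply mul_le_mul _ hVle m0.le (Real.exp_pos _).le
    apply Real.exp_le_exp.2
    exact mul_le_mul_of_nonneg_left hSE1 (Real.exp_pos _).le
  have hR0 : 0 ≤ (q : ℝ) / (q.totient : ℝ) / u := by positivity
  refine ⟨lam, xi, ?_, l1, ?_, ?_, ?_, ?_, ?_, ?_, ?_⟩
  · intro d hd
    obtain ⟨a, b, c, e⟩ := l2 d hd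
    exact ⟨a, b, hcop d e c⟩
  · intro d hd
    obtain ⟨a, b, c, e⟩ := x2 d hd
    exact ⟨a, b, hcop d e c⟩
  · intro d
    exact (x1 d).trans hJu
  · intro n hn
    obtain ⟨y0, y1, y2, -⟩ := Yw_sub_le P (fun j => β + j) (fun p => if p ∣ n then 1 else 0) J
      (fun j _ p _ => by split_ifs <;> norm_num) (fun j _ p _ => by split_ifs <;> norm_num)
    rw [hprodV, Vp_ind, if_pos hn, evl] at y1 y2
    rw [evx] at y2
    exact ⟨y1, y2⟩
  · intro n hn
    obtain ⟨y0, y1, y2, -⟩ := Yw_sub_le P (fun j => β + j) (fun p => if p ∣ n then 1 else 0) J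
      (fun j _ p _ => by split_ifs <;> norm_num) (fun j _ p _ => by split_ifs <;> norm_num)
    rw [hprodV, Vp_ind, if_neg hn, evl] at y1 y2
    rw [evx, sub_zero] at y2
    exact ⟨y1, y2⟩
  · rw [← evlg]; exact m3
  · rw [← evlg]
    refine hYle.trans ?_
    apply mul_le_mul_of_nonneg_right _ hR0
    have : 0 < Real.exp (Real.exp 8 * Real.exp 8) := Real.exp_pos _
    have : 0 < Real.exp 8 * Real.exp 8 := by positivity
    nlinarith
  · rw [← evxg]
    refine m2.trans ?_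
    have h1 : Real.exp 8 * SE ≤ Real.exp 8 * (Real.exp 8 / 4 ^ β) := mul_le_mul_of_nonneg_left hsE (Real.exp_pos _).le
    calc Yw P (fun j => β + j) J gi * (Real.exp 8 * SE) ≤
          (Real.exp (Real.exp 8 * Real.exp 8) * ((q : ℝ) / (q.totient : ℝ) / u)) *
            (Real.exp 8 * (Real.exp 8 / 4 ^ β)) :=
          mul_le_mul hYle h1 (by positivity) (by positivity)
      _ = Real.exp (Real.exp 8 * Real.exp 8) * (Real.exp 8 * Real.exp 8) / 4 ^ β *
            ((q : ℝ) / (q.totient : ℝ) / u) := by ring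
      _ ≤ _ := by
          apply mul_le_mul_of_nonneg_right _ hR0
          apply div_le_div_of_nonneg_right _ (by positivity)
          apply mul_le_mul_of_nonneg_left _ (Real.exp_pos _).le
          linarith

end Pool.Agent.Lib.Pe70ed2
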