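import Pool.Agent.Lib.Pe70ed2.SieveAlg

set_option autoImplicit false

namespace Pool.Agent.Lib.Pe70ed2

open Finset

lemma mertens_upper (n : ℕ) (hn : 1 ≤ n) :
    ∑ p ∈ n.primesLE, Real.log p / p ≤ Real.log n + Real.log 4 := by
  have hn0 : (0 : ℝ) < n := by exact_mod_cast hn
  have hpr : ∀ p ∈ n.primesLE, p.Prime ∧ p ≤ n := by
    intro p hp
    rw [Nat.primesLE_eq_filter_range, Finset.mem_filter, Finset.mem_range] at hp
    exact ⟨hp.2, by omega⟩
  have h1 : ∀ k ∈ Finset.Ioc 0 n, ∑ p ∈ n.primesLE, (if p ∣ k then Real.log p else 0) ≤ Real.log n := by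
    intro k hk
    rw [Finset.mem_Ioc] at hk
    rw [← Finset.sum_filter]
    calc ∑ p ∈ n.primesLE with p ∣ k, Real.log p ≤ ∑ p ∈ k.primeFactors, Real.log p := by
          apply Finset.sum_le_sum_of_subset_of_nonneg
          · intro p hp
            rw [Finset.mem_filter] at hp
            exact Nat.mem_primeFactors.2 ⟨(hpr p hp.1).1, hp.2, by omega⟩
          · intro p hp _
            exact Real.log_nonneg (by exact_mod_cast (Nat.prime_of_mem_primeFactors hp).one_le)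
      _ = Real.log (∏ p ∈ k.primeFactors, (p : ℝ)) := by
          rw [Real.log_prod]
          intro p hp
          exact_mod_cast (Nat.prime_of_mem_primeFactors hp).ne_zero
      _ ≤ Real.log n := by
          apply Real.log_le_log
          · apply Finset.prod_pos
            intro p hp
            exact_mod_cast (Nat.prime_of_mem_primeFactors hp).pos
          · have h2 : ∏ p ∈ k.primeFactors, p ≤ k := Nat.le_of_dvd hk.1 (Nat.prod_primeFactors_dvd k)
            calc (∏ p ∈ k.primeFactors, (p : ℝ)) = ((∏ p ∈ k.primeFactors, p : ℕ) : ℝ) := by push_cast; rfl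
              _ ≤ (k : ℝ) := by exact_mod_cast h2
              _ ≤ n := by exact_mod_cast hk.2
  have h2 : ∑ k ∈ Finset.Ioc 0 n, ∑ p ∈ n.primesLE, (if p ∣ k then Real.log p else 0) ≤ n * Real.log n := by
    have := Finset.sum_le_card_nsmul _ _ _ h1
    rwa [Nat.card_Ioc, nsmul_eq_mul, Nat.sub_zero] at this
  rw [Finset.sum_comm] at h2
  have h3 : ∀ p ∈ n.primesLE, ∑ k ∈ Finset.Ioc 0 n, (if p ∣ k then Real.log p else 0) =
      ((n / p : ℕ) : ℝ) * Real.log p := by
    intro p _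
    rw [← Finset.sum_filter, Finset.sum_const, Nat.Ioc_filter_dvd_card_eq_div, nsmul_eq_mul]
  rw [Finset.sum_congr rfl h3] at h2
  have h4 : ∀ p ∈ n.primesLE, (n : ℝ) * (Real.log p / p) - Real.log p ≤ ((n / p : ℕ) : ℝ) * Real.log p := by
    intro p hp
    have hp1 := (hpr p hp).1
    have hp0 : (0 : ℝ) < p := by exact_mod_cast hp1.pos
    have hlog : 0 ≤ Real.log p := Real.log_nonneg (by exact_mod_cast hp1.one_le)
    have h5 : (n : ℝ) / p - 1 ≤ ((n / p : ℕ) : ℝ) := by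
      have := Nat.lt_floor_add_one ((n : ℝ) / p)
      rw [Nat.floor_div_eq_div] at this
      linarith
    calc (n : ℝ) * (Real.log p / p) - Real.log p = ((n : ℝ) / p - 1) * Real.log p := by field_simp
      _ ≤ _ := mul_le_mul_of_nonneg_right h5 hlog
  have h5 := Finset.sum_le_sum h4
  rw [Finset.sum_sub_distrib, ← Finset.mul_sum] at h5
  have h6 : ∑ p ∈ n.primesLE, Real.log p ≤ Real.log 4 * n := by
    have := Chebyshev.theta_le_log4_mul_x (x := (n : ℝ)) (Nat.cast_nonneg n)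
    rwa [Chebyshev.theta_eq_sum_primesLE_log] at this
  have h7 : (n : ℝ) * ∑ p ∈ n.primesLE, Real.log p / p ≤ n * (Real.log n + Real.log 4) := by
    linarith
  exact le_of_mul_le_mul_left h7 hn0

/-- Reciprocals. -/
noncomputable def gi : ℕ → ℝ := fun p => 1 / (p : ℝ)

lemma gi_mem {P : Finset ℕ} (hP : ∀ p ∈ P, p.Prime) : (∀ p ∈ P, 0 ≤ gi p) ∧ (∀ p ∈ P, gi p ≤ 1) := by
  constructor
  · intro p _; unfold gi; positivity
  · intro p hp
    unfold gi
    have : (1 : ℝ) ≤ p := by exact_mod_cast (hP p hp).one_le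
    rw [div_le_one (by linarith)]; exact this

lemma block_sum (v : ℝ) (P : Finset ℕ)
    (hP : ∀ p ∈ P, p.Prime ∧ v ≤ Real.log p ∧ Real.log p < 2 * v) : ∑ p ∈ P, gi p ≤ 4 := by
  rcases P.eq_empty_or_nonempty with rfl | ⟨p0, hp0⟩
  · simp
  have hv : 0 < v := by
    have h1 := hP p0 hp0
    have h2 : 0 ≤ Real.log p0 := Real.log_nonneg (by exact_mod_cast h1.1.one_le)
    linarith [h1.2.2]
  have hlog2 : 0 < Real.log 2 := Real.log_pos (by norm_num)
  set m := max v (Real.log 2) with hm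
  have hm0 : 0 < m := lt_of_lt_of_le hv (le_max_left _ _)
  set n := ⌊Real.exp (2 * v)⌋₊ with hn
  have hn1 : 1 ≤ n := by
    rw [hn, Nat.one_le_floor_iff]
    exact Real.one_le_exp (by linarith)
  have hnle : (n : ℝ) ≤ Real.exp (2 * v) := Nat.floor_le (Real.exp_pos _).le
  have hsub : P ⊆ n.primesLE := by
    intro p hp
    have h1 := hP p hp
    rw [Nat.primesLE_eq_filter_range, Finset.mem_filter, Finset.mem_range]
    refine ⟨?_, h1.1⟩
    have h2 : (p : ℝ) ≤ Real.exp (2 * v) := by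
      have hp0 : (0 : ℝ) < p := by exact_mod_cast h1.1.pos
      rw [← Real.exp_log hp0]
      exact Real.exp_le_exp.2 h1.2.2.le
    have := Nat.le_floor h2
    omega
  have h1 : ∑ p ∈ P, gi p ≤ ∑ p ∈ P, (Real.log p / p) / m := by
    apply Finset.sum_le_sum
    intro p hp
    have h2 := hP p hp
    have hp0 : (0 : ℝ) < p := by exact_mod_cast h2.1.pos
    unfold gi
    rw [div_div, div_le_div_iff₀ hp0 (by positivity), one_mul, mul_comm]
    apply mul_le_mul_of_nonneg_right _ hp0.le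
    apply max_le h2.2.1
    apply Real.log_le_log (by norm_num)
    exact_mod_cast h2.1.two_le
  have h2 : ∑ p ∈ P, (Real.log p / p) / m ≤ (∑ p ∈ n.primesLE, Real.log p / p) / m := by
    rw [← Finset.sum_div]
    apply div_le_div_of_nonneg_right _ hm0.le
    apply Finset.sum_le_sum_of_subset_of_nonneg hsub
    intro p _ _
    exact div_nonneg (Real.log_natCast_nonneg p) (Nat.cast_nonneg p)
  have h3 := mertens_upper n hn1
  have h4 : Real.log n ≤ 2 * v := by
    have h5 : (0 : ℝ) < n := by exact_mod_cast hn1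
    calc Real.log n ≤ Real.log (Real.exp (2 * v)) := Real.log_le_log h5 hnle
      _ = 2 * v := Real.log_exp _
  have h5 : Real.log 4 = 2 * Real.log 2 := by
    rw [show (4 : ℝ) = 2 ^ 2 by norm_num, Real.log_pow]; norm_num
  refine h1.trans (h2.trans ?_)
  rw [div_le_iff₀ hm0]
  have h6 : v ≤ m := le_max_left _ _
  have h7 : Real.log 2 ≤ m := le_max_right _ _
  linarith

lemma V_lower (P : Finset ℕ) (hP : ∀ p ∈ P, p.Prime) (hS : ∑ p ∈ P, gi p ≤ 4) :
    Real.exp (-8) ≤ Vp P gi := by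
  have h1 : ∀ p ∈ P, Real.exp (-(2 * gi p)) ≤ 1 - gi p := by
    intro p hp
    have h2 : (2 : ℝ) ≤ p := by exact_mod_cast (hP p hp).two_le
    have hp0 : (0 : ℝ) < p := by linarith
    have h3 : gi p ≤ 1 / 2 := by
      unfold gi
      exact one_div_le_one_div_of_le (by norm_num) h2
    have h4 : 0 ≤ gi p := by unfold gi; positivity
    have h5 : 0 < 1 - gi p := by linarith
    have h6 := Real.one_sub_inv_le_log_of_pos h5
    have h7 : -(2 * gi p) ≤ 1 - (1 - gi p)⁻¹ := by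
      have h8 : (1 - gi p)⁻¹ ≤ 1 + 2 * gi p := by
        rw [inv_le_iff_one_le_mul₀ h5]
        nlinarith
      linarith
    calc Real.exp (-(2 * gi p)) ≤ Real.exp (Real.log (1 - gi p)) := Real.exp_le_exp.2 (h7.trans h6)
      _ = 1 - gi p := Real.exp_log h5
  calc Real.exp (-8) ≤ Real.exp (∑ p ∈ P, -(2 * gi p)) := by
        apply Real.exp_le_exp.2
        rw [Finset.sum_neg_distrib, ← Finset.mul_sum]
        linarith
    _ = ∏ p ∈ P, Real.exp (-(2 * gi p)) := Real.exp_sum _ _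
    _ ≤ Vp P gi := by
        unfold Vp
        exact Finset.prod_le_prod (fun p _ => (Real.exp_pos _).le) h1

lemma E_bound (P : Finset ℕ) (hP : ∀ p ∈ P, p.Prime) (hS : ∑ p ∈ P, gi p ≤ 4) (i : ℕ) :
    Esym i P gi ≤ Real.exp 8 / 2 ^ i := by
  have h1 := Esym_le P gi (gi_mem hP).1 i
  have h0 : 0 ≤ ∑ p ∈ P, gi p := Finset.sum_nonneg (gi_mem hP).1
  have hf : (0 : ℝ) < (i.factorial : ℝ) := by exact_mod_cast Nat.factorial_pos i
  have h2 : (∑ p ∈ P, gi p) ^ i / (i.factorial : ℝ) ≤ 4 ^ i / (i.factorial : ℝ) :=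
    div_le_div_of_nonneg_right (pow_le_pow_left₀ h0 hS i) hf.le
  have h3 := Real.pow_div_factorial_le_exp (x := 8) (by norm_num) i
  refine h1.trans (h2.trans ?_)
  rw [le_div_iff₀ (by positivity)]
  calc (4 : ℝ) ^ i / (i.factorial : ℝ) * 2 ^ i = 8 ^ i / (i.factorial : ℝ) := by
        rw [div_mul_eq_mul_div, ← mul_pow]; norm_num
    _ ≤ _ := h3

lemma sumE_bound (P : ℕ → Finset ℕ) (β J : ℕ) (hP : ∀ j, ∀ p ∈ P j, p.Prime)
    (hS : ∀ j, ∑ p ∈ P j, gi p ≤ 4) :
    ∑ j ∈ range J, Esym (2 * (β + j) + 1) (P j) gi ≤ Real.exp 8 / 4 ^ β := by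
  have h1 : ∀ j, Esym (2 * (β + j) + 1) (P j) gi ≤ Real.exp 8 / 4 ^ β * (1 / 2 * (1 / 4) ^ j) := by
    intro j
    refine (E_bound (P j) (hP j) (hS j) _).trans (le_of_eq ?_)
    rw [pow_succ, pow_mul, pow_add]
    norm_num
    field_simp
    rw [← mul_pow]
    norm_num
  have h2 : ∀ J : ℕ, ∑ j ∈ range J, (1 / 2 * (1 / 4 : ℝ) ^ j) ≤ 2 / 3 * (1 - (1 / 4) ^ J) := by
    intro J
    induction J with
    | zero => simp
    | succ J ih =>
      rw [Finset.sum_range_succ]
      have : (1 / 4 : ℝ) ^ (J + 1) = (1 / 4) ^ J * (1 / 4) := pow_succ _ _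
      rw [this]
      linarith
  calc ∑ j ∈ range J, Esym (2 * (β + j) + 1) (P j) gi ≤
        ∑ j ∈ range J, Real.exp 8 / 4 ^ β * (1 / 2 * (1 / 4) ^ j) := Finset.sum_le_sum fun j _ => h1 j
    _ = Real.exp 8 / 4 ^ β * ∑ j ∈ range J, (1 / 2 * (1 / 4 : ℝ) ^ j) := by rw [Finset.mul_sum]
    _ ≤ Real.exp 8 / 4 ^ β * 1 := by
        apply mul_le_mul_of_nonneg_left _ (by positivity)
        have h3 := h2 J
        have h4 : (0 : ℝ) ≤ (1 / 4) ^ J := by positivity
        linarith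
    _ = _ := mul_one _

/-- Main terms of the sieve. -/
lemma main_terms (P : ℕ → Finset ℕ) (β : ℕ) (hP : ∀ j, ∀ p ∈ P j, p.Prime)
    (hS : ∀ j, ∑ p ∈ P j, gi p ≤ 4) (J : ℕ) :
    0 < ∏ j ∈ range J, Vp (P j) gi ∧
    Yw P (fun j => β + j) J gi ≤ (∏ j ∈ range J, Vp (P j) gi) *
      Real.exp (Real.exp 8 * ∑ j ∈ range J, Esym (2 * (β + j) + 1) (P j) gi) ∧
    Xw P (fun j => β + j) J gi ≤ Yw P (fun j => β + j) J gi *
      (Real.exp 8 * ∑ j ∈ range J, Esym (2 * (β + j) + 1) (P j) gi) ∧ 0 ≤ Yw P (fun j => β + j) J gi := by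
  induction J with
  | zero => simp [Yw, Xw_zero]
  | succ J ih =>
    obtain ⟨i0, i1, i2, i3⟩ := ih
    rw [Finset.prod_range_succ, Finset.sum_range_succ, Yw_succ, Xw_succ]
    set Y := Yw P (fun j => β + j) J gi
    set X := Xw P (fun j => β + j) J gi
    set VV := ∏ j ∈ range J, Vp (P j) gi
    set SE := ∑ j ∈ range J, Esym (2 * (β + j) + 1) (P j) gi
    obtain ⟨g0, g1⟩ := gi_mem (hP J)
    obtain ⟨b1, b2⟩ := bonferroni_odd (P J) gi (β + J) g0 g1
    have vl := V_lower (P J) (hP J) (hS J)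
    have e0 := Esym_nonneg (2 * (β + J) + 1) (P J) gi g0
    set T := Tr (2 * (β + J) + 1) (P J) gi
    set V := Vp (P J) gi
    set E := Esym (2 * (β + J) + 1) (P J) gi
    have hexp : Real.exp (-8) * Real.exp 8 = 1 := by rw [← Real.exp_add]; simp
    have hV0 : 0 < V := lt_of_lt_of_le (Real.exp_pos _) vl
    have hT0 : 0 < T := lt_of_lt_of_le hV0 b1
    have hVe : 1 ≤ V * Real.exp 8 := by
      rw [← hexp]
      exact mul_le_mul_of_nonneg_right vl (Real.exp_pos _).le
    have hE1 : E ≤ V * Real.exp 8 * E := le_mul_of_one_le_left e0 hVe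
    refine ⟨mul_pos i0 hV0, ?_, ?_, mul_nonneg i3 hT0.le⟩
    · have h1 : T ≤ V * Real.exp (Real.exp 8 * E) := by
        calc T ≤ V + E := b2
          _ ≤ V * (Real.exp 8 * E + 1) := by linarith
          _ ≤ V * Real.exp (Real.exp 8 * E) :=
            mul_le_mul_of_nonneg_left (Real.add_one_le_exp _) hV0.le
      calc Y * T ≤ (VV * Real.exp (Real.exp 8 * SE)) * (V * Real.exp (Real.exp 8 * E)) :=
            mul_le_mul i1 h1 hT0.le (by positivity)
        _ = VV * V * Real.exp (Real.exp 8 * (SE + E)) := by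
            rw [mul_add, Real.exp_add]; ring
    · have h1 : X * T ≤ Y * (Real.exp 8 * SE) * T := mul_le_mul_of_nonneg_right i2 hT0.le
      have h2 : Y * E ≤ Y * (T * Real.exp 8 * E) := by
        apply mul_le_mul_of_nonneg_left _ i3
        refine hE1.trans ?_
        apply mul_le_mul_of_nonneg_right _ e0
        exact mul_le_mul_of_nonneg_right b1 (Real.exp_pos _).le
      calc X * T + Y * E ≤ Y * (Real.exp 8 * SE) * T + Y * (T * Real.exp 8 * E) := add_le_add h1 h2
        _ = _ := by ring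

/-- `log N ≤ ∏_{p < N} (1 - 1/p)⁻¹`. -/
lemma log_le_prod (N : ℕ) (hN : 1 ≤ N) : Real.log N ≤ ∏ p ∈ N.primesBelow, (1 - gi p)⁻¹ := by
  set f : ℕ →*₀ ℝ :=
    { toFun := fun n => (n : ℝ)⁻¹
      map_zero' := by simp
      map_one' := by simp
      map_mul' := fun a b => by push_cast; rw [mul_inv] } with hf
  have hfl : ∀ {p : ℕ}, p.Prime → ‖f p‖ < 1 := by
    intro p hp
    have : (1 : ℝ) < p := by exact_mod_cast hp.one_lt
    change ‖(p : ℝ)⁻¹‖ < 1
    rw [norm_inv, Real.norm_of_nonneg (by linarith)]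
    exact inv_lt_one_of_one_lt₀ this
  have h1 := EulerProduct.summable_and_hasSum_smoothNumbers_prod_primesBelow_geometric
    (f := (f : ℕ →* ℝ)) hfl N
  have h2 := h1.2
  have h3 : ∏ p ∈ N.primesBelow, (1 - gi p)⁻¹ = ∏ p ∈ N.primesBelow, (1 - (f : ℕ →* ℝ) p)⁻¹ := by
    apply Finset.prod_congr rfl
    intro p _
    change (1 - gi p)⁻¹ = (1 - (p : ℝ)⁻¹)⁻¹
    rw [gi, one_div]
  rw [h3]
  -- harmonic sum
  set s : Finset N.smoothNumbers := (Finset.Icc 1 (N - 1)).attach.image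
    (fun k : {x // x ∈ Finset.Icc 1 (N - 1)} =>
    (⟨k.1, by
      have := Finset.mem_Icc.1 k.2
      exact Nat.mem_smoothNumbers_of_lt (by omega) (by omega)⟩ : N.smoothNumbers)) with hs
  have h4 : ∑ m ∈ s, (f : ℕ →* ℝ) m = ∑ k ∈ Finset.Icc 1 (N - 1), ((k : ℝ))⁻¹ := by
    rw [hs, Finset.sum_image]
    · rw [← Finset.sum_attach (Finset.Icc 1 (N - 1))]
      rfl
    · intro a _ b _ hab
      simp only [Subtype.mk.injEq] at hab
      exact Subtype.ext hab
  have h5 := sum_le_hasSum s (fun m _ => by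
    change (0 : ℝ) ≤ ((m : ℕ) : ℝ)⁻¹
    positivity) h2
  rw [h4] at h5
  refine le_trans ?_ h5
  have h6 := log_add_one_le_harmonic (N - 1)
  rw [show N - 1 + 1 = N by omega] at h6
  refine h6.trans (le_of_eq ?_)
  rw [harmonic_eq_sum_Icc]
  push_cast
  rfl

end Pool.Agent.Lib.Pe70ed2
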