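import Pool.Agent.Lib.Pe70ed2.Core2

set_option autoImplicit false

namespace Pool.Agent.Lib.Pe70ed2

open MeasureTheory Filter Topology

lemma dX_bdd (X : Set ℤ) (m : ℕ) (hm : 1 ≤ m) :
    ∀ k ∈ {k : ℕ | ∃ B : Finset (ZMod m), (∀ a ∈ B, ∀ b ∈ B, a - b ∉ Xmod X m) ∧ B.card = k}, k ≤ m := by
  rintro k ⟨B, -, rfl⟩
  have : NeZero m := ⟨by omega⟩
  have := Finset.card_le_univ B
  simpa [ZMod.card] using this

lemma le_dX (X : Set ℤ) (m : ℕ) (hm : 1 ≤ m) (B : Finset (ZMod m))
    (hB : ∀ a ∈ B, ∀ b ∈ B, a - b ∉ Xmod X m) : B.card ≤ dX X m :=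
  le_csSup ⟨m, dX_bdd X m hm⟩ ⟨B, hB, rfl⟩

lemma dX_attained (X : Set ℤ) (m : ℕ) (hm : 1 ≤ m) :
    ∃ B : Finset (ZMod m), (∀ a ∈ B, ∀ b ∈ B, a - b ∉ Xmod X m) ∧ B.card = dX X m := by
  have hne : {k : ℕ | ∃ B : Finset (ZMod m), (∀ a ∈ B, ∀ b ∈ B, a - b ∉ Xmod X m) ∧ B.card = k}.Nonempty :=
    ⟨0, ∅, by simp, by simp⟩
  exact Nat.sSup_mem hne ⟨m, dX_bdd X m hm⟩

lemma dX_le (X : Set ℤ) (m : ℕ) (hm : 1 ≤ m) : dX X m ≤ m :=
  csSup_le' (dX_bdd X m hm)

lemma ratio_bdd (X : Set ℤ) : BddAbove (Set.range fun m : ℕ+ => (dX X m : ℝ) / (m : ℕ)) := by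
  refine ⟨1, ?_⟩
  rintro _ ⟨m, rfl⟩
  have h1 : (0 : ℝ) < (m : ℕ) := by exact_mod_cast m.pos
  simp only
  rw [div_le_one h1]
  exact_mod_cast dX_le X m m.pos

lemma upperDensity_nonneg (A : Set ℕ) : 0 ≤ upperDensity A := by
  unfold upperDensity
  refine le_limsup_of_frequently_le (Frequently.of_forall fun N => ratio_nonneg A N) ?_
  exact isBoundedUnder_of ⟨1, fun N => ratio_le_one A N⟩

lemma upperDensity_le_one (A : Set ℕ) : upperDensity A ≤ 1 := by
  unfold upperDensity
  refine limsup_le_of_le ?_ (Eventually.of_forall fun N => ratio_le_one A N)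
  exact (isBoundedUnder_of ⟨0, fun N => ratio_nonneg A N⟩ :
    IsBoundedUnder (· ≥ ·) atTop _).isCoboundedUnder_le

lemma mu_set_bdd (X : Set ℤ) :
    BddAbove {d : ℝ | ∃ A : Set ℕ, 0 ∉ A ∧ Avoids A X ∧ d = upperDensity A} := by
  refine ⟨1, ?_⟩
  rintro d ⟨A, -, -, rfl⟩
  exact upperDensity_le_one A

/-- The easy inequality. -/
lemma ratio_le_mu (X : Set ℤ) (m : ℕ+) : (dX X m : ℝ) / (m : ℕ) ≤ mu X := by
  classical
  obtain ⟨B, hB, hBc⟩ := dX_attained X m m.pos
  set A : Set ℕ := {n | 0 < n ∧ ((n : ℕ) : ZMod m) ∈ B} with hA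
  have hav : Avoids A X := by
    intro a ha b hb hx
    by_contra hne
    apply hB _ ha.2 _ hb.2
    refine ⟨(a : ℤ) - b, hx, hne, ?_⟩
    push_cast; rfl
  have hmem : upperDensity A ∈ {d : ℝ | ∃ A : Set ℕ, 0 ∉ A ∧ Avoids A X ∧ d = upperDensity A} :=
    ⟨A, by simp [hA], hav, rfl⟩
  refine le_trans ?_ (le_csSup (mu_set_bdd X) hmem)
  have hmpos : (0 : ℝ) < (m : ℕ) := by exact_mod_cast m.pos
  -- ratio at multiples of m
  have hratio : ∀ K : ℕ, ((A ∩ Set.Icc 1 (K * m)).ncard) = K * B.card := by
    intro K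
    induction K with
    | zero =>
      have : A ∩ Set.Icc 1 (0 * (m : ℕ)) = ∅ := by
        ext n; simp
      rw [this]; simp
    | succ K ih =>
      have hsplit : A ∩ Set.Icc 1 ((K + 1) * (m : ℕ)) = (A ∩ Set.Icc 1 (K * (m : ℕ))) ∪
          (A ∩ Set.Icc (K * (m : ℕ) + 1) ((K + 1) * (m : ℕ))) := by
        rw [← Set.inter_union_distrib_left]
        congr 1
        ext n
        simp only [Set.mem_Icc, Set.mem_union]
        have : (K + 1) * (m : ℕ) = K * m + m := by ring
        rw [this]
        omega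
      rw [hsplit, Set.ncard_union_eq]
      · rw [ih]
        have : (A ∩ Set.Icc (K * (m : ℕ) + 1) ((K + 1) * (m : ℕ))).ncard = B.card := by
          have himg : (A ∩ Set.Icc (K * (m : ℕ) + 1) ((K + 1) * (m : ℕ))) =
              ↑(((Finset.Icc (K * (m : ℕ) + 1) ((K + 1) * (m : ℕ))).filter (fun n : ℕ => ((n : ℕ) : ZMod m) ∈ B))) := by
            ext n
            simp only [hA, Set.mem_inter_iff, Set.mem_ofPred_eq, Set.mem_Icc, Finset.coe_filter,
              Finset.mem_Icc]
            constructor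
            · rintro ⟨⟨_, h2⟩, h3⟩; exact ⟨h3, h2⟩
            · rintro ⟨h3, h2⟩; exact ⟨⟨by omega, h2⟩, h3⟩
          rw [himg, Set.ncard_coe_finset]
          apply Finset.card_bij (fun (n : ℕ) _ => ((n : ℕ) : ZMod m))
          · intro n hn
            exact (Finset.mem_filter.1 hn).2
          · intro n hn n' hn' h
            rw [Finset.mem_filter, Finset.mem_Icc] at hn hn'
            have h2 : n ≡ n' [MOD m] := (ZMod.natCast_eq_natCast_iff _ _ _).1 h
            have h3 : (K + 1) * (m : ℕ) = K * m + m := by ring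
            rw [h3] at hn hn'
            -- both in an interval of length m
            rcases le_total n n' with hle | hle
            · have h4 := (Nat.modEq_iff_dvd' hle).1 h2
              have h5 : n' - n < m := by omega
              have := Nat.eq_zero_of_dvd_of_lt h4 h5
              omega
            · have h4 := (Nat.modEq_iff_dvd' hle).1 h2.symm
              have h5 : n - n' < m := by omega
              have := Nat.eq_zero_of_dvd_of_lt h4 h5
              omega
          · intro b hb
            have : NeZero (m : ℕ) := ⟨m.ne_zero⟩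
            have hval := ZMod.val_lt b
            by_cases h0 : b.val = 0
            · refine ⟨(K + 1) * (m : ℕ), ?_, ?_⟩
              · rw [Finset.mem_filter, Finset.mem_Icc]
                have hm1 := m.pos
                refine ⟨⟨by nlinarith, le_rfl⟩, ?_⟩
                have : (((K + 1) * (m : ℕ) : ℕ) : ZMod m) = b := by
                  push_cast
                  rw [ZMod.natCast_self, mul_zero]
                  exact ((ZMod.val_eq_zero b).1 h0).symm
                rw [this]; exact hb
              · push_cast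
                rw [ZMod.natCast_self, mul_zero]
                exact ((ZMod.val_eq_zero b).1 h0).symm
            · refine ⟨K * m + b.val, ?_, ?_⟩
              · rw [Finset.mem_filter, Finset.mem_Icc]
                have h3 : (K + 1) * (m : ℕ) = K * m + m := by ring
                refine ⟨⟨by omega, by omega⟩, ?_⟩
                have : ((K * (m : ℕ) + b.val : ℕ) : ZMod m) = b := by
                  push_cast
                  rw [ZMod.natCast_self, mul_zero, zero_add, ZMod.natCast_zmod_val]
                rw [this]; exact hb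
              · push_cast
                rw [ZMod.natCast_self, mul_zero, zero_add, ZMod.natCast_zmod_val]
        rw [this]; ring
      · rw [Set.disjoint_left]
        rintro n ⟨_, h1⟩ ⟨_, h2⟩
        simp only [Set.mem_Icc] at h1 h2
        omega
  unfold upperDensity
  refine le_limsup_of_frequently_le ?_ (isBoundedUnder_of ⟨1, fun N => ratio_le_one A N⟩)
  rw [frequently_atTop]
  intro a
  refine ⟨(a + 1) * m, ?_, ?_⟩
  · have := m.pos; nlinarith
  · rw [hratio (a + 1), hBc]
    apply le_of_eq
    push_cast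
    have : (0 : ℝ) < (a : ℝ) + 1 := by positivity
    rw [div_eq_div_iff hmpos.ne' (by positivity)]
    ring

/-- **Soft theorem.** If for every modulus all but finitely many nonzero elements of `X` lie in a
good class, then `μ(X)` is the supremum of the periodic densities. -/
theorem soft (X : Set ℤ)
    (hX : ∀ m : ℕ, 1 ≤ m → {x : ℤ | x ∈ X ∧ x ≠ 0 ∧ ¬ GoodClass X m x}.Finite) :
    mu X = ⨆ m : ℕ+, (dX X m : ℝ) / (m : ℕ) := by
  apply le_antisymm
  · -- the hard inequality
    apply csSup_le
    · exact ⟨upperDensity ∅, ∅, by simp, by intro a ha; simp at ha, rfl⟩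
    rintro d ⟨A, hA0, hAv, rfl⟩
    apply le_of_forall_pos_le_add
    intro ε hε
    have hsup0 : 0 ≤ ⨆ m : ℕ+, (dX X m : ℝ) / (m : ℕ) := by
      refine le_trans ?_ (le_ciSup (ratio_bdd X) 1)
      positivity
    by_cases hδ : upperDensity A ≤ ε
    · linarith
    push Not at hδ
    obtain ⟨μ, hprob, hT, hcyl, hnull⟩ := correspondence A
    have hXn : ∀ x ∈ X, x ≠ 0 → μ (cyl ∩ shift x ⁻¹' cyl) = 0 := by
      intro x hx hx0
      apply hnull
      intro a ha b hb hab
      rw [← hab] at hx hx0
      exact hx0 (hAv b hb a ha hx)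
    obtain ⟨m, hm1, hcore⟩ := core hT X hXn ε hε (by rw [hcyl]; exact hδ)
    rw [hcyl] at hcore
    -- the exceptional finite set
    have hfin := hX m hm1
    obtain ⟨K₀, hK₀⟩ : ∃ K₀ : ℕ, ∀ x ∈ {x : ℤ | x ∈ X ∧ x ≠ 0 ∧ ¬ GoodClass X m x}, |x| < m * K₀ := by
      obtain ⟨C, hC⟩ := hfin.bddAbove
      obtain ⟨C', hC'⟩ := hfin.bddBelow
      refine ⟨(max |C| |C'|).toNat + 1, fun x hx => ?_⟩
      have h1 := hC hx
      have h2 := hC' hx
      have h3 : |x| ≤ max |C| |C'| := by
        rw [abs_le]
        constructor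
        · have := neg_abs_le C'
          have h4 : |C'| ≤ max |C| |C'| := le_max_right _ _
          linarith
        · have := le_abs_self C
          have h4 : |C| ≤ max |C| |C'| := le_max_left _ _
          linarith
      have h5 : max |C| |C'| ≤ ((max |C| |C'|).toNat : ℤ) := Int.self_le_toNat _
      have h6 : (1 : ℤ) ≤ m := by exact_mod_cast hm1
      push_cast
      have h7 : (0 : ℤ) ≤ ((max |C| |C'|).toNat : ℤ) := Int.natCast_nonneg _
      nlinarith
    -- for every K
    have hK : ∀ K : ℕ, 1 ≤ K → (upperDensity A - ε) * (K / (K + K₀)) ≤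
        ⨆ m : ℕ+, (dX X m : ℝ) / (m : ℕ) := by
      intro K hK1
      obtain ⟨ω, S, hS1, hS2, hS3, hS4⟩ := hcore K hK1
      set M : ℕ := m * (K + K₀) with hM
      have hM1 : 1 ≤ M := Nat.mul_pos hm1 (by omega)
      have hMz : NeZero M := ⟨by omega⟩
      set T : Set ℕ := {n : ℕ | n < K * m ∧ (n : ℤ) ∈ S ∧ ω n = true} with hTdef
      have hTfin : T.Finite := (Set.finite_lt_nat (K * m)).subset fun n hn => hn.1
      classical
      set B : Finset (ZMod M) := hTfin.toFinset.image (fun n : ℕ => (n : ZMod M)) with hBdef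
      have hinj : Set.InjOn (fun n : ℕ => (n : ZMod M)) (hTfin.toFinset : Set ℕ) := by
        intro n hn n' hn' h
        rw [Finset.mem_coe, Set.Finite.mem_toFinset] at hn hn'
        have h2 : n ≡ n' [MOD M] := (ZMod.natCast_eq_natCast_iff _ _ _).1 h
        have hn1 : n < M := by
          have := hn.1
          calc n < K * m := this
            _ ≤ m * (K + K₀) := by nlinarith
        have hn1' : n' < M := by
          have := hn'.1
          calc n' < K * m := this
            _ ≤ m * (K + K₀) := by nlinarith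
        exact Nat.ModEq.eq_of_lt_of_lt h2 hn1 hn1'
      have hBcard : B.card = T.ncard := by
        rw [hBdef, Finset.card_image_of_injOn hinj, Set.ncard_eq_toFinset_card T hTfin]
      have hBav : ∀ a ∈ B, ∀ b ∈ B, a - b ∉ Xmod X M := by
        intro a ha b hb hab
        rw [hBdef, Finset.mem_image] at ha hb
        obtain ⟨n, hn, rfl⟩ := ha
        obtain ⟨n', hn', rfl⟩ := hb
        rw [Set.Finite.mem_toFinset] at hn hn'
        obtain ⟨x, hx, hx0, hxe⟩ := hab
        have hcong : x ≡ (n : ℤ) - n' [ZMOD (M : ℤ)] := by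
          rw [← ZMod.intCast_eq_intCast_iff]
          rw [hxe]; push_cast; rfl
        have hcongm : x ≡ (n : ℤ) - n' [ZMOD (m : ℤ)] := by
          apply hcong.of_dvd
          rw [hM]; push_cast; exact Dvd.intro _ rfl
        have hng : ¬ GoodClass X m x := by
          intro hg
          exact hS2 n' hn'.2.1 n hn.2.1 (hg.congr hcongm)
        have hxs := hK₀ x ⟨hx, hx0, hng⟩
        have hdvd : (M : ℤ) ∣ ((n : ℤ) - n' - x) := hcong.dvd
        have hn1 : (n : ℤ) < K * m := by exact_mod_cast hn.1
        have hn1' : (n' : ℤ) < K * m := by exact_mod_cast hn'.1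
        have hn0 : (0 : ℤ) ≤ n := Int.natCast_nonneg _
        have hn0' : (0 : ℤ) ≤ n' := Int.natCast_nonneg _
        have hzero : (n : ℤ) - n' - x = 0 := by
          apply Int.eq_zero_of_abs_lt_dvd hdvd
          have hx1 := abs_lt.1 hxs
          rw [abs_lt]
          rw [hM]; push_cast
          constructor <;> nlinarith
        have hxeq : (n : ℤ) - n' = x := by linarith
        have := hS3 n' n hn'.2.2 hn.2.2 (by rw [hxeq]; exact hx)
        rw [hxeq] at this
        exact hx0 this
      have h1 : B.card ≤ dX X M := le_dX X M hM1 B hBav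
      have h2 : (dX X M : ℝ) / (M : ℕ) ≤ ⨆ m : ℕ+, (dX X m : ℝ) / (m : ℕ) :=
        le_ciSup (ratio_bdd X) (⟨M, hM1⟩ : ℕ+)
      refine le_trans ?_ h2
      have hMpos : (0 : ℝ) < M := by exact_mod_cast hM1
      rw [le_div_iff₀ hMpos]
      have h3 : ((T.ncard : ℕ) : ℝ) ≤ dX X M := by rw [← hBcard]; exact_mod_cast h1
      refine le_trans ?_ (hS4.trans h3)
      have hKpos : (0 : ℝ) < K := by exact_mod_cast hK1
      have hK₀pos : (0 : ℝ) ≤ K₀ := Nat.cast_nonneg _
      rw [hM]; push_cast
      have : (K : ℝ) / (K + K₀) * (m * (K + K₀)) = K * m := by field_simp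
      rw [mul_assoc, this]
    -- let K → ∞
    have hlim : Tendsto (fun K : ℕ => (upperDensity A - ε) * ((K : ℝ) / (K + K₀))) atTop
        (𝓝 ((upperDensity A - ε) * 1)) := by
      apply Tendsto.const_mul
      have h1 : Tendsto (fun K : ℕ => (1 : ℝ) - K₀ * ((K : ℝ) + K₀)⁻¹) atTop (𝓝 (1 - K₀ * 0)) := by
        apply Tendsto.const_sub
        apply Tendsto.const_mul
        apply Tendsto.comp tendsto_inv_atTop_zero
        exact tendsto_atTop_add_const_right _ _ tendsto_natCast_atTop_atTop
      rw [mul_zero, sub_zero] at h1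
      refine h1.congr' ?_
      filter_upwards [eventually_ge_atTop 1] with K hK1
      have hKpos : (0 : ℝ) < K := by exact_mod_cast hK1
      have hK₀pos : (0 : ℝ) ≤ K₀ := Nat.cast_nonneg _
      field_simp
      ring
    rw [mul_one] at hlim
    have := le_of_tendsto hlim (by
      filter_upwards [eventually_ge_atTop 1] with K hK1 using hK K hK1)
    linarith
  · exact ciSup_le fun m => ratio_le_mu X m

end Pool.Agent.Lib.Pe70ed2
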