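import Pool.Agent.Lib.Pe70ed2.Major3

set_option autoImplicit false

namespace Pool.Agent.Lib.Pe70ed2

open Finset ArithmeticFunction

lemma phi_data (k : ℕ) (h : Polynomial ℤ) (hdeg : h.natDegree = k + 1) (θ : ℝ) :
    (Polynomial.C θ * hR h).natDegree ≤ k + 1 ∧
    (Polynomial.C θ * hR h).coeff (k + 1) = θ * h.leadingCoeff := by
  constructor
  · refine (Polynomial.natDegree_C_mul_le _ _).trans ?_
    unfold hR
    exact (Polynomial.natDegree_map_le).trans hdeg.le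
  · rw [Polynomial.coeff_C_mul]
    unfold hR
    rw [Polynomial.coeff_map, Polynomial.leadingCoeff, hdeg]
    simp

/-- Total estimate on the minor arcs. -/
theorem minor_total (k C : ℕ) (hC : BilinProp k C) (hW : WeylProp k C) (C0 : ℝ) (hC0 : 0 < C0)
    (hS : SieveProp C0) (h : Polynomial ℤ) (hdeg : h.natDegree = k + 1) (θ K : ℝ) (hK : 2 ≤ K)
    (z : ℝ) (hz : 2 ≤ z) (X y H l j0 j1 m0 u β D : ℕ) (hm0 : 0 < m0) (hu : u.Coprime m0) (hy : 1 ≤ y)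
    (hX : y + H ≤ X) (hX2 : 2 ≤ X) (hl : l ≤ j0) (hj : j0 ≤ j1) (hj1X : 2 ^ j1 ≤ X)
    (hz0 : ((2 ^ j0 : ℕ) : ℝ) ≤ z) (hz1 : (X : ℝ) < z * 2 ^ j1)
    (h1 : K ^ C ≤ 2 ^ (j0 - l)) (h2 : 2 * X ≤ H * 2 ^ l) (h3 : 4 * 2 ^ j1 * K ^ C ≤ H)
    (h4 : 2 * K ^ C * (m0 * 2 ^ j0) ≤ H) (h5 : D < 2 ^ j1) (hD : z ^ (4 * β + 6) ≤ D)
    (hminor : ∀ r : ℕ, 1 ≤ r → (r : ℝ) ≤ K ^ C →
      ¬ Near (r * (θ * h.leadingCoeff)) (K ^ C / ((H : ℝ) / (8 * 2 ^ l)) ^ (k + 1)))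
    (hminor2 : ∀ r : ℕ, 1 ≤ r → (r : ℝ) ≤ K ^ C * (m0 * 2 ^ j0) ^ (k + 1) →
      ¬ Near (r * (θ * h.leadingCoeff)) (K ^ C / ((H : ℝ) / (2 * (m0 * 2 ^ j0))) ^ (k + 1)))
    (R : Finset ℕ) (hRm : ∀ x, x ∈ R ↔ x ∈ Finset.Ioc y (y + H) ∧ x ≡ u [MOD m0] ∧ rough z m0 x) :
    ‖∑ n ∈ R, (Λ n : ℂ) * Fθ h θ n‖ ≤
      ((Real.log X * ((2 * H / K * j0 +
          m0 ^ 2 * (1 / K * (H * j1 + 2 ^ j1) + (2 * X * j1 / 2 ^ l + 2 * 2 ^ j1))) +
        (C0 * H / (4 ^ β * Real.log z) + D * (Real.log z + 2))) + (H : ℝ) * (H / y)) +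
      Real.log X * ((m0 : ℝ) ^ 2 * (1 / K * (H * j1 + 2 ^ j1) + (2 * X * j1 / 2 ^ l + 2 * 2 ^ j1)))) := by
  classical
  obtain ⟨hφ1, hφ2⟩ := phi_data k h hdeg θ
  rw [← hφ2] at hminor hminor2
  set φ := Polynomial.C θ * hR h with hφ
  have hX1 : (1 : ℝ) < X := by
    have : (2 : ℝ) ≤ X := by exact_mod_cast hX2
    linarith
  have hL : 0 < Real.log X := Real.log_pos hX1
  have hlogz : 0 < Real.log z := Real.log_pos (by linarith)
  have hRsub : R ⊆ Finset.Ioc y (y + H) := fun x hx => ((hRm x).1 hx).1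
  have hF1 : ∀ n, ‖Fθ h θ n‖ ≤ 1 := fun n => (norm_e _).le
  have hm0R : (0 : ℝ) < m0 := by exact_mod_cast hm0
  have hφ0 : (1 : ℝ) ≤ (m0.totient : ℝ) := by exact_mod_cast Nat.totient_pos.2 hm0
  refine (main_identity z m0 u X y H j0 j1 hm0 hu hX hX2 hz0 hz1 (Fθ h θ) R hRm _ ?_).trans
      (add_le_add_left ?_ _)
  · intro v v' _
    set a' : ℕ → ℂ := fun d => if d ≤ X then acoef z (Real.log X) m0 v d else 0 with ha'
    have ha'1 : ∀ d, ‖a' d‖ ≤ 1 := by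
      intro d
      simp only [ha']
      split_ifs with hd
      · exact norm_acoef z X m0 v d hX2 hd
      · simp
    have hrepl : ∑ d ∈ Finset.Ico (2 ^ j0 : ℕ) (2 ^ j1), ∑ m ∈ Finset.Ioc (y / d) ((y + H) / d),
          acoef z (Real.log X) m0 v d * bcoef z m0 v' m * Fθ h θ (d * m) =
        ∑ d ∈ Finset.Ico (2 ^ j0 : ℕ) (2 ^ j1), ∑ m ∈ Finset.Ioc (y / d) ((y + H) / d),
          a' d * bcoef z m0 v' m * e (φ.eval ((d * m : ℕ) : ℝ)) := by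
      apply Finset.sum_congr rfl
      intro d hd
      rw [Finset.mem_Ico] at hd
      simp only [ha']
      rw [if_pos (by omega)]
      rfl
    rw [hrepl]
    exact minor_bilin k C hC K hK X y H l j0 j1 φ hφ1 hX hl hj h1 h2 h3 hminor a' (bcoef z m0 v') ha'1
      (norm_bcoef z m0 v')
  · refine (log_sum X y H hy hX (Fθ h θ) hF1 R hRsub).trans (add_le_add_left ?_ _)
    apply mul_le_mul_of_nonneg_left _ hL.le
    obtain ⟨lam, Lam, Xi, hl1, hl2, l0, l1, l2, hfin⟩ := hS z hz m0 hm0 β D hD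
    have hfin2 := (hfin y H u _ rfl R (by
      intro x
      rw [hRm, Finset.mem_filter]
      tauto)).2 (Fθ h θ) hF1
    refine hfin2.trans (add_le_add ?_ ?_)
    · exact minor_typeI k C hC hW K hK X y H l j0 j1 m0 u D φ hφ1 hm0 hX hl hj h1 h2 h3 h4 h5 hminor
        hminor2 lam hl2 hl1 _ rfl
    · apply add_le_add_left
      have hH0 : (0 : ℝ) ≤ H := Nat.cast_nonneg H
      calc (H : ℝ) / m0 * Xi ≤ (H : ℝ) / m0 * (C0 / 4 ^ β * ((m0 : ℝ) / (m0.totient : ℝ) / Real.log z)) :=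
            mul_le_mul_of_nonneg_left l2 (by positivity)
        _ = C0 * H / (4 ^ β * Real.log z) / m0.totient := by field_simp
        _ ≤ C0 * H / (4 ^ β * Real.log z) := div_le_self (by positivity) hφ0

/-- The function controlling the major arcs. -/
noncomputable def Psi (C m0 : ℕ) (c : ℝ) (q : ℕ) : ℝ :=
  (((q * m0 : ℕ) : ℝ) / ((q * m0).totient : ℝ)) ^ 2 / ((q : ℝ) / (2 * c)) ^ ((1 : ℝ) / C)

lemma Psi_tendsto (C m0 : ℕ) (c : ℝ) (hC : 1 ≤ C) (hm0 : 0 < m0) (hc : 1 ≤ c) :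
    Filter.Tendsto (Psi C m0 c) Filter.atTop (nhds 0) := by
  set P0 : ℕ := 4 * C + 3 with hP0
  have hm0R : (0 : ℝ) < m0 := by exact_mod_cast hm0
  have hCR : (1 : ℝ) ≤ C := by exact_mod_cast hC
  have hbound : ∀ q : ℕ, 1 ≤ q → Psi C m0 c q ≤
      (P0 : ℝ) ^ 2 * (m0 : ℝ) ^ ((1 : ℝ) / (2 * C)) * (2 * c) ^ ((1 : ℝ) / C) *
        ((q : ℝ) ^ (-((1 : ℝ) / (2 * C)))) := by
    intro q hq
    have hqR : (1 : ℝ) ≤ q := by exact_mod_cast hq
    have hq0 : (0 : ℝ) < q := by linarith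
    have hN1 : 1 ≤ q * m0 := Nat.mul_pos hq hm0
    have h1 := totient_bound P0 (q * m0) (by omega) hN1
    have hNR : (1 : ℝ) ≤ ((q * m0 : ℕ) : ℝ) := by exact_mod_cast hN1
    unfold Psi
    have h2 : (((q * m0 : ℕ) : ℝ) / ((q * m0).totient : ℝ)) ^ 2 ≤
        (P0 : ℝ) ^ 2 * ((q * m0 : ℕ) : ℝ) ^ ((1 : ℝ) / (2 * C)) := by
      calc _ ≤ ((P0 : ℝ) * ((q * m0 : ℕ) : ℝ) ^ ((1 : ℝ) / P0)) ^ 2 :=
            pow_le_pow_left₀ (by positivity) h1 2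
        _ = (P0 : ℝ) ^ 2 * ((q * m0 : ℕ) : ℝ) ^ ((1 : ℝ) / P0 * 2) := by
            rw [mul_pow, ← Real.rpow_natCast, ← Real.rpow_natCast (((q * m0 : ℕ) : ℝ) ^ ((1 : ℝ) / P0)),
              ← Real.rpow_mul (by positivity)]
            norm_num
        _ ≤ _ := by
            apply mul_le_mul_of_nonneg_left _ (by positivity)
            apply Real.rpow_le_rpow_of_exponent_le hNR
            rw [hP0]
            push_cast
            rw [div_mul_eq_mul_div, one_mul, div_le_div_iff₀ (by positivity) (by positivity)]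
            nlinarith
    have h3 : (0 : ℝ) < ((q : ℝ) / (2 * c)) ^ ((1 : ℝ) / C) := by positivity
    rw [div_le_iff₀ h3]
    refine h2.trans (le_of_eq ?_)
    rw [Real.div_rpow (by positivity) (by positivity)]
    push_cast
    rw [Real.mul_rpow (by positivity) (by positivity)]
    have e1 : (q : ℝ) ^ ((1 : ℝ) / (2 * C)) = (q : ℝ) ^ (-((1 : ℝ) / (2 * C))) * (q : ℝ) ^ ((1 : ℝ) / C) := by
      rw [← Real.rpow_add hq0]
      congr 1
      field_simp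
      ring
    rw [e1]
    have h4 : ((2 * c) ^ ((1 : ℝ) / C) : ℝ) ≠ 0 := by positivity
    field_simp
  have hlim : Filter.Tendsto (fun q : ℕ => (P0 : ℝ) ^ 2 * (m0 : ℝ) ^ ((1 : ℝ) / (2 * C)) * (2 * c) ^ ((1 : ℝ) / C) *
        ((q : ℝ) ^ (-((1 : ℝ) / (2 * C))))) Filter.atTop (nhds 0) := by
    have h1 : Filter.Tendsto (fun x : ℝ => x ^ (-((1 : ℝ) / (2 * C)))) Filter.atTop (nhds 0) :=
      tendsto_rpow_neg_atTop (by positivity)
    have h2 := (h1.comp tendsto_natCast_atTop_atTop).const_mul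
      ((P0 : ℝ) ^ 2 * (m0 : ℝ) ^ ((1 : ℝ) / (2 * C)) * (2 * c) ^ ((1 : ℝ) / C))
    rw [mul_zero] at h2
    exact h2
  refine squeeze_zero' ?_ ?_ hlim
  · filter_upwards with q
    unfold Psi
    positivity
  · filter_upwards [Filter.eventually_ge_atTop 1] with q hq
    exact hbound q hq

/-- Residue bound with the function `Psi`. -/
lemma res_E (k C : ℕ) (hC1 : 1 ≤ C) (hC : BilinProp k C) (h : Polynomial ℤ) (hdeg : h.natDegree = k + 1)
    (a : ℤ) (q m0 : ℕ) (hq : 0 < q) (hm0 : 0 < m0) (hcop : IsCoprime a (q : ℤ))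
    (hqbig : 2 ^ C * (2 * |(h.leadingCoeff : ℝ)|) ≤ q) (α β : ℕ → ℂ) (hα : ∀ n, ‖α n‖ ≤ 1)
    (hβ : ∀ n, ‖β n‖ ≤ 1) :
    ‖∑ r ∈ range (q * m0), ∑ t ∈ range (q * m0), α r * β t * Gq h a q (r * t)‖ ≤
      ((q * m0).totient : ℝ) ^ 2 * Psi C m0 |(h.leadingCoeff : ℝ)| q := by
  have hh0 : h ≠ 0 := by
    rintro rfl
    simp at hdeg
  have hc : h.leadingCoeff ≠ 0 := Polynomial.leadingCoeff_ne_zero.2 hh0
  have hc1 : (1 : ℝ) ≤ |(h.leadingCoeff : ℝ)| := by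
    have : 1 ≤ |h.leadingCoeff| := Int.one_le_abs hc
    exact_mod_cast this
  set c := |(h.leadingCoeff : ℝ)| with hcdef
  have hq0 : (0 : ℝ) < q := by exact_mod_cast hq
  have hCR : (0 : ℝ) < C := by exact_mod_cast hC1
  set K : ℝ := ((q : ℝ) / (2 * c)) ^ ((1 : ℝ) / C) with hK
  have hKC : K ^ C = (q : ℝ) / (2 * c) := by
    rw [hK, ← Real.rpow_natCast, ← Real.rpow_mul (by positivity), one_div, inv_mul_cancel₀ hCR.ne',
      Real.rpow_one]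
  have hK2 : 2 ≤ K := by
    have h1 : (2 : ℝ) = ((2 : ℝ) ^ C) ^ ((1 : ℝ) / C) := by
      rw [← Real.rpow_natCast, ← Real.rpow_mul (by norm_num), one_div, mul_inv_cancel₀ hCR.ne', Real.rpow_one]
    rw [h1, hK]
    apply Real.rpow_le_rpow (by positivity) _ (by positivity)
    rw [le_div_iff₀ (by positivity)]
    exact hqbig
  have hN : q ≤ q * m0 := Nat.le_mul_of_pos_right q hm0
  have h1 := res_bilin k C hC h hdeg a q (q * m0) hq hN hcop K hK2 (by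
    rw [hKC]
    rw [div_mul_eq_mul_div, div_lt_iff₀ (by positivity)]
    have : (0 : ℝ) < q * c := by positivity
    linarith) α β hα hβ
  refine h1.trans (le_of_eq ?_)
  unfold Psi
  have hφ : (0 : ℝ) < ((q * m0).totient : ℝ) := by
    exact_mod_cast Nat.totient_pos.2 (Nat.mul_pos hq hm0)
  rw [← hK]
  field_simp

end Pool.Agent.Lib.Pe70ed2
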