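import Pool.Agent.Lib.Pe70ed2.Rec

set_option autoImplicit false

namespace Pool.Agent.Lib.Pe70ed2

open Finset ComplexConjugate

lemma combine (K R : ℝ) (hK : 2 ≤ K) (hR : 1 ≤ R) (β ε' : ℝ) (hε0 : 0 ≤ ε') (L c : ℕ) (hc : 1 ≤ c)
    (H : Finset ℤ) (hH : H ⊆ Finset.Ioo (-(L : ℤ)) L) (hcard : (L : ℝ) / K ≤ H.card)
    (h : ∀ d ∈ H, ∃ r : ℕ, 1 ≤ r ∧ (r : ℝ) ≤ R ∧ Near (r * (c * d * β)) ε')
    (hε : ε' ≤ 1 / (48 * (K * R))) (hL : 6 * (K * R) ≤ L) :
    ∃ r : ℕ, 1 ≤ r ∧ (r : ℝ) ≤ 6 * (K * R) * R * c ∧ Near (r * β) (4 * (K * R) * ε' / L) := by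
  choose! r hr1 hr2 hr3 using h
  obtain ⟨r0, hr01, hr02, hr0card⟩ := pigeon H r R hR (fun h hh => ⟨hr1 h hh, hr2 h hh⟩)
  have hKR : 2 ≤ K * R := by nlinarith
  obtain ⟨r', hr'1, hr'2, hr'3⟩ := lin_rec (K * R) hKR (r0 * c * β) ε' hε0 hε L hL
    (H.filter (fun h => r h = r0)) ((Finset.filter_subset _ _).trans hH) (by
      refine le_trans ?_ hr0card
      rw [← div_div]
      exact div_le_div_of_nonneg_right hcard (by linarith)) (by
      intro d hd
      rw [Finset.mem_filter] at hd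
      have h1 := hr3 d hd.1
      rw [hd.2] at h1
      have h2 : (d : ℝ) * (r0 * c * β) = r0 * (c * d * β) := by ring
      rw [h2]; exact h1)
  refine ⟨r' * r0 * c, ?_, ?_, ?_⟩
  · have : 0 < r' * r0 * c := by positivity
    omega
  · push_cast
    gcongr
  · have h1 : ((r' * r0 * c : ℕ) : ℝ) * β = r' * (r0 * c * β) := by push_cast; ring
    rw [h1]
    exact hr'3

lemma norm_e_sub_one (α : ℝ) (n : ℤ) (hn : |α - n| ≤ 1 / 2) : 4 * |α - n| ≤ ‖e α - 1‖ := by
  have h1 : e α = e (α - n) := by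
    have : α = (α - n) + n := by ring
    conv_lhs => rw [this]
    rw [e_add, e_int, mul_one]
  rw [h1]
  have h2 : e (α - n) = Complex.exp (Complex.I * ((2 * Real.pi * (α - n) : ℝ) : ℂ)) := by
    unfold e
    congr 1
    push_cast; ring
  rw [h2, Complex.norm_exp_I_mul_ofReal_sub_one]
  rw [norm_mul, Real.norm_ofNat, Real.norm_eq_abs]
  have h3 : 2 * Real.pi * (α - n) / 2 = Real.pi * (α - n) := by ring
  rw [h3]
  have h4 : |Real.pi * (α - n)| ≤ Real.pi / 2 := by
    rw [abs_mul, abs_of_pos Real.pi_pos]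
    nlinarith [Real.pi_pos]
  have h5 := Real.mul_abs_le_abs_sin h4
  rw [abs_mul Real.pi, abs_of_pos Real.pi_pos] at h5
  have h6 : 2 / Real.pi * (Real.pi * |α - n|) = 2 * |α - n| := by
    field_simp
  rw [h6] at h5
  linarith

/-- Geometric sums. -/
lemma geom_near (α β : ℝ) (A : ℤ) (L : ℕ) (T : ℝ) (hT : 0 < T)
    (h : T ≤ ‖∑ n ∈ Finset.Ico A (A + L), e (α * n + β)‖) : Near α (1 / (2 * T)) := by
  have htel : (e α - 1) * ∑ n ∈ Finset.Ico A (A + L), e (α * n + β) =
      e (α * (A + L) + β) - e (α * A + β) := by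
    clear h
    induction L with
    | zero => simp
    | succ L ih =>
      have h1 : Finset.Ico A (A + (L + 1 : ℕ)) = insert (A + L) (Finset.Ico A (A + L)) := by
        ext x; simp only [Finset.mem_Ico, Finset.mem_insert]; push_cast; omega
      rw [h1, Finset.sum_insert (by simp), mul_add, ih]
      have h2 : e (α * (A + (L + 1 : ℕ)) + β) = e α * e (α * (A + L) + β) := by
        rw [← e_add]; congr 1; push_cast; ring
      rw [h2]
      push_cast
      ring
  have h1 : ‖e α - 1‖ * T ≤ 2 := by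
    calc ‖e α - 1‖ * T ≤ ‖e α - 1‖ * ‖∑ n ∈ Finset.Ico A (A + L), e (α * n + β)‖ :=
          mul_le_mul_of_nonneg_left h (norm_nonneg _)
      _ = ‖e (α * (A + L) + β) - e (α * A + β)‖ := by rw [← norm_mul, htel]
      _ ≤ 1 + 1 := by
          refine (norm_sub_le _ _).trans ?_
          rw [norm_e, norm_e]
      _ = 2 := by norm_num
  refine ⟨round α, ?_⟩
  have h2 := norm_e_sub_one α (round α) (abs_sub_round α)
  rw [le_div_iff₀ (by positivity)]
  nlinarith

/-- The van der Corput expansion of a square. -/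
lemma sq_norm_sum_le (f : ℤ → ℂ) (A : ℤ) (L : ℕ) :
    ‖∑ n ∈ Finset.Ico A (A + L), f n‖ ^ 2 ≤
      ∑ h ∈ Finset.Ioo (-(L : ℤ)) L, ‖∑ n ∈ Finset.Ico (A + max 0 (-h)) (A + max 0 (-h) + ((L - h.natAbs : ℕ) : ℤ)),
        f (n + h) * conj (f n)‖ := by
  set I := Finset.Ico A (A + L) with hI
  have h1 : ((‖∑ n ∈ I, f n‖ ^ 2 : ℝ) : ℂ) = ∑ x ∈ I ×ˢ I, f x.2 * conj (f x.1) := by
    rw [← Complex.normSq_eq_norm_sq, ← Complex.mul_conj, map_sum, Finset.sum_mul_sum]
    rw [Finset.sum_comm, Finset.sum_product]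
  have hmaps : ∀ x ∈ I ×ˢ I, x.2 - x.1 ∈ Finset.Ioo (-(L : ℤ)) L := by
    rintro ⟨n, n'⟩ hx
    rw [Finset.mem_product] at hx
    simp only [hI, Finset.mem_Ico] at hx
    rw [Finset.mem_Ioo]
    constructor <;> simp only <;> linarith
  rw [← Finset.sum_fiberwise_of_maps_to hmaps] at h1
  have h2 : ∀ h ∈ Finset.Ioo (-(L : ℤ)) L,
      ∑ x ∈ (I ×ˢ I).filter (fun x => x.2 - x.1 = h), f x.2 * conj (f x.1) =
      ∑ n ∈ Finset.Ico (A + max 0 (-h)) (A + max 0 (-h) + ((L - h.natAbs : ℕ) : ℤ)), f (n + h) * conj (f n) := by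
    intro h hh
    rw [Finset.mem_Ioo] at hh
    refine Finset.sum_nbij' (fun x => x.1) (fun n => (n, n + h)) ?_ ?_ ?_ ?_ ?_
    · rintro ⟨n, n'⟩ hx
      simp only [Finset.mem_filter, Finset.mem_product, hI, Finset.mem_Ico] at hx
      simp only [Finset.mem_Ico]
      omega
    · intro n hn
      simp only [Finset.mem_Ico] at hn
      simp only [Finset.mem_filter, Finset.mem_product, hI, Finset.mem_Ico]
      omega
    · rintro ⟨n, n'⟩ hx
      simp only [Finset.mem_filter] at hx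
      simp only [Prod.mk.injEq, true_and]
      linarith [hx.2]
    · intro n _; rfl
    · rintro ⟨n, n'⟩ hx
      simp only [Finset.mem_filter] at hx
      have : n' = n + h := by linarith [hx.2]
      simp only [this]
  rw [Finset.sum_congr rfl h2] at h1
  have h3 : ‖∑ n ∈ I, f n‖ ^ 2 = ‖((‖∑ n ∈ I, f n‖ ^ 2 : ℝ) : ℂ)‖ := by
    rw [Complex.norm_real, Real.norm_of_nonneg (by positivity)]
  rw [h3, h1]
  exact norm_sum_le _ _

/-- **Weyl's inequality, inverse form.** -/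
theorem weyl_inv (k : ℕ) : ∃ C : ℕ, ∀ K : ℝ, 2 ≤ K → ∀ (L : ℕ) (A : ℤ) (φ : Polynomial ℝ),
    φ.natDegree ≤ k + 1 → K ^ C ≤ L →
    (L : ℝ) / K ≤ ‖∑ n ∈ Finset.Ico A (A + L), e (φ.eval (n : ℝ))‖ →
    ∃ r : ℕ, 1 ≤ r ∧ (r : ℝ) ≤ K ^ C ∧ Near (r * φ.coeff (k + 1)) (K ^ C / L ^ (k + 1)) := by
  induction k with
  | zero =>
    refine ⟨1, ?_⟩
    intro K hK L A φ hφ hL h
    have hL0 : (0 : ℝ) < L := by
      have : K ≤ L := by simpa using hL
      linarith
    have hK0 : 0 < K := by linarith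
    refine ⟨1, le_rfl, by rw [pow_one]; push_cast; linarith, ?_⟩
    have h1 : ∀ n : ℤ, φ.eval (n : ℝ) = φ.coeff 1 * n + φ.coeff 0 := by
      intro n
      conv_lhs => rw [Polynomial.eq_X_add_C_of_natDegree_le_one hφ]
      simp
    simp_rw [h1] at h
    have h2 := geom_near _ _ A L (L / K) (by positivity) h
    rw [Nat.cast_one, one_mul, zero_add]
    refine h2.mono ?_
    rw [pow_one, pow_one, div_le_div_iff₀ (by positivity) hL0]
    have : K * (2 * (L / K)) = 2 * L := by field_simp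
    rw [this]; linarith
  | succ k ih =>
    obtain ⟨C, hC⟩ := ih
    refine ⟨7 + (k + 1) + 4 * (2 * C + k + 2), ?_⟩
    intro K hK L A φ hφ hL h
    set β := φ.coeff (k + 1 + 1) with hβ
    have hK0 : 0 < K := by linarith
    have hK1 : 1 ≤ K := by linarith
    set K1 : ℝ := 4 * K ^ 2 with hK1def
    have hK1ge : 2 ≤ K1 := by rw [hK1def]; nlinarith
    have hK1one : 1 ≤ K1 := by linarith
    have hK1K : K1 ≤ K ^ 4 := by
      have h4 : (4 : ℝ) ≤ K ^ 2 := by nlinarith
      rw [hK1def]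
      calc 4 * K ^ 2 ≤ K ^ 2 * K ^ 2 := mul_le_mul_of_nonneg_right h4 (by positivity)
        _ = K ^ 4 := by ring
    set M : ℝ := 96 * (k + 2) * K1 ^ (2 * C + k + 2) with hMdef
    have hM : M ≤ K ^ (7 + (k + 1) + 4 * (2 * C + k + 2)) := by
      have h96 : (96 : ℝ) ≤ K ^ 7 := by
        calc (96 : ℝ) ≤ 2 ^ 7 := by norm_num
          _ ≤ K ^ 7 := pow_le_pow_left₀ (by norm_num) hK 7
      have hk : ((k : ℝ) + 2) ≤ K ^ (k + 1) := by
        have h1 : k + 1 + 1 ≤ 2 ^ (k + 1) := Nat.lt_two_pow_self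
        calc ((k : ℝ) + 2) = ((k + 1 + 1 : ℕ) : ℝ) := by push_cast; ring
          _ ≤ 2 ^ (k + 1) := by exact_mod_cast h1
          _ ≤ K ^ (k + 1) := pow_le_pow_left₀ (by norm_num) hK _
      have hp : K1 ^ (2 * C + k + 2) ≤ K ^ (4 * (2 * C + k + 2)) := by
        rw [pow_mul]
        exact pow_le_pow_left₀ (by linarith) hK1K _
      rw [pow_add K (7 + (k + 1)), pow_add K 7 (k + 1)]
      exact mul_le_mul (mul_le_mul h96 hk (by positivity) (by positivity)) hp (by positivity)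
        (by positivity)
    have hML : M ≤ L := hM.trans hL
    have hC1 : (1 : ℝ) ≤ K1 ^ C := one_le_pow₀ hK1one
    have hpowM : ∀ j, j ≤ 2 * C + k + 2 → ∀ c : ℝ, c ≤ 96 * (k + 2) → c * K1 ^ j ≤ M := by
      intro j hj c hc
      have h1 : K1 ^ j ≤ K1 ^ (2 * C + k + 2) := pow_le_pow_right₀ hK1one hj
      have h2 : (0 : ℝ) ≤ K1 ^ j := by positivity
      calc c * K1 ^ j ≤ 96 * (k + 2) * K1 ^ j := mul_le_mul_of_nonneg_right hc h2
        _ ≤ M := mul_le_mul_of_nonneg_left h1 (by positivity)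
    have hk0 : (0 : ℝ) ≤ k := Nat.cast_nonneg k
    have hM96 : 96 ≤ M := by
      have := hpowM 0 (by omega) 96 (by linarith)
      simpa using this
    have hL0 : (0 : ℝ) < L := by linarith
    have hL1' : (1 : ℝ) ≤ L := by linarith
    set U : Finset ℤ := Finset.Ioo (-(L : ℤ)) L with hU
    set Ah : ℤ → ℤ := fun d => A + max 0 (-d) with hAh
    set Lh : ℤ → ℕ := fun d => L - d.natAbs with hLh
    set F : ℤ → ℂ := fun n => e (φ.eval (n : ℝ)) with hF
    set g : ℤ → ℝ := fun d => ‖∑ n ∈ Finset.Ico (Ah d) (Ah d + (Lh d : ℤ)), F (n + d) * conj (F n)‖ with hg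
    have hsq : ‖∑ n ∈ Finset.Ico A (A + L), F n‖ ^ 2 ≤ ∑ d ∈ U, g d := sq_norm_sum_le F A L
    have hgLh : ∀ d, g d ≤ Lh d := by
      intro d
      refine (norm_sum_le _ _).trans ?_
      have : ∀ n ∈ Finset.Ico (Ah d) (Ah d + (Lh d : ℤ)), ‖F (n + d) * conj (F n)‖ ≤ 1 := by
        intro n _
        rw [norm_mul, RCLike.norm_conj, hF]
        simp only [norm_e]
        norm_num
      refine (Finset.sum_le_card_nsmul _ _ _ this).trans ?_
      rw [Int.card_Ico, nsmul_eq_mul, mul_one]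
      simp
    have hgL : ∀ d, g d ≤ L := by
      intro d
      refine (hgLh d).trans ?_
      exact_mod_cast Nat.sub_le _ _
    have hUcard : (U.card : ℝ) ≤ 2 * L := by
      rw [hU, Int.card_Ioo]
      have h1 : ((L : ℤ) - -(L : ℤ) - 1).toNat ≤ 2 * L := by omega
      exact_mod_cast h1
    set H0 := U.filter (fun d => (L : ℝ) / K1 ≤ g d) with hH0
    have hpop := sum_le_popular U g L (L / K1) (by positivity) (fun d _ => hgL d)
    have hH0card : (L : ℝ) / (2 * K ^ 2) ≤ H0.card := by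
      have h1 : ((L : ℝ) / K) ^ 2 ≤ ‖∑ n ∈ Finset.Ico A (A + L), F n‖ ^ 2 :=
        pow_le_pow_left₀ (by positivity) h 2
      have h2 : (L : ℝ) / K1 * U.card ≤ L / K1 * (2 * L) := mul_le_mul_of_nonneg_left hUcard (by positivity)
      have h3 : ((L : ℝ) / K) ^ 2 ≤ L / K1 * (2 * L) + L * H0.card :=
        h1.trans (hsq.trans (hpop.trans (add_le_add_left h2 _)))
      have h4 : ((L : ℝ) / K) ^ 2 - L / K1 * (2 * L) = L * (L / (2 * K ^ 2)) := by
        rw [hK1def]; field_simp; ring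
      have h5 : L * (L / (2 * K ^ 2)) ≤ L * (H0.card : ℝ) := by linarith
      exact le_of_mul_le_mul_left h5 hL0
    set ε' : ℝ := K1 ^ (C + k + 1) / L ^ (k + 1) with hε'
    have hstep : ∀ d ∈ H0, ∃ r : ℕ, 1 ≤ r ∧ (r : ℝ) ≤ K1 ^ C ∧ Near (r * (((k + 2 : ℕ) : ℝ) * d * β)) ε' := by
      intro d hd
      obtain ⟨ψ, hψ1, hψ2, hψ3⟩ := diff_poly (k + 1) φ hφ (d : ℝ)
      have hd2 : (L : ℝ) / K1 ≤ g d := (Finset.mem_filter.1 hd).2
      have hLhL : (L : ℝ) / K1 ≤ Lh d := hd2.trans (hgLh d)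
      have hLhL' : (Lh d : ℝ) ≤ L := by exact_mod_cast Nat.sub_le _ _
      have hLK : K1 ^ (C + 1) ≤ L := by
        have := hpowM (C + 1) (by omega) 1 (by linarith)
        rw [one_mul] at this
        exact this.trans hML
      have h1 : K1 ^ C ≤ Lh d := by
        refine le_trans ?_ hLhL
        rw [le_div_iff₀ (by positivity), ← pow_succ]
        exact hLK
      have hLh0 : (0 : ℝ) < Lh d := by linarith
      obtain ⟨r, hr1, hr2, hr3⟩ := hC K1 hK1ge (Lh d) (Ah d) ψ hψ1 h1 (by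
        refine (div_le_div_of_nonneg_right hLhL' (by positivity)).trans (hd2.trans_eq ?_)
        rw [hg]
        simp only
        congr 1
        apply Finset.sum_congr rfl
        intro n _
        rw [hF, ← e_sub, hψ3]
        push_cast; rfl)
      refine ⟨r, hr1, hr2, ?_⟩
      rw [hψ2] at hr3
      have h2 : (r : ℝ) * (((k + 2 : ℕ) : ℝ) * d * β) = r * ((((k + 1 : ℕ) : ℝ) + 1) * d * φ.coeff (k + 1 + 1)) := by
        rw [hβ]; push_cast; ring
      rw [h2]
      refine hr3.mono ?_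
      rw [hε', div_le_div_iff₀ (by positivity) (by positivity)]
      have h3 : (L : ℝ) ^ (k + 1) ≤ (K1 * Lh d) ^ (k + 1) := by
        apply pow_le_pow_left₀ hL0.le
        rwa [div_le_iff₀ (by positivity), mul_comm] at hLhL
      calc K1 ^ C * (L : ℝ) ^ (k + 1) ≤ K1 ^ C * (K1 * Lh d) ^ (k + 1) :=
            mul_le_mul_of_nonneg_left h3 (by positivity)
        _ = K1 ^ (C + k + 1) * (Lh d : ℝ) ^ (k + 1) := by
            rw [mul_pow K1, ← mul_assoc, ← pow_add]; rfl
    have hLpow : (L : ℝ) ≤ L ^ (k + 1) := by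
      calc (L : ℝ) = L ^ 1 := (pow_one _).symm
        _ ≤ L ^ (k + 1) := pow_le_pow_right₀ hL1' (by omega)
    have hε'0 : 0 ≤ ε' := by positivity
    have h2K : (2 : ℝ) * K ^ 2 ≤ K1 := by
      rw [hK1def]
      have := sq_nonneg K
      linarith
    obtain ⟨r, hr1, hr2, hr3⟩ := combine (2 * K ^ 2) (K1 ^ C) (by nlinarith) hC1 β ε' hε'0 L (k + 2)
      (by omega) H0 (Finset.filter_subset _ _) hH0card hstep (by
        rw [hε', div_le_div_iff₀ (by positivity) (by positivity), one_mul]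
        refine le_trans ?_ (hML.trans hLpow)
        have h1 := hpowM (2 * C + k + 2) le_rfl 48 (by linarith)
        refine le_trans ?_ h1
        have h2 : K1 ^ (C + k + 1) * (48 * (2 * K ^ 2 * K1 ^ C)) =
            48 * ((2 * K ^ 2) * (K1 ^ (C + k + 1) * K1 ^ C)) := by ring
        rw [h2]
        apply mul_le_mul_of_nonneg_left _ (by norm_num)
        have h3 : K1 ^ (2 * C + k + 2) = K1 * (K1 ^ (C + k + 1) * K1 ^ C) := by
          rw [← pow_add, ← pow_succ']; congr 1; ring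
        rw [h3]
        exact mul_le_mul_of_nonneg_right h2K (by positivity)) (by
        have h1 := hpowM (C + 1) (by omega) 6 (by linarith)
        refine le_trans ?_ (h1.trans hML)
        apply mul_le_mul_of_nonneg_left _ (by norm_num)
        rw [pow_succ, mul_comm]
        exact mul_le_mul_of_nonneg_left h2K (by positivity))
    refine ⟨r, hr1, ?_, ?_⟩
    · refine hr2.trans (le_trans ?_ hM)
      have h1 := hpowM (2 * C + 1) (by omega) (6 * (k + 2)) (by linarith)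
      refine le_trans ?_ h1
      have h2 : 6 * (2 * K ^ 2 * K1 ^ C) * K1 ^ C * ((k + 2 : ℕ) : ℝ) =
          6 * (k + 2) * ((2 * K ^ 2) * (K1 ^ C * K1 ^ C)) := by push_cast; ring
      have h3 : K1 ^ (2 * C + 1) = K1 * (K1 ^ C * K1 ^ C) := by
        rw [← pow_add, ← pow_succ']; congr 1; ring
      rw [h2, h3]
      apply mul_le_mul_of_nonneg_left _ (by positivity)
      exact mul_le_mul_of_nonneg_right h2K (by positivity)
    · refine hr3.mono ?_
      rw [hε']
      have h1 : 4 * (2 * K ^ 2 * K1 ^ C) * (K1 ^ (C + k + 1) / (L : ℝ) ^ (k + 1)) / L =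
          4 * ((2 * K ^ 2) * (K1 ^ C * K1 ^ (C + k + 1))) / L ^ (k + 1 + 1) := by
        rw [pow_succ (L : ℝ) (k + 1)]; field_simp
      rw [h1]
      apply div_le_div_of_nonneg_right _ (by positivity)
      refine le_trans ?_ hM
      have h2 := hpowM (2 * C + k + 2) le_rfl 4 (by linarith)
      refine le_trans ?_ h2
      have h3 : K1 ^ (2 * C + k + 2) = K1 * (K1 ^ C * K1 ^ (C + k + 1)) := by
        rw [← pow_add, ← pow_succ']; congr 1; ring
      rw [h3]
      apply mul_le_mul_of_nonneg_left _ (by norm_num)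
      exact mul_le_mul_of_nonneg_right h2K (by positivity)

end Pool.Agent.Lib.Pe70ed2
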